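import Mathlib
import Pool.Agent.Lib.MP_8d00da_gt.h42o.ODefs
import Pool.Agent.Lib.MP_8d00da_gt.h25.Chain

/-!
# Log-concave weights with symmetries of small rank: definitions and basic facts
-/

namespace Pool.Agent.Lib.MP_8d00da_gt.h97r

open MeasureTheory Set Filter
open Pool.Agent.Lib.MP_8d00da_gt.h25 Pool.Agent.Lib.MP_8d00da_gt.h42
open Pool.Agent.Lib.MP_8d00da_gt.h42s Pool.Agent.Lib.MP_8d00da_gt.h42o
open scoped Topology NNReal

variable {F : Type*} [NormedAddCommGroup F] [InnerProductSpace ℝ F]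
    [FiniteDimensional ℝ F] [MeasurableSpace F] [BorelSpace F]

/-- Smooth strongly log-concave weights with maximum at `0`. -/
structure GW (δ L : ℝ) (h : F → ℝ) : Prop where
  dpos : 0 < δ
  Lnn : 0 ≤ L
  reg : ∃ W : F → ℝ, (∀ x, h x = Real.exp (-W x)) ∧ Differentiable ℝ W ∧
    ∀ x y, ‖fderiv ℝ W x - fderiv ℝ W y‖ ≤ L * ‖x - y‖
  lc : LogConc h
  smid : ∀ x y, h x * h y * Real.exp (δ * ‖x - y‖ ^ 2 / 4) ≤ h ((1 / 2 : ℝ) • (x + y)) ^ 2
  max0 : ∀ x, h x ≤ h 0

/-- Normalisation: mass one, centred, covariance at most the identity. -/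
structure Iso (h : F → ℝ) : Prop where
  mass : ∫ x, h x = 1
  cen : ∀ θ : F, ∫ x, inner ℝ θ x * h x = 0
  iso : ∀ θ : F, ∫ x, (inner ℝ θ x) ^ 2 * h x ≤ ‖θ‖ ^ 2

/-- Poincare inequality with constant `1 / lam` for bounded Lipschitz functions. -/
def PI (h : F → ℝ) (lam : ℝ) : Prop := ∀ f : F → ℝ, BL f → lam * Vr h f ≤ En h f

/-- `g` is an isometric symmetry of `h` of order dividing `N`. -/
structure Sg (h : F → ℝ) (g : F ≃ₗᵢ[ℝ] F) (N : ℕ) : Prop where
  Npos : 0 < N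
  per : ∀ x, (g ^ N) x = x
  inv : ∀ x, h (g x) = h x

/-- The orthonormal basis `b` is adapted to the symmetry `g`: the vectors `b (inr j)` span the
fixed space and the vectors `b (inl i)` its orthogonal complement. -/
structure Sy (h : F → ℝ) (g : F ≃ₗᵢ[ℝ] F) (N : ℕ) {d e : ℕ}
    (b : OrthonormalBasis (Fin d ⊕ Fin e) ℝ F) : Prop extends Sg h g N where
  dpos : 1 ≤ d
  fix : ∀ j, g (b (Sum.inr j)) = b (Sum.inr j)
  mov : ∀ i, ∑ k ∈ Finset.range N, (g ^ k) (b (Sum.inl i)) = 0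

/-- Bundled symmetries moving at most `k` dimensions. -/
structure SymD (h : F → ℝ) (k : ℕ) where
  g : F ≃ₗᵢ[ℝ] F
  N : ℕ
  d : ℕ
  e : ℕ
  b : OrthonormalBasis (Fin d ⊕ Fin e) ℝ F
  sy : Sy h g N b
  hd : d ≤ k

/-- The average over the powers of `g`. -/
noncomputable def av (g : F ≃ₗᵢ[ℝ] F) (N : ℕ) (f : F → ℝ) (x : F) : ℝ :=
  (1 / (N : ℝ)) * ∑ k ∈ Finset.range N, f ((g ^ k) x)

/-- Functions with zero average over the powers of `g`. -/
def Zav (g : F ≃ₗᵢ[ℝ] F) (N : ℕ) (f : F → ℝ) : Prop :=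
  ∀ x, ∑ k ∈ Finset.range N, f ((g ^ k) x) = 0

/-- Invariance under `g`. -/
def Inv (g : F ≃ₗᵢ[ℝ] F) (f : F → ℝ) : Prop := ∀ x, f (g x) = f x

/-- The regularised norm of the projection to the moving directions. -/
noncomputable def rho {d e : ℕ} (b : OrthonormalBasis (Fin d ⊕ Fin e) ℝ F) (x : F) : ℝ :=
  Real.sqrt (1 + ∑ i : Fin d, (inner ℝ (b (Sum.inl i)) x) ^ 2)

/-- The exponential weight. -/
noncomputable def om {d e : ℕ} (b : OrthonormalBasis (Fin d ⊕ Fin e) ℝ F) (x : F) : ℝ :=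
  Real.exp (-(rho b x / (12 * d)))

/-- The Gaussian factor in the moving directions. -/
noncomputable def ga {d e : ℕ} (b : OrthonormalBasis (Fin d ⊕ Fin e) ℝ F) (η : ℝ) (x : F) : ℝ :=
  Real.exp (-((∑ i : Fin d, (inner ℝ (b (Sum.inl i)) x) ^ 2) / (2 * η)))

/-- Coordinates in an adapted basis. -/
noncomputable def jj {d e : ℕ} (b : OrthonormalBasis (Fin d ⊕ Fin e) ℝ F) (s : Vn d) (t : Vn e) :
    F := ∑ i, s i • b (Sum.inl i) + ∑ j, t j • b (Sum.inr j)

/-- The norm of a finite family of functions. -/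
noncomputable def nq {ι : Type*} [Fintype ι] (q : ι → F → ℝ) (x : F) : ℝ :=
  Real.sqrt (∑ i, q i x ^ 2)

/-- Square norm of a family. -/
noncomputable def Sq {ι : Type*} [Fintype ι] (h : F → ℝ) (q : ι → F → ℝ) : ℝ :=
  ∑ i, ∫ x, q i x ^ 2 * h x

/-- Energy of a family. -/
noncomputable def EN {ι : Type*} [Fintype ι] (h : F → ℝ) (q : ι → F → ℝ) : ℝ := ∑ i, En h (q i)

/-- Weighted square norm of a family. -/
noncomputable def Fq {ι : Type*} [Fintype ι] (h : F → ℝ) {d e : ℕ}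
    (b : OrthonormalBasis (Fin d ⊕ Fin e) ℝ F) (q : ι → F → ℝ) : ℝ :=
  ∑ i, ∫ x, q i x ^ 2 * (om b x * h x)

/-- Defect in the Poincare inequality. -/
noncomputable def QQ (h : F → ℝ) (lam : ℝ) (u : F → ℝ) : ℝ := En h u - lam * Vr h u

/-- Covariance (for weights of mass one). -/
noncomputable def Cv (h f g : F → ℝ) : ℝ :=
  (∫ x, f x * g x * h x) - (∫ x, f x * h x) * ∫ x, g x * h x

/-- The energy form. -/
noncomputable def E2 (h f g : F → ℝ) : ℝ :=
  ∫ x, (∑ i, fderiv ℝ f x (stdOrthonormalBasis ℝ F i) * fderiv ℝ g x (stdOrthonormalBasis ℝ F i)) *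
    h x

/-- Energy in the moving directions, with the exponential weight. -/
noncomputable def Gq (h : F → ℝ) {d e : ℕ} (b : OrthonormalBasis (Fin d ⊕ Fin e) ℝ F)
    (u : F → ℝ) : ℝ :=
  ∑ i : Fin d, ∫ x, (fderiv ℝ u x (b (Sum.inl i))) ^ 2 * (om b x * h x)

/-- Admissible families for the symmetry `g`. -/
structure Adm {ι : Type*} [Fintype ι] (g : F ≃ₗᵢ[ℝ] F) (N : ℕ) (q : ι → F → ℝ) : Prop where
  bl : ∀ i, BL (q i)
  diff : ∀ i, Differentiable ℝ (q i)
  zav : ∀ i, Zav g N (q i)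
  inv : Inv g (nq q)

/-- Smooth bounded functions with bounded Lipschitz derivatives. -/
structure Sm (v : F → ℝ) : Prop where
  bl : BL v
  diff : Differentiable ℝ v
  dbl : ∀ θ, BL fun x => fderiv ℝ v x θ

/-- The linearly invariant Poincare inequality. -/
def QJ (C : ℝ) (h : F → ℝ) : Prop :=
  ∀ f : F → ℝ, BL f → (∫ x, f x ^ 2 * h x) * (∫ x, h x) - (∫ x, f x * h x) ^ 2 ≤
    C * ∫ y, (∫ x, (fderiv ℝ f y x) ^ 2 * h x) * h y

/-- The linear symmetries of `h` of finite order which move at most `k` dimensions have no common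
nonzero fixed vector. -/
def RefL {F : Type*} [AddCommGroup F] [Module ℝ F] (k : ℕ) (h : F → ℝ) : Prop :=
  ∀ v : F, (∀ g : F ≃ₗ[ℝ] F, (∀ x, h (g x) = h x) → (∃ N : ℕ, 0 < N ∧ ∀ x, (g ^ N) x = x) →
    Module.finrank ℝ (LinearMap.range ((g : F →ₗ[ℝ] F) - LinearMap.id)) ≤ k → g v = v) → v = 0

variable {δ L : ℝ} {h : F → ℝ}

lemma GW.pos (H : GW δ L h) (x : F) : 0 < h x := by
  obtain ⟨W, hW, -⟩ := H.reg
  rw [hW]
  exact Real.exp_pos _

lemma GW.cont (H : GW δ L h) : Continuous h := by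
  obtain ⟨W, hW, hd, -⟩ := H.reg
  have : h = fun x => Real.exp (-W x) := funext hW
  rw [this]
  exact Real.continuous_exp.comp hd.continuous.neg

lemma GW.gauss (H : GW δ L h) (x : F) : h x ≤ h 0 * Real.exp (-(δ * ‖x‖ ^ 2 / 4)) := by
  have h1 := H.smid x 0
  rw [add_zero, sub_zero] at h1
  have h2 := H.max0 ((1 / 2 : ℝ) • x)
  have h3 := H.pos ((1 / 2 : ℝ) • x)
  have h0 := H.pos 0
  have h4 : h x * Real.exp (δ * ‖x‖ ^ 2 / 4) * h 0 ≤ h 0 * h 0 := by nlinarith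
  have h5 := le_of_mul_le_mul_right h4 h0
  rw [Real.exp_neg, ← div_eq_mul_inv, le_div_iff₀ (Real.exp_pos _)]
  exact h5

lemma GW.wt (H : GW δ L h) : Wt h (h 0) where
  meas := H.cont.measurable
  nonneg := fun x => (H.pos x).le
  bdd := H.max0
  mid := fun x y => by
    refine le_trans ?_ (H.smid x y)
    have hδ := H.dpos
    have h1 : 1 ≤ Real.exp (δ * ‖x - y‖ ^ 2 / 4) := by
      rw [Real.one_le_exp_iff]
      positivity
    have h2 := mul_nonneg (H.pos x).le (H.pos y).le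
    nlinarith
  ne := by
    intro h0
    have h1 : ∀ᵐ x : F, False := by
      filter_upwards [h0] with x hx
      have := H.pos x
      rw [hx] at this
      exact lt_irrefl _ this
    have h2 : (volume : Measure F) = 0 := by
      simpa using h1
    exact NeZero.ne (volume : Measure F) h2

/-- Integrability of functions of exponential growth. -/
lemma GW.int_exp (H : GW δ L h) {φ : F → ℝ} (hφ : Measurable φ) {C a : ℝ}
    (hC : ∀ x, |φ x| ≤ C * Real.exp (a * ‖x‖)) : Integrable fun x => φ x * h x := by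
  have hδ := H.dpos
  have hη : 0 < 4 / δ := by positivity
  have hC0 : 0 ≤ C := by
    have h1 := (abs_nonneg _).trans (hC 0)
    simpa using h1
  have hker : Integrable fun x : F => (C * h 0 * Real.exp (2 * a ^ 2 / δ)) * h25.ker (4 / δ) x :=
    (ker_integrable hη).const_mul _
  refine hker.mono' (hφ.mul H.cont.measurable).aestronglyMeasurable
    (Eventually.of_forall fun x => ?_)
  rw [Real.norm_eq_abs, abs_mul, abs_of_pos (H.pos x)]
  have h00 := (H.pos 0).le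
  have h3 : h25.ker (4 / δ) x = Real.exp (-(δ * ‖x‖ ^ 2 / 8)) := by
    unfold h25.ker
    congr 2
    field_simp
    ring
  have h4 : a * ‖x‖ + -(δ * ‖x‖ ^ 2 / 4) ≤ 2 * a ^ 2 / δ + -(δ * ‖x‖ ^ 2 / 8) := by
    have h5 : 2 * a ^ 2 / δ + -(δ * ‖x‖ ^ 2 / 8) - (a * ‖x‖ + -(δ * ‖x‖ ^ 2 / 4)) =
        (1 / (8 * δ)) * (δ * ‖x‖ - 4 * a) ^ 2 := by
      field_simp
      ring
    have h6 : 0 ≤ (1 / (8 * δ)) * (δ * ‖x‖ - 4 * a) ^ 2 := by positivity
    linarith
  calc |φ x| * h x ≤ (C * Real.exp (a * ‖x‖)) * (h 0 * Real.exp (-(δ * ‖x‖ ^ 2 / 4))) :=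
        mul_le_mul (hC x) (H.gauss x) (H.pos x).le (by positivity)
    _ = C * h 0 * Real.exp (a * ‖x‖ + -(δ * ‖x‖ ^ 2 / 4)) := by rw [Real.exp_add]; ring
    _ ≤ C * h 0 * Real.exp (2 * a ^ 2 / δ + -(δ * ‖x‖ ^ 2 / 8)) := by gcongr
    _ = (C * h 0 * Real.exp (2 * a ^ 2 / δ)) * h25.ker (4 / δ) x := by
        rw [h3, Real.exp_add]; ring

/-- Integrability of functions of quadratic growth. -/
lemma GW.int_poly (H : GW δ L h) {φ : F → ℝ} (hφ : Measurable φ) {C : ℝ}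
    (hC : ∀ x, |φ x| ≤ C * (1 + ‖x‖ ^ 2)) : Integrable fun x => φ x * h x := by
  have hC0 : 0 ≤ C := by
    have h1 := (abs_nonneg _).trans (hC 0)
    simpa using h1
  refine H.int_exp hφ (C := 2 * C) (a := 1) fun x => (hC x).trans ?_
  have h1 : 0 ≤ ‖x‖ := norm_nonneg x
  have h2 := Real.quadratic_le_exp_of_nonneg h1
  rw [one_mul]
  have h3 : 1 + ‖x‖ ^ 2 ≤ 2 * Real.exp ‖x‖ := by nlinarith
  nlinarith

lemma GW.int (H : GW δ L h) : Integrable h := by
  have h1 := H.int_poly (φ := fun _ => 1) measurable_const (C := 1) (fun x => by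
    rw [abs_one, one_mul]
    have := sq_nonneg ‖x‖
    linarith)
  simpa using h1

lemma GW.mass_pos (H : GW δ L h) : 0 < ∫ x, h x :=
  ker_int_pos.integral_pos_of_pos H.int H.pos

lemma GW.bdd_int (H : GW δ L h) {φ : F → ℝ} (hφ : Measurable φ) {M : ℝ} (hM : ∀ x, |φ x| ≤ M) :
    Integrable fun x => φ x * h x := h25.bdd_int H.int hφ hM

lemma GW.apriori (H : GW δ L h) {q : F → ℝ} (hq : BL q) :
    Vr h q ≤ (1 / δ) * En h q := by
  obtain ⟨⟨K, hK⟩, A, hA⟩ := hq
  have hδ := H.dpos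
  have hmass := H.mass_pos
  have hA0 : 0 ≤ A := (abs_nonneg _).trans (hA 0)
  have hqm : Measurable q := hK.continuous.measurable
  have i1 : Integrable fun x => q x * h x := H.bdd_int hqm hA
  have i2 : Integrable fun x => q x ^ 2 * h x := H.bdd_int (hqm.pow_const 2) (M := A ^ 2)
    (fun x => by
      rw [abs_pow]
      have := hA x
      gcongr)
  have i3 := H.int
  set c : ℝ := (∫ x, q x * h x) / ∫ x, h x with hc
  have h1 := strong_poincare hδ (fun x => (H.pos x).le) H.cont.measurable i3 H.smid hK hA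
    (m := c) (by rw [hc, div_mul_cancel₀ _ hmass.ne'])
  refine le_trans (le_of_eq ?_) h1
  have h2 : ∀ x, (q x - c) ^ 2 * h x = q x ^ 2 * h x - 2 * c * (q x * h x) + c ^ 2 * h x := by
    intro x
    ring
  simp only [h2]
  have i4 : Integrable fun x => q x ^ 2 * h x - 2 * c * (q x * h x) := i2.sub (i1.const_mul _)
  rw [integral_add i4 (i3.const_mul _), integral_sub i2 (i1.const_mul _),
    integral_const_mul, integral_const_mul]
  unfold Vr
  have h3 : (∫ x, q x * h x) = c * ∫ x, h x := by rw [hc, div_mul_cancel₀ _ hmass.ne']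
  rw [h3]
  field_simp
  ring

end Pool.Agent.Lib.MP_8d00da_gt.h97r
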