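import Mathlib
import Pool.Agent.Lib.MP_8d00da_gt.h97r.RDefs

section

/-!
# The covariance form
-/

namespace Pool.Agent.Lib.MP_8d00da_gt.h97r

open MeasureTheory Set Filter
open Pool.Agent.Lib.MP_8d00da_gt.h25 Pool.Agent.Lib.MP_8d00da_gt.h42
open Pool.Agent.Lib.MP_8d00da_gt.h42s Pool.Agent.Lib.MP_8d00da_gt.h42o
open scoped Topology NNReal

variable {F : Type*} [NormedAddCommGroup F] [InnerProductSpace ℝ F]
    [FiniteDimensional ℝ F] [MeasurableSpace F] [BorelSpace F]

variable {δ L : ℝ} {h f g k : F → ℝ}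

private lemma rcv_meas (hf : BL f) : Measurable f := by
  obtain ⟨⟨K, hK⟩, -⟩ := hf
  exact hK.continuous.measurable

private lemma rcv_int (H : GW δ L h) (hf : BL f) : Integrable fun x => f x * h x := by
  obtain ⟨A, hA⟩ := hf.2
  exact H.bdd_int (rcv_meas hf) hA

private lemma rcv_int2 (H : GW δ L h) (hf : BL f) (hg : BL g) :
    Integrable fun x => f x * g x * h x := rcv_int H (hf.mul hg)

/-- Integrability: `GW.bdd_int`. -/
theorem Cv_self (hm : ∫ x, h x = 1) (f : F → ℝ) : Cv h f f = Vr h f := by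
  unfold Cv Vr
  rw [hm, div_one, sq]
  congr 1
  refine integral_congr_ae (Eventually.of_forall fun x => ?_)
  simp only
  ring

theorem Cv_comm (h f g : F → ℝ) : Cv h f g = Cv h g f := by
  unfold Cv
  rw [mul_comm (∫ x, f x * h x)]
  congr 1
  refine integral_congr_ae (Eventually.of_forall fun x => ?_)
  simp only
  ring

theorem Cv_add_smul (H : GW δ L h) (hf : BL f) (hg : BL g) (hk : BL k) (s : ℝ) :
    Cv h f (fun x => g x + s * k x) = Cv h f g + s * Cv h f k := by
  unfold Cv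
  have h1 : (∫ x, f x * (g x + s * k x) * h x) =
      (∫ x, f x * g x * h x) + s * ∫ x, f x * k x * h x := by
    rw [← integral_const_mul, ← integral_add (rcv_int2 H hf hg) ((rcv_int2 H hf hk).const_mul s)]
    refine integral_congr_ae (Eventually.of_forall fun x => ?_)
    simp only
    ring
  have h2 : (∫ x, (g x + s * k x) * h x) = (∫ x, g x * h x) + s * ∫ x, k x * h x := by
    rw [← integral_const_mul, ← integral_add (rcv_int H hg) ((rcv_int H hk).const_mul s)]
    refine integral_congr_ae (Eventually.of_forall fun x => ?_)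
    simp only
    ring
  rw [h1, h2]
  ring

theorem Vr_add_smul (H : GW δ L h) (hm : ∫ x, h x = 1) (hf : BL f) (hg : BL g) (s : ℝ) :
    Vr h (fun x => f x + s * g x) = Vr h f + 2 * s * Cv h f g + s ^ 2 * Vr h g := by
  have hfs : BL (fun x => f x + s * g x) := hf.add ((BL.const s).mul hg)
  rw [← Cv_self hm, ← Cv_self hm f, ← Cv_self hm g, Cv_add_smul H hfs hf hg,
    Cv_comm h (fun x => f x + s * g x) f, Cv_comm h (fun x => f x + s * g x) g,
    Cv_add_smul H hf hf hg, Cv_add_smul H hg hf hg, Cv_comm h g f]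
  ring

/-- `Vr h f = ∫ (f - m)² h` with `m = ∫ f h`. -/
theorem Vr_nonneg (H : GW δ L h) (hm : ∫ x, h x = 1) (hf : BL f) : 0 ≤ Vr h f := by
  have h1 := Vr_add_smul H hm hf (BL.const (F := F) 1) (-(∫ x, f x * h x))
  have h2 : 0 ≤ ∫ x, (f x - ∫ x, f x * h x) ^ 2 * h x :=
    integral_nonneg fun x => mul_nonneg (sq_nonneg _) (H.pos x).le
  have h3 : (∫ x, (f x - ∫ x, f x * h x) ^ 2 * h x) = Vr h f := by
    set m := ∫ x, f x * h x with hmd
    have e1 : ∀ x, (f x - m) ^ 2 * h x = f x * f x * h x + (-2 * m) * (f x * h x) +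
        m ^ 2 * h x := by
      intro x
      ring
    simp only [e1]
    have i1 := rcv_int2 H hf hf
    have i2 := (rcv_int H hf).const_mul (-2 * m)
    have i3 := H.int.const_mul (m ^ 2)
    have i4 : Integrable fun x => f x * f x * h x + (-2 * m) * (f x * h x) := i1.add i2
    rw [integral_add i4 i3, integral_add i1 i2, integral_const_mul, integral_const_mul, hm, ← hmd,
      ← Cv_self hm f]
    unfold Cv
    rw [← hmd]
    ring
  rw [← h3]
  exact h2

theorem Vr_le (hm : ∫ x, h x = 1) (f : F → ℝ) : Vr h f ≤ ∫ x, f x ^ 2 * h x := by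
  unfold Vr
  rw [hm, div_one]
  have := sq_nonneg (∫ x, f x * h x)
  linarith

/-- `0 ≤ Vr h (f + s g)` for all `s`, discriminant. -/
theorem Cv_cs (H : GW δ L h) (hm : ∫ x, h x = 1) (hf : BL f) (hg : BL g) :
    (Cv h f g) ^ 2 ≤ Vr h f * Vr h g := by
  have h1 : ∀ s : ℝ, 0 ≤ Vr h g * (s * s) + 2 * Cv h f g * s + Vr h f := by
    intro s
    have h2 := Vr_nonneg H hm (hf.add ((BL.const s).mul hg))
    rw [Vr_add_smul H hm hf hg s] at h2
    nlinarith
  have h2 := discrim_le_zero h1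
  unfold discrim at h2
  nlinarith

end Pool.Agent.Lib.MP_8d00da_gt.h97r
end

section

/-!
# The energy form and the covariance form
-/

namespace Pool.Agent.Lib.MP_8d00da_gt.h97r

open MeasureTheory Set Filter
open Pool.Agent.Lib.MP_8d00da_gt.h25 Pool.Agent.Lib.MP_8d00da_gt.h42
open Pool.Agent.Lib.MP_8d00da_gt.h42s Pool.Agent.Lib.MP_8d00da_gt.h42o
open scoped Topology NNReal

variable {F : Type*} [NormedAddCommGroup F] [InnerProductSpace ℝ F]
    [FiniteDimensional ℝ F] [MeasurableSpace F] [BorelSpace F]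

variable {δ L : ℝ} {h f g k : F → ℝ}

private lemma RE2_sum {ι : Type*} [Fintype ι] (b : OrthonormalBasis ι ℝ F) (A B : F →L[ℝ] ℝ) :
    ∑ i, A (b i) * B (b i) = (‖A + B‖ ^ 2 - ‖A - B‖ ^ 2) / 4 := by
  rw [norm_sq_fderiv b, norm_sq_fderiv b, ← Finset.sum_sub_distrib, Finset.sum_div]
  refine Finset.sum_congr rfl fun i _ => ?_
  rw [ContinuousLinearMap.add_apply, ContinuousLinearMap.sub_apply]
  ring

private lemma RE2_int (H : GW δ L h) (hf : BL f) (hg : BL g) (v w : F) :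
    Integrable fun x => fderiv ℝ f x v * fderiv ℝ g x w * h x := by
  obtain ⟨⟨K, hK⟩, -⟩ := hf
  obtain ⟨⟨K', hK'⟩, -⟩ := hg
  refine H.bdd_int ((measurable_fderiv_apply_const ℝ f v).mul
    (measurable_fderiv_apply_const ℝ g w)) (M := (K * ‖v‖) * (K' * ‖w‖)) fun x => ?_
  rw [abs_mul]
  have h1 : |fderiv ℝ f x v| ≤ K * ‖v‖ := by
    rw [← Real.norm_eq_abs]
    exact ((fderiv ℝ f x).le_opNorm v).trans
      (mul_le_mul_of_nonneg_right (norm_fderiv_le_of_lipschitz ℝ hK) (norm_nonneg _))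
  have h2 : |fderiv ℝ g x w| ≤ K' * ‖w‖ := by
    rw [← Real.norm_eq_abs]
    exact ((fderiv ℝ g x).le_opNorm w).trans
      (mul_le_mul_of_nonneg_right (norm_fderiv_le_of_lipschitz ℝ hK') (norm_nonneg _))
  exact mul_le_mul h1 h2 (abs_nonneg _) (by positivity)

private lemma RE2_int' (H : GW δ L h) (hf : BL f) (hg : BL g) {ι : Type*} [Fintype ι]
    (b : OrthonormalBasis ι ℝ F) :
    Integrable fun x => (∑ i, fderiv ℝ f x (b i) * fderiv ℝ g x (b i)) * h x := by
  simp only [Finset.sum_mul]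
  exact integrable_finset_sum _ fun i _ => RE2_int H hf hg _ _

private lemma RE2_bl (hf : BL f) (hg : BL g) (s : ℝ) : BL (fun x => f x + s * g x) := by
  obtain ⟨⟨K, hK⟩, A, hA⟩ := hf
  obtain ⟨⟨K', hK'⟩, A', hA'⟩ := hg
  refine ⟨⟨K + ‖s‖₊ * K', ?_⟩, A + |s| * A', fun x => ?_⟩
  · refine hK.add ?_
    refine LipschitzWith.of_dist_le_mul fun x y => ?_
    have h1 := hK'.dist_le_mul x y
    rw [Real.dist_eq] at h1 ⊢
    rw [← mul_sub, abs_mul, NNReal.coe_mul, coe_nnnorm, Real.norm_eq_abs, mul_assoc]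
    exact mul_le_mul_of_nonneg_left h1 (abs_nonneg _)
  · refine (abs_add_le _ _).trans (add_le_add (hA x) ?_)
    rw [abs_mul]
    exact mul_le_mul_of_nonneg_left (hA' x) (abs_nonneg _)

/-- Pointwise: `∑ i, A (b i) * B (b i)` for `A B : F →L[ℝ] ℝ` does not depend on the orthonormal
basis (it is the inner product of the Riesz representatives; or polarise
`h25.norm_sq_fderiv : ‖D‖ ^ 2 = ∑ i, (D (b i)) ^ 2`, i.e. `4 A B = (A + B)² - (A - B)²`). Then
integrate; the terms are integrable by `GW.bdd_int` (for `f` Lipschitz with constant `K`,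
`|fderiv ℝ f x v| ≤ K ‖v‖` by `norm_fderiv_le_of_lipschitz`; `x ↦ fderiv ℝ f x v` is measurable:
`measurable_fderiv_apply_const`). -/
theorem E2_basis (H : GW δ L h) (hf : BL f) (hg : BL g) {ι : Type*} [Fintype ι]
    (b : OrthonormalBasis ι ℝ F) :
    E2 h f g = ∑ i, ∫ x, fderiv ℝ f x (b i) * fderiv ℝ g x (b i) * h x := by
  rw [← integral_finset_sum _ fun i _ => RE2_int H hf hg _ _]
  unfold E2
  refine integral_congr_ae (Eventually.of_forall fun x => ?_)
  simp only
  rw [RE2_sum, ← RE2_sum b, Finset.sum_mul]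

/-- `h25.norm_sq_fderiv`. -/
theorem E2_self (h f : F → ℝ) : E2 h f f = En h f := by
  unfold E2 En
  refine integral_congr_ae (Eventually.of_forall fun x => ?_)
  simp only
  rw [norm_sq_fderiv (stdOrthonormalBasis ℝ F)]
  simp only [sq]

theorem E2_comm (h f g : F → ℝ) : E2 h f g = E2 h g f := by
  unfold E2
  simp only [mul_comm (fderiv ℝ f _ _)]

/-- A bounded Lipschitz function is differentiable almost everywhere (Rademacher,
`LipschitzWith.ae_differentiableAt`), so `fderiv (g + s k) = fderiv g + s fderiv k` a.e.;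
`integral_congr_ae`, then linearity of the integral (all terms integrable, see `E2_basis`). -/
theorem E2_add_smul (H : GW δ L h) (hf : BL f) (hg : BL g) (hk : BL k) (s : ℝ) :
    E2 h f (fun x => g x + s * k x) = E2 h f g + s * E2 h f k := by
  have i1 := RE2_int' H hf hg (stdOrthonormalBasis ℝ F)
  have i2 := RE2_int' H hf hk (stdOrthonormalBasis ℝ F)
  unfold E2
  rw [← integral_const_mul, ← integral_add i1 (i2.const_mul s)]
  obtain ⟨⟨K, hK⟩, -⟩ := hg
  obtain ⟨⟨K', hK'⟩, -⟩ := hk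
  refine integral_congr_ae ?_
  filter_upwards [hK.ae_differentiableAt (μ := volume), hK'.ae_differentiableAt (μ := volume)]
    with x h1 h2
  have h3 : fderiv ℝ (fun x => g x + s * k x) x = fderiv ℝ g x + s • fderiv ℝ k x := by
    have h4 : fderiv ℝ (fun x => s * k x) x = s • fderiv ℝ k x := fderiv_const_mul h2 s
    rw [← h4]
    exact fderiv_add h1 (h2.const_mul s)
  rw [h3]
  simp only [ContinuousLinearMap.add_apply, ContinuousLinearMap.smul_apply, smul_eq_mul]
  rw [← mul_assoc, Finset.mul_sum, ← add_mul, ← Finset.sum_add_distrib]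
  congr 1
  refine Finset.sum_congr rfl fun i _ => ?_
  ring

/-- From `E2_add_smul`, `E2_comm`, `E2_self`. -/
theorem En_add_smul (H : GW δ L h) (hf : BL f) (hg : BL g) (s : ℝ) :
    En h (fun x => f x + s * g x) = En h f + 2 * s * E2 h f g + s ^ 2 * En h g := by
  have hb := RE2_bl hf hg s
  rw [← E2_self, E2_add_smul H hb hf hg, E2_comm h _ f, E2_comm h _ g, E2_add_smul H hf hf hg,
    E2_add_smul H hg hf hg, E2_self, E2_self, E2_comm h g f]
  ring

/-- `0 ≤ En h (f + s g)` for all `s` (`h25.En_nonneg`), discriminant. -/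
theorem E2_cs (H : GW δ L h) (hf : BL f) (hg : BL g) : (E2 h f g) ^ 2 ≤ En h f * En h g := by
  have h1 : ∀ s : ℝ, 0 ≤ En h g * (s * s) + (2 * E2 h f g) * s + En h f := by
    intro s
    have h2 : 0 ≤ En h (fun x => f x + s * g x) := En_nonneg H.wt
    rw [En_add_smul H hf hg] at h2
    linarith
  have h3 := discrim_le_zero h1
  unfold discrim at h3
  nlinarith

end Pool.Agent.Lib.MP_8d00da_gt.h97r
end

section

/-!
# The exponential weight
-/

namespace Pool.Agent.Lib.MP_8d00da_gt.h97r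

open MeasureTheory Set Filter
open Pool.Agent.Lib.MP_8d00da_gt.h25 Pool.Agent.Lib.MP_8d00da_gt.h42
open Pool.Agent.Lib.MP_8d00da_gt.h42s Pool.Agent.Lib.MP_8d00da_gt.h42o
open scoped Topology NNReal

variable {F : Type*} [NormedAddCommGroup F] [InnerProductSpace ℝ F]
    [FiniteDimensional ℝ F] [MeasurableSpace F] [BorelSpace F]

variable {δ L : ℝ} {h : F → ℝ} {g : F ≃ₗᵢ[ℝ] F} {N d e : ℕ}
  {b : OrthonormalBasis (Fin d ⊕ Fin e) ℝ F}

theorem one_le_rho (b : OrthonormalBasis (Fin d ⊕ Fin e) ℝ F) (x : F) : 1 ≤ rho b x := by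
  unfold rho
  rw [Real.one_le_sqrt]
  have : 0 ≤ ∑ i : Fin d, (inner ℝ (b (Sum.inl i)) x) ^ 2 :=
    Finset.sum_nonneg fun i _ => sq_nonneg _
  linarith

theorem rho_sq (b : OrthonormalBasis (Fin d ⊕ Fin e) ℝ F) (x : F) :
    rho b x ^ 2 = 1 + ∑ i : Fin d, (inner ℝ (b (Sum.inl i)) x) ^ 2 := by
  unfold rho
  rw [Real.sq_sqrt]
  have : 0 ≤ ∑ i : Fin d, (inner ℝ (b (Sum.inl i)) x) ^ 2 :=
    Finset.sum_nonneg fun i _ => sq_nonneg _
  linarith

omit [FiniteDimensional ℝ F] [MeasurableSpace F] [BorelSpace F] in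
private lemma sum_split (b : OrthonormalBasis (Fin d ⊕ Fin e) ℝ F) (x : F) :
    ∑ i : Fin d, (inner ℝ (b (Sum.inl i)) x) ^ 2 + ∑ j : Fin e, (inner ℝ (b (Sum.inr j)) x) ^ 2 =
      ‖x‖ ^ 2 := by
  rw [← b.sum_sq_inner_right x, Fintype.sum_sum_type]

/-- Bessel: `∑ i : Fin d, ⟨b (inl i), x⟩² ≤ ‖x‖²`. -/
theorem rho_le (b : OrthonormalBasis (Fin d ⊕ Fin e) ℝ F) (x : F) : rho b x ≤ 1 + ‖x‖ := by
  have h1 := sum_split b x
  have h2 : 0 ≤ ∑ j : Fin e, (inner ℝ (b (Sum.inr j)) x) ^ 2 :=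
    Finset.sum_nonneg fun i _ => sq_nonneg _
  have h3 := norm_nonneg x
  unfold rho
  rw [Real.sqrt_le_left (by linarith)]
  nlinarith

theorem rho_le_sum (b : OrthonormalBasis (Fin d ⊕ Fin e) ℝ F) (x : F) :
    rho b x ≤ 1 + ∑ i : Fin d, |inner ℝ (b (Sum.inl i)) x| := by
  have h1 : ∑ i : Fin d, |inner ℝ (b (Sum.inl i)) x| ^ 2 ≤
      (∑ i : Fin d, |inner ℝ (b (Sum.inl i)) x|) ^ 2 :=
    Finset.sum_sq_le_sq_sum_of_nonneg fun i _ => abs_nonneg _
  have h3 : 0 ≤ ∑ i : Fin d, |inner ℝ (b (Sum.inl i)) x| :=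
    Finset.sum_nonneg fun i _ => abs_nonneg _
  simp only [sq_abs] at h1
  unfold rho
  rw [Real.sqrt_le_left (by linarith)]
  nlinarith

theorem om_pos (b : OrthonormalBasis (Fin d ⊕ Fin e) ℝ F) (x : F) : 0 < om b x := by
  exact Real.exp_pos _

theorem om_le_one (b : OrthonormalBasis (Fin d ⊕ Fin e) ℝ F) (x : F) : om b x ≤ 1 := by
  unfold om
  rw [Real.exp_le_one_iff]
  have h1 := one_le_rho b x
  have h2 : 0 ≤ rho b x / (12 * d) := by positivity
  linarith

theorem rho_cont (b : OrthonormalBasis (Fin d ⊕ Fin e) ℝ F) : Continuous (rho b) := by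
  unfold rho
  refine Real.continuous_sqrt.comp (continuous_const.add (continuous_finsetSum _ fun i _ => ?_))
  exact (continuous_const.inner continuous_id).pow 2

theorem om_cont (b : OrthonormalBasis (Fin d ⊕ Fin e) ℝ F) : Continuous (om b) := by
  unfold om
  exact Real.continuous_exp.comp (((rho_cont b).div_const _).neg)

theorem ga_cont (b : OrthonormalBasis (Fin d ⊕ Fin e) ℝ F) (η : ℝ) : Continuous (ga b η) := by
  unfold ga
  refine Real.continuous_exp.comp (Continuous.neg (Continuous.div_const ?_ _))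
  refine continuous_finsetSum _ fun i _ => ?_
  exact (continuous_const.inner continuous_id).pow 2

/-- Chain rule for `sqrt`, the argument is at least `1`. -/
theorem rho_hasFDerivAt (b : OrthonormalBasis (Fin d ⊕ Fin e) ℝ F) (x : F) :
    HasFDerivAt (rho b) ((1 / rho b x) • ∑ i : Fin d, (inner ℝ (b (Sum.inl i)) x) •
      (innerSL ℝ (b (Sum.inl i)) : F →L[ℝ] ℝ)) x := by
  have h0 : 0 ≤ ∑ i : Fin d, (inner ℝ (b (Sum.inl i)) x) ^ 2 :=
    Finset.sum_nonneg fun i _ => sq_nonneg _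
  have h1 : ∀ i : Fin d, HasFDerivAt (fun x : F => (inner ℝ (b (Sum.inl i)) x) ^ 2)
      ((2 * inner ℝ (b (Sum.inl i)) x) • (innerSL ℝ (b (Sum.inl i)) : F →L[ℝ] ℝ)) x := by
    intro i
    have h2 : HasFDerivAt (fun x : F => inner ℝ (b (Sum.inl i)) x)
      (innerSL ℝ (b (Sum.inl i)) : F →L[ℝ] ℝ) x :=
      (innerSL ℝ (b (Sum.inl i)) : F →L[ℝ] ℝ).hasFDerivAt
    have h3 := h2.pow 2
    simpa using h3
  have h2 : HasFDerivAt (fun x : F => 1 + ∑ i : Fin d, (inner ℝ (b (Sum.inl i)) x) ^ 2)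
      (∑ i : Fin d, (2 * inner ℝ (b (Sum.inl i)) x) • (innerSL ℝ (b (Sum.inl i)) : F →L[ℝ] ℝ)) x :=
    (HasFDerivAt.fun_sum fun i _ => h1 i).const_add 1
  have h3 := h2.sqrt (by linarith)
  have e : (1 / (2 * Real.sqrt (1 + ∑ i : Fin d, (inner ℝ (b (Sum.inl i)) x) ^ 2))) •
      (∑ i : Fin d, (2 * inner ℝ (b (Sum.inl i)) x) • (innerSL ℝ (b (Sum.inl i)) : F →L[ℝ] ℝ)) =
      (1 / rho b x) • ∑ i : Fin d, (inner ℝ (b (Sum.inl i)) x) •
      (innerSL ℝ (b (Sum.inl i)) : F →L[ℝ] ℝ) := by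
    rw [Finset.smul_sum, Finset.smul_sum]
    refine Finset.sum_congr rfl fun i _ => ?_
    rw [smul_smul, smul_smul]
    congr 1
    unfold rho
    have h4 : 0 < Real.sqrt (1 + ∑ i : Fin d, (inner ℝ (b (Sum.inl i)) x) ^ 2) :=
      Real.sqrt_pos.mpr (by linarith)
    field_simp
  rw [← e]
  exact h3

/-- `∑ i : Fin d, ⟨b (inl i), x⟩² = ‖x‖² - ∑ j : Fin e, ⟨b (inr j), x⟩²` and
`⟨b (inr j), g x⟩ = ⟨g (b (inr j)), g x⟩ = ⟨b (inr j), x⟩`. -/
theorem Sy.sum_inv (S : Sy h g N b) (x : F) : ∑ i : Fin d, (inner ℝ (b (Sum.inl i)) (g x)) ^ 2 =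
    ∑ i : Fin d, (inner ℝ (b (Sum.inl i)) x) ^ 2 := by
  have h1 := sum_split b x
  have h2 := sum_split b (g x)
  have h3 : ∀ j : Fin e, inner ℝ (b (Sum.inr j)) (g x) = inner ℝ (b (Sum.inr j)) x := by
    intro j
    conv_lhs => rw [← S.fix j]
    exact g.inner_map_map _ _
  rw [g.norm_map] at h2
  simp only [h3] at h2
  linarith

theorem Sy.om_inv (S : Sy h g N b) : Inv g (om b) := by
  intro x
  unfold om rho
  rw [S.sum_inv]

theorem Sy.ga_inv (S : Sy h g N b) (η : ℝ) : Inv g (ga b η) := by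
  intro x
  unfold ga
  rw [S.sum_inv]

/-- `rho` is the norm of the vector `(1, (⟨b (inl i), x⟩)_i)`, hence
`rho ((x + y) / 2) ≤ (rho x + rho y) / 2`. -/
theorem rho_mid (b : OrthonormalBasis (Fin d ⊕ Fin e) ℝ F) (x y : F) :
    rho b ((1 / 2 : ℝ) • (x + y)) ≤ (rho b x + rho b y) / 2 := by
  have hx := rho_sq b x
  have hy := rho_sq b y
  have hx1 := one_le_rho b x
  have hy1 := one_le_rho b y
  set A := ∑ i : Fin d, (inner ℝ (b (Sum.inl i)) x) ^ 2 with hA
  set C := ∑ i : Fin d, (inner ℝ (b (Sum.inl i)) y) ^ 2 with hC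
  set P := ∑ i : Fin d, inner ℝ (b (Sum.inl i)) x * inner ℝ (b (Sum.inl i)) y with hP
  have hcs : P ^ 2 ≤ A * C := Finset.sum_mul_sq_le_sq_mul_sq _ _ _
  have hA0 : 0 ≤ A := Finset.sum_nonneg fun i _ => sq_nonneg _
  have hC0 : 0 ≤ C := Finset.sum_nonneg fun i _ => sq_nonneg _
  have hm : ∑ i : Fin d, (inner ℝ (b (Sum.inl i)) ((1 / 2 : ℝ) • (x + y))) ^ 2 =
      (A + 2 * P + C) / 4 := by
    rw [hA, hC, hP, Finset.mul_sum, ← Finset.sum_add_distrib, ← Finset.sum_add_distrib,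
      Finset.sum_div]
    refine Finset.sum_congr rfl fun i _ => ?_
    rw [inner_smul_right, inner_add_right]
    ring
  have h2P : 2 * P ≤ A + C := by
    rw [hA, hC, hP, Finset.mul_sum, ← Finset.sum_add_distrib]
    refine Finset.sum_le_sum fun i _ => ?_
    nlinarith [sq_nonneg ((inner ℝ (b (Sum.inl i)) x : ℝ) - inner ℝ (b (Sum.inl i)) y)]
  have hprod : 1 + P ≤ rho b x * rho b y := by
    refine le_of_sq_le_sq ?_ (by positivity)
    rw [mul_pow, hx, hy]
    nlinarith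
  unfold rho at hx hy hx1 hy1 hprod ⊢
  rw [hm, Real.sqrt_le_left (by linarith)]
  nlinarith

theorem om_mid (b : OrthonormalBasis (Fin d ⊕ Fin e) ℝ F) (x y : F) :
    om b x * om b y ≤ om b ((1 / 2 : ℝ) • (x + y)) ^ 2 := by
  have h1 := rho_mid b x y
  unfold om
  rw [← Real.exp_add, ← Real.exp_nat_mul, Real.exp_le_exp]
  have h2 : rho b ((1 / 2 : ℝ) • (x + y)) / (12 * d) ≤ (rho b x + rho b y) / 2 / (12 * d) := by
    gcongr
  have h3 : (rho b x + rho b y) / 2 / (12 * (d : ℝ)) =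
      (rho b x / (12 * d) + rho b y / (12 * d)) / 2 := by ring
  rw [h3] at h2
  push_cast
  linarith

/-- `jj`: the coordinates. -/
theorem inner_jj_inl (b : OrthonormalBasis (Fin d ⊕ Fin e) ℝ F) (s : Vn d) (t : Vn e) (i : Fin d) :
    inner ℝ (b (Sum.inl i)) (jj b s t) = s i := by
  classical
  unfold jj
  rw [inner_add_right, inner_sum, inner_sum]
  simp only [inner_smul_right, OrthonormalBasis.inner_eq_ite]
  simp

theorem inner_jj_inr (b : OrthonormalBasis (Fin d ⊕ Fin e) ℝ F) (s : Vn d) (t : Vn e) (j : Fin e) :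
    inner ℝ (b (Sum.inr j)) (jj b s t) = t j := by
  classical
  unfold jj
  rw [inner_add_right, inner_sum, inner_sum]
  simp only [inner_smul_right, OrthonormalBasis.inner_eq_ite]
  simp

omit [FiniteDimensional ℝ F] [MeasurableSpace F] [BorelSpace F] in
private lemma jj_eq (b : OrthonormalBasis (Fin d ⊕ Fin e) ℝ F) {x y : F}
    (h1 : ∀ i, inner ℝ (b (Sum.inl i)) x = inner ℝ (b (Sum.inl i)) y)
    (h2 : ∀ j, inner ℝ (b (Sum.inr j)) x = inner ℝ (b (Sum.inr j)) y) : x = y := by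
  refine b.repr.injective ?_
  ext k
  rw [b.repr_apply_apply, b.repr_apply_apply]
  rcases k with i | j
  · exact h1 i
  · exact h2 j

omit [FiniteDimensional ℝ F] [MeasurableSpace F] [BorelSpace F] in
private lemma jj_add (b : OrthonormalBasis (Fin d ⊕ Fin e) ℝ F) (s s' : Vn d) (t t' : Vn e) :
    jj b (s + s') (t + t') = jj b s t + jj b s' t' := by
  unfold jj
  simp only [PiLp.add_apply, add_smul, Finset.sum_add_distrib]
  abel

omit [FiniteDimensional ℝ F] [MeasurableSpace F] [BorelSpace F] in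
private lemma jj_smul (b : OrthonormalBasis (Fin d ⊕ Fin e) ℝ F) (c : ℝ) (s : Vn d) (t : Vn e) :
    jj b (c • s) (c • t) = c • jj b s t := by
  unfold jj
  simp only [PiLp.smul_apply, smul_eq_mul, mul_smul, smul_add, Finset.smul_sum]

/-- The restriction of `g` to the moving directions: `g` preserves the span of the `b (inl i)`,
the orthogonal complement of the fixed vectors `b (inr j)`. -/
theorem Sy.restrict (S : Sy h g N b) : ∃ G : Vn d ≃ₗᵢ[ℝ] Vn d, ∀ (s : Vn d) (t : Vn e),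
    g (jj b s t) = jj b (G s) t := by
  let L : Vn d →ₗ[ℝ] Vn d :=
    { toFun := fun s => WithLp.toLp 2 fun i => inner ℝ (b (Sum.inl i)) (g (jj b s 0))
      map_add' := by
        intro s s'
        ext i
        have h1 := jj_add b s s' 0 0
        rw [add_zero] at h1
        simp only [PiLp.add_apply]
        rw [h1, map_add, inner_add_right]
      map_smul' := by
        intro c s
        ext i
        have h1 := jj_smul b c s 0
        rw [smul_zero] at h1
        simp only [PiLp.smul_apply, RingHom.id_apply]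
        rw [h1, map_smul, inner_smul_right, smul_eq_mul] }
  have hL : ∀ s i, L s i = inner ℝ (b (Sum.inl i)) (g (jj b s 0)) := fun s i => rfl
  have h3 : ∀ (x : F) (j : Fin e), inner ℝ (b (Sum.inr j)) (g x) = inner ℝ (b (Sum.inr j)) x := by
    intro x j
    conv_lhs => rw [← S.fix j]
    exact g.inner_map_map _ _
  have hg0 : ∀ s, g (jj b s 0) = jj b (L s) 0 := by
    intro s
    refine jj_eq b ?_ ?_
    · intro i
      rw [inner_jj_inl, hL]
    · intro j
      rw [h3, inner_jj_inr, inner_jj_inr]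
  have hn : ∀ s : Vn d, ‖jj b s (0 : Vn e)‖ ^ 2 = ‖s‖ ^ 2 := by
    intro s
    rw [← sum_split b]
    simp only [inner_jj_inl, inner_jj_inr, EuclideanSpace.norm_sq_eq, Real.norm_eq_abs, sq_abs]
    simp
  have hnL : ∀ s, ‖L s‖ = ‖s‖ := by
    intro s
    have h4 := hn (L s)
    rw [← hg0, g.norm_map, hn] at h4
    exact ((sq_eq_sq₀ (norm_nonneg _) (norm_nonneg _)).mp h4).symm
  let LI : Vn d →ₗᵢ[ℝ] Vn d := ⟨L, hnL⟩
  refine ⟨LI.toLinearIsometryEquiv rfl, fun s t => ?_⟩
  have h5 : jj b s t = jj b s 0 + jj b 0 t := by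
    rw [← jj_add, add_zero, zero_add]
  have h6 : g (jj b 0 t) = jj b 0 t := by
    unfold jj
    simp only [PiLp.zero_apply, zero_smul, Finset.sum_const_zero, zero_add, map_sum, map_smul,
      S.fix]
  rw [h5, map_add, hg0, h6, ← jj_add, add_zero, zero_add]
  rfl

end Pool.Agent.Lib.MP_8d00da_gt.h97r
end
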