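import Mathlib
import Pool.Agent.Lib.MP_8d00da_gt.h25.FinalAsm
import Pool.Agent.Lib.MP_8d00da_gt.h42.Tail
import Pool.Agent.Lib.MP_8d00da_gt.h97r.RDefs
import Pool.Agent.Lib.MP_8d00da_gt.h97r.ROm

section

/-!
# From weights of bounded support to log-concave probability measures (general form)
-/

namespace Pool.Agent.Lib.MP_8d00da_gt.h42s

open MeasureTheory Set Filter
open Pool.Agent.Lib.MP_8d00da_gt.h42
open Pool.Agent.Lib.MP_8d00da_gt.h25 (LCW Wt En PoincareWith LinPoincareWith logConc_bdd)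
open scoped Topology NNReal

variable {F : Type*} [NormedAddCommGroup F] [InnerProductSpace ℝ F]
    [FiniteDimensional ℝ F] [MeasurableSpace F] [BorelSpace F]

/-- The inequality for the weights of bounded support in the class `P`. -/
def CoreS (P : (F → ℝ) → Prop) (K : ℝ) : Prop :=
  ∀ (h : F → ℝ) (r B : ℝ), LCW h r B → P h → ∀ (b : F) (σ : ℝ), 0 < σ →
    (∀ θ : F, ∫ x, (inner ℝ θ (x - b)) ^ 2 * h x ≤ σ ^ 2 * ‖θ‖ ^ 2 * ∫ x, h x) →
    ∀ (f : F → ℝ) (L : ℝ≥0), LipschitzWith L f → ∀ m : ℝ, ∫ x, f x * h x = m * ∫ x, h x →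
      ∫ x, (f x - m) ^ 2 * h x ≤ (K * σ) ^ 2 * ∫ x, ‖fderiv ℝ f x‖ ^ 2 * h x

/-- Restriction of an integrable log-concave function to a ball. -/
lemma trunc_LCW {h : F → ℝ} (h0 : ∀ x, 0 ≤ h x) (hm : Measurable h) (hlc : LogConc h)
    {B : ℝ} (hB : ∀ x, h x ≤ B) {T : ℝ} (hpos : 0 < ∫ x, (Metric.closedBall 0 T).indicator h x) :
    LCW ((Metric.closedBall 0 T).indicator h) T B where
  meas := hm.indicator Metric.isClosed_closedBall.measurableSet
  nonneg := fun x => indicator_nonneg (fun x _ => h0 x) x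
  bdd := by
    intro x
    by_cases hx : x ∈ Metric.closedBall (0 : F) T
    · rw [indicator_of_mem hx]; exact hB x
    · rw [indicator_of_notMem hx]
      exact (h0 x).trans (hB x)
  conc := by
    intro a ha0 ha1 x y
    by_cases hx : x ∈ Metric.closedBall (0 : F) T
    · by_cases hy : y ∈ Metric.closedBall (0 : F) T
      · rw [indicator_of_mem hx, indicator_of_mem hy,
          indicator_of_mem ((convex_closedBall (0 : F) T) hx hy (by linarith) ha0.le (by ring))]
        exact hlc a ha0 ha1 x y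
      · rw [indicator_of_notMem hy, Real.zero_rpow ha0.ne', mul_zero]
        exact indicator_nonneg (fun x _ => h0 x) _
    · rw [indicator_of_notMem hx, Real.zero_rpow (by linarith), zero_mul]
      exact indicator_nonneg (fun x _ => h0 x) _
  supp := by
    intro x hx
    refine indicator_of_notMem (fun hc => ?_) _
    rw [mem_closedBall_zero_iff] at hc
    linarith
  mass := hpos

section Limit

variable {h : F → ℝ} {μ : Measure (F)}

lemma integral_mu (h0 : ∀ x, 0 ≤ h x) (hm : Measurable h)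
    (hμ : μ = volume.withDensity fun x => ENNReal.ofReal (h x)) (g : F → ℝ) :
    ∫ x, g x ∂μ = ∫ x, g x * h x := by
  rw [hμ, integral_withDensity_eq_integral_toReal_smul hm.ennreal_ofReal
    (Eventually.of_forall fun x => ENNReal.ofReal_lt_top)]
  refine integral_congr_ae (Eventually.of_forall fun x => ?_)
  simp only [smul_eq_mul, ENNReal.toReal_ofReal (h0 x)]
  ring

lemma integrable_mu (h0 : ∀ x, 0 ≤ h x) (hm : Measurable h)
    (hμ : μ = volume.withDensity fun x => ENNReal.ofReal (h x)) {g : F → ℝ} :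
    Integrable g μ ↔ Integrable fun x => g x * h x := by
  rw [hμ, integrable_withDensity_iff hm.ennreal_ofReal
    (Eventually.of_forall fun x => ENNReal.ofReal_lt_top)]
  simp only [ENNReal.toReal_ofReal (h0 _)]

/-- Convergence of truncated integrals. -/
lemma trunc_lim (h0 : ∀ x, 0 ≤ h x) (hm : Measurable h)
    (hμ : μ = volume.withDensity fun x => ENNReal.ofReal (h x)) {g : F → ℝ}
    (hg : Integrable g μ) :
    Tendsto (fun n : ℕ => ∫ x, g x * (Metric.closedBall (0 : F) n).indicator h x) atTop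
      (𝓝 (∫ x, g x ∂μ)) := by
  have h1 : ∀ n : ℕ, ∫ x, g x * (Metric.closedBall (0 : F) n).indicator h x =
      ∫ x, (Metric.closedBall (0 : F) n).indicator g x ∂μ := by
    intro n
    rw [integral_mu h0 hm hμ]
    refine integral_congr_ae (Eventually.of_forall fun x => ?_)
    by_cases hx : x ∈ Metric.closedBall (0 : F) n
    · simp only [indicator_of_mem hx]
    · simp only [indicator_of_notMem hx, mul_zero, zero_mul]
  simp only [h1]
  refine tendsto_integral_of_dominated_convergence (fun x => ‖g x‖)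
    (fun n => hg.aestronglyMeasurable.indicator Metric.isClosed_closedBall.measurableSet)
    hg.norm (fun n => Eventually.of_forall fun x => ?_) (Eventually.of_forall fun x => ?_)
  · exact norm_indicator_le_norm_self _ _
  · obtain ⟨N, hN⟩ := exists_nat_ge ‖x‖
    refine tendsto_const_nhds.congr' ?_
    filter_upwards [eventually_ge_atTop N] with n hn
    rw [indicator_of_mem]
    rw [mem_closedBall_zero_iff]
    exact hN.trans (by exact_mod_cast hn)

end Limit

/-- Passage from weights of bounded support to probability measures. -/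
theorem var_of_core {P : (F → ℝ) → Prop} {K : ℝ}
    (hP : ∀ h T, P h → P ((Metric.closedBall (0 : F) T).indicator h)) (core : CoreS P K)
    (h : F → ℝ) (h0 : ∀ x, 0 ≤ h x) (hm : Measurable h) (hLC : LogConc h) (hPh : P h)
    (μ : Measure F) (hμ : μ = volume.withDensity fun x => ENNReal.ofReal (h x))
    [IsProbabilityMeasure μ] (b : F) {D' : ℝ} (hD'0 : 0 ≤ D')
    (hlin : ∀ v : F, MemLp (fun x => inner ℝ v (x - b)) 2 μ ∧
      ∫ x, (inner ℝ v (x - b)) ^ 2 ∂μ ≤ D' ^ 2 * ‖v‖ ^ 2)
    {f : F → ℝ} {L : ℝ≥0} (hf : LipschitzWith L f) :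
    MemLp f 2 μ ∧ ∫ x, (f x - ∫ y, f y ∂μ) ^ 2 ∂μ ≤ (K * D') ^ 2 * ∫ x, ‖fderiv ℝ f x‖ ^ 2 ∂μ := by
  have hIm : ∀ g : F → ℝ, ∫ x, g x ∂μ = ∫ x, g x * h x := integral_mu h0 hm hμ
  have hii : ∀ {g : F → ℝ}, Integrable g μ ↔ Integrable fun x => g x * h x :=
    integrable_mu h0 hm hμ
  have hi : Integrable h := by
    have h1 : Integrable (fun _ : F => (1 : ℝ)) μ := integrable_const 1
    rw [hii] at h1
    simpa using h1
  have hI1 : ∫ x, h x = 1 := by
    have h1 := hIm fun _ => 1
    simp only [one_mul, integral_const, probReal_univ, smul_eq_mul, mul_one] at h1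
    exact h1.symm
  obtain ⟨B, hB⟩ := logConc_bdd h0 hm hi (by rw [hI1]; norm_num) hLC
  have hnorm2b : Integrable (fun x : F => ‖x - b‖ ^ 2) μ := by
    have h1 : (fun x : F => ‖x - b‖ ^ 2) =
        fun x => ∑ i, (inner ℝ (stdOrthonormalBasis ℝ F i) (x - b)) ^ 2 := by
      funext x
      rw [← (stdOrthonormalBasis ℝ F).sum_sq_norm_inner_right (x - b)]
      refine Finset.sum_congr rfl fun i _ => ?_
      rw [Real.norm_eq_abs, sq_abs]
    rw [h1]
    exact integrable_finsetSum _ fun i _ => (hlin _).1.integrable_sq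
  have hnormb : MemLp (fun x : F => ‖x - b‖) 2 μ :=
    (memLp_two_iff_integrable_sq (continuous_id.sub continuous_const).norm.aestronglyMeasurable).2
      hnorm2b
  -- the test function
  have hfm : AEStronglyMeasurable f μ := hf.continuous.aestronglyMeasurable
  have hf2 : MemLp f 2 μ := by
    have h0a : MemLp (fun _ : F => |f b|) 2 μ := memLp_const _
    have h0b : MemLp (fun x : F => (L : ℝ) * ‖x - b‖) 2 μ := hnormb.const_mul (L : ℝ)
    have h1 : MemLp (fun x : F => |f b| + L * ‖x - b‖) 2 μ := h0a.add h0b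
    refine h1.mono hfm (Eventually.of_forall fun x => ?_)
    have h2 := hf.dist_le_mul x b
    rw [Real.dist_eq, dist_eq_norm] at h2
    have h3 : |f x| ≤ |f b| + |f x - f b| := by
      have := abs_add_le (f b) (f x - f b)
      rwa [add_sub_cancel] at this
    rw [Real.norm_eq_abs, Real.norm_eq_abs]
    refine (h3.trans (add_le_add_right h2 _)).trans (le_abs_self _)
  refine ⟨hf2, ?_⟩
  have hfi : Integrable f μ := hf2.integrable (by norm_num)
  have hf2i : Integrable (fun x => f x ^ 2) μ := hf2.integrable_sq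
  have hgm : Measurable fun x : F => ‖fderiv ℝ f x‖ := (measurable_fderiv ℝ f).norm
  have hgb : ∀ x, ‖fderiv ℝ f x‖ ≤ L := fun x => norm_fderiv_le_of_lipschitz ℝ hf
  have hg2 : MemLp (fun x => ‖fderiv ℝ f x‖) 2 μ :=
    MemLp.of_bound hgm.aestronglyMeasurable L (Eventually.of_forall fun x => by
      rw [norm_norm]; exact hgb x)
  have hg2i : Integrable (fun x => ‖fderiv ℝ f x‖ ^ 2) μ := hg2.integrable_sq
  set m := ∫ y, f y ∂μ with hmdef
  set G := ∫ x, ‖fderiv ℝ f x‖ ^ 2 ∂μ with hG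
  have hG0 : 0 ≤ G := integral_nonneg fun x => sq_nonneg _
  have key : ∫ x, (f x - m) ^ 2 ∂μ ≤ (K * D') ^ 2 * G := by
    set hT : ℕ → F → ℝ := fun n => (Metric.closedBall (0 : F) n).indicator h with hhT
    have hT0 : ∀ n x, 0 ≤ hT n x := fun n x => indicator_nonneg (fun x _ => h0 x) x
    have hTm : ∀ n, Measurable (hT n) := fun n =>
      hm.indicator Metric.isClosed_closedBall.measurableSet
    have hTle : ∀ n x, hT n x ≤ h x := fun n x => indicator_le_self' (fun x _ => h0 x) x
    have hTi : ∀ n, Integrable (hT n) := fun n =>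
      hi.indicator Metric.isClosed_closedBall.measurableSet
    have hgT : ∀ {g : F → ℝ}, Measurable g → Integrable g μ → ∀ n,
        Integrable fun x => g x * hT n x := by
      intro g hgm' hg n
      refine (hii.1 hg).mono (hgm'.mul (hTm n)).aestronglyMeasurable
        (Eventually.of_forall fun x => ?_)
      rw [norm_mul, norm_mul]
      refine mul_le_mul_of_nonneg_left ?_ (norm_nonneg _)
      rw [Real.norm_eq_abs, Real.norm_eq_abs, abs_of_nonneg (hT0 n x), abs_of_nonneg (h0 x)]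
      exact hTle n x
    set M : ℕ → ℝ := fun n => ∫ x, hT n x with hM
    set A1 : ℕ → ℝ := fun n => ∫ x, f x * hT n x with hA1
    set A2 : ℕ → ℝ := fun n => ∫ x, f x ^ 2 * hT n x with hA2
    set Gn : ℕ → ℝ := fun n => ∫ x, ‖fderiv ℝ f x‖ ^ 2 * hT n x with hGn
    have hMlim : Tendsto M atTop (𝓝 1) := by
      have h1 := trunc_lim h0 hm hμ (integrable_const (1 : ℝ))
      simp only [one_mul, integral_const, probReal_univ, smul_eq_mul, mul_one] at h1
      exact h1
    have hA1lim : Tendsto A1 atTop (𝓝 m) := trunc_lim h0 hm hμ hfi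
    have hA2lim : Tendsto A2 atTop (𝓝 (∫ x, f x ^ 2 ∂μ)) := trunc_lim h0 hm hμ hf2i
    have hGlim : Tendsto Gn atTop (𝓝 G) := trunc_lim h0 hm hμ hg2i
    have hev : ∀ᶠ n : ℕ in atTop, 0 < M n := hMlim.eventually_const_lt (by norm_num)
    have hineq : ∀ᶠ n : ℕ in atTop, A2 n - A1 n ^ 2 / M n ≤
        K ^ 2 * (D' + 1 / ((n : ℝ) + 1)) ^ 2 / M n * Gn n := by
      filter_upwards [hev] with n hn
      have hW : LCW (hT n) n B := trunc_LCW h0 hm hLC hB hn
      set s : ℝ := D' + 1 / ((n : ℝ) + 1) with hs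
      have hs0 : 0 < s := by positivity
      have hsD : D' ≤ s := by rw [hs]; have : (0 : ℝ) < 1 / ((n : ℝ) + 1) := by positivity
                              linarith
      set σ : ℝ := s / Real.sqrt (M n) with hσ
      have hsq : 0 < Real.sqrt (M n) := Real.sqrt_pos.2 hn
      have hσ0 : 0 < σ := div_pos hs0 hsq
      have hσ2 : σ ^ 2 = s ^ 2 / M n := by rw [hσ, div_pow, Real.sq_sqrt hn.le]
      have hTP : P (hT n) := hP h n hPh
      have hTlin : ∀ θ : F, ∫ x, (inner ℝ θ (x - b)) ^ 2 * hT n x ≤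
          σ ^ 2 * ‖θ‖ ^ 2 * ∫ x, hT n x := by
        intro θ
        have hsqi : Integrable (fun x => (inner ℝ θ (x - b)) ^ 2) μ := (hlin θ).1.integrable_sq
        have hsm : Measurable fun x : F => (inner ℝ θ (x - b) : ℝ) ^ 2 :=
          ((continuous_const.inner (continuous_id.sub continuous_const)).pow 2).measurable
        have h1 : ∫ x, (inner ℝ θ (x - b)) ^ 2 * hT n x ≤ ∫ x, (inner ℝ θ (x - b)) ^ 2 ∂μ := by
          rw [hIm]
          refine integral_mono (hgT hsm hsqi n) (hii.1 hsqi) fun x => ?_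
          exact mul_le_mul_of_nonneg_left (hTle n x) (sq_nonneg _)
        have h2 : σ ^ 2 * ‖θ‖ ^ 2 * ∫ x, hT n x = s ^ 2 * ‖θ‖ ^ 2 := by
          rw [hσ2]
          change s ^ 2 / M n * ‖θ‖ ^ 2 * M n = _
          field_simp
        rw [h2]
        refine (h1.trans (hlin θ).2).trans (mul_le_mul_of_nonneg_right ?_ (sq_nonneg _))
        exact pow_le_pow_left₀ hD'0 hsD 2
      have hm' : ∫ x, f x * hT n x = (A1 n / M n) * ∫ x, hT n x := by
        change A1 n = A1 n / M n * M n
        field_simp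
      have hcore := core (hT n) n B hW hTP b σ hσ0 hTlin f L hf (A1 n / M n) hm'
      have hexp : ∫ x, (f x - A1 n / M n) ^ 2 * hT n x = A2 n - A1 n ^ 2 / M n := by
        set c := A1 n / M n with hc
        have h1 : ∀ x, (f x - c) ^ 2 * hT n x =
            f x ^ 2 * hT n x - 2 * c * (f x * hT n x) + c ^ 2 * hT n x := fun x => by ring
        have hi1 : Integrable fun x => f x ^ 2 * hT n x :=
          hgT (hf.continuous.pow 2).measurable hf2i n
        have hi2 : Integrable fun x => 2 * c * (f x * hT n x) :=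
          (hgT hf.continuous.measurable hfi n).const_mul _
        have hi3 : Integrable fun x => c ^ 2 * hT n x := (hTi n).const_mul _
        simp only [h1]
        have hi12 : Integrable fun x => f x ^ 2 * hT n x - 2 * c * (f x * hT n x) := hi1.sub hi2
        rw [integral_add hi12 hi3, integral_sub hi1 hi2, integral_const_mul, integral_const_mul]
        change A2 n - 2 * c * A1 n + c ^ 2 * M n = _
        rw [hc]
        field_simp
        ring
      rw [hexp] at hcore
      refine hcore.trans (le_of_eq ?_)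
      change (K * σ) ^ 2 * Gn n = _
      rw [mul_pow, hσ2]
      ring
    have hsmall : Tendsto (fun n : ℕ => D' + 1 / ((n : ℝ) + 1)) atTop (𝓝 (D' + 0)) :=
      tendsto_const_nhds.add tendsto_one_div_add_atTop_nhds_zero_nat
    have hL : Tendsto (fun n => A2 n - A1 n ^ 2 / M n) atTop
        (𝓝 ((∫ x, f x ^ 2 ∂μ) - m ^ 2 / 1)) :=
      hA2lim.sub ((hA1lim.pow 2).div hMlim one_ne_zero)
    have hR : Tendsto (fun n : ℕ => K ^ 2 * (D' + 1 / ((n : ℝ) + 1)) ^ 2 / M n * Gn n) atTop
        (𝓝 (K ^ 2 * (D' + 0) ^ 2 / 1 * G)) :=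
      (((tendsto_const_nhds.mul (hsmall.pow 2)).div hMlim one_ne_zero)).mul hGlim
    have hfin := le_of_tendsto_of_tendsto hL hR hineq
    have hvar : ∫ x, (f x - m) ^ 2 ∂μ = (∫ x, f x ^ 2 ∂μ) - m ^ 2 := by
      have h1 : ∀ x, (f x - m) ^ 2 = f x ^ 2 - 2 * m * f x + m ^ 2 := fun x => by ring
      simp only [h1]
      have hi12 : Integrable (fun x => f x ^ 2 - 2 * m * f x) μ := hf2i.sub (hfi.const_mul _)
      rw [integral_add hi12 (integrable_const _), integral_sub hf2i (hfi.const_mul _),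
        integral_const_mul, integral_const, probReal_univ, ← hmdef]
      simp only [smul_eq_mul, one_mul]
      ring
    rw [hvar]
    rw [add_zero, div_one, div_one] at hfin
    rw [mul_pow]
    exact hfin
  exact key

/-- The barycenter and the second moments. -/
theorem lin_props {μ : Measure F} [IsProbabilityMeasure μ] {D : ℝ} (hD : LinPoincareWith μ D) :
    ∃ b : F, (∀ v : F, ∫ x, inner ℝ v x ∂μ = inner ℝ v b) ∧
      ∀ v : F, MemLp (fun x => inner ℝ v (x - b)) 2 μ ∧
      ∫ x, (inner ℝ v (x - b)) ^ 2 ∂μ ≤ (max D 0) ^ 2 * ‖v‖ ^ 2 := by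
  have hml0 : ∀ v : F, MemLp (fun x => inner ℝ v x) 2 μ := by
    intro v
    have h1 := hD (innerSL ℝ v)
    simp only [innerSL_apply_apply, innerSL_apply_norm] at h1
    set c := ∫ y, inner ℝ v y ∂μ
    have h2 : MemLp (fun x => inner ℝ v x - c) 2 μ :=
      ⟨((continuous_const.inner continuous_id).sub continuous_const).aestronglyMeasurable,
        lt_of_le_of_lt h1 ENNReal.ofReal_lt_top⟩
    have h3 : MemLp (fun _ : F => c) 2 μ := memLp_const c
    have h4 := h2.add h3
    refine (memLp_congr_ae (Eventually.of_forall fun x => ?_)).1 h4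
    simp
  have hint : ∀ v : F, Integrable (fun x => inner ℝ v x) μ := fun v =>
    (hml0 v).integrable (by norm_num)
  set e := stdOrthonormalBasis ℝ F with he
  set b : F := ∑ i, (∫ x, inner ℝ (e i) x ∂μ) • e i with hb
  have hbv : ∀ v : F, ∫ x, inner ℝ v x ∂μ = inner ℝ v b := by
    intro v
    have h1 : (fun x => inner ℝ v x) = fun x => ∑ i, inner ℝ v (e i) * inner ℝ (e i) x := by
      funext x
      exact (e.sum_inner_mul_inner v x).symm
    rw [h1, integral_finsetSum _ fun i _ => (hint (e i)).const_mul _, hb, inner_sum]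
    refine Finset.sum_congr rfl fun i _ => ?_
    rw [integral_const_mul, inner_smul_right, mul_comm]
  refine ⟨b, hbv, fun v => ?_⟩
  have h1 := hD (innerSL ℝ v)
  simp only [innerSL_apply_apply, innerSL_apply_norm, hbv] at h1
  simp only [← inner_sub_right] at h1
  have hml : MemLp (fun x => inner ℝ v (x - b)) 2 μ :=
    ⟨(continuous_const.inner (continuous_id.sub continuous_const)).aestronglyMeasurable,
      lt_of_le_of_lt h1 ENNReal.ofReal_lt_top⟩
  refine ⟨hml, ?_⟩
  rw [hml.eLpNorm_eq_integral_rpow_norm (by norm_num) (by norm_num)] at h1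
  simp only [ENNReal.toReal_ofNat, Real.norm_eq_abs] at h1
  have h2 : (fun x : F => |(inner ℝ v (x - b) : ℝ)| ^ (2 : ℝ)) =
      fun x => (inner ℝ v (x - b)) ^ 2 := by
    funext x
    rw [Real.rpow_two, sq_abs]
  rw [h2] at h1
  set J := ∫ x, (inner ℝ v (x - b)) ^ 2 ∂μ with hJ
  have hJ0 : 0 ≤ J := integral_nonneg fun x => sq_nonneg _
  have hD'0 : 0 ≤ max D 0 := le_max_right _ _
  have h3 : J ^ (2 : ℝ)⁻¹ ≤ max D 0 * ‖v‖ := by
    rcases ENNReal.ofReal_le_ofReal_iff'.1 h1 with h | h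
    · exact h.trans (mul_le_mul_of_nonneg_right (le_max_left _ _) (norm_nonneg _))
    · exact h.trans (mul_nonneg hD'0 (norm_nonneg _))
  have h4 : J = (J ^ (2 : ℝ)⁻¹) ^ 2 := by
    rw [← Real.rpow_natCast, ← Real.rpow_mul hJ0]
    norm_num
  rw [h4, ← mul_pow]
  exact pow_le_pow_left₀ (Real.rpow_nonneg hJ0 _) h3 2

/-- From the variance form to the norm form. -/
theorem poincare_of_var {μ : Measure F} [IsProbabilityMeasure μ] {K D : ℝ} (hK : 0 ≤ K)
    (hv : ∀ (f : F → ℝ) (L : ℝ≥0), LipschitzWith L f → MemLp f 2 μ ∧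
      ∫ x, (f x - ∫ y, f y ∂μ) ^ 2 ∂μ ≤ (K * max D 0) ^ 2 * ∫ x, ‖fderiv ℝ f x‖ ^ 2 ∂μ) :
    PoincareWith μ (K * D) := by
  rintro f ⟨L, hf⟩
  obtain ⟨hf2, key⟩ := hv f L hf
  set m := ∫ y, f y ∂μ with hmdef
  set G := ∫ x, ‖fderiv ℝ f x‖ ^ 2 ∂μ with hG
  have hG0 : 0 ≤ G := integral_nonneg fun x => sq_nonneg _
  have hgm : Measurable fun x : F => ‖fderiv ℝ f x‖ := (measurable_fderiv ℝ f).norm
  have hgb : ∀ x, ‖fderiv ℝ f x‖ ≤ L := fun x => norm_fderiv_le_of_lipschitz ℝ hf
  have hg2 : MemLp (fun x => ‖fderiv ℝ f x‖) 2 μ :=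
    MemLp.of_bound hgm.aestronglyMeasurable L (Eventually.of_forall fun x => by
      rw [norm_norm]; exact hgb x)
  have hD'0 : 0 ≤ max D 0 := le_max_right _ _
  have hFm : MemLp (fun x => f x - m) 2 μ := hf2.sub (memLp_const _)
  rw [hFm.eLpNorm_eq_integral_rpow_norm (by norm_num) (by norm_num),
    hg2.eLpNorm_eq_integral_rpow_norm (by norm_num) (by norm_num)]
  have hKD : ENNReal.ofReal (K * D) = ENNReal.ofReal (K * max D 0) := by
    rcases le_total 0 D with hd | hd
    · rw [max_eq_left hd]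
    · rw [max_eq_right hd, mul_zero, ENNReal.ofReal_zero]
      exact ENNReal.ofReal_of_nonpos (mul_nonpos_of_nonneg_of_nonpos hK hd)
  rw [hKD, ← ENNReal.ofReal_mul (mul_nonneg hK hD'0)]
  refine ENNReal.ofReal_le_ofReal ?_
  simp only [ENNReal.toReal_ofNat, Real.norm_eq_abs, Real.rpow_two, sq_abs, abs_norm]
  rw [← hG]
  have h1 : (K * max D 0) * G ^ (2 : ℝ)⁻¹ = ((K * max D 0) ^ 2 * G) ^ (2 : ℝ)⁻¹ := by
    rw [Real.mul_rpow (sq_nonneg _) hG0, ← Real.rpow_natCast, ← Real.rpow_mul
      (mul_nonneg hK hD'0)]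
    norm_num
  rw [h1]
  exact Real.rpow_le_rpow (integral_nonneg fun x => sq_nonneg _) key (by norm_num)

end Pool.Agent.Lib.MP_8d00da_gt.h42s
end

section

/-!
# Exponential moments of linear functionals
-/

namespace Pool.Agent.Lib.MP_8d00da_gt.h97r

open MeasureTheory Set Filter
open Pool.Agent.Lib.MP_8d00da_gt.h25 Pool.Agent.Lib.MP_8d00da_gt.h42
open Pool.Agent.Lib.MP_8d00da_gt.h42s Pool.Agent.Lib.MP_8d00da_gt.h42o
open scoped Topology NNReal

variable {F : Type*} [NormedAddCommGroup F] [InnerProductSpace ℝ F]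
    [FiniteDimensional ℝ F] [MeasurableSpace F] [BorelSpace F]

variable {δ L : ℝ} {h : F → ℝ}

private lemma tailD (H : GW δ L h) (θ : F) :
    TailData (volume : Measure F) h (fun x => inner ℝ θ x) where
  pl := pl_space F
  nonneg := fun x => (H.pos x).le
  meas := H.cont.measurable
  int := H.int
  conc := H.lc
  wmeas := (continuous_const.inner continuous_id).measurable
  aff := fun a x y => by rw [inner_add_right, inner_smul_right, inner_smul_right]

private lemma cheb (H : GW δ L h) (I : Iso h) {θ : F} (hθ : ‖θ‖ = 1) :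
    ∫ x in {x | (2 : ℝ) ≤ inner ℝ θ x}, h x ≤ 1 / 4 := by
  have hm : MeasurableSet {x : F | (2 : ℝ) ≤ inner ℝ θ x} :=
    measurableSet_le measurable_const (continuous_const.inner continuous_id).measurable
  have h1 := I.iso θ
  rw [hθ] at h1
  have i2 : Integrable fun x : F => (inner ℝ θ x) ^ 2 * h x := by
    refine H.int_poly (φ := fun x => (inner ℝ θ x) ^ 2)
      ((continuous_const.inner continuous_id).measurable.pow_const 2) (C := 1) fun x => ?_
    rw [abs_pow, sq_abs]
    have h3 : |inner ℝ θ x| ≤ ‖x‖ := by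
      have := abs_real_inner_le_norm θ x
      rwa [hθ, one_mul] at this
    have h4 : (inner ℝ θ x) ^ 2 ≤ ‖x‖ ^ 2 := by
      rw [← sq_abs (inner ℝ θ x)]
      exact pow_le_pow_left₀ (abs_nonneg _) h3 2
    linarith
  have h2 : ∫ x in {x | (2 : ℝ) ≤ inner ℝ θ x}, h x ≤
      ∫ x in {x | (2 : ℝ) ≤ inner ℝ θ x}, (1 / 4) * ((inner ℝ θ x) ^ 2 * h x) := by
    refine setIntegral_mono_on H.int.integrableOn (i2.const_mul _).integrableOn hm fun x hx => ?_
    have hx' : (2 : ℝ) ≤ inner ℝ θ x := hx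
    have hp := H.pos x
    have h5 : 4 ≤ (inner ℝ θ x) ^ 2 := by nlinarith
    nlinarith
  have h3 : ∫ x in {x | (2 : ℝ) ≤ inner ℝ θ x}, (1 / 4) * ((inner ℝ θ x) ^ 2 * h x) ≤
      ∫ x, (1 / 4) * ((inner ℝ θ x) ^ 2 * h x) :=
    setIntegral_le_integral (i2.const_mul _) (Eventually.of_forall fun x => by
      have := (H.pos x).le
      positivity)
  have h6 : ∫ x, (1 / 4 : ℝ) * ((inner ℝ θ x) ^ 2 * h x) =
      (1 / 4) * ∫ x, (inner ℝ θ x) ^ 2 * h x := integral_const_mul _ _
  linarith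

private lemma tail_one (H : GW δ L h) (I : Iso h) {θ : F} (hθ : ‖θ‖ = 1) {t : ℝ} (ht : 2 ≤ t) :
    ∫ x in {x | t ≤ inner ℝ θ x}, h x ≤ (3 / 4) * (3 : ℝ) ^ (-((t + 2) / 4)) := by
  have hD := tailD H θ
  have h2 : TailData.SS (volume : Measure F) h (fun x => inner ℝ θ x) 2 ≤ 1 / 4 := cheb H I hθ
  have hm2 : 3 / 4 ≤ TailData.SS (volume : Measure F) h (fun x => inner ℝ θ x) (-2) := by
    have h3 := cheb H I (θ := -θ) (by rw [norm_neg, hθ])
    have hm : MeasurableSet {x : F | (-2 : ℝ) ≤ inner ℝ θ x} :=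
      measurableSet_le measurable_const (continuous_const.inner continuous_id).measurable
    have h4 := integral_add_compl hm H.int
    rw [I.mass] at h4
    have h5 : ∫ x in {x : F | (-2 : ℝ) ≤ inner ℝ θ x}ᶜ, h x ≤
        ∫ x in {x : F | (2 : ℝ) ≤ inner ℝ (-θ) x}, h x := by
      refine setIntegral_mono_set H.int.integrableOn
        (Eventually.of_forall fun x => (H.pos x).le) (Eventually.of_forall fun x hx => ?_)
      have hx' : ¬ ((-2 : ℝ) ≤ inner ℝ θ x) := hx
      push Not at hx'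
      show (2 : ℝ) ≤ inner ℝ (-θ) x
      rw [inner_neg_left]
      linarith
    unfold TailData.SS
    linarith
  rcases eq_or_lt_of_le ht with h | hlt
  · subst h
    have e : (3 : ℝ) ^ (-(((2 : ℝ) + 2) / 4)) = 1 / 3 := by
      norm_num
    rw [e]
    unfold TailData.SS at h2
    linarith
  set a : ℝ := 4 / (t + 2) with ha
  have ht2 : 0 < t + 2 := by linarith
  have ha0 : 0 < a := by positivity
  have ha1 : a < 1 := by rw [ha, div_lt_one ht2]; linarith
  have hc := hD.SS_conc ha0 ha1 (-2) t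
  have e1 : (1 - a) * (-2) + a * t = 2 := by
    rw [ha]
    field_simp
    ring
  rw [e1] at hc
  set P := TailData.SS (volume : Measure F) h (fun x => inner ℝ θ x) t with hP
  have hP0 : 0 ≤ P := hD.SS_nonneg t
  have h1a : 0 < 1 - a := by linarith
  have h6 : (3 / 4 : ℝ) ^ (1 - a) * P ^ a ≤ 1 / 4 := by
    refine le_trans ?_ (hc.trans h2)
    gcongr
  have h7 : P ^ a ≤ ((3 / 4 : ℝ) * (3 : ℝ) ^ (-((t + 2) / 4))) ^ a := by
    rw [Real.mul_rpow (by norm_num) (by positivity), ← Real.rpow_mul (by norm_num)]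
    have e2 : -((t + 2) / 4) * a = -1 := by
      rw [ha]
      field_simp
    rw [e2, Real.rpow_neg_one]
    have e3 : (3 / 4 : ℝ) ^ (1 - a) = (3 / 4) / (3 / 4 : ℝ) ^ a := by
      rw [Real.rpow_sub (by norm_num), Real.rpow_one]
    rw [e3] at h6
    have h8 : (0 : ℝ) < (3 / 4 : ℝ) ^ a := by positivity
    rw [div_mul_eq_mul_div, div_le_iff₀ h8] at h6
    linarith
  have h9 := (Real.rpow_le_rpow_iff hP0 (by positivity) ha0).1 h7
  exact h9

/-- `P t = ∫_{t ≤ ⟨θ, x⟩} h` satisfies `P s ^ (1 - a) P t ^ a ≤ P ((1 - a) s + a t)` (Prekopa: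
`h42.TailData.SS_conc` with `pl := pl_space F`, or `h42.pl_integral`), `P 2 ≤ 1/4` and
`P (-2) ≥ 3/4` (Chebyshev, `∫ ⟨θ, x⟩² h ≤ 1`). For `t ≥ 2` take `a = 4 / (t + 2)`,
`2 = (1 - a) (-2) + a t`: `(3/4)^(1 - a) P(t)^a ≤ 1/4`, so `P t ≤ (3/4) 3^(-(t + 2) / 4)`.
The same holds for `- θ`. -/
theorem tail_bound (H : GW δ L h) (I : Iso h) {θ : F} (hθ : ‖θ‖ = 1) {t : ℝ} (ht : 2 ≤ t) :
    ∫ x in {x | t ≤ |inner ℝ θ x|}, h x ≤ (3 / 2) * (3 : ℝ) ^ (-((t + 2) / 4)) := by
  have h1 := tail_one H I hθ ht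
  have h2 := tail_one H I (θ := -θ) (by rw [norm_neg, hθ]) ht
  have e : {x : F | t ≤ |inner ℝ θ x|} =
      {x : F | t ≤ inner ℝ θ x} ∪ {x : F | t ≤ inner ℝ (-θ) x} := by
    ext x
    show t ≤ |inner ℝ θ x| ↔ t ≤ inner ℝ θ x ∨ t ≤ inner ℝ (-θ) x
    rw [inner_neg_left, le_abs]
  rw [e]
  have hdis : Disjoint {x : F | t ≤ inner ℝ θ x} {x : F | t ≤ inner ℝ (-θ) x} := by
    rw [Set.disjoint_left]
    intro x hx hx'
    have h3 : t ≤ inner ℝ θ x := hx
    have h4 : t ≤ inner ℝ (-θ) x := hx'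
    rw [inner_neg_left] at h4
    linarith
  have hm : MeasurableSet {x : F | t ≤ inner ℝ (-θ) x} :=
    measurableSet_le measurable_const (continuous_const.inner continuous_id).measurable
  rw [setIntegral_union hdis hm H.int.integrableOn H.int.integrableOn]
  linarith

end Pool.Agent.Lib.MP_8d00da_gt.h97r
end

section

/-!
# Exponential moments
-/

namespace Pool.Agent.Lib.MP_8d00da_gt.h97r

open MeasureTheory Set Filter
open Pool.Agent.Lib.MP_8d00da_gt.h25 Pool.Agent.Lib.MP_8d00da_gt.h42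
open Pool.Agent.Lib.MP_8d00da_gt.h42s Pool.Agent.Lib.MP_8d00da_gt.h42o
open scoped Topology NNReal

variable {F : Type*} [NormedAddCommGroup F] [InnerProductSpace ℝ F]
    [FiniteDimensional ℝ F] [MeasurableSpace F] [BorelSpace F]

variable {δ L : ℝ} {h : F → ℝ}

private lemma layer (y : ℝ) (J : ℕ) :
    Real.exp (min y (2 + J) / 6) ≤ Real.exp (1 / 3) + ∑ j ∈ Finset.range J,
      (Real.exp ((3 + j) / 6) - Real.exp ((2 + j) / 6)) * (if 2 + (j : ℝ) ≤ y then 1 else 0) := by
  induction J with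
  | zero =>
    simp only [Finset.range_zero, Finset.sum_empty, add_zero, Nat.cast_zero]
    refine Real.exp_le_exp.2 ?_
    have := min_le_right y 2
    linarith
  | succ J ih =>
    rw [Finset.sum_range_succ]
    by_cases hy : 2 + (J : ℝ) ≤ y
    · rw [if_pos hy, mul_one]
      rw [min_eq_right hy] at ih
      have h1 : Real.exp (min y (2 + ((J + 1 : ℕ) : ℝ)) / 6) ≤ Real.exp ((3 + J) / 6) := by
        refine Real.exp_le_exp.2 ?_
        have := min_le_right y (2 + ((J + 1 : ℕ) : ℝ))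
        push_cast at this ⊢
        linarith
      linarith
    · rw [if_neg hy, mul_zero, add_zero]
      push Not at hy
      rw [min_eq_left hy.le] at ih
      rw [min_eq_left (by push_cast; linarith)]
      exact ih

private lemma num_bd (J : ℕ) :
    Real.exp (1 / 3) + ∑ j ∈ Finset.range J, (Real.exp ((3 + j) / 6) - Real.exp ((2 + j) / 6)) *
      ((3 / 2) * (3 : ℝ) ^ (-(((2 + (j : ℝ)) + 2) / 4))) ≤ 3 := by
  set q := Real.exp (1 / 6) with hq
  set s : ℝ := (3 : ℝ) ^ (-(1 / 4) : ℝ) with hs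
  have hq1 : 1 ≤ q := Real.one_le_exp (by norm_num)
  have hq2 : q ≤ 1.1814 := by
    have h1 : q ^ 6 = Real.exp 1 := by
      rw [hq, ← Real.exp_nat_mul]; norm_num
    have h2 := Real.exp_one_lt_d9
    by_contra hn
    push Not at hn
    have h3 : (1.1814 : ℝ) ^ 6 < q ^ 6 := pow_lt_pow_left₀ hn (by norm_num) (by norm_num)
    rw [h1] at h3
    norm_num at h3 h2
    linarith
  have hs0 : 0 < s := by positivity
  have hs2 : s ≤ 0.76 := by
    have h1 : s ^ 4 = 1 / 3 := by
      rw [hs, ← Real.rpow_natCast, ← Real.rpow_mul (by norm_num)]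
      norm_num
    by_contra hn
    push Not at hn
    have h3 : (0.76 : ℝ) ^ 4 < s ^ 4 := pow_lt_pow_left₀ hn (by norm_num) (by norm_num)
    rw [h1] at h3
    norm_num at h3
  have e1 : Real.exp (1 / 3) = q ^ 2 := by
    rw [hq, ← Real.exp_nat_mul]; norm_num
  have e2 : ∀ j : ℕ, Real.exp ((2 + (j : ℝ)) / 6) = q ^ 2 * q ^ j := by
    intro j
    rw [hq, ← Real.exp_nat_mul, ← Real.exp_nat_mul, ← Real.exp_add]
    congr 1
    push_cast
    ring
  have e3 : ∀ j : ℕ, Real.exp ((3 + (j : ℝ)) / 6) = q ^ 2 * q ^ j * q := by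
    intro j
    rw [hq, ← Real.exp_nat_mul, ← Real.exp_nat_mul, ← Real.exp_add, ← Real.exp_add]
    congr 1
    push_cast
    ring
  have e4 : ∀ j : ℕ, (3 : ℝ) ^ (-(((2 + (j : ℝ)) + 2) / 4)) = (1 / 3) * s ^ j := by
    intro j
    rw [hs, ← Real.rpow_natCast, ← Real.rpow_mul (by norm_num),
      show (1 / 3 : ℝ) = (3 : ℝ) ^ (-1 : ℝ) by rw [Real.rpow_neg_one]; norm_num,
      ← Real.rpow_add (by norm_num)]
    congr 1
    ring
  have hr0 : 0 ≤ q * s := by positivity
  have hr1 : q * s ≤ 0.9 := by nlinarith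
  have hr2 : q * s ≤ 1.1814 * 0.76 := by
    calc q * s ≤ 1.1814 * s := by gcongr
      _ ≤ 1.1814 * 0.76 := by gcongr
  have hsum : ∑ j ∈ Finset.range J, (Real.exp ((3 + j) / 6) - Real.exp ((2 + j) / 6)) *
      ((3 / 2) * (3 : ℝ) ^ (-(((2 + (j : ℝ)) + 2) / 4))) =
      q ^ 2 * (q - 1) * (1 / 2) * ∑ j ∈ Finset.range J, (q * s) ^ j := by
    rw [Finset.mul_sum]
    refine Finset.sum_congr rfl fun j _ => ?_
    rw [e2, e3, e4, mul_pow]
    ring
  have hgeo : ∑ j ∈ Finset.range J, (q * s) ^ j ≤ 9.8 := by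
    have h1 : (1 - q * s) * ∑ j ∈ Finset.range J, (q * s) ^ j = 1 - (q * s) ^ J :=
      mul_neg_geom_sum _ _
    have h2 : 0 ≤ (q * s) ^ J := by positivity
    have h3 : 0 ≤ ∑ j ∈ Finset.range J, (q * s) ^ j := Finset.sum_nonneg fun j _ => by positivity
    have h4 : (0.102136 : ℝ) * ∑ j ∈ Finset.range J, (q * s) ^ j ≤ 1 := by
      have h5 : (0.102136 : ℝ) ≤ 1 - q * s := by
        norm_num at hr2 ⊢
        linarith
      calc (0.102136 : ℝ) * ∑ j ∈ Finset.range J, (q * s) ^ j
          ≤ (1 - q * s) * ∑ j ∈ Finset.range J, (q * s) ^ j :=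
            mul_le_mul_of_nonneg_right h5 h3
        _ ≤ 1 := by rw [h1]; linarith
    norm_num at h4 ⊢
    linarith
  rw [hsum, e1]
  have hq3 : q ^ 2 ≤ 1.3958 := by
    have : q ^ 2 ≤ 1.1814 ^ 2 := pow_le_pow_left₀ (by linarith) hq2 2
    norm_num at this ⊢
    linarith
  have h5 : q ^ 2 * (q - 1) * (1 / 2) * ∑ j ∈ Finset.range J, (q * s) ^ j ≤
      1.3958 * 0.1814 * (1 / 2) * 9.8 := by
    have h6 : 0 ≤ q - 1 := by linarith
    have h7 : q - 1 ≤ 0.1814 := by norm_num at hq2 ⊢; linarith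
    have h8 : 0 ≤ ∑ j ∈ Finset.range J, (q * s) ^ j := Finset.sum_nonneg fun j _ => by positivity
    gcongr
  norm_num at h5 hq3 ⊢
  linarith

/-- By `tail_bound` and the layer formula: pointwise
`exp (|X| / 6) ≤ exp (1/3) + ∑ j, (exp ((3 + j) / 6) - exp ((2 + j) / 6)) 1_{|X| ≥ 2 + j}` (finite
sum for each `x`; monotone convergence, or bound `∫ min (exp (|X|/6)) C`), so
`∫ exp (|X| / 6) h ≤ exp (1/3) + (3/2) (exp (1/6) - 1) exp (1/3) (1/3) ∑ j, (exp (1/6) 3^(-1/4))^j`
which is `≤ 1.396 + 1.24 < 3`. Integrability: `GW.int_exp`. -/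
theorem exp_mom (H : GW δ L h) (I : Iso h) {θ : F} (hθ : ‖θ‖ = 1) :
    ∫ x, Real.exp (|inner ℝ θ x| / 6) * h x ≤ 3 := by
  have hX : Continuous fun x : F => |inner ℝ θ x| := (continuous_const.inner continuous_id).abs
  have hXn : ∀ x : F, |inner ℝ θ x| ≤ ‖x‖ := fun x => by
    have := abs_real_inner_le_norm θ x
    rwa [hθ, one_mul] at this
  have hI : Integrable fun x : F => Real.exp (|inner ℝ θ x| / 6) * h x := by
    refine H.int_exp (φ := fun x => Real.exp (|inner ℝ θ x| / 6))
      (Real.continuous_exp.comp (hX.div_const 6)).measurable (C := 1) (a := 1) fun x => ?_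
    rw [abs_of_pos (Real.exp_pos _), one_mul, one_mul]
    refine Real.exp_le_exp.2 ?_
    have h1 := hXn x
    have h2 := norm_nonneg x
    linarith
  have hcJ : ∀ J : ℕ, Continuous fun x : F => Real.exp (min |inner ℝ θ x| (2 + (J : ℝ)) / 6) :=
    fun J => Real.continuous_exp.comp ((hX.min continuous_const).div_const 6)
  have hleJ : ∀ (J : ℕ) (x : F), Real.exp (min |inner ℝ θ x| (2 + (J : ℝ)) / 6) ≤
      Real.exp (|inner ℝ θ x| / 6) := fun J x => by
    refine Real.exp_le_exp.2 ?_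
    have := min_le_left |inner ℝ θ x| (2 + (J : ℝ))
    linarith
  have hJ : ∀ J : ℕ, ∫ x, Real.exp (min |inner ℝ θ x| (2 + (J : ℝ)) / 6) * h x ≤ 3 := by
    intro J
    refine le_trans ?_ (num_bd J)
    have hms : ∀ j : ℕ, MeasurableSet {x : F | 2 + (j : ℝ) ≤ |inner ℝ θ x|} := fun j =>
      measurableSet_le measurable_const hX.measurable
    have hind : ∀ (j : ℕ) (x : F), (if 2 + (j : ℝ) ≤ |inner ℝ θ x| then (1 : ℝ) else 0) * h x =
        {x : F | 2 + (j : ℝ) ≤ |inner ℝ θ x|}.indicator h x := by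
      intro j x
      by_cases hx : 2 + (j : ℝ) ≤ |inner ℝ θ x|
      · rw [if_pos hx, one_mul, indicator_of_mem
          (show x ∈ {x : F | 2 + (j : ℝ) ≤ |inner ℝ θ x|} from hx)]
      · rw [if_neg hx, zero_mul, indicator_of_notMem
          (show x ∉ {x : F | 2 + (j : ℝ) ≤ |inner ℝ θ x|} from hx)]
    have hii : ∀ j : ℕ, Integrable fun x : F =>
        {x : F | 2 + (j : ℝ) ≤ |inner ℝ θ x|}.indicator h x := fun j =>
      H.int.indicator (hms j)
    have hpt : ∀ x, Real.exp (min |inner ℝ θ x| (2 + (J : ℝ)) / 6) * h x ≤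
        Real.exp (1 / 3) * h x + ∑ j ∈ Finset.range J,
          (Real.exp ((3 + j) / 6) - Real.exp ((2 + j) / 6)) *
            {x : F | 2 + (j : ℝ) ≤ |inner ℝ θ x|}.indicator h x := by
      intro x
      have h1 := mul_le_mul_of_nonneg_right (layer |inner ℝ θ x| J) (H.pos x).le
      refine h1.trans (le_of_eq ?_)
      rw [add_mul, Finset.sum_mul]
      congr 1
      refine Finset.sum_congr rfl fun j _ => ?_
      rw [mul_assoc, hind]
    have hi1 : Integrable fun x => Real.exp (min |inner ℝ θ x| (2 + (J : ℝ)) / 6) * h x := by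
      refine hI.mono' ((hcJ J).measurable.mul H.cont.measurable).aestronglyMeasurable
        (Eventually.of_forall fun x => ?_)
      rw [Real.norm_eq_abs, abs_mul, abs_of_pos (Real.exp_pos _), abs_of_pos (H.pos x)]
      exact mul_le_mul_of_nonneg_right (hleJ J x) (H.pos x).le
    have hi2 : Integrable fun x => ∑ j ∈ Finset.range J,
          (Real.exp ((3 + j) / 6) - Real.exp ((2 + j) / 6)) *
            {x : F | 2 + (j : ℝ) ≤ |inner ℝ θ x|}.indicator h x :=
      integrable_finsetSum _ fun j _ => (hii j).const_mul _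
    calc ∫ x, Real.exp (min |inner ℝ θ x| (2 + (J : ℝ)) / 6) * h x
        ≤ ∫ x, (Real.exp (1 / 3) * h x + ∑ j ∈ Finset.range J,
          (Real.exp ((3 + j) / 6) - Real.exp ((2 + j) / 6)) *
            {x : F | 2 + (j : ℝ) ≤ |inner ℝ θ x|}.indicator h x) :=
          integral_mono hi1 ((H.int.const_mul _).add hi2) hpt
      _ = Real.exp (1 / 3) + ∑ j ∈ Finset.range J,
          (Real.exp ((3 + j) / 6) - Real.exp ((2 + j) / 6)) *
            ∫ x in {x : F | 2 + (j : ℝ) ≤ |inner ℝ θ x|}, h x := by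
          rw [integral_add (H.int.const_mul _) hi2, integral_const_mul, I.mass, mul_one,
            integral_finsetSum _ fun j _ => (hii j).const_mul _]
          congr 1
          refine Finset.sum_congr rfl fun j _ => ?_
          rw [integral_const_mul, integral_indicator (hms j)]
      _ ≤ _ := by
          gcongr with j hj
          · have : Real.exp ((2 + (j : ℝ)) / 6) ≤ Real.exp ((3 + j) / 6) :=
              Real.exp_le_exp.2 (by linarith)
            linarith
          · exact tail_bound H I hθ (by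
              have : (0 : ℝ) ≤ j := Nat.cast_nonneg j
              linarith)
  have hlim : Tendsto (fun J : ℕ => ∫ x, Real.exp (min |inner ℝ θ x| (2 + (J : ℝ)) / 6) * h x)
      atTop (𝓝 (∫ x, Real.exp (|inner ℝ θ x| / 6) * h x)) := by
    refine tendsto_integral_of_dominated_convergence
      (fun x => Real.exp (|inner ℝ θ x| / 6) * h x)
      (fun J => ((hcJ J).measurable.mul H.cont.measurable).aestronglyMeasurable) hI
      (fun J => Eventually.of_forall fun x => ?_) (Eventually.of_forall fun x => ?_)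
    · rw [Real.norm_eq_abs, abs_mul, abs_of_pos (Real.exp_pos _), abs_of_pos (H.pos x)]
      exact mul_le_mul_of_nonneg_right (hleJ J x) (H.pos x).le
    · refine tendsto_const_nhds.congr' ?_
      obtain ⟨J0, hJ0⟩ := exists_nat_ge |inner ℝ θ x|
      filter_upwards [eventually_ge_atTop J0] with J hJ'
      have h1 : |inner ℝ θ x| ≤ 2 + (J : ℝ) := by
        have : (J0 : ℝ) ≤ J := by exact_mod_cast hJ'
        linarith
      rw [min_eq_left h1]
  exact le_of_tendsto' hlim hJ

end Pool.Agent.Lib.MP_8d00da_gt.h97r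
end

section

/-!
# Moments
-/

namespace Pool.Agent.Lib.MP_8d00da_gt.h97r

open MeasureTheory Set Filter
open Pool.Agent.Lib.MP_8d00da_gt.h25 Pool.Agent.Lib.MP_8d00da_gt.h42
open Pool.Agent.Lib.MP_8d00da_gt.h42s Pool.Agent.Lib.MP_8d00da_gt.h42o
open scoped Topology NNReal

variable {F : Type*} [NormedAddCommGroup F] [InnerProductSpace ℝ F]
    [FiniteDimensional ℝ F] [MeasurableSpace F] [BorelSpace F]

variable {δ L : ℝ} {h : F → ℝ} {d e : ℕ} {b : OrthonormalBasis (Fin d ⊕ Fin e) ℝ F}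

/-- Weighted Cauchy-Schwarz inequality. -/
private lemma mom_cs {f g h : F → ℝ} (hh : ∀ x, 0 ≤ h x) (hf : Integrable fun x => f x ^ 2 * h x)
    (hg : Integrable fun x => g x ^ 2 * h x) (hfg : Integrable fun x => f x * g x * h x) :
    (∫ x, f x * g x * h x) ^ 2 ≤ (∫ x, f x ^ 2 * h x) * ∫ x, g x ^ 2 * h x := by
  have e1 : (fun x => (f x * Real.sqrt (h x)) ^ 2) = fun x => f x ^ 2 * h x := by
    ext x
    rw [mul_pow, Real.sq_sqrt (hh x)]
  have e2 : (fun x => (g x * Real.sqrt (h x)) ^ 2) = fun x => g x ^ 2 * h x := by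
    ext x
    rw [mul_pow, Real.sq_sqrt (hh x)]
  have e3 : (fun x => (f x * Real.sqrt (h x)) * (g x * Real.sqrt (h x))) =
      fun x => f x * g x * h x := by
    ext x
    have := Real.mul_self_sqrt (hh x)
    calc (f x * Real.sqrt (h x)) * (g x * Real.sqrt (h x)) =
        f x * g x * (Real.sqrt (h x) * Real.sqrt (h x)) := by ring
      _ = _ := by rw [this]
  have key := cs_int (μ := (volume : Measure F)) (a := fun x => f x * Real.sqrt (h x))
    (b := fun x => g x * Real.sqrt (h x)) (by rw [e1]; exact hf) (by rw [e2]; exact hg)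
    (by rw [e3]; exact hfg)
  rw [e1, e2, e3] at key
  exact key

private lemma mom_abs_inner {θ : F} (hθ : ‖θ‖ = 1) (x : F) : |inner ℝ θ x| ≤ ‖x‖ := by
  have := abs_real_inner_le_norm θ x
  rwa [hθ, one_mul] at this

private lemma mom_exp_le {y : ℝ} (hd : 1 ≤ d) (k : ℝ) (hk : 1 ≤ k) (x : F)
    (hy : y = rho b x / (k * d)) : Real.exp y ≤ 3 * Real.exp (1 * ‖x‖) := by
  have h1 := rho_le b x
  have h2 := one_le_rho b x
  have hd' : (1 : ℝ) ≤ d := by exact_mod_cast hd
  have h3 : y ≤ 1 + ‖x‖ := by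
    rw [hy, div_le_iff₀ (by positivity)]
    have h4 : (1 : ℝ) ≤ k * d := by nlinarith
    have h5 : 0 ≤ 1 + ‖x‖ := by positivity
    nlinarith
  have h6 : Real.exp y ≤ Real.exp (1 + ‖x‖) := Real.exp_le_exp.mpr h3
  rw [Real.exp_add] at h6
  have h7 := Real.exp_one_lt_d9
  have h8 := Real.exp_pos ‖x‖
  rw [one_mul]
  nlinarith

/-- `rho_le_sum`, Jensen `exp ((1/d) ∑ |X_i| / 6) ≤ (1/d) ∑ exp (|X_i| / 6)`, `exp_mom`:
the integral is `≤ exp (1/6) * 3 ≤ 4`. -/
theorem rho_mom (H : GW δ L h) (I : Iso h) (hd : 1 ≤ d) :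
    ∫ x, Real.exp (rho b x / (6 * d)) * h x ≤ 4 := by
  have hd' : (1 : ℝ) ≤ d := by exact_mod_cast hd
  have hd0 : (0 : ℝ) < d := by linarith
  have hi : ∀ i : Fin d, Integrable fun x => Real.exp (|inner ℝ (b (Sum.inl i)) x| / 6) * h x := by
    intro i
    refine H.int_exp (by fun_prop) (C := 1) (a := 1) fun x => ?_
    rw [abs_of_pos (Real.exp_pos _), one_mul, one_mul]
    have h1 := mom_abs_inner (b.orthonormal.1 (Sum.inl i)) x
    have h2 : 0 ≤ ‖x‖ := norm_nonneg x
    exact Real.exp_le_exp.mpr (by linarith)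
  have hpt : ∀ x, Real.exp (rho b x / (6 * d)) * h x ≤
      (6 / 5) * ((1 / d) * ∑ i : Fin d, Real.exp (|inner ℝ (b (Sum.inl i)) x| / 6) * h x) := by
    intro x
    have h1 := rho_le_sum b x
    have h2 : rho b x / (6 * d) ≤
        1 / 6 + ∑ i : Fin d, (1 / (d : ℝ)) * (|inner ℝ (b (Sum.inl i)) x| / 6) := by
      rw [div_le_iff₀ (by positivity)]
      have e1 : (1 / 6 + ∑ i : Fin d, (1 / (d : ℝ)) * (|inner ℝ (b (Sum.inl i)) x| / 6)) * (6 * d) =
          d + ∑ i : Fin d, |inner ℝ (b (Sum.inl i)) x| := by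
        rw [add_mul, Finset.sum_mul]
        congr 1
        · ring
        · refine Finset.sum_congr rfl fun i _ => ?_
          field_simp
      rw [e1]
      linarith
    have h3 : Real.exp (∑ i : Fin d, (1 / (d : ℝ)) * (|inner ℝ (b (Sum.inl i)) x| / 6)) ≤
        ∑ i : Fin d, (1 / (d : ℝ)) * Real.exp (|inner ℝ (b (Sum.inl i)) x| / 6) := by
      have := convexOn_exp.map_sum_le (t := (Finset.univ : Finset (Fin d)))
        (w := fun _ => 1 / (d : ℝ)) (p := fun i => |inner ℝ (b (Sum.inl i)) x| / 6)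
        (fun i _ => by positivity) (by simp [hd0.ne']) (fun i _ => mem_univ _)
      simpa [smul_eq_mul] using this
    have h4 : Real.exp (1 / 6 : ℝ) ≤ 6 / 5 := by
      have h5 : 1 - (1 / 6 : ℝ) ≤ Real.exp (-(1 / 6 : ℝ)) := by
        have := Real.add_one_le_exp (-(1 / 6 : ℝ))
        linarith
      rw [Real.exp_neg] at h5
      have h6 := Real.exp_pos (1 / 6 : ℝ)
      have h7 : (5 / 6 : ℝ) * Real.exp (1 / 6) ≤ 1 := by
        have := mul_le_mul_of_nonneg_right h5 h6.le
        rw [inv_mul_cancel₀ h6.ne'] at this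
        linarith
      linarith
    have h5 : Real.exp (rho b x / (6 * d)) ≤
        (6 / 5) * ∑ i : Fin d, (1 / (d : ℝ)) * Real.exp (|inner ℝ (b (Sum.inl i)) x| / 6) := by
      refine (Real.exp_le_exp.mpr h2).trans ?_
      rw [Real.exp_add]
      exact mul_le_mul h4 h3 (Real.exp_pos _).le (by norm_num)
    calc Real.exp (rho b x / (6 * d)) * h x ≤
        ((6 / 5) * ∑ i : Fin d, (1 / (d : ℝ)) * Real.exp (|inner ℝ (b (Sum.inl i)) x| / 6)) *
          h x := mul_le_mul_of_nonneg_right h5 (H.pos x).le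
      _ = _ := by
        rw [← Finset.mul_sum, ← Finset.sum_mul]
        ring
  have hint : Integrable fun x => (6 / 5) * ((1 / (d : ℝ)) *
      ∑ i : Fin d, Real.exp (|inner ℝ (b (Sum.inl i)) x| / 6) * h x) :=
    ((integrable_finset_sum _ fun i _ => hi i).const_mul _).const_mul _
  have hint0 : Integrable fun x => Real.exp (rho b x / (6 * d)) * h x := by
    have hm : Measurable fun x => Real.exp (rho b x / (6 * d)) :=
      (Real.continuous_exp.comp ((rho_cont b).div_const _)).measurable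
    refine H.int_exp hm (C := 3) (a := 1) fun x => ?_
    rw [abs_of_pos (Real.exp_pos _)]
    exact mom_exp_le hd 6 (by norm_num) x rfl
  refine (integral_mono hint0 hint hpt).trans ?_
  rw [integral_const_mul, integral_const_mul, integral_finset_sum _ fun i _ => hi i]
  have h6 : ∑ i : Fin d, ∫ x, Real.exp (|inner ℝ (b (Sum.inl i)) x| / 6) * h x ≤ d * 3 := by
    have := Finset.sum_le_sum (s := (Finset.univ : Finset (Fin d)))
      (fun i _ => exp_mom H I (b.orthonormal.1 (Sum.inl i)))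
    refine this.trans ?_
    simp
  have h7 : (1 / (d : ℝ)) * ∑ i : Fin d, ∫ x, Real.exp (|inner ℝ (b (Sum.inl i)) x| / 6) * h x ≤
      3 := by
    rw [one_div, inv_mul_le_iff₀ hd0]
    exact h6
  linarith

private lemma mom_int (H : GW δ L h) (hd : 1 ≤ d) (k : ℝ) (hk : 1 ≤ k) :
    Integrable fun x => Real.exp (rho b x / (k * d)) * h x := by
  have hm : Measurable fun x => Real.exp (rho b x / (k * d)) :=
    (Real.continuous_exp.comp ((rho_cont b).div_const _)).measurable
  refine H.int_exp hm (C := 3) (a := 1) fun x => ?_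
  rw [abs_of_pos (Real.exp_pos _)]
  exact mom_exp_le hd k hk x rfl

private lemma mom_sq (hd : 1 ≤ d) (x : F) :
    Real.exp (rho b x / (12 * d)) ^ 2 = Real.exp (rho b x / (6 * d)) := by
  have hd0 : (0 : ℝ) < d := by exact_mod_cast hd
  rw [← Real.exp_nat_mul]
  congr 1
  field_simp
  push_cast
  ring

private lemma mom_one (H : GW δ L h) (I : Iso h) (hd : 1 ≤ d) :
    ∫ x, Real.exp (rho b x / (12 * d)) * h x ≤ 2 := by
  have h1 := mom_cs (f := fun x => Real.exp (rho b x / (12 * d))) (g := fun _ => 1) (h := h)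
    (fun x => (H.pos x).le) (by
      simp only [mom_sq hd]
      exact mom_int H hd 6 (by norm_num)) (by simpa using H.int) (by
      simpa using mom_int H hd 12 (by norm_num))
  simp only [mom_sq hd, mul_one, one_pow, one_mul, I.mass] at h1
  have h2 := rho_mom (b := b) H I hd
  nlinarith [sq_nonneg (∫ x, Real.exp (rho b x / (12 * d)) * h x)]

private lemma mom_bd (H : GW δ L h) {u : F → ℝ} (hu : BL u) {φ : F → ℝ} (hφ : Continuous φ)
    {C a : ℝ} (hC : ∀ x, |φ x| ≤ C * Real.exp (a * ‖x‖)) :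
    Integrable fun x => u x * φ x * h x := by
  obtain ⟨⟨K, hK⟩, A, hA⟩ := hu
  have hA0 : 0 ≤ A := (abs_nonneg _).trans (hA 0)
  refine H.int_exp (hK.continuous.measurable.mul hφ.measurable) (C := A * C) (a := a) fun x => ?_
  rw [abs_mul, mul_assoc]
  exact mul_le_mul (hA x) (hC x) (abs_nonneg _) hA0

private lemma mom_split (H : GW δ L h) {u X : F → ℝ} (hu : BL u) (hX : Continuous X)
    (hd : 1 ≤ d) {C a : ℝ} (hC : ∀ x, |X x| ≤ C * Real.exp (a * ‖x‖)) (ha : 0 ≤ a) :
    (∫ x, u x * X x * h x) ^ 2 ≤ (∫ x, u x ^ 2 * (om b x * h x)) *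
      ∫ x, X x ^ 2 * Real.exp (rho b x / (12 * d)) * h x := by
  have hC0 : 0 ≤ C := by
    have h1 := (abs_nonneg _).trans (hC 0)
    simpa using h1
  have hE : ∀ x, om b x * Real.exp (rho b x / (12 * d)) = 1 := by
    intro x
    unfold om
    rw [← Real.exp_add, neg_add_cancel, Real.exp_zero]
  have hs : ∀ x, Real.sqrt (om b x) * Real.exp (rho b x / (24 * d)) = 1 := by
    intro x
    have hd0 : (0 : ℝ) < d := by exact_mod_cast hd
    have h1 : Real.sqrt (om b x) = Real.exp (-(rho b x / (24 * d))) := by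
      rw [Real.sqrt_eq_iff_mul_self_eq (om_pos b x).le (Real.exp_pos _).le, ← Real.exp_add]
      unfold om
      congr 1
      field_simp
      ring
    rw [h1, ← Real.exp_add, neg_add_cancel, Real.exp_zero]
  have hsq : ∀ x, Real.exp (rho b x / (24 * d)) ^ 2 = Real.exp (rho b x / (12 * d)) := by
    intro x
    have hd0 : (0 : ℝ) < d := by exact_mod_cast hd
    rw [← Real.exp_nat_mul]
    congr 1
    field_simp
    push_cast
    ring
  have hc : Continuous fun x => Real.exp (rho b x / (24 * d)) :=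
    Real.continuous_exp.comp ((rho_cont b).div_const _)
  have hc2 : Continuous fun x => Real.exp (rho b x / (12 * d)) :=
    Real.continuous_exp.comp ((rho_cont b).div_const _)
  obtain ⟨⟨K, hK⟩, A, hA⟩ := id hu
  have hA0 : 0 ≤ A := (abs_nonneg _).trans (hA 0)
  have e1 : (fun x => (u x * Real.sqrt (om b x)) ^ 2 * h x) = fun x => u x ^ 2 * (om b x * h x) := by
    ext x
    rw [mul_pow, Real.sq_sqrt (om_pos b x).le]
    ring
  have e2 : (fun x => (X x * Real.exp (rho b x / (24 * d))) ^ 2 * h x) =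
      fun x => X x ^ 2 * Real.exp (rho b x / (12 * d)) * h x := by
    ext x
    rw [mul_pow, hsq]
  have e3 : (fun x => (u x * Real.sqrt (om b x)) * (X x * Real.exp (rho b x / (24 * d))) * h x) =
      fun x => u x * X x * h x := by
    ext x
    calc (u x * Real.sqrt (om b x)) * (X x * Real.exp (rho b x / (24 * d))) * h x =
        u x * X x * (Real.sqrt (om b x) * Real.exp (rho b x / (24 * d))) * h x := by ring
      _ = _ := by rw [hs, mul_one]
  have i1 : Integrable fun x => u x ^ 2 * (om b x * h x) := by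
    have := H.bdd_int (φ := fun x => u x ^ 2 * om b x)
      ((hK.continuous.pow 2).mul (om_cont b)).measurable (M := A ^ 2 * 1) (fun x => by
        rw [abs_mul, abs_pow, abs_of_pos (om_pos b x)]
        exact mul_le_mul (pow_le_pow_left₀ (abs_nonneg _) (hA x) 2) (om_le_one b x)
          (om_pos b x).le (by positivity))
    simpa only [mul_assoc] using this
  have i2 : Integrable fun x => X x ^ 2 * Real.exp (rho b x / (12 * d)) * h x := by
    refine H.int_exp ((hX.pow 2).mul hc2).measurable (C := C ^ 2 * 3) (a := 2 * a + 1) fun x => ?_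
    rw [abs_mul, abs_pow, abs_of_pos (Real.exp_pos _)]
    have h1 := mom_exp_le (b := b) hd 12 (by norm_num) x rfl
    have h2 := pow_le_pow_left₀ (abs_nonneg _) (hC x) 2
    refine (mul_le_mul h2 h1 (Real.exp_pos _).le (by positivity)).trans (le_of_eq ?_)
    rw [mul_pow, ← Real.exp_nat_mul]
    have : Real.exp ((2 * a + 1) * ‖x‖) = Real.exp ((2 : ℕ) * (a * ‖x‖)) * Real.exp (1 * ‖x‖) := by
      rw [← Real.exp_add]
      congr 1
      push_cast
      ring
    rw [this]
    ring
  have i3 : Integrable fun x => u x * X x * h x := mom_bd H hu hX hC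
  have key := mom_cs (f := fun x => u x * Real.sqrt (om b x))
    (g := fun x => X x * Real.exp (rho b x / (24 * d))) (h := h) (fun x => (H.pos x).le)
    (by rw [e1]; exact i1) (by rw [e2]; exact i2) (by rw [e3]; exact i3)
  rw [e1, e2, e3] at key
  exact key

/-- Cauchy-Schwarz: `(∫ u h)² ≤ (∫ u² om h) (∫ om⁻¹ h)` and
`∫ om⁻¹ h ≤ (∫ om⁻² h)^(1/2) ≤ 2` (`rho_mom`, mass one). -/
theorem mean_om (H : GW δ L h) (I : Iso h) (hd : 1 ≤ d) {u : F → ℝ} (hu : BL u) :
    (∫ x, u x * h x) ^ 2 ≤ 2 * ∫ x, u x ^ 2 * (om b x * h x) := by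
  have h1 := mom_split (b := b) H hu (X := fun _ => (1 : ℝ)) continuous_const hd (C := 1) (a := 0)
    (fun x => by simp) le_rfl
  simp only [mul_one, one_pow, one_mul] at h1
  have h2 := mom_one (b := b) H I hd
  have h3 : 0 ≤ ∫ x, u x ^ 2 * (om b x * h x) := integral_nonneg fun x =>
    mul_nonneg (sq_nonneg _) (mul_nonneg (om_pos b x).le (H.pos x).le)
  nlinarith

/-- Cauchy-Schwarz: `(∫ u X h)² ≤ (∫ u² om h) (∫ X² om⁻¹ h)` with `X = ⟨θ, x⟩`, and
`∫ X² om⁻¹ h ≤ (∫ X⁴ h)^(1/2) (∫ om⁻² h)^(1/2)`, `X⁴ ≤ 24 * 6⁴ exp (|X| / 6)`, so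
`∫ X⁴ h ≤ 93312` and the product is `≤ 306 * 2 ≤ 1000`. -/
theorem lin_om (H : GW δ L h) (I : Iso h) (hd : 1 ≤ d) {u : F → ℝ} (hu : BL u) {θ : F}
    (hθ : ‖θ‖ = 1) :
    (∫ x, u x * inner ℝ θ x * h x) ^ 2 ≤ 1000 * ∫ x, u x ^ 2 * (om b x * h x) := by
  have hX : Continuous fun x : F => inner ℝ θ x := by fun_prop
  have hXe : ∀ x : F, ‖x‖ ≤ Real.exp ‖x‖ := fun x => by
    have := Real.add_one_le_exp ‖x‖
    linarith
  have h1 := mom_split (b := b) H hu hX hd (C := 1) (a := 1)
    (fun x => by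
      rw [one_mul, one_mul]
      exact (mom_abs_inner hθ x).trans (hXe x)) zero_le_one
  have h3 : 0 ≤ ∫ x, u x ^ 2 * (om b x * h x) := integral_nonneg fun x =>
    mul_nonneg (sq_nonneg _) (mul_nonneg (om_pos b x).le (H.pos x).le)
  have hc2 : Continuous fun x => Real.exp (rho b x / (12 * d)) :=
    Real.continuous_exp.comp ((rho_cont b).div_const _)
  have h4b : ∀ y : ℝ, 0 ≤ y → y ^ 4 ≤ 24 * Real.exp y := by
    intro y hy
    have := Real.pow_div_factorial_le_exp y hy 4
    norm_num [Nat.factorial] at this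
    linarith
  have hX4 : ∀ x : F, (inner ℝ θ x) ^ 4 ≤ 31104 * Real.exp (|inner ℝ θ x| / 6) := by
    intro x
    have h5 := h4b (|inner ℝ θ x| / 6) (by positivity)
    have h6 : (inner ℝ θ x) ^ 4 = 1296 * (|inner ℝ θ x| / 6) ^ 4 := by
      have : |inner ℝ θ x| ^ 4 = (inner ℝ θ x) ^ 4 := by
        rw [← abs_pow]
        exact abs_of_nonneg (by positivity)
      rw [div_pow, this]
      ring
    rw [h6]
    linarith
  have hie : Integrable fun x => Real.exp (|inner ℝ θ x| / 6) * h x := by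
    refine H.int_exp (by fun_prop) (C := 1) (a := 1) fun x => ?_
    rw [abs_of_pos (Real.exp_pos _), one_mul, one_mul]
    have h1 := mom_abs_inner hθ x
    have h2 : 0 ≤ ‖x‖ := norm_nonneg x
    exact Real.exp_le_exp.mpr (by linarith)
  have hi4 : Integrable fun x => (inner ℝ θ x) ^ 4 * h x := by
    refine (hie.const_mul 31104).mono' ((hX.pow 4).mul H.cont).aestronglyMeasurable
      (Eventually.of_forall fun x => ?_)
    rw [Real.norm_eq_abs, abs_of_nonneg (mul_nonneg (by positivity) (H.pos x).le), ← mul_assoc]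
    exact mul_le_mul_of_nonneg_right (hX4 x) (H.pos x).le
  have h5 : ∫ x, (inner ℝ θ x) ^ 4 * h x ≤ 93312 := by
    have h6 := exp_mom H I hθ
    have h7 : ∫ x, (inner ℝ θ x) ^ 4 * h x ≤
        ∫ x, 31104 * (Real.exp (|inner ℝ θ x| / 6) * h x) := by
      refine integral_mono hi4 (hie.const_mul _) fun x => ?_
      simp only
      rw [← mul_assoc]
      exact mul_le_mul_of_nonneg_right (hX4 x) (H.pos x).le
    rw [integral_const_mul] at h7
    linarith
  have i2 : Integrable fun x => (inner ℝ θ x) ^ 2 * Real.exp (rho b x / (12 * d)) * h x := by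
    refine H.int_exp ((hX.pow 2).mul hc2).measurable (C := 3) (a := 3) fun x => ?_
    rw [abs_mul, abs_pow, abs_of_pos (Real.exp_pos _)]
    have h1 := mom_exp_le (b := b) hd 12 (by norm_num) x rfl
    have h2 := pow_le_pow_left₀ (abs_nonneg _) ((mom_abs_inner hθ x).trans (hXe x)) 2
    refine (mul_le_mul h2 h1 (Real.exp_pos _).le (by positivity)).trans (le_of_eq ?_)
    rw [← Real.exp_nat_mul]
    have : Real.exp (3 * ‖x‖) = Real.exp ((2 : ℕ) * ‖x‖) * Real.exp (1 * ‖x‖) := by
      rw [← Real.exp_add]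
      congr 1
      push_cast
      ring
    rw [this]
    ring
  have e4 : (fun x => ((inner ℝ θ x) ^ 2) ^ 2 * h x) = fun x => (inner ℝ θ x) ^ 4 * h x := by
    ext x
    ring
  have h6 := mom_cs (f := fun x => (inner ℝ θ x) ^ 2)
    (g := fun x => Real.exp (rho b x / (12 * d))) (h := h)
    (fun x => (H.pos x).le) (by rw [e4]; exact hi4) (by
      simp only [mom_sq hd]
      exact mom_int H hd 6 (by norm_num)) i2
  rw [e4] at h6
  simp only [mom_sq hd] at h6
  have h7 := rho_mom (b := b) H I hd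
  have h8 : 0 ≤ ∫ x, Real.exp (rho b x / (6 * d)) * h x := integral_nonneg fun x =>
    mul_nonneg (Real.exp_pos _).le (H.pos x).le
  have h9 : 0 ≤ ∫ x, (inner ℝ θ x) ^ 4 * h x := integral_nonneg fun x =>
    mul_nonneg (by positivity) (H.pos x).le
  have h10 : (∫ x, (inner ℝ θ x) ^ 2 * Real.exp (rho b x / (12 * d)) * h x) ^ 2 ≤ 93312 * 4 :=
    h6.trans (mul_le_mul h5 h7 h8 (by norm_num))
  have h11 : ∫ x, (inner ℝ θ x) ^ 2 * Real.exp (rho b x / (12 * d)) * h x ≤ 1000 := by
    nlinarith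
  refine h1.trans ?_
  rw [mul_comm]
  exact mul_le_mul_of_nonneg_right h11 h3

/-- Cauchy-Schwarz after centring `w` (`∫ ⟨θ, x⟩ h = 0`, `∫ ⟨θ, x⟩² h ≤ 1`). -/
theorem lin_Vr (H : GW δ L h) (I : Iso h) {w : F → ℝ} (hw : BL w) {θ : F} (hθ : ‖θ‖ = 1) :
    (∫ x, w x * inner ℝ θ x * h x) ^ 2 ≤ Vr h w := by
  have hX : Continuous fun x : F => inner ℝ θ x := by fun_prop
  have hXe : ∀ x : F, ‖x‖ ≤ Real.exp ‖x‖ := fun x => by
    have := Real.add_one_le_exp ‖x‖
    linarith
  have hXb : ∀ x : F, |inner ℝ θ x| ≤ 1 * Real.exp (1 * ‖x‖) := fun x => by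
    rw [one_mul, one_mul]
    exact (mom_abs_inner hθ x).trans (hXe x)
  set c : ℝ := ∫ x, w x * h x with hc
  have hwc : BL fun x => w x - c := hw.sub (BL.const c)
  obtain ⟨⟨K, hK⟩, A, hA⟩ := id hw
  have i0 := H.int
  have i1 : Integrable fun x => w x * h x := H.bdd_int hK.continuous.measurable hA
  have i2 : Integrable fun x => w x ^ 2 * h x :=
    H.bdd_int (hK.continuous.measurable.pow_const 2) (M := A ^ 2) (fun x => by
      rw [abs_pow]
      exact pow_le_pow_left₀ (abs_nonneg _) (hA x) 2)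
  have iX : Integrable fun x => inner ℝ θ x * h x := H.int_exp hX.measurable hXb
  have iX2 : Integrable fun x => (inner ℝ θ x) ^ 2 * h x := by
    refine H.int_exp (hX.pow 2).measurable (C := 1) (a := 2) fun x => ?_
    rw [abs_pow]
    refine (pow_le_pow_left₀ (abs_nonneg _) (hXb x) 2).trans (le_of_eq ?_)
    rw [one_mul, one_mul, one_mul, ← Real.exp_nat_mul]
    norm_num
  have iwX : Integrable fun x => w x * inner ℝ θ x * h x := mom_bd H hw hX hXb
  have iwcX : Integrable fun x => (w x - c) * inner ℝ θ x * h x := mom_bd H hwc hX hXb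
  have e1 : ∫ x, (w x - c) * inner ℝ θ x * h x = ∫ x, w x * inner ℝ θ x * h x := by
    have : (fun x => (w x - c) * inner ℝ θ x * h x) =
        fun x => w x * inner ℝ θ x * h x - c * (inner ℝ θ x * h x) := by
      ext x
      ring
    rw [this, integral_sub iwX (iX.const_mul c), integral_const_mul, I.cen θ]
    ring
  have e2 : ∫ x, (w x - c) ^ 2 * h x = Vr h w := by
    have : (fun x => (w x - c) ^ 2 * h x) =
        fun x => w x ^ 2 * h x - 2 * c * (w x * h x) + c ^ 2 * h x := by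
      ext x
      ring
    have i4 : Integrable fun x => w x ^ 2 * h x - 2 * c * (w x * h x) := i2.sub (i1.const_mul _)
    rw [this, integral_add i4 (i0.const_mul _),
      integral_sub i2 (i1.const_mul _), integral_const_mul, integral_const_mul, I.mass, ← hc]
    unfold Vr
    rw [I.mass, ← hc]
    ring
  have i3 : Integrable fun x => (w x - c) ^ 2 * h x := by
    obtain ⟨⟨K', hK'⟩, A', hA'⟩ := id hwc
    exact H.bdd_int (hK'.continuous.measurable.pow_const 2) (M := A' ^ 2) (fun x => by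
      rw [abs_pow]
      exact pow_le_pow_left₀ (abs_nonneg _) (hA' x) 2)
  have key := mom_cs (f := fun x => w x - c) (g := fun x => inner ℝ θ x) (h := h)
    (fun x => (H.pos x).le) i3 iX2 iwcX
  rw [e1, e2] at key
  have h1 := I.iso θ
  rw [hθ] at h1
  have h2 : 0 ≤ Vr h w := by
    rw [← e2]
    exact integral_nonneg fun x => mul_nonneg (sq_nonneg _) (H.pos x).le
  nlinarith

end Pool.Agent.Lib.MP_8d00da_gt.h97r
end

section

/-!
# From the linearly invariant inequality to affine images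
-/

namespace Pool.Agent.Lib.MP_8d00da_gt.h97r

open MeasureTheory Set Filter
open Pool.Agent.Lib.MP_8d00da_gt.h25 Pool.Agent.Lib.MP_8d00da_gt.h42
open Pool.Agent.Lib.MP_8d00da_gt.h42s Pool.Agent.Lib.MP_8d00da_gt.h42o
open scoped Topology NNReal

variable {F : Type*} [NormedAddCommGroup F] [InnerProductSpace ℝ F]
    [FiniteDimensional ℝ F] [MeasurableSpace F] [BorelSpace F]

variable {n : ℕ} {E : Type*} [NormedAddCommGroup E] [InnerProductSpace ℝ E]
    [FiniteDimensional ℝ E] [MeasurableSpace E] [BorelSpace E]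

/-- Second moments of functionals of a centred weight increase when a constant is added. -/
private lemma rf_second {h : Vn n → ℝ} (h0 : ∀ x, 0 ≤ h x) (hm : Measurable h)
    (hcen : ∀ θ : Vn n, ∫ x, inner ℝ θ x * h x = 0) (hi : Integrable h)
    (hi2 : Integrable fun x => ‖x‖ ^ 2 * h x) (l : Vn n →L[ℝ] ℝ) (κ : ℝ) :
    ∫ x, (l x) ^ 2 * h x ≤ ∫ x, (l x + κ) ^ 2 * h x := by
  have hl2 : Integrable fun x : Vn n => (l x) ^ 2 * h x := by
    refine (hi2.const_mul (‖l‖ ^ 2)).mono' ((l.measurable.pow_const 2).mul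
      hm).aestronglyMeasurable (Eventually.of_forall fun x => ?_)
    rw [Real.norm_eq_abs, abs_of_nonneg (mul_nonneg (sq_nonneg _) (h0 x)), ← mul_assoc]
    refine mul_le_mul_of_nonneg_right ?_ (h0 x)
    rw [← mul_pow, ← sq_abs (l x), ← Real.norm_eq_abs]
    exact pow_le_pow_left₀ (norm_nonneg _) (l.le_opNorm x) 2
  have hl1 : Integrable fun x : Vn n => l x * h x := by
    refine (hi.add hl2).mono' (l.measurable.mul hm).aestronglyMeasurable
      (Eventually.of_forall fun x => ?_)
    simp only [Pi.add_apply]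
    rw [Real.norm_eq_abs, abs_mul, abs_of_nonneg (h0 x)]
    have h2 : |l x| ≤ 1 + l x ^ 2 := by
      rw [← sq_abs (l x)]
      nlinarith [sq_nonneg (|l x| - 1), abs_nonneg (l x)]
    have h5 := mul_le_mul_of_nonneg_right h2 (h0 x)
    linarith
  have hz : ∫ x : Vn n, l x * h x = 0 := by
    have h1 := hcen ((InnerProductSpace.toDual ℝ (Vn n)).symm l)
    simp only [InnerProductSpace.toDual_symm_apply] at h1
    exact h1
  have hexp : ∀ x, (l x + κ) ^ 2 * h x = (l x) ^ 2 * h x +
      ((2 * κ) * (l x * h x) + κ ^ 2 * h x) := fun x => by ring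
  simp only [hexp]
  have I23 : Integrable fun x : Vn n => (2 * κ) * (l x * h x) + κ ^ 2 * h x :=
    (hl1.const_mul _).add (hi.const_mul _)
  rw [integral_add hl2 I23, integral_add (hl1.const_mul _) (hi.const_mul _),
    integral_const_mul, integral_const_mul, hz]
  have h3 : 0 ≤ ∫ x, h x := integral_nonneg h0
  have h4 : 0 ≤ κ ^ 2 * ∫ x, h x := mul_nonneg (sq_nonneg _) h3
  linarith

/-- The proof of `h42o.final_of_QI` with `QJ` in place of `QI` (the only changes: for a bounded
Lipschitz `g` on `E` and `y`, `∫ (fderiv (g ∘ (T · + b)) y x)² h x dx = ∫ (D (T x))² h x dx` with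
`D = fderiv g (T y + b)`, and for every `φ : E →L[ℝ] ℝ`, as `∫ φ (T x) h = 0` and `∫ h = 1`,
`∫ (φ (T x))² h ≤ ∫ (φ (T x) + κ)² h ≤ (max D 0)² ‖φ‖²` by `h42s.lin_props`). -/
theorem final_of_QJ {C D' : ℝ} (hC : 0 ≤ C) {h : Vn n → ℝ} (h0 : ∀ x, 0 ≤ h x)
    (hm : Measurable h) (hcen : ∀ θ : Vn n, ∫ x, inner ℝ θ x * h x = 0) (hQ : QJ C h)
    {μ : Measure (Vn n)}
    (hμ : μ = volume.withDensity fun x => ENNReal.ofReal (h x)) [IsProbabilityMeasure μ]
    (hi2 : Integrable fun x => ‖x‖ ^ 2 * h x)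
    (T : Vn n →L[ℝ] E) (hT : Function.Surjective T) (b : E) {D : ℝ}
    (hD : LinPoincareWith (μ.map fun x => T x + b) D) (hCD : C ≤ D' ^ 2) (hD' : 0 ≤ D') :
    PoincareWith (μ.map fun x => T x + b) (D' * D) := by
  have hcont : Continuous fun x => T x + b := T.continuous.add continuous_const
  have hmeas : Measurable fun x => T x + b := hcont.measurable
  have hme : AEMeasurable (fun x => T x + b) μ := hmeas.aemeasurable
  have hprob : IsProbabilityMeasure (μ.map fun x => T x + b) :=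
    Measure.isProbabilityMeasure_map hme
  have hIm : ∀ g : Vn n → ℝ, ∫ x, g x ∂μ = ∫ x, g x * h x := integral_mu h0 hm hμ
  have hii : ∀ {g : Vn n → ℝ}, Integrable g μ ↔ Integrable fun x => g x * h x :=
    integrable_mu h0 hm hμ
  have hi : Integrable h := by
    have h1 : Integrable (fun _ : Vn n => (1 : ℝ)) μ := integrable_const 1
    rw [hii] at h1
    simpa using h1
  have hI1 : ∫ x, h x = 1 := by
    have h1 := hIm fun _ => 1
    simp only [one_mul, integral_const, probReal_univ, smul_eq_mul, mul_one] at h1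
    exact h1.symm
  have hM0 : 0 ≤ max D 0 := le_max_right _ _
  set M : ℝ := max D 0 with hM
  obtain ⟨c, -, hlin⟩ := lin_props hD
  have hA : ∀ v : E, ∫ x : Vn n, (inner ℝ v (T x) : ℝ) ^ 2 * h x ≤ M ^ 2 * ‖v‖ ^ 2 := by
    intro v
    obtain ⟨-, h2⟩ := hlin v
    have hvm : Measurable fun y : E => (inner ℝ v (y - c) : ℝ) :=
      (continuous_const.inner (continuous_id.sub continuous_const)).measurable
    rw [integral_map hme (hvm.pow_const 2).aestronglyMeasurable, hIm] at h2
    have h3 := rf_second h0 hm hcen hi hi2 ((innerSL ℝ v).comp T) (inner ℝ v (b - c))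
    have e : ∀ x, ((innerSL ℝ v).comp T) x + (inner ℝ v (b - c) : ℝ) =
        inner ℝ v (T x + b - c) := by
      intro x
      simp only [ContinuousLinearMap.comp_apply, innerSL_apply_apply]
      rw [← inner_add_right]
      congr 1
      abel
    simp only [e] at h3
    simp only [ContinuousLinearMap.comp_apply, innerSL_apply_apply] at h3
    exact h3.trans h2
  have hA' : ∀ φ : E →L[ℝ] ℝ, ∫ x : Vn n, (φ (T x)) ^ 2 * h x ≤ M ^ 2 * ‖φ‖ ^ 2 := by
    intro φ
    have h1 := hA ((InnerProductSpace.toDual ℝ E).symm φ)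
    simp only [InnerProductSpace.toDual_symm_apply, LinearIsometryEquiv.norm_map] at h1
    exact h1
  have hTlip : LipschitzWith ‖T‖₊ fun x => T x + b := by
    refine LipschitzWith.of_dist_le_mul fun x y => ?_
    rw [dist_add_right, dist_eq_norm, ← map_sub, dist_eq_norm]
    exact T.le_opNorm _
  -- bounded functions
  have hBL : ∀ (g : E → ℝ) (L : ℝ≥0), LipschitzWith L g → (∃ A : ℝ, ∀ y, |g y| ≤ A) →
      (∫ x, g (T x + b) ^ 2 * h x) - (∫ x, g (T x + b) * h x) ^ 2 ≤
        (D' * M) ^ 2 * ∫ x, ‖fderiv ℝ g (T x + b)‖ ^ 2 * h x := by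
    intro g L hgL hgA
    have hg : BL g := ⟨⟨L, hgL⟩, hgA⟩
    have h1 := hQ (fun x => g (T x + b)) (hg.comp hTlip)
    rw [hI1, mul_one] at h1
    refine h1.trans ?_
    have hbd : ∀ y, ‖fderiv ℝ g y‖ ≤ L := fun y => norm_fderiv_le_of_lipschitz ℝ hgL
    have hDae : ∀ᵐ x : Vn n, DifferentiableAt ℝ g (T x + b) := by
      have h3 : ∀ᵐ y : E, DifferentiableAt ℝ g y := hgL.ae_differentiableAt
      have h4 : ∀ᵐ y : E, DifferentiableAt ℝ g (y + b) :=
        (measurePreserving_add_right (volume : Measure E) b).quasiMeasurePreserving.ae h3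
      have hms : MeasurableSet {y : E | DifferentiableAt ℝ g (y + b)} :=
        (measurableSet_of_differentiableAt ℝ g).preimage (measurable_id.add_const b)
      exact (ae_comp_linearMap_mem_iff (L := (T : Vn n →ₗ[ℝ] E)) (μ := volume) (ν := volume)
        hT hms).2 h4
    have hintn : Integrable fun x => ‖fderiv ℝ g (T x + b)‖ ^ 2 * h x := by
      refine hi.bdd_mul (c := (L : ℝ) ^ 2)
        (((measurable_fderiv ℝ g).norm.comp hmeas).pow_const 2).aestronglyMeasurable
        (Eventually.of_forall fun x => ?_)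
      rw [Real.norm_eq_abs, abs_of_nonneg (sq_nonneg _)]
      exact pow_le_pow_left₀ (norm_nonneg _) (hbd _) 2
    have h3 : ∫ y, (∫ x, (fderiv ℝ (fun x => g (T x + b)) y x) ^ 2 * h x) * h y ≤
        ∫ y, M ^ 2 * (‖fderiv ℝ g (T y + b)‖ ^ 2 * h y) := by
      refine integral_mono_of_nonneg (Eventually.of_forall fun y => ?_) (hintn.const_mul _) ?_
      · exact mul_nonneg (integral_nonneg fun x => mul_nonneg (sq_nonneg _) (h0 x)) (h0 y)
      · filter_upwards [hDae] with y hy
        have h6 : HasFDerivAt (fun x => g (T x + b)) ((fderiv ℝ g (T y + b)).comp T) y :=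
          hy.hasFDerivAt.comp y (T.hasFDerivAt.add_const b)
        rw [h6.fderiv, ← mul_assoc]
        refine mul_le_mul_of_nonneg_right ?_ (h0 y)
        simp only [ContinuousLinearMap.comp_apply]
        exact hA' _
    rw [integral_const_mul] at h3
    have h5 : 0 ≤ ∫ x, ‖fderiv ℝ g (T x + b)‖ ^ 2 * h x :=
      integral_nonneg fun x => mul_nonneg (sq_nonneg _) (h0 x)
    calc C * ∫ y, (∫ x, (fderiv ℝ (fun x => g (T x + b)) y x) ^ 2 * h x) * h y ≤
        C * (M ^ 2 * ∫ x, ‖fderiv ℝ g (T x + b)‖ ^ 2 * h x) :=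
          mul_le_mul_of_nonneg_left h3 hC
      _ ≤ D' ^ 2 * (M ^ 2 * ∫ x, ‖fderiv ℝ g (T x + b)‖ ^ 2 * h x) :=
          mul_le_mul_of_nonneg_right hCD (mul_nonneg (sq_nonneg _) h5)
      _ = _ := by ring
  refine poincare_of_var hD' fun f L hf => ?_
  have hfm : Measurable f := hf.continuous.measurable
  set u : Vn n → ℝ := fun x => f (T x + b) with hu
  have hum : Measurable u := hfm.comp hmeas
  have hub : ∀ x, |u x| ≤ |f b| + (L * ‖T‖) * ‖x‖ := by
    intro x
    have h1 := hf.dist_le_mul (T x + b) b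
    rw [Real.dist_eq, dist_eq_norm, add_sub_cancel_right] at h1
    have h2 := T.le_opNorm x
    have h3 : |u x| ≤ |f b| + |u x - f b| := by
      have := abs_add_le (f b) (u x - f b)
      rwa [add_sub_cancel] at this
    have h4 : (L : ℝ) * ‖T x‖ ≤ L * (‖T‖ * ‖x‖) := mul_le_mul_of_nonneg_left h2 L.2
    have h5 : |u x - f b| ≤ L * ‖T x‖ := h1
    have h6 : (L : ℝ) * (‖T‖ * ‖x‖) = (L * ‖T‖) * ‖x‖ := by ring
    linarith
  have hu2 : Integrable fun x => u x ^ 2 * h x := by
    have h1 : Integrable fun x => (2 * |f b| ^ 2) * h x + (2 * (L * ‖T‖) ^ 2) * (‖x‖ ^ 2 * h x) :=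
      (hi.const_mul _).add (hi2.const_mul _)
    refine h1.mono' ((hum.pow_const 2).mul hm).aestronglyMeasurable
      (Eventually.of_forall fun x => ?_)
    rw [Real.norm_eq_abs, abs_of_nonneg (mul_nonneg (sq_nonneg _) (h0 x))]
    have h2 := hub x
    have h3 : u x ^ 2 ≤ 2 * |f b| ^ 2 + 2 * (L * ‖T‖) ^ 2 * ‖x‖ ^ 2 := by
      rw [← sq_abs (u x)]
      have h4 : |u x| ^ 2 ≤ (|f b| + (L * ‖T‖) * ‖x‖) ^ 2 :=
        pow_le_pow_left₀ (abs_nonneg _) h2 2
      nlinarith [sq_nonneg (|f b| - (L * ‖T‖) * ‖x‖)]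
    have h5 := mul_le_mul_of_nonneg_right h3 (h0 x)
    linarith
  have hu1 : Integrable fun x => u x * h x := by
    refine (hi.add hu2).mono' (hum.mul hm).aestronglyMeasurable (Eventually.of_forall fun x => ?_)
    simp only [Pi.add_apply]
    rw [Real.norm_eq_abs, abs_mul, abs_of_nonneg (h0 x)]
    have h2 : |u x| ≤ 1 + u x ^ 2 := by
      rw [← sq_abs (u x)]
      nlinarith [sq_nonneg (|u x| - 1), abs_nonneg (u x)]
    have h5 := mul_le_mul_of_nonneg_right h2 (h0 x)
    linarith
  -- truncation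
  set tr : ℕ → E → ℝ := fun k y => max (-(k : ℝ)) (min (f y) k) with htr
  have htrL : ∀ k, LipschitzWith L (tr k) := fun k => (hf.min_const (k : ℝ)).const_max (-(k : ℝ))
  have htrA : ∀ k y, |tr k y| ≤ k := by
    intro k y
    have hk : (0 : ℝ) ≤ k := Nat.cast_nonneg k
    rw [abs_le]
    exact ⟨le_max_left _ _, max_le (by linarith) (min_le_right _ _)⟩
  have htrf : ∀ k y, |tr k y| ≤ |f y| := by
    intro k y
    have hk : (0 : ℝ) ≤ k := Nat.cast_nonneg k
    rw [abs_le]
    constructor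
    · rcases le_total (f y) k with h1 | h1
      · refine le_trans (neg_abs_le (f y)) (le_trans ?_ (le_max_right _ _))
        rw [min_eq_left h1]
      · refine le_trans ?_ (le_max_right _ _)
        rw [min_eq_right h1]
        have := abs_nonneg (f y)
        linarith
    · refine max_le ?_ ((min_le_left _ _).trans (le_abs_self _))
      have := abs_nonneg (f y)
      linarith
  have hteq : ∀ (k : ℕ) y, |f y| ≤ k → tr k y = f y := by
    intro k y hk
    rw [abs_le] at hk
    simp only [htr]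
    rw [min_eq_left hk.2, max_eq_right hk.1]
  have htrm : ∀ k, Measurable fun x => tr k (T x + b) := fun k =>
    (htrL k).continuous.measurable.comp hmeas
  have hev : ∀ x, ∀ᶠ k : ℕ in atTop, |f (T x + b)| < k := by
    intro x
    obtain ⟨N, hN⟩ := exists_nat_gt |f (T x + b)|
    filter_upwards [eventually_ge_atTop N] with k hk
    exact hN.trans_le (by exact_mod_cast hk)
  have lim1 : Tendsto (fun k : ℕ => ∫ x, tr k (T x + b) ^ 2 * h x) atTop
      (𝓝 (∫ x, u x ^ 2 * h x)) := by
    refine tendsto_integral_of_dominated_convergence (fun x => u x ^ 2 * h x)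
      (fun k => (((htrm k).pow_const 2).mul hm).aestronglyMeasurable) hu2
      (fun k => Eventually.of_forall fun x => ?_) (Eventually.of_forall fun x => ?_)
    · rw [Real.norm_eq_abs, abs_of_nonneg (mul_nonneg (sq_nonneg _) (h0 x))]
      refine mul_le_mul_of_nonneg_right ?_ (h0 x)
      rw [← sq_abs, ← sq_abs (u x)]
      exact pow_le_pow_left₀ (abs_nonneg _) (htrf k _) 2
    · refine tendsto_const_nhds.congr' ?_
      filter_upwards [hev x] with k hk
      rw [hteq k _ hk.le]
  have lim2 : Tendsto (fun k : ℕ => ∫ x, tr k (T x + b) * h x) atTop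
      (𝓝 (∫ x, u x * h x)) := by
    refine tendsto_integral_of_dominated_convergence (fun x => |u x * h x|)
      (fun k => ((htrm k).mul hm).aestronglyMeasurable) hu1.abs
      (fun k => Eventually.of_forall fun x => ?_) (Eventually.of_forall fun x => ?_)
    · rw [Real.norm_eq_abs, abs_mul, abs_mul]
      exact mul_le_mul_of_nonneg_right (htrf k _) (abs_nonneg _)
    · refine tendsto_const_nhds.congr' ?_
      filter_upwards [hev x] with k hk
      rw [hteq k _ hk.le]
  have hbdk : ∀ k y, ‖fderiv ℝ (tr k) y‖ ≤ L := fun k y =>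
    norm_fderiv_le_of_lipschitz ℝ (htrL k)
  have lim3 : Tendsto (fun k : ℕ => ∫ x, ‖fderiv ℝ (tr k) (T x + b)‖ ^ 2 * h x) atTop
      (𝓝 (∫ x, ‖fderiv ℝ f (T x + b)‖ ^ 2 * h x)) := by
    refine tendsto_integral_of_dominated_convergence (fun x => (L : ℝ) ^ 2 * h x)
      (fun k => ((((measurable_fderiv ℝ (tr k)).norm.comp hmeas).pow_const 2).mul
        hm).aestronglyMeasurable) (hi.const_mul _)
      (fun k => Eventually.of_forall fun x => ?_) (Eventually.of_forall fun x => ?_)
    · rw [Real.norm_eq_abs, abs_of_nonneg (mul_nonneg (sq_nonneg _) (h0 x))]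
      exact mul_le_mul_of_nonneg_right (pow_le_pow_left₀ (norm_nonneg _) (hbdk k _) 2) (h0 x)
    · refine tendsto_const_nhds.congr' ?_
      filter_upwards [hev x] with k hk
      have h1 : ∀ᶠ y in 𝓝 (T x + b), |f y| < k :=
        (hf.continuous.abs.continuousAt).eventually_lt_const hk
      have h2 : tr k =ᶠ[𝓝 (T x + b)] f := by
        filter_upwards [h1] with y hy
        exact hteq k y hy.le
      rw [h2.fderiv_eq]
  have key := le_of_tendsto_of_tendsto' (lim1.sub (lim2.pow 2)) (lim3.const_mul ((D' * M) ^ 2))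
    (fun k => hBL (tr k) L (htrL k) ⟨k, htrA k⟩)
  -- conclusion
  have i1 : ∀ {φ : E → ℝ}, Measurable φ →
      ∫ y, φ y ∂(μ.map fun x => T x + b) = ∫ x, φ (T x + b) ∂μ := fun hφ =>
    integral_map hme hφ.aestronglyMeasurable
  have hmem : MemLp u 2 μ :=
    (memLp_two_iff_integrable_sq hum.aestronglyMeasurable).2 (hii.2 hu2)
  refine ⟨(memLp_map_measure_iff hfm.aestronglyMeasurable hme).2 hmem, ?_⟩
  rw [i1 hfm, i1 ((hfm.sub_const _).pow_const 2), i1 ((measurable_fderiv ℝ f).norm.pow_const 2)]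
  rw [hIm, hIm, hIm]
  refine le_trans (le_of_eq ?_) key
  set m : ℝ := ∫ x, f (T x + b) * h x with hmdef
  have h1 : ∀ x, (f (T x + b) - m) ^ 2 * h x =
      u x ^ 2 * h x - 2 * m * (u x * h x) + m ^ 2 * h x := fun x => by
    simp only [hu]
    ring
  simp only [h1]
  have hi12 : Integrable fun x => u x ^ 2 * h x - 2 * m * (u x * h x) := hu2.sub (hu1.const_mul _)
  rw [integral_add hi12 (hi.const_mul _), integral_sub hu2 (hu1.const_mul _),
    integral_const_mul, integral_const_mul, hI1]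
  have h2 : ∫ x, u x * h x = m := rfl
  rw [h2]
  ring

end Pool.Agent.Lib.MP_8d00da_gt.h97r
end
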