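import Mathlib
import Pool.Agent.Lib.MP_8d00da_gt.h97r.RFin
import Pool.Agent.Lib.MP_8d00da_gt.h97r.RGen

/-!
# Main theorem
-/

namespace Pool.Agent.Lib.MP_8d00da_gt.h97r

open MeasureTheory Set Filter
open Pool.Agent.Lib.MP_8d00da_gt.h25 Pool.Agent.Lib.MP_8d00da_gt.h42
open Pool.Agent.Lib.MP_8d00da_gt.h42s Pool.Agent.Lib.MP_8d00da_gt.h42o
open scoped Topology NNReal

variable {F : Type*} [NormedAddCommGroup F] [InnerProductSpace ℝ F]
    [FiniteDimensional ℝ F] [MeasurableSpace F] [BorelSpace F]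

variable {n : ℕ} {E : Type*} [NormedAddCommGroup E] [InnerProductSpace ℝ E]
    [FiniteDimensional ℝ E] [MeasurableSpace E] [BorelSpace E]

/-- Main theorem: `QJ_gen` and `final_of_QJ`. -/
theorem symmetric {h : Vn n → ℝ} (h0 : ∀ x, 0 ≤ h x) (hm : Measurable h) (hlc : LogConc h)
    {k : ℕ} (hk : 1 ≤ k) (hR : RefL k h) {μ : Measure (Vn n)}
    (hμ : μ = volume.withDensity fun x => ENNReal.ofReal (h x)) [IsProbabilityMeasure μ]
    (T : Vn n →L[ℝ] E) (hT : Function.Surjective T) (b : E) {D : ℝ}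
    (hD : LinPoincareWith (μ.map fun x => T x + b) D) :
    PoincareWith (μ.map fun x => T x + b) (1750 * (k : ℝ) ^ 3 * D) := by
  have hi : Integrable h := by
    have h1 : Integrable (fun _ : Vn n => (1 : ℝ)) μ := integrable_const 1
    rw [integrable_mu h0 hm hμ] at h1
    simpa using h1
  have hI1 : ∫ x, h x = 1 := by
    have h1 := integral_mu h0 hm hμ fun _ => 1
    simp only [one_mul, integral_const, probReal_univ, smul_eq_mul, mul_one] at h1
    exact h1.symm
  have hpos : 0 < ∫ x, h x := by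
    rw [hI1]
    exact one_pos
  have hi2 := second_moment h0 hm hlc hi hpos
  have hcen := sym_cen hR hpos hi fun θ => by
    refine ((hi.add hi2).const_mul ‖θ‖).mono'
      ((by fun_prop : Measurable fun x : Vn n => inner ℝ θ x).mul hm).aestronglyMeasurable
      (Eventually.of_forall fun x => ?_)
    rw [Real.norm_eq_abs, abs_mul, abs_of_nonneg (h0 x)]
    have h1 := abs_real_inner_le_norm θ x
    have h2 : ‖x‖ ≤ 1 + ‖x‖ ^ 2 := by nlinarith [sq_nonneg (‖x‖ - 1), norm_nonneg x]
    have h3 := mul_le_mul_of_nonneg_right (h1.trans (mul_le_mul_of_nonneg_left h2 (norm_nonneg θ)))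
      (h0 x)
    refine h3.trans (le_of_eq ?_)
    simp only [Pi.add_apply]
    ring
  refine final_of_QJ (C := 3050000 * (k : ℝ) ^ 6) (by positivity) h0 hm hcen
    (QJ_gen h0 hm hlc hi hpos hk hR) hμ hi2 T hT b hD ?_ (by positivity)
  have : (0 : ℝ) ≤ (k : ℝ) ^ 6 := by positivity
  nlinarith

end Pool.Agent.Lib.MP_8d00da_gt.h97r
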