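import Mathlib
import Pool.Agent.Lib.MP_8d00da_gt.h42s.BL
import Pool.Agent.Lib.MP_8d00da_gt.h25.Chain
import Pool.Agent.Lib.MP_8d00da_gt.h25.Op
import Pool.Agent.Lib.MP_8d00da_gt.h42o.ODefs
import Pool.Agent.Lib.MP_8d00da_gt.h97r.RDefs

section

/-!
# The energy of the derivatives of the round trip
-/

namespace Pool.Agent.Lib.MP_8d00da_gt.h42s

open MeasureTheory Set Filter
open Pool.Agent.Lib.MP_8d00da_gt.h25 Pool.Agent.Lib.MP_8d00da_gt.h42
open scoped Topology NNReal

variable {F : Type*} [NormedAddCommGroup F] [InnerProductSpace ℝ F]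
    [FiniteDimensional ℝ F] [MeasurableSpace F] [BorelSpace F] {n : ℕ}

theorem hess_bound {h : F → ℝ} {B η A : ℝ} {f : F → ℝ} {L : ℝ≥0} (H : Wt h B) (hi : Integrable h)
    (hη : 0 < η) (hf : LipschitzWith L f) (hA : ∀ x, |f x| ≤ A)
    {ι : Type*} [Fintype ι] (w : ι → F) {c : ℝ} (hc : 0 < c)
    (hframe : ∀ D : F →L[ℝ] ℝ, ∑ i, (D (w i)) ^ 2 = c * ‖D‖ ^ 2) :
    ∑ i, En h (fun x => fderiv ℝ (RT h η f) x (w i)) ≤
      (c / η) * (En h f - En h (RT h η f)) := by
  have hfm : Measurable f := hf.continuous.measurable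
  have hA0 : 0 ≤ A := (abs_nonneg _).trans (hA 0)
  set g := AA h η f with hg
  have hgL := H.AA_lip hη hfm hA0 hA
  rw [← hg] at hgL
  have hgA : ∀ y, |g y| ≤ A := H.AA_abs_le hη hfm hA
  have hgd : Differentiable ℝ g := H.AA_diff hη hfm hA
  have hgm : Measurable g := hgL.continuous.measurable
  set c0 : ℝ := ∫ z : F, ker η z with hc0d
  have hc0 : 0 < c0 := ker_int_pos hη
  set f1 := RT h η f with hf1
  have hf1d : Differentiable ℝ f1 := wt_one.AA_diff hη hgm hgA
  set L' : ℝ≥0 := Real.toNNReal (A * Real.sqrt (1 / η)) with hL'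
  set u : ι → F → ℝ := fun i y => fderiv ℝ g y (w i) with hu
  have hum : ∀ i, Measurable (u i) := fun i => measurable_fderiv_apply_const ℝ g (w i)
  have huL : ∀ i y, |u i y| ≤ L' * ‖w i‖ := by
    intro i y
    have h1 := (fderiv ℝ g y).le_opNorm (w i)
    rw [Real.norm_eq_abs] at h1
    exact h1.trans (mul_le_mul_of_nonneg_right (norm_fderiv_le_of_lipschitz ℝ hgL) (norm_nonneg _))
  have hM0 : ∀ i, 0 ≤ (L' : ℝ) * ‖w i‖ := fun i => by positivity
  have hfi : ∀ i, (fun x => fderiv ℝ f1 x (w i)) = SS η (u i) := by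
    intro i; ext x
    exact SS_fderiv hη hgL hgA hgd x (w i)
  have hsA : ∀ i x, |SS η (u i) x| ≤ L' * ‖w i‖ := fun i => wt_one.AA_abs_le hη (hum i) (huL i)
  have hsm : ∀ i, Measurable (SS η (u i)) := fun i =>
    (wt_one.AA_diff hη (hum i) (huL i)).continuous.measurable
  have hsL : ∀ i, LipschitzWith (Real.toNNReal (L' * ‖w i‖ * Real.sqrt (1 / η))) (SS η (u i)) :=
    fun i => wt_one.AA_lip hη (hum i) (hM0 i) (huL i)
  -- the conditional variances
  have hVe : ∀ i x, VV (fun _ => 1) η (u i) x =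
      cv η (fun y => u i y ^ 2) x - c0 * SS η (u i) x ^ 2 := by
    intro i x
    have h1 := wt_one.VV_eq hη (hum i) (huL i) x
    simp only [mul_one] at h1
    rw [cv_one, ← hc0d] at h1
    have h3 : AA (fun _ => 1) η (u i) x = SS η (u i) x := rfl
    rw [h3] at h1
    rw [h1]; ring
  have ia : ∀ i, Integrable fun x => h x * cv η (fun y => u i y ^ 2) x := fun i =>
    fub_int' hη hi H.meas ((hum i).pow_const 2) (Wt.sq_bdd (huL i))
  have ib : ∀ i, Integrable fun x => SS η (u i) x ^ 2 * h x := fun i =>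
    bdd_int hi ((hsm i).pow_const 2) (Wt.sq_bdd (hsA i))
  have iV : ∀ i, Integrable fun x => VV (fun _ => 1) η (u i) x * h x := by
    intro i
    refine ((ia i).sub ((ib i).const_mul c0)).congr (Eventually.of_forall fun x => ?_)
    simp only [Pi.sub_apply]
    rw [hVe i x]; ring
  have hEnV : ∀ i, c0 * En h (SS η (u i)) ≤ (1 / η) * ∫ x, VV (fun _ => 1) η (u i) x * h x := by
    intro i
    have ig : Integrable fun x => ‖fderiv ℝ (SS η (u i)) x‖ ^ 2 * h x :=
      bdd_int hi ((measurable_fderiv ℝ _).norm.pow_const 2) (sq_fderiv_bdd (hsL i))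
    unfold En
    rw [← integral_const_mul, ← integral_const_mul]
    refine integral_mono (ig.const_mul _) ((iV i).const_mul _) fun x => ?_
    have h1 := wt_one.grad_AA hη (hum i) (huL i) x
    rw [cv_one, ← hc0d] at h1
    have h2 := mul_le_mul_of_nonneg_right h1 (H.nonneg x)
    show c0 * (‖fderiv ℝ (AA (fun _ => 1) η (u i)) x‖ ^ 2 * h x) ≤
      1 / η * (VV (fun _ => 1) η (u i) x * h x)
    calc c0 * (‖fderiv ℝ (AA (fun _ => 1) η (u i)) x‖ ^ 2 * h x)
        = ‖fderiv ℝ (AA (fun _ => 1) η (u i)) x‖ ^ 2 * c0 * h x := by ring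
      _ ≤ 1 / η * VV (fun _ => 1) η (u i) x * h x := h2
      _ = _ := by ring
  -- the energy of `f1`
  have hE1 : c * En h f1 = ∑ i, ∫ x, SS η (u i) x ^ 2 * h x := by
    unfold En
    rw [← integral_const_mul, ← integral_finset_sum _ fun i _ => ib i]
    refine integral_congr_ae (Eventually.of_forall fun x => ?_)
    simp only
    rw [← Finset.sum_mul, ← mul_assoc, ← hframe]
    congr 1
    refine Finset.sum_congr rfl fun i _ => ?_
    rw [← congrFun (hfi i) x]
  have hG : c * ∫ x, h x * cv η (fun y => ‖fderiv ℝ g y‖ ^ 2) x =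
      (∑ i, ∫ x, VV (fun _ => 1) η (u i) x * h x) + c0 * (c * En h f1) := by
    rw [hE1, Finset.mul_sum, ← Finset.sum_add_distrib, ← integral_const_mul]
    have e0 : ∀ i, (∫ x, VV (fun _ => 1) η (u i) x * h x) + c0 * ∫ x, SS η (u i) x ^ 2 * h x =
        ∫ x, h x * cv η (fun y => u i y ^ 2) x := by
      intro i
      rw [← integral_const_mul, ← integral_add (iV i) ((ib i).const_mul _)]
      refine integral_congr_ae (Eventually.of_forall fun x => ?_)
      simp only
      rw [hVe i x]; ring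
    rw [Finset.sum_congr rfl fun i _ => e0 i, ← integral_finset_sum _ fun i _ => ia i]
    refine integral_congr_ae (Eventually.of_forall fun x => ?_)
    simp only
    rw [← Finset.mul_sum]
    have e1 : cv η (fun y => ∑ i, u i y ^ 2) x = ∑ i, cv η (fun y => u i y ^ 2) x := by
      unfold cv
      rw [← integral_finset_sum]
      · refine integral_congr_ae (Eventually.of_forall fun y => ?_)
        simp only
        rw [Finset.sum_mul]
      · intro i _
        exact cv_integrable hη ((hum i).pow_const 2) (Wt.sq_bdd (huL i)) x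
    rw [← e1]
    have e2 : (fun y => ∑ i, u i y ^ 2) = fun y => c * ‖fderiv ℝ g y‖ ^ 2 := by
      ext y; exact hframe _
    rw [e2]
    have e3 : cv η (fun y => c * ‖fderiv ℝ g y‖ ^ 2) x =
        c * cv η (fun y => ‖fderiv ℝ g y‖ ^ 2) x := by
      unfold cv
      rw [← integral_const_mul]
      refine integral_congr_ae (Eventually.of_forall fun y => ?_)
      simp only
      ring
    rw [e3]; ring
  set V : ℝ := ∑ i, ∫ x, VV (fun _ => 1) η (u i) x * h x with hV
  have hdm : Measurable fun x => ‖fderiv ℝ g x‖ ^ 2 := (measurable_fderiv ℝ _).norm.pow_const 2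
  have hGle : ∫ x, h x * cv η (fun y => ‖fderiv ℝ g y‖ ^ 2) x ≤ c0 * En h f := by
    rw [← fub_eq hη hi H.meas hdm (sq_fderiv_bdd hgL)]
    exact step_e' H hi hη hf hA
  have hcG : c * ∫ x, h x * cv η (fun y => ‖fderiv ℝ g y‖ ^ 2) x ≤ c * (c0 * En h f) :=
    mul_le_mul_of_nonneg_left hGle hc.le
  have hsumV : c0 * ∑ i, En h (SS η (u i)) ≤ (1 / η) * V := by
    rw [Finset.mul_sum, hV, Finset.mul_sum]
    exact Finset.sum_le_sum fun i _ => hEnV i
  have hVle : V ≤ c0 * (c * (En h f - En h f1)) := by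
    rw [hG] at hcG
    have : c0 * (c * (En h f - En h f1)) = c * (c0 * En h f) - c0 * (c * En h f1) := by ring
    rw [this]
    linarith
  have e0 : ∑ i, En h (fun x => fderiv ℝ f1 x (w i)) = ∑ i, En h (SS η (u i)) :=
    Finset.sum_congr rfl fun i _ => by rw [hfi i]
  rw [e0]
  refine le_of_mul_le_mul_left (a := c0) ?_ hc0
  calc c0 * ∑ i, En h (SS η (u i)) ≤ (1 / η) * V := hsumV
    _ ≤ (1 / η) * (c0 * (c * (En h f - En h f1))) :=
        mul_le_mul_of_nonneg_left hVle (by positivity)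
    _ = _ := by ring

theorem RT_dir {h : F → ℝ} {B η A : ℝ} {f : F → ℝ} {L : ℝ≥0} (H : Wt h B)
    (hη : 0 < η) (hf : LipschitzWith L f) (hA : ∀ x, |f x| ≤ A) (v : F) :
    Differentiable ℝ (RT h η f) ∧ BL (RT h η f) ∧ BL (fun x => fderiv ℝ (RT h η f) x v) ∧
      Differentiable ℝ (fun x => fderiv ℝ (RT h η f) x v) := by
  have hfm : Measurable f := hf.continuous.measurable
  have hA0 : 0 ≤ A := (abs_nonneg _).trans (hA 0)
  set g := AA h η f with hg
  have hgL := H.AA_lip hη hfm hA0 hA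
  rw [← hg] at hgL
  have hgA : ∀ y, |g y| ≤ A := H.AA_abs_le hη hfm hA
  have hgd : Differentiable ℝ g := H.AA_diff hη hfm hA
  have hgm : Measurable g := hgL.continuous.measurable
  set f1 := RT h η f with hf1
  have hf1d : Differentiable ℝ f1 := wt_one.AA_diff hη hgm hgA
  set L' : ℝ≥0 := Real.toNNReal (A * Real.sqrt (1 / η)) with hL'
  set u : F → ℝ := fun y => fderiv ℝ g y v with hu
  have hum : Measurable u := measurable_fderiv_apply_const ℝ g v
  have huL : ∀ y, |u y| ≤ L' * ‖v‖ := by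
    intro y
    have h1 := (fderiv ℝ g y).le_opNorm v
    rw [Real.norm_eq_abs] at h1
    exact h1.trans (mul_le_mul_of_nonneg_right (norm_fderiv_le_of_lipschitz ℝ hgL) (norm_nonneg _))
  have hM0 : 0 ≤ (L' : ℝ) * ‖v‖ := by positivity
  have hfi : (fun x => fderiv ℝ f1 x v) = SS η u := by
    ext x
    exact SS_fderiv hη hgL hgA hgd x v
  obtain ⟨hR1, L1, hR2⟩ := RT_props H hη hf hA
  refine ⟨hf1d, ⟨⟨L1, hR2⟩, A, hR1⟩, ?_, ?_⟩
  · rw [hfi]
    exact ⟨⟨_, wt_one.AA_lip hη hum hM0 huL⟩, _, wt_one.AA_abs_le hη hum huL⟩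
  · rw [hfi]
    exact wt_one.AA_diff hη hum huL

end Pool.Agent.Lib.MP_8d00da_gt.h42s
end

section

section

namespace Pool.Agent.Lib.MP_8d00da_gt.h42s
end Pool.Agent.Lib.MP_8d00da_gt.h42s


/-!
# The tilted weight: integrability, Poincaré inequality, integration by parts
-/

namespace Pool.Agent.Lib.MP_8d00da_gt.h42o

open MeasureTheory Set
open Filter hiding ker
open Pool.Agent.Lib.MP_8d00da_gt.h25 Pool.Agent.Lib.MP_8d00da_gt.h42
open Pool.Agent.Lib.MP_8d00da_gt.h42s
open scoped Topology NNReal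

variable {F : Type*} [NormedAddCommGroup F] [InnerProductSpace ℝ F]
    [FiniteDimensional ℝ F] [MeasurableSpace F] [BorelSpace F]

section O7

variable {h : F → ℝ} {B η : ℝ}

omit [InnerProductSpace ℝ F] [FiniteDimensional ℝ F] [MeasurableSpace F] [BorelSpace F] in
private lemma tilt_ker_le (hη : 0 < η) (y x : F) :
    (1 + ‖x‖ ^ 2) * ker η (y - x) ≤ (1 + 2 * ‖y‖ ^ 2 + 8 * η) * ker (2 * η) (y - x) := by
  set z := y - x with hz
  have h1 : ‖x‖ ^ 2 ≤ 2 * ‖y‖ ^ 2 + 2 * ‖z‖ ^ 2 := by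
    have h2 : ‖x‖ ≤ ‖y‖ + ‖z‖ := by
      have h3 : x = y - z := by rw [hz]; abel
      calc ‖x‖ = ‖y - z‖ := by rw [← h3]
        _ ≤ ‖y‖ + ‖z‖ := norm_sub_le _ _
    nlinarith [norm_nonneg x, norm_nonneg y, norm_nonneg z, sq_nonneg (‖y‖ - ‖z‖)]
  have h3 : ker η z = Real.exp (-(‖z‖ ^ 2 / (4 * η))) * ker (2 * η) z := by
    unfold ker
    rw [← Real.exp_add]
    congr 1
    field_simp
    ring
  set s := ‖z‖ ^ 2 / (4 * η) with hs
  have hs0 : 0 ≤ s := by positivity
  have hzs : ‖z‖ ^ 2 = 4 * η * s := by rw [hs]; field_simp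
  have h4 : s * Real.exp (-s) ≤ 1 := by
    rw [Real.exp_neg, ← div_eq_mul_inv, div_le_one (Real.exp_pos _)]
    linarith [Real.add_one_le_exp s]
  have h5 : Real.exp (-s) ≤ 1 := by
    rw [Real.exp_le_one_iff]
    linarith
  have h6 : 0 < ker (2 * η) z := ker_pos z
  rw [h3, ← mul_assoc]
  refine mul_le_mul_of_nonneg_right ?_ h6.le
  have h7 : 0 < Real.exp (-s) := Real.exp_pos _
  calc (1 + ‖x‖ ^ 2) * Real.exp (-s)
      ≤ (1 + (2 * ‖y‖ ^ 2 + 2 * ‖z‖ ^ 2)) * Real.exp (-s) := by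
        refine mul_le_mul_of_nonneg_right ?_ h7.le
        linarith
    _ = (1 + 2 * ‖y‖ ^ 2) * Real.exp (-s) + 8 * η * (s * Real.exp (-s)) := by
        rw [hzs]; ring
    _ ≤ (1 + 2 * ‖y‖ ^ 2) * 1 + 8 * η * 1 := by
        refine add_le_add (mul_le_mul_of_nonneg_left h5 (by positivity))
          (mul_le_mul_of_nonneg_left h4 (by positivity))
    _ = 1 + 2 * ‖y‖ ^ 2 + 8 * η := by ring

private lemma tilt_dom (H : Wt h B) (hη : 0 < η) (y : F) {φ : F → ℝ} {C : ℝ}
    (hC : ∀ x, |φ x| ≤ C * (1 + ‖x‖ ^ 2)) (x : F) :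
    ‖φ x * (h x * ker η (y - x))‖ ≤
      C * B * (1 + 2 * ‖y‖ ^ 2 + 8 * η) * ker (2 * η) (y - x) := by
  have hC0 : 0 ≤ C := by
    have h1 := hC 0
    rw [norm_zero] at h1
    have h2 := abs_nonneg (φ 0)
    nlinarith
  have hB := H.B_nonneg
  have hk : 0 < ker η (y - x) := ker_pos _
  rw [Real.norm_eq_abs, abs_mul, abs_mul, abs_of_pos hk, abs_of_nonneg (H.nonneg x)]
  calc |φ x| * (h x * ker η (y - x))
      ≤ (C * (1 + ‖x‖ ^ 2)) * (B * ker η (y - x)) :=
        mul_le_mul (hC x) (mul_le_mul_of_nonneg_right (H.bdd x) hk.le)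
          (mul_nonneg (H.nonneg x) hk.le) (by positivity)
    _ = C * B * ((1 + ‖x‖ ^ 2) * ker η (y - x)) := by ring
    _ ≤ C * B * ((1 + 2 * ‖y‖ ^ 2 + 8 * η) * ker (2 * η) (y - x)) :=
        mul_le_mul_of_nonneg_left (tilt_ker_le hη y x) (by positivity)
    _ = _ := by ring

lemma tilt_poly (H : Wt h B) (hη : 0 < η) (y : F) {φ : F → ℝ} (hφ : Measurable φ) {C : ℝ}
    (hC : ∀ x, |φ x| ≤ C * (1 + ‖x‖ ^ 2)) :
    Integrable fun x => φ x * (h x * ker η (y - x)) := by
  refine ((ker_sub_integrable (η := 2 * η) (by positivity) y).const_mul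
    (C * B * (1 + 2 * ‖y‖ ^ 2 + 8 * η))).mono' ?_
    (Eventually.of_forall fun x => tilt_dom H hη y hC x)
  exact (hφ.mul (H.meas.mul
    (ker_cont.measurable.comp (measurable_const.sub measurable_id)))).aestronglyMeasurable

/-- the truncation of a function -/
private noncomputable def tr (u : F → ℝ) (k : ℝ) (x : F) : ℝ := max (-k) (min (u x) k)

omit [NormedAddCommGroup F] [FiniteDimensional ℝ F] [MeasurableSpace F] [BorelSpace F] [InnerProductSpace ℝ F] in
private lemma tr_abs (u : F → ℝ) {k : ℝ} (hk : 0 ≤ k) (x : F) : |tr u k x| ≤ k := by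
  unfold tr
  rw [_root_.abs_le]
  exact ⟨le_max_left _ _, max_le (by linarith) (min_le_right _ _)⟩

omit [NormedAddCommGroup F] [FiniteDimensional ℝ F] [MeasurableSpace F] [BorelSpace F] [InnerProductSpace ℝ F] in
private lemma tr_abs_le (u : F → ℝ) {k : ℝ} (hk : 0 ≤ k) (x : F) : |tr u k x| ≤ |u x| := by
  unfold tr
  set t := u x
  rcases le_total t 0 with ht | ht
  · rw [min_eq_left (ht.trans hk)]
    rw [_root_.abs_le, abs_of_nonpos ht]
    refine ⟨?_, ?_⟩
    · have := le_max_right (-k) t; linarith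
    · exact max_le (by linarith) (by linarith)
  · have h0 : 0 ≤ min t k := le_min ht hk
    rw [max_eq_right (by linarith), abs_of_nonneg h0, abs_of_nonneg ht]
    exact min_le_left _ _

omit [NormedAddCommGroup F] [FiniteDimensional ℝ F] [MeasurableSpace F] [BorelSpace F] [InnerProductSpace ℝ F] in
private lemma tr_eq (u : F → ℝ) {k : ℝ} {x : F} (hx : |u x| ≤ k) : tr u k x = u x := by
  have h2 := _root_.abs_le.1 hx
  unfold tr
  rw [min_eq_left h2.2, max_eq_right h2.1]

omit [FiniteDimensional ℝ F] [MeasurableSpace F] [BorelSpace F] [InnerProductSpace ℝ F] in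
private lemma tr_lip {u : F → ℝ} {K : ℝ≥0} (hu : LipschitzWith K u) (k : ℝ) :
    LipschitzWith K (tr u k) := (hu.min_const k).const_max (-k)

/-- the Poincaré inequality of the tilted weight for unbounded Lipschitz functions -/
lemma tilt_poin (H : Wt h B) (hη : 0 < η) (y : F) {u : F → ℝ} {K : ℝ≥0} (hu : LipschitzWith K u)
    {c : ℝ} (hc : ∫ x, u x * (h x * ker η (y - x)) = c * ∫ x, h x * ker η (y - x)) :
    ∫ x, (u x - c) ^ 2 * (h x * ker η (y - x)) ≤
      η * ∫ x, ‖fderiv ℝ u x‖ ^ 2 * (h x * ker η (y - x)) := by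
  have hum : Measurable u := hu.continuous.measurable
  set ρ : F → ℝ := fun x => h x * ker η (y - x) with hρ
  have hρ0 : ∀ x, 0 ≤ ρ x := fun x => mul_nonneg (H.nonneg x) (ker_pos _).le
  have hρm : Measurable ρ := H.meas.mul
    (ker_cont.measurable.comp (measurable_const.sub measurable_id))
  have hρi : Integrable ρ := cv_integrable hη H.meas H.abs_le y
  have hZ : 0 < ∫ x, ρ x := H.Z_pos hη y
  -- growth
  set A : ℝ := |u 0| + K with hA
  have hA0 : 0 ≤ A := by positivity
  have hgr : ∀ x, |u x| ≤ A * (1 + ‖x‖) := by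
    intro x
    have h1 : |u x - u 0| ≤ K * ‖x‖ := by
      have := hu.dist_le_mul x 0
      rwa [Real.dist_eq, dist_zero_right] at this
    have h2 : |u x| ≤ |u x - u 0| + |u 0| := by
      have := abs_add_le (u x - u 0) (u 0)
      rwa [sub_add_cancel] at this
    have h3 := norm_nonneg x
    have h4 := abs_nonneg (u 0)
    have h5 : (0:ℝ) ≤ K := K.2
    nlinarith
  have hgr1 : ∀ x : F, 1 + ‖x‖ ≤ 2 * (1 + ‖x‖ ^ 2) := by
    intro x
    nlinarith [sq_nonneg (‖x‖ - 1), norm_nonneg x]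
  have hgr2 : ∀ x : F, (1 + ‖x‖) ^ 2 ≤ 2 * (1 + ‖x‖ ^ 2) := by
    intro x
    nlinarith [sq_nonneg (‖x‖ - 1)]
  have b1 : ∀ x, |u x| ≤ (2 * A) * (1 + ‖x‖ ^ 2) := by
    intro x
    have := mul_le_mul_of_nonneg_left (hgr1 x) hA0
    linarith [hgr x]
  have b2 : ∀ x, |u x ^ 2| ≤ (2 * A ^ 2) * (1 + ‖x‖ ^ 2) := by
    intro x
    rw [abs_pow]
    calc |u x| ^ 2 ≤ (A * (1 + ‖x‖)) ^ 2 := pow_le_pow_left₀ (abs_nonneg _) (hgr x) 2
      _ = A ^ 2 * (1 + ‖x‖) ^ 2 := by ring
      _ ≤ A ^ 2 * (2 * (1 + ‖x‖ ^ 2)) := mul_le_mul_of_nonneg_left (hgr2 x) (by positivity)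
      _ = _ := by ring
  have i1 : Integrable fun x => u x * ρ x := tilt_poly H hη y hum b1
  have i2 : Integrable fun x => u x ^ 2 * ρ x := tilt_poly H hη y (hum.pow_const 2) b2
  -- the truncations
  let U : ℕ → F → ℝ := fun k => tr u k
  have hUl : ∀ k, LipschitzWith K (U k) := fun k => tr_lip hu k
  have hUm : ∀ k, Measurable (U k) := fun k => (hUl k).continuous.measurable
  have hUa : ∀ k x, |U k x| ≤ k := fun k x => tr_abs u (Nat.cast_nonneg k) x
  have hUle : ∀ k x, |U k x| ≤ |u x| := fun k x => tr_abs_le u (Nat.cast_nonneg k) x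
  have hUev : ∀ x, ∀ᶠ k : ℕ in atTop, U k x = u x := by
    intro x
    obtain ⟨N, hN⟩ := exists_nat_ge |u x|
    filter_upwards [eventually_ge_atTop N] with k hk
    exact tr_eq u (hN.trans (by exact_mod_cast hk))
  have hUd : ∀ x, ∀ᶠ k : ℕ in atTop, fderiv ℝ (U k) x = fderiv ℝ u x := by
    intro x
    obtain ⟨N, hN⟩ := exists_nat_gt |u x|
    filter_upwards [eventually_ge_atTop N] with k hk
    have h1 : ∀ᶠ z in 𝓝 x, |u z| < N :=
      (hu.continuous.abs.tendsto x).eventually (gt_mem_nhds hN)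
    apply Filter.EventuallyEq.fderiv_eq
    filter_upwards [h1] with z hz
    exact tr_eq u (hz.le.trans (by exact_mod_cast hk))
  -- limits
  have l1 : Tendsto (fun k : ℕ => ∫ x, U k x * ρ x) atTop (𝓝 (∫ x, u x * ρ x)) := by
    refine tendsto_integral_of_dominated_convergence (fun x => ‖u x * ρ x‖)
      (fun k => ((hUm k).mul hρm).aestronglyMeasurable) i1.norm (fun k => ?_) ?_
    · refine Eventually.of_forall fun x => ?_
      rw [Real.norm_eq_abs, Real.norm_eq_abs, abs_mul, abs_mul (u x)]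
      exact mul_le_mul_of_nonneg_right (hUle k x) (abs_nonneg _)
    · refine Eventually.of_forall fun x => ?_
      refine tendsto_const_nhds.congr' ?_
      filter_upwards [hUev x] with k hk
      rw [hk]
  have l2 : Tendsto (fun k : ℕ => ∫ x, U k x ^ 2 * ρ x) atTop (𝓝 (∫ x, u x ^ 2 * ρ x)) := by
    refine tendsto_integral_of_dominated_convergence (fun x => ‖u x ^ 2 * ρ x‖)
      (fun k => (((hUm k).pow_const 2).mul hρm).aestronglyMeasurable) i2.norm (fun k => ?_) ?_
    · refine Eventually.of_forall fun x => ?_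
      rw [Real.norm_eq_abs, Real.norm_eq_abs, abs_mul, abs_mul (u x ^ 2), abs_pow, abs_pow]
      exact mul_le_mul_of_nonneg_right (pow_le_pow_left₀ (abs_nonneg _) (hUle k x) 2)
        (abs_nonneg _)
    · refine Eventually.of_forall fun x => ?_
      refine tendsto_const_nhds.congr' ?_
      filter_upwards [hUev x] with k hk
      rw [hk]
  have l3 : Tendsto (fun k : ℕ => ∫ x, ‖fderiv ℝ (U k) x‖ ^ 2 * ρ x) atTop
      (𝓝 (∫ x, ‖fderiv ℝ u x‖ ^ 2 * ρ x)) := by
    refine tendsto_integral_of_dominated_convergence (fun x => (K : ℝ) ^ 2 * ρ x)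
      (fun k => (((measurable_fderiv ℝ (U k)).norm.pow_const 2).mul hρm).aestronglyMeasurable)
      (hρi.const_mul _) (fun k => ?_) ?_
    · refine Eventually.of_forall fun x => ?_
      rw [Real.norm_eq_abs, abs_of_nonneg (mul_nonneg (by positivity) (hρ0 x))]
      exact mul_le_mul_of_nonneg_right (pow_le_pow_left₀ (norm_nonneg _)
        (norm_fderiv_le_of_lipschitz ℝ (hUl k)) 2) (hρ0 x)
    · refine Eventually.of_forall fun x => ?_
      refine tendsto_const_nhds.congr' ?_
      filter_upwards [hUd x] with k hk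
      rw [hk]
  set Z := ∫ x, ρ x with hZdef
  let a : ℕ → ℝ := fun k => AA h η (U k) y
  have ha : ∀ k, a k * Z = ∫ x, U k x * ρ x := by
    intro k
    have h1 := H.AA_mul hη (U k) y
    rw [← Wt.tilt_eq] at h1
    exact h1
  have la : Tendsto a atTop (𝓝 c) := by
    have h1 : a = fun k => (∫ x, U k x * ρ x) / Z := by
      funext k
      rw [← ha k, mul_div_cancel_right₀ _ hZ.ne']
    have h2 : c = (∫ x, u x * ρ x) / Z := by
      rw [hc, mul_div_cancel_right₀ _ hZ.ne']
    rw [h1, h2]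
    exact l1.div_const Z
  -- expansions
  have hexp : ∀ (w : F → ℝ) (m : ℝ), Integrable (fun x => w x * ρ x) →
      Integrable (fun x => w x ^ 2 * ρ x) →
      ∫ x, (w x - m) ^ 2 * ρ x =
        (∫ x, w x ^ 2 * ρ x) - 2 * m * (∫ x, w x * ρ x) + m ^ 2 * Z := by
    intro w m hw1 hw2
    have e : (fun x => (w x - m) ^ 2 * ρ x) =
        fun x => (w x ^ 2 * ρ x - (2 * m) * (w x * ρ x)) + m ^ 2 * ρ x := by
      ext x; ring
    have j1 : Integrable fun x => w x ^ 2 * ρ x - (2 * m) * (w x * ρ x) :=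
      hw2.sub (hw1.const_mul _)
    rw [e, integral_add j1 (hρi.const_mul _), integral_sub hw2 (hw1.const_mul _),
      integral_const_mul, integral_const_mul]
  have hk : ∀ k, (∫ x, U k x ^ 2 * ρ x) - 2 * a k * (∫ x, U k x * ρ x) + a k ^ 2 * Z ≤
      η * ∫ x, ‖fderiv ℝ (U k) x‖ ^ 2 * ρ x := by
    intro k
    have h1 := H.poin hη (hUl k) (hUa k) y
    rw [← Wt.tilt_eq] at h1
    have h2 : VV h η (U k) y = ∫ x, (U k x - a k) ^ 2 * ρ x := rfl
    rw [h2, hexp (U k) (a k) (H.tilt_integrable hη (hUm k) (hUa k) y)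
      (H.tilt_integrable hη ((hUm k).pow_const 2) (Wt.sq_bdd (hUa k)) y)] at h1
    exact h1
  rw [hexp u c i1 i2]
  refine le_of_tendsto_of_tendsto' ?_ (l3.const_mul η) hk
  exact (l2.sub ((la.const_mul 2).mul l1)).add ((la.pow 2).mul_const Z)

/-- integration by parts for the tilted weight -/
lemma tilt_ibp (H : Wt h B) (hη : 0 < η) {W : F → ℝ} (hW : ∀ x, h x = Real.exp (-W x))
    (hWd : Differentiable ℝ W) {L : ℝ} (hWL : ∀ x y, ‖fderiv ℝ W x - fderiv ℝ W y‖ ≤ L * ‖x - y‖)
    (y v : F) {u : F → ℝ} (hu : Differentiable ℝ u) {A A' : ℝ} (hA : ∀ x, |u x| ≤ A * (1 + ‖x‖))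
    (hA' : ∀ x, ‖fderiv ℝ u x‖ ≤ A') :
    ∫ x, fderiv ℝ u x v * (h x * ker η (y - x)) =
      ∫ x, u x * (fderiv ℝ W x v + inner ℝ (x - y) v / η) * (h x * ker η (y - x)) := by
  have hum : Measurable u := hu.continuous.measurable
  have hA0 : 0 ≤ A := by
    have h1 := hA 0
    rw [norm_zero] at h1
    have h2 := abs_nonneg (u 0)
    linarith
  set ρ : F → ℝ := fun x => h x * ker η (y - x) with hρ
  -- the derivative of the weight
  have hd : ∀ x, HasFDerivAt ρ
      (-(ρ x) • (fderiv ℝ W x + (1 / η) • (innerSL ℝ (x - y) : F →L[ℝ] ℝ))) x := by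
    intro x
    have h1 : HasFDerivAt h (Real.exp (-W x) • (-fderiv ℝ W x)) x := by
      have h2 := ((hWd x).hasFDerivAt.neg).exp
      refine h2.congr_of_eventuallyEq (Eventually.of_forall fun z => ?_)
      exact hW z
    have h3 : HasFDerivAt (fun x : F => ker η (y - x))
        (((-(1 / η) * ker η (y - x)) • (innerSL ℝ (y - x) : F →L[ℝ] ℝ)).comp
          (-(ContinuousLinearMap.id ℝ F))) x := by
      have h4 : HasFDerivAt (fun x : F => y - x) (-(ContinuousLinearMap.id ℝ F)) x :=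
        (hasFDerivAt_id x).const_sub y
      exact (ker_hasFDerivAt hη (y - x)).comp x h4
    have h5 := h1.mul h3
    refine h5.congr_fderiv ?_
    ext w
    have h6 : inner ℝ (y - x) w = -inner ℝ (x - y) w := by rw [← inner_neg_left, neg_sub]
    simp only [add_apply, smul_apply, neg_apply, ContinuousLinearMap.comp_apply,
      ContinuousLinearMap.id_apply, innerSL_apply_apply, smul_eq_mul, inner_neg_right, h6, hρ]
    rw [hW x]
    ring
  have hρd : Differentiable ℝ ρ := fun x => (hd x).differentiableAt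
  have hρf : ∀ x, fderiv ℝ ρ x v = -((fderiv ℝ W x v + inner ℝ (x - y) v / η) * ρ x) := by
    intro x
    rw [(hd x).fderiv]
    simp only [smul_apply, add_apply, innerSL_apply_apply, smul_eq_mul]
    ring
  -- growth
  have hgr1 : ∀ x : F, 1 + ‖x‖ ≤ 2 * (1 + ‖x‖ ^ 2) := by
    intro x
    nlinarith [sq_nonneg (‖x‖ - 1), norm_nonneg x]
  have hgr2 : ∀ x : F, (1 + ‖x‖) ^ 2 ≤ 2 * (1 + ‖x‖ ^ 2) := by
    intro x
    nlinarith [sq_nonneg (‖x‖ - 1)]
  set D : ℝ := (‖fderiv ℝ W 0‖ + |L|) * ‖v‖ + (1 + ‖y‖) * ‖v‖ / η with hD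
  have hD0 : 0 ≤ D := by positivity
  have hgrW : ∀ x, |fderiv ℝ W x v + inner ℝ (x - y) v / η| ≤ D * (1 + ‖x‖) := by
    intro x
    have h1 : ‖fderiv ℝ W x‖ ≤ (‖fderiv ℝ W 0‖ + |L|) * (1 + ‖x‖) := by
      have h2 : ‖fderiv ℝ W x‖ ≤ ‖fderiv ℝ W x - fderiv ℝ W 0‖ + ‖fderiv ℝ W 0‖ := by
        have := norm_add_le (fderiv ℝ W x - fderiv ℝ W 0) (fderiv ℝ W 0)
        rwa [sub_add_cancel] at this
      have h3 := hWL x 0
      rw [sub_zero] at h3
      have h4 : L * ‖x‖ ≤ |L| * ‖x‖ := mul_le_mul_of_nonneg_right (le_abs_self L) (norm_nonneg x)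
      have h5 := norm_nonneg x
      have h6 := norm_nonneg (fderiv ℝ W 0)
      have h7 := abs_nonneg L
      nlinarith
    have h8 : |fderiv ℝ W x v| ≤ (‖fderiv ℝ W 0‖ + |L|) * (1 + ‖x‖) * ‖v‖ := by
      have := (fderiv ℝ W x).le_opNorm v
      rw [Real.norm_eq_abs] at this
      exact this.trans (mul_le_mul_of_nonneg_right h1 (norm_nonneg v))
    have h9 : |inner ℝ (x - y) v / η| ≤ (1 + ‖y‖) * ‖v‖ / η * (1 + ‖x‖) := by
      rw [abs_div, abs_of_pos hη, div_mul_eq_mul_div]
      refine div_le_div_of_nonneg_right ?_ hη.le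
      have h10 := abs_real_inner_le_norm (x - y) v
      have h11 : ‖x - y‖ ≤ (1 + ‖y‖) * (1 + ‖x‖) := by
        have := norm_sub_le x y
        nlinarith [norm_nonneg x, norm_nonneg y, mul_nonneg (norm_nonneg x) (norm_nonneg y)]
      calc |inner ℝ (x - y) v| ≤ ‖x - y‖ * ‖v‖ := h10
        _ ≤ ((1 + ‖y‖) * (1 + ‖x‖)) * ‖v‖ := mul_le_mul_of_nonneg_right h11 (norm_nonneg v)
        _ = _ := by ring
    calc |fderiv ℝ W x v + inner ℝ (x - y) v / η|
        ≤ |fderiv ℝ W x v| + |inner ℝ (x - y) v / η| := abs_add_le _ _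
      _ ≤ _ := add_le_add h8 h9
      _ = D * (1 + ‖x‖) := by rw [hD]; ring
  have hWm : Measurable fun x => fderiv ℝ W x v + inner ℝ (x - y) v / η := by
    refine (measurable_fderiv_apply_const ℝ W v).add ?_
    exact (((continuous_id.sub continuous_const).inner continuous_const).div_const η).measurable
  have i1 : Integrable fun x => u x * ρ x := by
    refine tilt_poly H hη y hum (C := 2 * A) fun x => ?_
    have := mul_le_mul_of_nonneg_left (hgr1 x) hA0
    linarith [hA x]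
  have i2 : Integrable fun x => fderiv ℝ u x v * ρ x := by
    refine tilt_poly H hη y (measurable_fderiv_apply_const ℝ u v) (C := A' * ‖v‖) fun x => ?_
    have h1 := (fderiv ℝ u x).le_opNorm v
    rw [Real.norm_eq_abs] at h1
    have h2 : ‖fderiv ℝ u x‖ * ‖v‖ ≤ A' * ‖v‖ := mul_le_mul_of_nonneg_right (hA' x) (norm_nonneg v)
    have h3 : 0 ≤ A' * ‖v‖ := (mul_nonneg (norm_nonneg _) (norm_nonneg v)).trans h2
    nlinarith [sq_nonneg ‖x‖]
  have i3 : Integrable fun x => u x * (fderiv ℝ W x v + inner ℝ (x - y) v / η) * ρ x := by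
    refine tilt_poly H hη y (hum.mul hWm) (C := 2 * (A * D)) fun x => ?_
    rw [abs_mul]
    calc |u x| * |fderiv ℝ W x v + inner ℝ (x - y) v / η|
        ≤ (A * (1 + ‖x‖)) * (D * (1 + ‖x‖)) :=
          mul_le_mul (hA x) (hgrW x) (abs_nonneg _) ((abs_nonneg _).trans (hA x))
      _ = (A * D) * (1 + ‖x‖) ^ 2 := by ring
      _ ≤ (A * D) * (2 * (1 + ‖x‖ ^ 2)) :=
          mul_le_mul_of_nonneg_left (hgr2 x) (mul_nonneg hA0 hD0)
      _ = _ := by ring
  have i4 : Integrable fun x => u x * fderiv ℝ ρ x v := by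
    refine i3.neg.congr (Eventually.of_forall fun x => ?_)
    simp only [Pi.neg_apply]
    rw [hρf x]
    ring
  have key := integral_mul_fderiv_eq_neg_fderiv_mul_of_integrable (μ := (volume : Measure F))
    (f := u) (g := ρ) (v := v) i2 i4 i1 (fun x _ => hu x) (fun x _ => hρd x)
  have e1 : ∫ x, u x * fderiv ℝ ρ x v =
      -∫ x, u x * (fderiv ℝ W x v + inner ℝ (x - y) v / η) * ρ x := by
    rw [← integral_neg]
    refine integral_congr_ae (Eventually.of_forall fun x => ?_)
    change u x * fderiv ℝ ρ x v = -(u x * (fderiv ℝ W x v + inner ℝ (x - y) v / η) * ρ x)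
    rw [hρf x]
    ring
  rw [e1] at key
  linarith

end O7

end Pool.Agent.Lib.MP_8d00da_gt.h42o
end

section

/-!
# Theorem O, O-8: the pointwise inequality
-/

namespace Pool.Agent.Lib.MP_8d00da_gt.h42o

open MeasureTheory Set Filter
open Pool.Agent.Lib.MP_8d00da_gt.h25 Pool.Agent.Lib.MP_8d00da_gt.h42
open Pool.Agent.Lib.MP_8d00da_gt.h42s
open scoped Topology NNReal

set_option linter.unusedSectionVars false

variable {F : Type*} [NormedAddCommGroup F] [InnerProductSpace ℝ F]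
    [FiniteDimensional ℝ F] [MeasurableSpace F] [BorelSpace F]


/-- measurable functions of linear growth -/
private def LG (φ : F → ℝ) : Prop := Measurable φ ∧ ∃ C : ℝ, 0 ≤ C ∧ ∀ x, |φ x| ≤ C * (1 + ‖x‖)

private lemma LG.bdd {φ : F → ℝ} (hφ : Measurable φ) {A : ℝ} (hA : ∀ x, |φ x| ≤ A) : LG φ := by
  refine ⟨hφ, |A|, abs_nonneg _, fun x => (hA x).trans ((le_abs_self A).trans ?_)⟩
  have := abs_nonneg A
  have := norm_nonneg x
  nlinarith

private lemma LG.const (c : ℝ) : LG (fun _ : F => c) :=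
  LG.bdd measurable_const (A := |c|) fun _ => le_rfl

private lemma LG.add {φ ψ : F → ℝ} (hφ : LG φ) (hψ : LG ψ) : LG (fun x => φ x + ψ x) := by
  obtain ⟨h1, C, hC, h2⟩ := hφ
  obtain ⟨h3, C', hC', h4⟩ := hψ
  refine ⟨h1.add h3, C + C', add_nonneg hC hC', fun x => ?_⟩
  refine (abs_add_le _ _).trans ?_
  rw [add_mul]
  exact add_le_add (h2 x) (h4 x)

private lemma LG.smul {φ : F → ℝ} (hφ : LG φ) (c : ℝ) : LG (fun x => c * φ x) := by
  obtain ⟨h1, C, hC, h2⟩ := hφ
  refine ⟨h1.const_mul c, |c| * C, mul_nonneg (abs_nonneg _) hC, fun x => ?_⟩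
  rw [abs_mul, mul_assoc]
  exact mul_le_mul_of_nonneg_left (h2 x) (abs_nonneg _)

private lemma LG.sub {φ ψ : F → ℝ} (hφ : LG φ) (hψ : LG ψ) : LG (fun x => φ x - ψ x) := by
  have h := hφ.add (hψ.smul (-1))
  refine cast (congrArg LG ?_) h
  funext x; ring

private lemma LG.inner (v : F) : LG (fun x : F => inner ℝ v x) := by
  refine ⟨(innerSL ℝ v).continuous.measurable, ‖v‖, norm_nonneg _, fun x => ?_⟩
  refine (abs_real_inner_le_norm v x).trans ?_
  have := norm_nonneg v
  have := norm_nonneg x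
  nlinarith

private lemma LG.int2 {h : F → ℝ} {B η : ℝ} (H : Wt h B) (hη : 0 < η) (y : F) {φ ψ : F → ℝ}
    (hφ : LG φ) (hψ : LG ψ) : Integrable fun x => φ x * ψ x * (h x * ker η (y - x)) := by
  obtain ⟨h1, C, hC, h2⟩ := hφ
  obtain ⟨h3, C', hC', h4⟩ := hψ
  refine tilt_poly H hη y (φ := fun x => φ x * ψ x) (h1.mul h3) (C := 2 * (C * C')) fun x => ?_
  rw [abs_mul]
  have hx := norm_nonneg x
  calc |φ x| * |ψ x| ≤ (C * (1 + ‖x‖)) * (C' * (1 + ‖x‖)) :=
        mul_le_mul (h2 x) (h4 x) (abs_nonneg _) (by positivity)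
    _ = (C * C') * (1 + ‖x‖) ^ 2 := by ring
    _ ≤ (C * C') * (2 * (1 + ‖x‖ ^ 2)) := by
        refine mul_le_mul_of_nonneg_left ?_ (mul_nonneg hC hC')
        nlinarith [sq_nonneg (1 - ‖x‖)]
    _ = _ := by ring

private lemma LG.int1 {h : F → ℝ} {B η : ℝ} (H : Wt h B) (hη : 0 < η) (y : F) {φ : F → ℝ}
    (hφ : LG φ) : Integrable fun x => φ x * (h x * ker η (y - x)) := by
  have := hφ.int2 H hη y (LG.const 1)
  simpa using this

variable {h : F → ℝ} {B η : ℝ}

lemma pointwise (H : Wt h B) (hη : 0 < η) {W : F → ℝ} (hW : ∀ x, h x = Real.exp (-W x))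
    (hWd : Differentiable ℝ W) {L : ℝ} (hL : 0 ≤ L)
    (hWL : ∀ x y, ‖fderiv ℝ W x - fderiv ℝ W y‖ ≤ L * ‖x - y‖) {f : F → ℝ} (hf : BL f)
    (hfd : Differentiable ℝ f) (hfv : ∀ v, BL fun x => fderiv ℝ f x v) {ι : Type*} [Fintype ι]
    (b : OrthonormalBasis ι ℝ F) (y : F) :
    ∑ i, fderiv ℝ (AA h η f) y (b i) * cv η (fun x => fderiv ℝ f x (b i) * h x) y ≤
      (∑ i, AA h η (fun x => fderiv ℝ f x (b i)) y ^ 2 * cv η h y) +
        (η * L) * (Real.sqrt (∑ i, AA h η (fun x => fderiv ℝ f x (b i)) y ^ 2 * cv η h y) *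
          Real.sqrt (∑ i, VV h η (fun x => fderiv ℝ f x (b i)) y)) := by
  classical
  obtain ⟨⟨Lf, hfL⟩, Af, hfA⟩ := hf
  have hfm : Measurable f := hfL.continuous.measurable
  set ρ : F → ℝ := fun x => h x * ker η (y - x) with hρ
  have hρ0 : ∀ x, 0 ≤ ρ x := fun x => mul_nonneg (H.nonneg x) (ker_pos _).le
  set Z := cv η h y with hZdef
  have hZ : 0 < Z := H.Z_pos hη y
  have hZint : ∫ x, ρ x = Z := rfl
  set a := AA h η f y with ha
  -- the components of the gradient
  set D : ι → F → ℝ := fun i x => fderiv ℝ f x (b i) with hD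
  have hDm : ∀ i, Measurable (D i) := fun i => (hfv (b i)).1.choose_spec.continuous.measurable
  have hDB : ∀ i, ∃ A, ∀ x, |D i x| ≤ A := fun i => (hfv (b i)).2
  have hDG : ∀ i, LG (D i) := fun i => LG.bdd (hDm i) (hDB i).choose_spec
  set m : ι → ℝ := fun i => AA h η (D i) y with hm
  have hmZ : ∀ i, ∫ x, D i x * ρ x = m i * Z := by
    intro i
    rw [hρ, Wt.tilt_eq]
    exact (H.AA_mul hη (D i) y).symm
  have hcvm : ∀ i, cv η (fun x => fderiv ℝ f x (b i) * h x) y = m i * Z := by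
    intro i
    exact (H.AA_mul hη (D i) y).symm
  -- the mean gradient
  set mm : F := ∑ i, m i • b i with hmm
  have hmmi : ∀ i, inner ℝ mm (b i) = m i := by
    intro i
    rw [hmm, sum_inner]
    simp only [inner_smul_left, b.inner_eq_ite]
    simp
  have hmmn : ‖mm‖ ^ 2 = ∑ i, m i ^ 2 := by
    rw [← b.sum_sq_norm_inner_right mm]
    refine Finset.sum_congr rfl fun i _ => ?_
    rw [real_inner_comm, hmmi, Real.norm_eq_abs, sq_abs]
  have hlin : ∀ T : F →L[ℝ] ℝ, T mm = ∑ i, m i * T (b i) := by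
    intro T
    rw [hmm, map_sum]
    exact Finset.sum_congr rfl fun i _ => by rw [map_smul, smul_eq_mul]
  set Q := ∑ i, m i ^ 2 * Z with hQ
  have hQn : Q = ‖mm‖ ^ 2 * Z := by rw [hQ, ← Finset.sum_mul, hmmn]
  set V := ∑ i, VV h η (D i) y with hV
  have hVn : 0 ≤ V := Finset.sum_nonneg fun i _ => H.VV_nonneg
  -- growth
  have fG : LG (fun x => f x - a) := (LG.bdd hfm hfA).sub (LG.const a)
  have lipW : LipschitzWith (Real.toNNReal (L * ‖mm‖)) (fun x => fderiv ℝ W x mm) := by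
    refine LipschitzWith.of_dist_le_mul fun x x' => ?_
    rw [Real.dist_eq, dist_eq_norm, Real.coe_toNNReal _ (by positivity)]
    calc |fderiv ℝ W x mm - fderiv ℝ W x' mm| = ‖(fderiv ℝ W x - fderiv ℝ W x') mm‖ := by
          rw [Real.norm_eq_abs]; rfl
      _ ≤ ‖fderiv ℝ W x - fderiv ℝ W x'‖ * ‖mm‖ := ContinuousLinearMap.le_opNorm _ _
      _ ≤ L * ‖x - x'‖ * ‖mm‖ := mul_le_mul_of_nonneg_right (hWL x x') (norm_nonneg _)
      _ = L * ‖mm‖ * ‖x - x'‖ := by ring
  have WG : LG (fun x => fderiv ℝ W x mm) := by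
    refine ⟨lipW.continuous.measurable, |fderiv ℝ W 0 mm| + L * ‖mm‖, by positivity, fun x => ?_⟩
    have h1 := lipW.dist_le_mul x 0
    rw [Real.dist_eq, dist_zero_right, Real.coe_toNNReal _ (by positivity)] at h1
    have h2 : |fderiv ℝ W x mm| ≤ |fderiv ℝ W x mm - fderiv ℝ W 0 mm| + |fderiv ℝ W 0 mm| := by
      have := abs_add_le (fderiv ℝ W x mm - fderiv ℝ W 0 mm) (fderiv ℝ W 0 mm)
      rwa [sub_add_cancel] at this
    have h3 : 0 ≤ |fderiv ℝ W 0 mm| := abs_nonneg _
    have h4 : 0 ≤ L * ‖mm‖ := by positivity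
    have h5 := norm_nonneg x
    nlinarith [mul_nonneg h3 h5]
  have iG : LG (fun x : F => inner ℝ mm x) := LG.inner mm
  have iyG : LG (fun x : F => inner ℝ (x - y) mm) := by
    have h1 := iG.sub (LG.const (inner ℝ mm y))
    refine cast (congrArg LG ?_) h1
    funext x
    rw [← inner_sub_right, real_inner_comm]
  -- the constants
  have hfa : ∫ x, (f x - a) * ρ x = 0 := by
    have e : (fun x => (f x - a) * ρ x) = fun x => f x * ρ x - a * ρ x := by ext x; ring
    rw [e, integral_sub ((LG.bdd hfm hfA).int1 H hη y)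
      (((LG.const (1 : ℝ)).int1 H hη y).const_mul a |>.congr
        (Eventually.of_forall fun x => by simp only [one_mul]; rfl)), integral_const_mul, hZint]
    have h1 : ∫ x, f x * ρ x = a * Z := by
      rw [hρ, Wt.tilt_eq]; exact (H.AA_mul hη f y).symm
    rw [h1, sub_self]
  have hρi : Integrable ρ := by
    have := (LG.const (1 : ℝ)).int1 H hη y
    simpa using this
  set c0 : ℝ := (∫ x, inner ℝ mm x * ρ x) / Z with hc0
  have hc0Z : ∫ x, inner ℝ mm x * ρ x = c0 * Z := by rw [hc0, div_mul_cancel₀ _ hZ.ne']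
  set l : F → ℝ := fun x => inner ℝ mm x - c0 with hl
  have lG : LG l := iG.sub (LG.const c0)
  have hl0 : ∫ x, l x * ρ x = 0 := by
    have e : (fun x => l x * ρ x) = fun x => inner ℝ mm x * ρ x - c0 * ρ x := by
      ext x; rw [hl]; ring
    rw [e, integral_sub (iG.int1 H hη y) (hρi.const_mul c0), integral_const_mul, hZint, hc0Z,
      sub_self]
  set c1 : ℝ := (∫ x, fderiv ℝ W x mm * ρ x) / Z with hc1
  have hc1Z : ∫ x, fderiv ℝ W x mm * ρ x = c1 * Z := by rw [hc1, div_mul_cancel₀ _ hZ.ne']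
  set g : F → ℝ := fun x => (f x - a) - l x with hg
  have gG : LG g := fG.sub lG
  have hg0 : ∫ x, g x * ρ x = 0 := by
    have e : (fun x => g x * ρ x) = fun x => (f x - a) * ρ x - l x * ρ x := by
      ext x; rw [hg]; ring
    rw [e, integral_sub (fG.int1 H hη y) (lG.int1 H hη y), hfa, hl0, sub_self]
  -- the left side
  set T := ∫ x, (f x - a) * inner ℝ (x - y) mm * ρ x with hT
  have hLHS : ∑ i, fderiv ℝ (AA h η f) y (b i) * cv η (fun x => fderiv ℝ f x (b i) * h x) y =
      (1 / η) * T := by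
    have h1 := H.AA_fderiv hη hfm hfA y mm
    rw [← ha, ← hZdef] at h1
    have h2 : ∫ x, (f x - a) * (inner ℝ (x - y) mm * (h x * ker η (y - x))) = T := by
      rw [hT]
      refine integral_congr_ae (Eventually.of_forall fun x => ?_)
      simp only [hρ]; ring
    rw [h2] at h1
    rw [← h1, hlin, Finset.sum_mul]
    refine Finset.sum_congr rfl fun i _ => ?_
    rw [hcvm]; ring
  rw [hLHS]
  -- integration by parts for f - a
  have hQint : ∫ x, fderiv ℝ f x mm * ρ x = Q := by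
    have e : (fun x => fderiv ℝ f x mm * ρ x) = fun x => ∑ i, m i * (D i x * ρ x) := by
      ext x
      rw [hlin, Finset.sum_mul]
      exact Finset.sum_congr rfl fun i _ => by rw [hD]; ring
    rw [e, integral_finsetSum _ fun i _ => ((hDG i).int1 H hη y).const_mul (m i)]
    rw [hQ]
    refine Finset.sum_congr rfl fun i _ => ?_
    rw [integral_const_mul, hmZ]; ring
  have ibp1 : Q = (∫ x, (f x - a) * fderiv ℝ W x mm * ρ x) + (1 / η) * T := by
    have hd : Differentiable ℝ (fun x => f x - a) := hfd.sub_const a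
    have hfd' : ∀ x, fderiv ℝ (fun x => f x - a) x = fderiv ℝ f x := fun x => fderiv_sub_const a
    obtain ⟨C, hC0, hC⟩ := fG.2
    have key := tilt_ibp H hη hW hWd hWL y mm hd (A := C) (A' := Lf) hC
      (fun x => by rw [hfd']; exact norm_fderiv_le_of_lipschitz ℝ hfL)
    simp only [hfd'] at key
    have key' : Q = ∫ x, (f x - a) * (fderiv ℝ W x mm + inner ℝ (x - y) mm / η) * ρ x := by
      rw [← hQint]; exact key
    rw [key']
    have e : (fun x => (f x - a) * (fderiv ℝ W x mm + inner ℝ (x - y) mm / η) * ρ x) =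
        fun x => (f x - a) * fderiv ℝ W x mm * ρ x +
          (1 / η) * ((f x - a) * inner ℝ (x - y) mm * ρ x) := by
      ext x; ring
    rw [e, integral_add (fG.int2 H hη y WG) ((fG.int2 H hη y iyG).const_mul _), integral_const_mul]
  -- splitting
  have hsplit : ∫ x, (f x - a) * fderiv ℝ W x mm * ρ x =
      (∫ x, l x * fderiv ℝ W x mm * ρ x) + ∫ x, g x * fderiv ℝ W x mm * ρ x := by
    rw [← integral_add (lG.int2 H hη y WG) (gG.int2 H hη y WG)]
    refine integral_congr_ae (Eventually.of_forall fun x => ?_)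
    simp only [hg]; ring
  -- (1)
  have hlfd : ∀ x, fderiv ℝ l x = innerSL ℝ mm := by
    intro x
    have : HasFDerivAt l (innerSL ℝ mm : F →L[ℝ] ℝ) x :=
      ((innerSL ℝ mm).hasFDerivAt).sub_const c0
    exact this.fderiv
  have hld : Differentiable ℝ l := fun x =>
    (((innerSL ℝ mm).hasFDerivAt (x := x)).sub_const c0).differentiableAt
  have hifd : ∀ x, fderiv ℝ (fun x : F => inner ℝ mm x) x = innerSL ℝ mm := by
    intro x
    exact ((innerSL ℝ mm).hasFDerivAt (x := x)).fderiv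
  have part1 : 0 ≤ ∫ x, l x * fderiv ℝ W x mm * ρ x := by
    obtain ⟨C, hC0, hC⟩ := lG.2
    have key := tilt_ibp H hη hW hWd hWL y mm hld (A := C) (A' := ‖mm‖) hC
      (fun x => by rw [hlfd, innerSL_apply_norm])
    have e0 : ∫ x, fderiv ℝ l x mm * (h x * ker η (y - x)) = ‖mm‖ ^ 2 * Z := by
      simp only [hlfd, innerSL_apply_apply]
      rw [integral_const_mul, real_inner_self_eq_norm_sq]
      rfl
    rw [e0] at key
    have e1 : ∫ x, l x * (fderiv ℝ W x mm + inner ℝ (x - y) mm / η) * (h x * ker η (y - x)) =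
        (∫ x, l x * fderiv ℝ W x mm * ρ x) + (1 / η) * ∫ x, l x ^ 2 * ρ x := by
      have e2 : (fun x => l x * (fderiv ℝ W x mm + inner ℝ (x - y) mm / η) *
          (h x * ker η (y - x))) = fun x => (l x * fderiv ℝ W x mm * ρ x +
            (1 / η) * (l x * l x * ρ x)) + ((1 / η) * (c0 - inner ℝ mm y)) * (l x * ρ x) := by
        ext x
        have : inner ℝ (x - y) mm = l x + (c0 - inner ℝ mm y) := by
          rw [real_inner_comm, inner_sub_right, hl]; ring
        rw [this]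
        simp only [hρ]
        ring
      have i1 : Integrable fun x => l x * fderiv ℝ W x mm * ρ x := lG.int2 H hη y WG
      have i2 : Integrable fun x => (1 / η) * (l x * l x * ρ x) :=
        (lG.int2 H hη y lG).const_mul _
      have i3 : Integrable fun x => ((1 / η) * (c0 - inner ℝ mm y)) * (l x * ρ x) :=
        (lG.int1 H hη y).const_mul _
      have i12 : Integrable fun x => l x * fderiv ℝ W x mm * ρ x + (1 / η) * (l x * l x * ρ x) :=
        i1.add i2
      rw [e2, integral_add i12 i3, integral_add i1 i2, integral_const_mul, integral_const_mul,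
        hl0, mul_zero, add_zero]
      congr 2
      refine integral_congr_ae (Eventually.of_forall fun x => ?_)
      simp only; ring
    rw [e1] at key
    have hlip : LipschitzWith ‖mm‖₊ (fun x : F => inner ℝ mm x) := by
      refine LipschitzWith.of_dist_le_mul fun x x' => ?_
      rw [Real.dist_eq, ← inner_sub_right, dist_eq_norm]
      exact abs_real_inner_le_norm _ _
    have hp := tilt_poin H hη y hlip (c := c0) hc0Z
    simp only [hifd, innerSL_apply_norm] at hp
    rw [integral_const_mul] at hp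
    have hp' : ∫ x, l x ^ 2 * ρ x ≤ η * (‖mm‖ ^ 2 * Z) := hp
    have hp2 : (1 / η) * ∫ x, l x ^ 2 * ρ x ≤ ‖mm‖ ^ 2 * Z := by
      calc (1 / η) * ∫ x, l x ^ 2 * ρ x ≤ (1 / η) * (η * (‖mm‖ ^ 2 * Z)) :=
            mul_le_mul_of_nonneg_left hp' (by positivity)
        _ = _ := by field_simp
    linarith
  -- (2)
  have hgsq : ∫ x, g x ^ 2 * ρ x ≤ η * V := by
    have hlip : LipschitzWith (Lf + ‖mm‖₊) (fun x : F => f x - inner ℝ mm x) := by
      refine hfL.sub ?_
      refine LipschitzWith.of_dist_le_mul fun x x' => ?_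
      rw [Real.dist_eq, ← inner_sub_right, dist_eq_norm]
      exact abs_real_inner_le_norm _ _
    have hc : ∫ x, (f x - inner ℝ mm x) * (h x * ker η (y - x)) =
        (a - c0) * ∫ x, h x * ker η (y - x) := by
      have e : (fun x => (f x - inner ℝ mm x) * (h x * ker η (y - x))) =
          fun x => (f x - a) * ρ x + (-1) * (l x * ρ x) + (a - c0) * ρ x := by
        ext x; simp only [hl, hρ]; ring
      have i1 : Integrable fun x => (f x - a) * ρ x := fG.int1 H hη y
      have i2 : Integrable fun x => (-1) * (l x * ρ x) := (lG.int1 H hη y).const_mul _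
      have i12 : Integrable fun x => (f x - a) * ρ x + (-1) * (l x * ρ x) := i1.add i2
      rw [e, integral_add i12 (hρi.const_mul _), integral_add i1 i2, integral_const_mul,
        integral_const_mul, hfa, hl0]
      simp only [hρ]; ring
    have hp := tilt_poin H hη y hlip (c := a - c0) hc
    have e1 : ∫ x, (f x - inner ℝ mm x - (a - c0)) ^ 2 * (h x * ker η (y - x)) =
        ∫ x, g x ^ 2 * ρ x := by
      refine integral_congr_ae (Eventually.of_forall fun x => ?_)
      simp only [hg, hl, hρ]; ring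
    rw [e1] at hp
    refine hp.trans (le_of_eq ?_)
    congr 1
    have e2 : (fun x => ‖fderiv ℝ (fun x => f x - inner ℝ mm x) x‖ ^ 2 * (h x * ker η (y - x))) =
        fun x => ∑ i, (D i x - m i) ^ 2 * ρ x := by
      ext x
      have hfx : fderiv ℝ (fun x => f x - inner ℝ mm x) x = fderiv ℝ f x - innerSL ℝ mm := by
        have := (hfd x).hasFDerivAt.sub ((innerSL ℝ mm).hasFDerivAt (x := x))
        exact this.fderiv
      rw [hfx, norm_sq_fderiv b, Finset.sum_mul]
      refine Finset.sum_congr rfl fun i _ => ?_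
      have : (fderiv ℝ f x - innerSL ℝ mm) (b i) = D i x - m i := by
        rw [← hmmi i]; rfl
      rw [this]
    rw [e2, integral_finsetSum]
    · rfl
    · intro i _
      have hG : LG (fun x => D i x - m i) := (hDG i).sub (LG.const (m i))
      refine (hG.int2 H hη y hG).congr (Eventually.of_forall fun x => ?_)
      simp only [hρ]; ring
  have hWsq : ∫ x, (fderiv ℝ W x mm - c1) ^ 2 * ρ x ≤ η * (L ^ 2 * Q) := by
    have hp := tilt_poin H hη y lipW (c := c1) hc1Z
    refine hp.trans ?_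
    refine mul_le_mul_of_nonneg_left ?_ hη.le
    have hb : ∀ x, ‖fderiv ℝ (fun x => fderiv ℝ W x mm) x‖ ^ 2 ≤ (L * ‖mm‖) ^ 2 := by
      intro x
      refine pow_le_pow_left₀ (norm_nonneg _) ?_ 2
      have := norm_fderiv_le_of_lipschitz ℝ lipW (x₀ := x)
      rwa [Real.coe_toNNReal _ (by positivity)] at this
    have hmeas : Measurable fun x => ‖fderiv ℝ (fun x => fderiv ℝ W x mm) x‖ ^ 2 :=
      (measurable_fderiv ℝ _).norm.pow_const 2
    have hG : LG fun x => ‖fderiv ℝ (fun x => fderiv ℝ W x mm) x‖ ^ 2 :=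
      LG.bdd hmeas (A := (L * ‖mm‖) ^ 2) fun x => by
        rw [abs_of_nonneg (sq_nonneg _)]; exact hb x
    calc ∫ x, ‖fderiv ℝ (fun x => fderiv ℝ W x mm) x‖ ^ 2 * (h x * ker η (y - x))
        ≤ ∫ x, (L * ‖mm‖) ^ 2 * ρ x := by
          refine integral_mono (hG.int1 H hη y) (hρi.const_mul _) fun x => ?_
          exact mul_le_mul_of_nonneg_right (hb x) (hρ0 x)
      _ = L ^ 2 * Q := by rw [integral_const_mul, hZint, hQn]; ring
  have part2 : -(∫ x, g x * fderiv ℝ W x mm * ρ x) ≤ η * L * (Real.sqrt Q * Real.sqrt V) := by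
    have hWcG : LG (fun x => fderiv ℝ W x mm - c1) := WG.sub (LG.const c1)
    have e1 : ∫ x, g x * fderiv ℝ W x mm * ρ x =
        ∫ x, g x * (fderiv ℝ W x mm - c1) * ρ x := by
      have e2 : (fun x => g x * fderiv ℝ W x mm * ρ x) =
          fun x => g x * (fderiv ℝ W x mm - c1) * ρ x + c1 * (g x * ρ x) := by
        ext x; ring
      rw [e2, integral_add (gG.int2 H hη y hWcG) ((gG.int1 H hη y).const_mul _),
        integral_const_mul, hg0, mul_zero, add_zero]
    rw [e1]
    set s : F → ℝ := fun x => Real.sqrt (ρ x) with hs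
    have hss : ∀ x, s x ^ 2 = ρ x := fun x => Real.sq_sqrt (hρ0 x)
    have cs := cs_int (μ := volume) (a := fun x => g x * s x)
      (b := fun x => (fderiv ℝ W x mm - c1) * s x)
      (by
        refine (gG.int2 H hη y gG).congr (Eventually.of_forall fun x => ?_)
        simp only
        rw [mul_pow, hss]; simp only [hρ]; ring)
      (by
        refine (hWcG.int2 H hη y hWcG).congr (Eventually.of_forall fun x => ?_)
        simp only
        rw [mul_pow, hss]; simp only [hρ]; ring)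
      (by
        refine (gG.int2 H hη y hWcG).congr (Eventually.of_forall fun x => ?_)
        simp only
        have : g x * s x * ((fderiv ℝ W x mm - c1) * s x) =
          g x * (fderiv ℝ W x mm - c1) * s x ^ 2 := by ring
        rw [this, hss])
    have e3 : ∀ x, g x * s x * ((fderiv ℝ W x mm - c1) * s x) =
        g x * (fderiv ℝ W x mm - c1) * ρ x := fun x => by rw [← hss x]; ring
    have e4 : ∀ x, (g x * s x) ^ 2 = g x ^ 2 * ρ x := fun x => by rw [mul_pow, hss]
    have e5 : ∀ x, ((fderiv ℝ W x mm - c1) * s x) ^ 2 = (fderiv ℝ W x mm - c1) ^ 2 * ρ x :=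
      fun x => by rw [mul_pow, hss]
    simp_rw [e3, e4, e5] at cs
    have hQ0 : 0 ≤ Q := by rw [hQn]; positivity
    have h1 : (∫ x, g x * (fderiv ℝ W x mm - c1) * ρ x) ^ 2 ≤
        (η * L * (Real.sqrt Q * Real.sqrt V)) ^ 2 := by
      calc (∫ x, g x * (fderiv ℝ W x mm - c1) * ρ x) ^ 2
          ≤ (∫ x, g x ^ 2 * ρ x) * ∫ x, (fderiv ℝ W x mm - c1) ^ 2 * ρ x := cs
        _ ≤ (η * V) * (η * (L ^ 2 * Q)) := by
            refine mul_le_mul hgsq hWsq
              (integral_nonneg fun x => mul_nonneg (sq_nonneg _) (hρ0 x)) (by positivity)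
        _ = (η * L) ^ 2 * ((Real.sqrt Q) ^ 2 * (Real.sqrt V) ^ 2) := by
            rw [Real.sq_sqrt hQ0, Real.sq_sqrt hVn]; ring
        _ = _ := by ring
    have h2 := abs_le_of_sq_le_sq h1 (by positivity)
    exact (neg_le_abs _).trans (by simpa using h2)
  have hfin : (1 / η) * T = Q - (∫ x, l x * fderiv ℝ W x mm * ρ x) -
      ∫ x, g x * fderiv ℝ W x mm * ρ x := by
    rw [hsplit] at ibp1
    linarith
  rw [hfin]
  linarith

end Pool.Agent.Lib.MP_8d00da_gt.h42o
end

section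

/-!
# The Bochner type inequality for the round trip
-/

namespace Pool.Agent.Lib.MP_8d00da_gt.h42o

open MeasureTheory Set Filter
open Pool.Agent.Lib.MP_8d00da_gt.h25 Pool.Agent.Lib.MP_8d00da_gt.h42
open Pool.Agent.Lib.MP_8d00da_gt.h42s
open scoped Topology NNReal

variable {F : Type*} [NormedAddCommGroup F] [InnerProductSpace ℝ F]
    [FiniteDimensional ℝ F] [MeasurableSpace F] [BorelSpace F]

variable {h : F → ℝ} {B η : ℝ}

private lemma ob_amgm {κ θ s t : ℝ} (hθ : 0 < θ) :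
    κ * (s * t) ≤ κ ^ 2 / (2 * θ) * s ^ 2 + θ / 2 * t ^ 2 := by
  have h1 : 0 ≤ (κ * s - θ * t) ^ 2 / (2 * θ) := by positivity
  have h2 : (κ * s - θ * t) ^ 2 / (2 * θ) =
      κ ^ 2 / (2 * θ) * s ^ 2 + θ / 2 * t ^ 2 - κ * (s * t) := by
    field_simp
    ring
  linarith

lemma bochner_T (H : Wt h B) (hi : Integrable h) (hη : 0 < η) {W : F → ℝ}
    (hW : ∀ x, h x = Real.exp (-W x))
    (hWd : Differentiable ℝ W) {L : ℝ} (hL : 0 ≤ L)
    (hWL : ∀ x y, ‖fderiv ℝ W x - fderiv ℝ W y‖ ≤ L * ‖x - y‖) {f : F → ℝ} (hf : BL f)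
    (hfd : Differentiable ℝ f) (hfv : ∀ v, BL fun x => fderiv ℝ f x v) {ι : Type*} [Fintype ι]
    (b : OrthonormalBasis ι ℝ F) {θ : ℝ} (hθ : 0 < θ) :
    (∫ z : F, ker η z) * (∑ i, ∫ x, fderiv ℝ f x (b i) * fderiv ℝ (RT h η f) x (b i) * h x) +
        (1 - θ / 2) * ∑ i, ∫ y, VV h η (fun x => fderiv ℝ f x (b i)) y ≤
      (1 + (η * L) ^ 2 / (2 * θ)) * ((∫ z : F, ker η z) * En h f) := by
  obtain ⟨⟨Lf, hfL⟩, A, hA⟩ := id hf
  have hfm : Measurable f := hfL.continuous.measurable
  have hA0 : 0 ≤ A := (abs_nonneg _).trans (hA 0)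
  set g := AA h η f with hg
  have hgL := H.AA_lip hη hfm hA0 hA
  rw [← hg] at hgL
  have hgA : ∀ y, |g y| ≤ A := H.AA_abs_le hη hfm hA
  have hgd : Differentiable ℝ g := H.AA_diff hη hfm hA
  set c0 : ℝ := ∫ z : F, ker η z with hc0d
  have hc0 : 0 < c0 := ker_int_pos hη
  set D : ι → F → ℝ := fun i x => fderiv ℝ f x (b i) with hD
  set u : ι → F → ℝ := fun i y => fderiv ℝ g y (b i) with hu
  have hDm : ∀ i, Measurable (D i) := fun i => measurable_fderiv_apply_const ℝ f (b i)
  have hum : ∀ i, Measurable (u i) := fun i => measurable_fderiv_apply_const ℝ g (b i)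
  choose AD hAD using fun i => (hfv (b i)).2
  choose LD hLD using fun i => (hfv (b i)).1
  have hAD' : ∀ i x, |D i x| ≤ AD i := hAD
  have hLD' : ∀ i, LipschitzWith (LD i) (D i) := hLD
  set L' : ℝ≥0 := Real.toNNReal (A * Real.sqrt (1 / η)) with hL'
  have huL : ∀ i y, |u i y| ≤ L' * ‖b i‖ := by
    intro i y
    have h1 := (fderiv ℝ g y).le_opNorm (b i)
    rw [Real.norm_eq_abs] at h1
    exact h1.trans (mul_le_mul_of_nonneg_right (norm_fderiv_le_of_lipschitz ℝ hgL) (norm_nonneg _))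
  have iD : ∀ i, Integrable fun x => D i x * h x := fun i => bdd_int hi (hDm i) (hAD' i)
  have mD : ∀ i, Measurable fun x => D i x * h x := fun i => (hDm i).mul H.meas
  -- the mixed terms
  have hX : ∀ i, c0 * ∫ x, D i x * fderiv ℝ (RT h η f) x (b i) * h x =
      ∫ y, u i y * cv η (fun x => D i x * h x) y := by
    intro i
    rw [fub_eq hη (iD i) (mD i) (hum i) (huL i), ← integral_const_mul]
    refine integral_congr_ae (Eventually.of_forall fun x => ?_)
    have e1 : fderiv ℝ (RT h η f) x (b i) = SS η (u i) x := SS_fderiv hη hgL hgA hgd x (b i)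
    simp only
    rw [e1, ← SS_mul hη (u i) x]
    ring
  have iu : ∀ i, Integrable fun y => u i y * cv η (fun x => D i x * h x) y := fun i =>
    fub_int hη (iD i) (mD i) (hum i) (huL i)
  have iV : ∀ i, Integrable (VV h η (D i)) := fun i => VV_int H hi hη (hLD' i) (hAD' i)
  have hdm : Measurable fun x => ‖fderiv ℝ f x‖ ^ 2 := (measurable_fderiv ℝ f).norm.pow_const 2
  have ig : Integrable fun x => ‖fderiv ℝ f x‖ ^ 2 * h x := bdd_int hi hdm (sq_fderiv_bdd hfL)
  have ic : Integrable (cv η fun x => ‖fderiv ℝ f x‖ ^ 2 * h x) :=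
    fub_one_int hη ig (hdm.mul H.meas)
  set κ : ℝ := η * L with hκ
  -- the pointwise inequality
  have pt : ∀ y, (∑ i, u i y * cv η (fun x => D i x * h x) y) + (1 - θ / 2) * ∑ i, VV h η (D i) y ≤
      (1 + κ ^ 2 / (2 * θ)) * cv η (fun x => ‖fderiv ℝ f x‖ ^ 2 * h x) y := by
    intro y
    have h1 := pointwise H hη hW hWd hL hWL hf hfd hfv b y
    set P : ℝ := ∑ i, AA h η (D i) y ^ 2 * cv η h y with hP
    set V : ℝ := ∑ i, VV h η (D i) y with hV
    have hP0 : 0 ≤ P := Finset.sum_nonneg fun i _ => mul_nonneg (sq_nonneg _) (H.Z_pos hη y).le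
    have hV0 : 0 ≤ V := Finset.sum_nonneg fun i _ => H.VV_nonneg
    have hPV : cv η (fun x => ‖fderiv ℝ f x‖ ^ 2 * h x) y = V + P := by
      rw [hP, hV, ← Finset.sum_add_distrib]
      have e1 : ∀ i, VV h η (D i) y + AA h η (D i) y ^ 2 * cv η h y =
          cv η (fun x => D i x ^ 2 * h x) y := fun i => (H.VV_eq hη (hDm i) (hAD' i) y).symm
      rw [Finset.sum_congr rfl fun i _ => e1 i]
      unfold cv
      rw [← integral_finsetSum]
      · refine integral_congr_ae (Eventually.of_forall fun x => ?_)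
        simp only
        rw [← Finset.sum_mul, ← Finset.sum_mul, norm_sq_fderiv b]
      · intro i _
        exact cv_integrable hη (((hDm i).pow_const 2).mul H.meas)
          (H.mul_bdd (Wt.sq_bdd (hAD' i))) y
    have h2 := ob_amgm (κ := κ) (s := Real.sqrt P) (t := Real.sqrt V) hθ
    rw [Real.sq_sqrt hP0, Real.sq_sqrt hV0] at h2
    have h3 : 0 ≤ κ ^ 2 / (2 * θ) * V := by positivity
    rw [hPV]
    have h4 : (∑ i, u i y * cv η (fun x => D i x * h x) y) ≤
        P + κ * (Real.sqrt P * Real.sqrt V) := h1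
    linarith
  have iS : Integrable fun y => ∑ i, u i y * cv η (fun x => D i x * h x) y :=
    integrable_finsetSum _ fun i _ => iu i
  have iSV : Integrable fun y => ∑ i, VV h η (D i) y := integrable_finsetSum _ fun i _ => iV i
  have key := integral_mono (iS.add (iSV.const_mul (1 - θ / 2)))
    (ic.const_mul (1 + κ ^ 2 / (2 * θ))) pt
  have e2 : ∫ y, ((∑ i, u i y * cv η (fun x => D i x * h x) y) +
      (1 - θ / 2) * ∑ i, VV h η (D i) y) =
      (∑ i, ∫ y, u i y * cv η (fun x => D i x * h x) y) +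
        (1 - θ / 2) * ∑ i, ∫ y, VV h η (D i) y := by
    rw [integral_add iS (iSV.const_mul _), integral_const_mul,
      integral_finsetSum _ fun i _ => iu i, integral_finsetSum _ fun i _ => iV i]
  have e3 : ∫ y, (1 + κ ^ 2 / (2 * θ)) * cv η (fun x => ‖fderiv ℝ f x‖ ^ 2 * h x) y =
      (1 + κ ^ 2 / (2 * θ)) * (c0 * En h f) := by
    rw [integral_const_mul, fub_one hη ig (hdm.mul H.meas)]
    rfl
  have key2 : (∑ i, ∫ y, u i y * cv η (fun x => D i x * h x) y) +
        (1 - θ / 2) * ∑ i, ∫ y, VV h η (D i) y ≤ (1 + κ ^ 2 / (2 * θ)) * (c0 * En h f) := by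
    rw [← e2, ← e3]
    exact key
  rw [Finset.mul_sum, Finset.sum_congr rfl fun i _ => hX i]
  exact key2

theorem bochner (H : Wt h B) (hi : Integrable h) (hη : 0 < η) {W : F → ℝ}
    (hW : ∀ x, h x = Real.exp (-W x))
    (hWd : Differentiable ℝ W) {L : ℝ} (hL : 0 ≤ L)
    (hWL : ∀ x y, ‖fderiv ℝ W x - fderiv ℝ W y‖ ≤ L * ‖x - y‖) {f : F → ℝ} (hf : BL f)
    (hfd : Differentiable ℝ f) (hfv : ∀ v, BL fun x => fderiv ℝ f x v) {ι : Type*} [Fintype ι]
    (b : OrthonormalBasis ι ℝ F) {θ : ℝ} (hθ : 0 < θ) {lam ε : ℝ} (hlam : 0 ≤ lam) (hε : 0 ≤ ε)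
    (hP : ∀ s : ℝ, lam * ∫ x, (f x + s * RT h η f x) ^ 2 * h x ≤
      En h (fun x => f x + s * RT h η f x))
    (hnear : (1 - ε) * En h f ≤ lam * ∫ x, f x ^ 2 * h x) :
    (1 - θ / 2) * ∑ i, ∫ y, VV h η (fun x => fderiv ℝ f x (b i)) y ≤
      (∫ z : F, ker η z) *
        ((ε + Real.sqrt ε + lam * η + (η * L) ^ 2 / (2 * θ)) * En h f) := by
  have hT := bochner_T H hi hη hW hWd hL hWL hf hfd hfv b hθ
  obtain ⟨⟨Lf, hfL⟩, A, hA⟩ := id hf
  have hfm : Measurable f := hfL.continuous.measurable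
  have hA0 : 0 ≤ A := (abs_nonneg _).trans (hA 0)
  set c0 : ℝ := ∫ z : F, ker η z with hc0d
  have hc0 : 0 < c0 := ker_int_pos hη
  set g := RT h η f with hg
  obtain ⟨hgd, hgBL, -, -⟩ := RT_dir H hη hfL hA 0
  rw [← hg] at hgd hgBL
  obtain ⟨⟨Lg, hgL⟩, A', hA'⟩ := id hgBL
  have hgm : Measurable g := hgL.continuous.measurable
  have hEf : 0 ≤ En h f := En_nonneg H
  -- measurability and integrability
  have mDf : ∀ i, Measurable fun x => fderiv ℝ f x (b i) :=
    fun i => measurable_fderiv_apply_const ℝ f (b i)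
  have mDg : ∀ i, Measurable fun x => fderiv ℝ g x (b i) :=
    fun i => measurable_fderiv_apply_const ℝ g (b i)
  have bDf : ∀ i x, |fderiv ℝ f x (b i)| ≤ Lf * ‖b i‖ := by
    intro i x
    have h1 := (fderiv ℝ f x).le_opNorm (b i)
    rw [Real.norm_eq_abs] at h1
    exact h1.trans (mul_le_mul_of_nonneg_right (norm_fderiv_le_of_lipschitz ℝ hfL) (norm_nonneg _))
  have bDg : ∀ i x, |fderiv ℝ g x (b i)| ≤ Lg * ‖b i‖ := by
    intro i x
    have h1 := (fderiv ℝ g x).le_opNorm (b i)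
    rw [Real.norm_eq_abs] at h1
    exact h1.trans (mul_le_mul_of_nonneg_right (norm_fderiv_le_of_lipschitz ℝ hgL) (norm_nonneg _))
  have iX : ∀ i, Integrable fun x => fderiv ℝ f x (b i) * fderiv ℝ g x (b i) * h x := fun i =>
    bdd_int hi ((mDf i).mul (mDg i)) (M := (Lf * ‖b i‖) * (Lg * ‖b i‖)) fun x => by
      rw [abs_mul]
      exact mul_le_mul (bDf i x) (bDg i x) (abs_nonneg _) ((abs_nonneg _).trans (bDf i x))
  have iEf : Integrable fun x => ‖fderiv ℝ f x‖ ^ 2 * h x :=
    bdd_int hi ((measurable_fderiv ℝ f).norm.pow_const 2) (sq_fderiv_bdd hfL)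
  have iEg : Integrable fun x => ‖fderiv ℝ g x‖ ^ 2 * h x :=
    bdd_int hi ((measurable_fderiv ℝ g).norm.pow_const 2) (sq_fderiv_bdd hgL)
  have iff' : Integrable fun x => f x ^ 2 * h x :=
    bdd_int hi (hfm.pow_const 2) (Wt.sq_bdd hA)
  have igg : Integrable fun x => g x ^ 2 * h x :=
    bdd_int hi (hgm.pow_const 2) (Wt.sq_bdd hA')
  have ifg : Integrable fun x => f x * g x * h x :=
    bdd_int hi (hfm.mul hgm) (M := A * A') fun x => by
      rw [abs_mul]
      exact mul_le_mul (hA x) (hA' x) (abs_nonneg _) hA0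
  set X : ℝ := ∑ i, ∫ x, fderiv ℝ f x (b i) * fderiv ℝ g x (b i) * h x with hX
  -- expansions
  have hEn : ∀ s : ℝ, En h (fun x => f x + s * g x) = En h f + 2 * s * X + s ^ 2 * En h g := by
    intro s
    have e1 : ∀ x, ‖fderiv ℝ (fun x => f x + s * g x) x‖ ^ 2 * h x =
        ‖fderiv ℝ f x‖ ^ 2 * h x +
          2 * s * (∑ i, fderiv ℝ f x (b i) * fderiv ℝ g x (b i) * h x) +
          s ^ 2 * (‖fderiv ℝ g x‖ ^ 2 * h x) := by
      intro x
      have e2 : fderiv ℝ (fun x => f x + s * g x) x = fderiv ℝ f x + s • fderiv ℝ g x :=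
        ((hfd x).hasFDerivAt.add ((hgd x).hasFDerivAt.const_mul s)).fderiv
      rw [e2, norm_sq_fderiv b, norm_sq_fderiv b (fderiv ℝ f x), norm_sq_fderiv b (fderiv ℝ g x)]
      simp only [add_apply, smul_apply, smul_eq_mul]
      rw [Finset.sum_mul, Finset.sum_mul, Finset.mul_sum, Finset.sum_mul, Finset.mul_sum,
        ← Finset.sum_add_distrib, ← Finset.sum_add_distrib]
      refine Finset.sum_congr rfl fun i _ => ?_
      ring
    unfold En
    rw [integral_congr_ae (Eventually.of_forall e1)]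
    have i1 : Integrable fun x => 2 * s * (∑ i, fderiv ℝ f x (b i) * fderiv ℝ g x (b i) * h x) :=
      (integrable_finsetSum _ fun i _ => iX i).const_mul _
    have i12 : Integrable fun x => ‖fderiv ℝ f x‖ ^ 2 * h x +
        2 * s * (∑ i, fderiv ℝ f x (b i) * fderiv ℝ g x (b i) * h x) := iEf.add i1
    rw [integral_add i12 (iEg.const_mul _), integral_add iEf i1, integral_const_mul,
      integral_const_mul, integral_finsetSum _ fun i _ => iX i]
  have hSq : ∀ s : ℝ, ∫ x, (f x + s * g x) ^ 2 * h x =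
      (∫ x, f x ^ 2 * h x) + 2 * s * (∫ x, f x * g x * h x) + s ^ 2 * ∫ x, g x ^ 2 * h x := by
    intro s
    have e1 : (fun x => (f x + s * g x) ^ 2 * h x) = fun x =>
        f x ^ 2 * h x + 2 * s * (f x * g x * h x) + s ^ 2 * (g x ^ 2 * h x) := by
      ext x; ring
    have i12 : Integrable fun x => f x ^ 2 * h x + 2 * s * (f x * g x * h x) :=
      iff'.add (ifg.const_mul _)
    rw [e1, integral_add i12 (igg.const_mul _),
      integral_add iff' (ifg.const_mul _), integral_const_mul, integral_const_mul]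
  set Q : ℝ := ∫ x, f x ^ 2 * h x with hQ
  set R : ℝ := ∫ x, f x * g x * h x with hR
  set S : ℝ := ∫ x, g x ^ 2 * h x with hS
  have hS0 : 0 ≤ S := integral_nonneg fun x => mul_nonneg (sq_nonneg _) (H.nonneg x)
  have quad : ∀ s : ℝ, 0 ≤ (En h g - lam * S) * (s * s) + (2 * (X - lam * R)) * s +
      (En h f - lam * Q) := by
    intro s
    have h1 := hP s
    rw [hEn s, hSq s] at h1
    nlinarith
  have hdisc := discrim_le_zero quad
  rw [discrim] at hdisc
  have hEg : En h g ≤ En h f := by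
    have h1 := hess_bound H hi hη hfL hA (w := fun i => b i) (c := 1) one_pos (fun D => by
      rw [one_mul]; exact (norm_sq_fderiv b D).symm)
    have h2 : 0 ≤ ∑ i, En h (fun x => fderiv ℝ (RT h η f) x (b i)) :=
      Finset.sum_nonneg fun i _ => En_nonneg H
    have h3 : 0 ≤ (1 / η) * (En h f - En h g) := h2.trans h1
    have h4 := pos_of_mul_nonneg hη h3
    linarith
  have hB0 : 0 ≤ En h f - lam * Q := by
    have := quad 0
    simpa using this
  have hB1 : En h f - lam * Q ≤ ε * En h f := by linarith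
  have hA1 : En h g - lam * S ≤ En h f := by
    have := mul_nonneg hlam hS0
    linarith
  have hsq : (X - lam * R) ^ 2 ≤ ε * En h f ^ 2 := by
    have h1 : (X - lam * R) ^ 2 ≤ (En h g - lam * S) * (En h f - lam * Q) := by nlinarith
    have h2 : (En h g - lam * S) * (En h f - lam * Q) ≤ En h f * (En h f - lam * Q) :=
      mul_le_mul_of_nonneg_right hA1 hB0
    have h3 : En h f * (En h f - lam * Q) ≤ En h f * (ε * En h f) :=
      mul_le_mul_of_nonneg_left hB1 hEf
    nlinarith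
  have hXlow : lam * R - Real.sqrt ε * En h f ≤ X := by
    have h1 := Real.abs_le_sqrt hsq
    rw [Real.sqrt_mul hε, Real.sqrt_sq hEf] at h1
    have := (abs_le.mp h1).1
    linarith
  -- the mixed integral
  have hRlow : Q - η * En h f ≤ R := by
    have hAg : ∀ y, |AA h η f y| ≤ A := H.AA_abs_le hη hfm hA
    have hAm : Measurable (AA h η f) := (H.AA_diff hη hfm hA).continuous.measurable
    have h1 := fub_eq hη (bdd_int hi hfm hA) (hfm.mul H.meas) hAm hAg
    have h2 : ∫ y, AA h η f y * cv η (fun x => f x * h x) y =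
        ∫ y, AA h η f y ^ 2 * cv η h y := by
      refine integral_congr_ae (Eventually.of_forall fun y => ?_)
      simp only
      rw [← H.AA_mul hη f y]
      ring
    have h3 : ∫ x, f x * h x * cv η (AA h η f) x = c0 * R := by
      rw [hR, ← integral_const_mul]
      refine integral_congr_ae (Eventually.of_forall fun x => ?_)
      simp only
      rw [← SS_mul hη (AA h η f) x]
      show f x * h x * (SS η (AA h η f) x * _) = c0 * (f x * SS η (AA h η f) x * h x)
      ring
    have h4 : ∫ y, AA h η f y * cv η (fun x => f x * h x) y = ∫ x, f x * h x * cv η (AA h η f) x :=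
      h1
    have h5 := step_a H hi hη hfL hA
    have h6 := step_c H hi hη hfL hA
    rw [h2, h3] at h4
    rw [← hc0d] at h5 h6
    have h7 : c0 * (Q - η * En h f) ≤ c0 * R := by
      rw [← h4]
      linarith
    exact le_of_mul_le_mul_left h7 hc0
  have hXfin : (1 - ε) * En h f - lam * (η * En h f) - Real.sqrt ε * En h f ≤ X := by
    have h1 := mul_le_mul_of_nonneg_left hRlow hlam
    linarith
  have hcX := mul_le_mul_of_nonneg_left hXfin hc0.le
  linarith
where
  pos_of_mul_nonneg {η t : ℝ} (hη : 0 < η) (h : 0 ≤ (1 / η) * t) : 0 ≤ t :=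
    nonneg_of_mul_nonneg_right h (by positivity)

end Pool.Agent.Lib.MP_8d00da_gt.h42o
end
end

section

section

namespace Pool.Agent.Lib.MP_8d00da_gt.h42o
end Pool.Agent.Lib.MP_8d00da_gt.h42o


/-!
# U24: the round trip operator is symmetric and positive

Full proof. `c = ∫ ker η > 0`. `SS_mul`: `SS η u x * c = cv η u x`; `AA_mul`: `AA h η f y * cv η h y =
cv η (f h) y`. With `G = AA h η g`, `A = AA h η f` (bounded, continuous):
`c ∫ f (RT g) h = ∫ (f h) cv η G = ∫ G cv η (f h) = ∫ G A cv η h` by `fub_eq` (h25/Chain) with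
`a = f h`, `u = G` (see the proof of `hRlow` in h42o/OBochner, `bochner`). This is symmetric in
`f, g`: `RT_sym`; for `f = g`: `RT_form`; `≥ 0`. `RT_cs`: Cauchy-Schwarz `cs_int` with
`a y = A y * sqrt (cv η h y)`, `b y = G y * sqrt (cv η h y)`. `RT_defect`: `step_a` and `RT_form` give
`c (∫ f² h - ∫ f (RT f) h) = ∫ VV h η f`, and `step_c`: `∫ VV ≤ η c En h f`.
`RT_iter_BL`: `RT_props`/`RT_dir` and induction.
-/

namespace Pool.Agent.Lib.MP_8d00da_gt.h42u

open MeasureTheory Set Filter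
open Pool.Agent.Lib.MP_8d00da_gt.h25 Pool.Agent.Lib.MP_8d00da_gt.h42
open Pool.Agent.Lib.MP_8d00da_gt.h42s Pool.Agent.Lib.MP_8d00da_gt.h42o
open scoped Topology NNReal

variable {F : Type*} [NormedAddCommGroup F] [InnerProductSpace ℝ F]
    [FiniteDimensional ℝ F] [MeasurableSpace F] [BorelSpace F]

variable {h : F → ℝ} {B η : ℝ}

/-- The bilinear form of the round trip operator. -/
private theorem RT_bil (H : Wt h B) (hi : Integrable h) (hη : 0 < η) {f g : F → ℝ} (hf : BL f)
    (hg : BL g) : (∫ z : F, h25.ker η z) * ∫ x, f x * RT h η g x * h x =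
      ∫ y, AA h η f y * AA h η g y * cv η h y := by
  obtain ⟨⟨Lf, hfL⟩, A, hA⟩ := hf
  obtain ⟨⟨Lg, hgL⟩, A', hA'⟩ := hg
  have hfm : Measurable f := hfL.continuous.measurable
  have hgm : Measurable g := hgL.continuous.measurable
  have hGm : Measurable (AA h η g) := (H.AA_diff hη hgm hA').continuous.measurable
  have hGA : ∀ y, |AA h η g y| ≤ A' := H.AA_abs_le hη hgm hA'
  have ifh : Integrable fun x => f x * h x := bdd_int hi hfm hA
  have mfh : Measurable fun x => f x * h x := hfm.mul H.meas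
  have e := fub_eq hη ifh mfh hGm hGA
  have e1 : (∫ z : F, h25.ker η z) * ∫ x, f x * RT h η g x * h x =
      ∫ x, (f x * h x) * cv η (AA h η g) x := by
    rw [← integral_const_mul]
    refine integral_congr_ae (Eventually.of_forall fun x => ?_)
    simp only
    rw [← SS_mul hη]
    unfold RT
    ring
  rw [e1, ← e]
  refine integral_congr_ae (Eventually.of_forall fun y => ?_)
  simp only
  rw [← H.AA_mul hη f y]
  ring

theorem RT_sym (H : Wt h B) (hi : Integrable h) (hη : 0 < η) {f g : F → ℝ} (hf : BL f)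
    (hg : BL g) : ∫ x, f x * RT h η g x * h x = ∫ x, RT h η f x * g x * h x := by
  have hc : 0 < ∫ z : F, h25.ker η z := ker_int_pos hη
  have h1 := RT_bil H hi hη hf hg
  have h2 := RT_bil H hi hη hg hf
  have h3 : ∫ y, AA h η f y * AA h η g y * cv η h y = ∫ y, AA h η g y * AA h η f y * cv η h y :=
    integral_congr_ae (Eventually.of_forall fun y => by simp only; ring)
  have h4 : ∫ x, RT h η f x * g x * h x = ∫ x, g x * RT h η f x * h x :=
    integral_congr_ae (Eventually.of_forall fun y => by simp only; ring)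
  rw [h4]
  refine mul_left_cancel₀ hc.ne' ?_
  rw [h1, h2, h3]

theorem RT_form (H : Wt h B) (hi : Integrable h) (hη : 0 < η) {f : F → ℝ} (hf : BL f) :
    (∫ z : F, h25.ker η z) * ∫ x, f x * RT h η f x * h x =
      ∫ y, AA h η f y ^ 2 * cv η h y := by
  rw [RT_bil H hi hη hf hf]
  exact integral_congr_ae (Eventually.of_forall fun y => by simp only; ring)

theorem RT_nonneg (H : Wt h B) (hi : Integrable h) (hη : 0 < η) {f : F → ℝ} (hf : BL f) :
    0 ≤ ∫ x, f x * RT h η f x * h x := by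
  have hc : 0 < ∫ z : F, h25.ker η z := ker_int_pos hη
  have h1 := RT_form H hi hη hf
  have h2 : 0 ≤ ∫ y, AA h η f y ^ 2 * cv η h y :=
    integral_nonneg fun y => mul_nonneg (sq_nonneg _) (H.Z_pos hη y).le
  rw [← h1] at h2
  exact nonneg_of_mul_nonneg_right h2 hc

theorem RT_cs (H : Wt h B) (hi : Integrable h) (hη : 0 < η) {f g : F → ℝ} (hf : BL f)
    (hg : BL g) :
    (∫ x, f x * RT h η g x * h x) ^ 2 ≤
      (∫ x, f x * RT h η f x * h x) * ∫ x, g x * RT h η g x * h x := by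
  have hc : 0 < ∫ z : F, h25.ker η z := ker_int_pos hη
  have h1 := RT_bil H hi hη hf hg
  have h2 := RT_form H hi hη hf
  have h3 := RT_form H hi hη hg
  obtain ⟨⟨Lf, hfL⟩, A, hA⟩ := hf
  obtain ⟨⟨Lg, hgL⟩, A', hA'⟩ := hg
  have hfm : Measurable f := hfL.continuous.measurable
  have hgm : Measurable g := hgL.continuous.measurable
  have hFm : Measurable (AA h η f) := (H.AA_diff hη hfm hA).continuous.measurable
  have hFA : ∀ y, |AA h η f y| ≤ A := H.AA_abs_le hη hfm hA
  have hGm : Measurable (AA h η g) := (H.AA_diff hη hgm hA').continuous.measurable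
  have hGA : ∀ y, |AA h η g y| ≤ A' := H.AA_abs_le hη hgm hA'
  have hA0 : 0 ≤ A := (abs_nonneg _).trans (hA 0)
  have hss : ∀ y, Real.sqrt (cv η h y) ^ 2 = cv η h y := fun y => Real.sq_sqrt (H.Z_pos hη y).le
  have e1 : ∀ y, (AA h η f y * Real.sqrt (cv η h y)) ^ 2 = AA h η f y ^ 2 * cv η h y :=
    fun y => by rw [mul_pow, hss]
  have e2 : ∀ y, (AA h η g y * Real.sqrt (cv η h y)) ^ 2 = AA h η g y ^ 2 * cv η h y :=
    fun y => by rw [mul_pow, hss]
  have e3 : ∀ y, (AA h η f y * Real.sqrt (cv η h y)) * (AA h η g y * Real.sqrt (cv η h y)) =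
      AA h η f y * AA h η g y * cv η h y := fun y => by
    calc (AA h η f y * Real.sqrt (cv η h y)) * (AA h η g y * Real.sqrt (cv η h y))
        = AA h η f y * AA h η g y * Real.sqrt (cv η h y) ^ 2 := by ring
      _ = _ := by rw [hss]
  have i1 : Integrable fun y => AA h η f y ^ 2 * cv η h y :=
    fub_int hη hi H.meas (hFm.pow_const 2) (Wt.sq_bdd hFA)
  have i2 : Integrable fun y => AA h η g y ^ 2 * cv η h y :=
    fub_int hη hi H.meas (hGm.pow_const 2) (Wt.sq_bdd hGA)
  have i3 : Integrable fun y => AA h η f y * AA h η g y * cv η h y :=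
    fub_int hη hi H.meas (hFm.mul hGm) (M := A * A') fun y => by
      show |AA h η f y * AA h η g y| ≤ A * A'
      rw [abs_mul]
      exact mul_le_mul (hFA y) (hGA y) (abs_nonneg _) hA0
  have cs := cs_int (μ := (volume : Measure F)) (a := fun y => AA h η f y * Real.sqrt (cv η h y))
    (b := fun y => AA h η g y * Real.sqrt (cv η h y))
    (by simp only [e1]; exact i1) (by simp only [e2]; exact i2) (by simp only [e3]; exact i3)
  simp only [e1, e2, e3] at cs
  rw [← h1, ← h2, ← h3] at cs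
  have hc2 : 0 < (∫ z : F, h25.ker η z) ^ 2 := by positivity
  refine le_of_mul_le_mul_left (a := (∫ z : F, h25.ker η z) ^ 2) ?_ hc2
  calc (∫ z : F, h25.ker η z) ^ 2 * (∫ x, f x * RT h η g x * h x) ^ 2
      = ((∫ z : F, h25.ker η z) * ∫ x, f x * RT h η g x * h x) ^ 2 := by ring
    _ ≤ _ := cs
    _ = _ := by ring

theorem RT_defect (H : Wt h B) (hi : Integrable h) (hη : 0 < η) {f : F → ℝ} (hf : BL f) :
    (∫ z : F, h25.ker η z) * ((∫ x, f x ^ 2 * h x) - ∫ x, f x * RT h η f x * h x) =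
      (∫ y, VV h η f y) ∧
    (∫ x, f x ^ 2 * h x) - ∫ x, f x * RT h η f x * h x ≤ η * En h f := by
  have hc : 0 < ∫ z : F, h25.ker η z := ker_int_pos hη
  have h2 := RT_form H hi hη hf
  obtain ⟨⟨Lf, hfL⟩, A, hA⟩ := hf
  have ha := step_a H hi hη hfL hA
  have hcc := step_c H hi hη hfL hA
  have h1 : (∫ z : F, h25.ker η z) *
      ((∫ x, f x ^ 2 * h x) - ∫ x, f x * RT h η f x * h x) = ∫ y, VV h η f y := by
    rw [mul_sub, ha, h2]
    ring
  refine ⟨h1, ?_⟩
  refine le_of_mul_le_mul_left (a := ∫ z : F, h25.ker η z) ?_ hc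
  rw [h1]
  refine hcc.trans (le_of_eq ?_)
  ring

theorem RT_iter_BL (H : Wt h B) (hη : 0 < η) {f : F → ℝ} (hf : BL f) (k : ℕ) :
    BL ((RT h η)^[k] f) := by
  induction k with
  | zero => simpa using hf
  | succ k ih =>
    rw [Function.iterate_succ_apply']
    obtain ⟨⟨L, hL⟩, A, hA⟩ := ih
    obtain ⟨h1, h2⟩ := RT_props H hη hL hA
    exact ⟨h2, A, h1⟩

end Pool.Agent.Lib.MP_8d00da_gt.h42u
end

section

/-!
# Lower bound for the conditional variance
-/

namespace Pool.Agent.Lib.MP_8d00da_gt.h42o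

open MeasureTheory Set Filter
open Pool.Agent.Lib.MP_8d00da_gt.h25 Pool.Agent.Lib.MP_8d00da_gt.h42
open Pool.Agent.Lib.MP_8d00da_gt.h42s
open scoped Topology NNReal

variable {F : Type*} [NormedAddCommGroup F] [InnerProductSpace ℝ F]
    [FiniteDimensional ℝ F] [MeasurableSpace F] [BorelSpace F] {m : ℕ}

section O10

variable {h : F → ℝ} {B η : ℝ}

/-- The variance of the averaged function, and its energy. -/
lemma VV_lower_aux (H : Wt h B) (hi : Integrable h) (hη : 0 < η) {f : F → ℝ} {L : ℝ≥0} {A : ℝ}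
    (hf : LipschitzWith L f) (hA : ∀ x, |f x| ≤ A) :
    (∫ z : F, ker η z) * (∫ x, f x ^ 2 * h x) ≤ 2 * (∫ y, VV h η f y) +
        (∫ z : F, ker η z) * ∫ x, RT h η f x ^ 2 * h x ∧
      (∫ z : F, ker η z) * En h (RT h η f) ≤ (1 / η) * ∫ y, VV h η f y := by
  have hfm : Measurable f := hf.continuous.measurable
  have hA0 : 0 ≤ A := (abs_nonneg _).trans (hA 0)
  have hsa := step_a H hi hη hf hA
  have hse := step_e H hi hη hf hA
  set g := AA h η f with hg
  have hgL := H.AA_lip hη hfm hA0 hA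
  have hgA : ∀ y, |g y| ≤ A := H.AA_abs_le hη hfm hA
  have hgd : Differentiable ℝ g := H.AA_diff hη hfm hA
  have hgm : Measurable g := hgL.continuous.measurable
  set c : ℝ := ∫ z : F, ker η z with hc
  have hc0 : 0 < c := ker_int_pos hη
  have hdm : Measurable fun x => ‖fderiv ℝ g x‖ ^ 2 := (measurable_fderiv ℝ _).norm.pow_const 2
  have hSA : ∀ x, |SS η g x| ≤ A := wt_one.AA_abs_le hη hgm hgA
  have hSm : Measurable (SS η g) := (wt_one.AA_diff hη hgm hgA).continuous.measurable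
  have i2 : Integrable fun x => h x * cv η (fun y => ‖fderiv ℝ g y‖ ^ 2) x :=
    fub_int' hη hi H.meas hdm (sq_fderiv_bdd hgL)
  have h6 : RT h η f = SS η g := rfl
  constructor
  · rw [fub_eq hη hi H.meas (hgm.pow_const 2) (Wt.sq_bdd hgA)] at hsa
    have pt : ∀ x, cv η (fun y => g y ^ 2) x ≤ η * cv η (fun y => ‖fderiv ℝ g y‖ ^ 2) x +
        c * SS η g x ^ 2 := by
      intro x
      have h1 := wt_one.VV_eq hη hgm hgA x
      have h2 := wt_one.poin hη hgL hgA x
      simp only [mul_one] at h1 h2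
      rw [cv_one, ← hc] at h1
      rw [h1]
      have h3 : AA (fun _ => 1) η g x = SS η g x := rfl
      rw [h3]
      linarith
    have i1 : Integrable fun x => h x * cv η (fun y => g y ^ 2) x :=
      fub_int' hη hi H.meas (hgm.pow_const 2) (Wt.sq_bdd hgA)
    have i3 : Integrable fun x => SS η g x ^ 2 * h x := bdd_int hi (hSm.pow_const 2) (Wt.sq_bdd hSA)
    have h4 : ∫ x, h x * cv η (fun y => g y ^ 2) x ≤
        ∫ x, (η * (h x * cv η (fun y => ‖fderiv ℝ g y‖ ^ 2) x) + c * (SS η g x ^ 2 * h x)) := by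
      refine integral_mono i1 ((i2.const_mul _).add (i3.const_mul _)) fun x => ?_
      have := mul_le_mul_of_nonneg_left (pt x) (H.nonneg x)
      simp only
      linarith
    rw [integral_add (i2.const_mul _) (i3.const_mul _), integral_const_mul, integral_const_mul,
      ← fub_eq hη hi H.meas hdm (sq_fderiv_bdd hgL)] at h4
    have h5 := mul_le_mul_of_nonneg_left hse hη.le
    have h7 : η * ((1 / η) * ∫ y, VV h η f y) = ∫ y, VV h η f y := by field_simp
    rw [h7] at h5
    rw [h6, hsa]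
    linarith
  · set b := stdOrthonormalBasis ℝ F with hb
    set f1 := RT h η f with hf1
    have hf1d : Differentiable ℝ f1 := wt_one.AA_diff hη hgm hgA
    set L' : ℝ≥0 := Real.toNNReal (A * Real.sqrt (1 / η)) with hL'
    set u : Fin (Module.finrank ℝ F) → F → ℝ := fun i y => fderiv ℝ g y (b i) with hu
    have hum : ∀ i, Measurable (u i) := fun i => measurable_fderiv_apply_const ℝ g (b i)
    have huL : ∀ i y, |u i y| ≤ L' := by
      intro i y
      have h1 := (fderiv ℝ g y).le_opNorm (b i)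
      rw [b.orthonormal.1 i, mul_one, Real.norm_eq_abs] at h1
      exact h1.trans (norm_fderiv_le_of_lipschitz ℝ hgL)
    have hfi : ∀ i, (fun x => fderiv ℝ f1 x (b i)) = SS η (u i) := by
      intro i; ext x
      exact SS_fderiv hη hgL hgA hgd x (b i)
    have hsum : ∀ x, cv η (fun y => ‖fderiv ℝ g y‖ ^ 2) x =
        ∑ i, VV (fun _ => 1) η (u i) x + c * ‖fderiv ℝ f1 x‖ ^ 2 := by
      intro x
      have e1 : (fun y => ‖fderiv ℝ g y‖ ^ 2) = fun y => ∑ i, u i y ^ 2 := by
        ext y; exact norm_sq_fderiv b _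
      have e2 : cv η (fun y => ∑ i, u i y ^ 2) x = ∑ i, cv η (fun y => u i y ^ 2) x := by
        unfold cv
        rw [← integral_finsetSum]
        · refine integral_congr_ae (Eventually.of_forall fun y => ?_)
          simp only
          rw [Finset.sum_mul]
        · intro i _
          exact cv_integrable hη ((hum i).pow_const 2) (Wt.sq_bdd (huL i)) x
      rw [e1, e2, norm_sq_fderiv b, Finset.mul_sum, ← Finset.sum_add_distrib]
      refine Finset.sum_congr rfl fun i _ => ?_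
      have h1 := wt_one.VV_eq hη (hum i) (huL i) x
      simp only [mul_one] at h1
      rw [cv_one, ← hc] at h1
      rw [h1]
      have h2 : fderiv ℝ f1 x (b i) = SS η (u i) x := congrFun (hfi i) x
      rw [h2]
      show _ + SS η (u i) x ^ 2 * c = _
      ring
    have hpt : ∀ x, c * (‖fderiv ℝ f1 x‖ ^ 2 * h x) ≤
        h x * cv η (fun y => ‖fderiv ℝ g y‖ ^ 2) x := by
      intro x
      rw [hsum x]
      have h3 : 0 ≤ ∑ i, VV (fun _ => 1) η (u i) x :=
        Finset.sum_nonneg fun i _ => wt_one.VV_nonneg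
      have h4 := mul_nonneg (H.nonneg x) h3
      nlinarith [h4]
    have hdm1 : Measurable fun x => ‖fderiv ℝ f1 x‖ ^ 2 :=
      (measurable_fderiv ℝ _).norm.pow_const 2
    have hf1L : LipschitzWith L' f1 := wt_one.AA_lip hη hgm hA0 hgA
    have i1 : Integrable fun x => ‖fderiv ℝ f1 x‖ ^ 2 * h x := bdd_int hi hdm1 (sq_fderiv_bdd hf1L)
    have h5 := integral_mono (i1.const_mul c) i2 hpt
    rw [integral_const_mul, ← fub_eq hη hi H.meas hdm (sq_fderiv_bdd hgL)] at h5
    exact h5.trans hse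

lemma VV_lower (H : Wt h B) (hi : Integrable h) (hh : 0 < ∫ x, h x) (hη : 0 < η) {g : F → ℝ}
    (hg : BL g) {K : ℝ} (hK : 0 ≤ K) (hP : Vr h (RT h η g) ≤ K * En h (RT h η g)) :
    (∫ z : F, ker η z) * (η * Vr h g) ≤ (2 * η + K) * ∫ y, VV h η g y := by
  obtain ⟨⟨L, hL⟩, A, hA⟩ := hg
  obtain ⟨h1, h2⟩ := VV_lower_aux H hi hη hL hA
  have h3 := round_mean H hi hη hL hA
  have hc0 : 0 < ∫ z : F, ker η z := ker_int_pos hη
  set c : ℝ := ∫ z : F, ker η z with hc
  set X : ℝ := ∫ y, VV h η g y with hX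
  have h4 : c * Vr h g ≤ 2 * X + c * Vr h (RT h η g) := by
    unfold Vr
    rw [h3, mul_sub, mul_sub]
    linarith
  have h5 : c * Vr h (RT h η g) ≤ c * (K * En h (RT h η g)) :=
    mul_le_mul_of_nonneg_left hP hc0.le
  have h6 : K * (c * En h (RT h η g)) ≤ K * ((1 / η) * X) := mul_le_mul_of_nonneg_left h2 hK
  have h7 : c * Vr h g ≤ 2 * X + K * ((1 / η) * X) := by nlinarith
  have h8 := mul_le_mul_of_nonneg_left h7 hη.le
  have h9 : η * (2 * X + K * ((1 / η) * X)) = (2 * η + K) * X := by field_simp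
  rw [h9] at h8
  calc c * (η * Vr h g) = η * (c * Vr h g) := by ring
    _ ≤ _ := h8

end O10

end Pool.Agent.Lib.MP_8d00da_gt.h42o
end

section

/-!
# Facts on the rounding operator
-/

namespace Pool.Agent.Lib.MP_8d00da_gt.h97r

open MeasureTheory Set Filter
open Pool.Agent.Lib.MP_8d00da_gt.h25 Pool.Agent.Lib.MP_8d00da_gt.h42
open Pool.Agent.Lib.MP_8d00da_gt.h42s Pool.Agent.Lib.MP_8d00da_gt.h42o
open scoped Topology NNReal

variable {F : Type*} [NormedAddCommGroup F] [InnerProductSpace ℝ F]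
    [FiniteDimensional ℝ F] [MeasurableSpace F] [BorelSpace F]

variable {h : F → ℝ} {B η : ℝ}

private lemma RRT_cv (hη : 0 < η) {φ ψ : F → ℝ} (hφ : Measurable φ) (hψ : Measurable ψ) {M M' : ℝ}
    (hM : ∀ x, |φ x| ≤ M) (hM' : ∀ x, |ψ x| ≤ M') (s : ℝ) (y : F) :
    cv η (fun x => φ x + s * ψ x) y = cv η φ y + s * cv η ψ y := by
  have i1 := cv_integrable hη hφ hM y
  have i2 := cv_integrable hη hψ hM' y
  unfold cv
  rw [← integral_const_mul, ← integral_add i1 (i2.const_mul s)]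
  refine integral_congr_ae (Eventually.of_forall fun x => ?_)
  simp only
  ring

private lemma RRT_AA (H : Wt h B) (hη : 0 < η) {f g : F → ℝ} (hf : Measurable f)
    (hg : Measurable g) {M M' : ℝ} (hM : ∀ x, |f x| ≤ M) (hM' : ∀ x, |g x| ≤ M') (s : ℝ) (y : F) :
    AA h η (fun x => f x + s * g x) y = AA h η f y + s * AA h η g y := by
  have h1 := RRT_cv hη (hf.mul H.meas) (hg.mul H.meas) (H.mul_bdd hM) (H.mul_bdd hM') s y
  have h2 : cv η (fun x => (f x + s * g x) * h x) y =
      cv η (fun x => (f * h) x + s * (g * h) x) y := by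
    congr 1
    ext x
    simp only [Pi.mul_apply]
    ring
  unfold AA
  rw [h2, h1, add_div, mul_div_assoc]
  rfl

private lemma RRT_cv_comp (T : F ≃ₗᵢ[ℝ] F) {φ ψ : F → ℝ} (hφ : ∀ x, φ (T x) = ψ x) (y : F) :
    cv η ψ y = cv η φ (T y) := by
  unfold cv
  have h1 := T.measurePreserving.integral_comp T.toHomeomorph.measurableEmbedding
    (fun x => φ x * h25.ker η (T y - x))
  rw [← h1]
  refine integral_congr_ae (Eventually.of_forall fun x => ?_)
  simp only
  rw [hφ, ← map_sub]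
  unfold h25.ker
  rw [T.norm_map]

private lemma RRT_AA_comp (T : F ≃ₗᵢ[ℝ] F) (hT : ∀ x, h (T x) = h x) {f f' : F → ℝ}
    (hf : ∀ x, f (T x) = f' x) (y : F) : AA h η f' y = AA h η f (T y) := by
  unfold AA
  rw [RRT_cv_comp T (φ := fun x => f x * h x) (ψ := fun x => f' x * h x)
    (fun x => by rw [hf, hT]) y, RRT_cv_comp T hT y]

private lemma RRT_int (hi : Integrable h) {f g : F → ℝ} (hf : BL f) (hg : BL g) :
    Integrable fun x => f x * g x * h x := by
  obtain ⟨⟨Lf, hfL⟩, A, hA⟩ := hf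
  obtain ⟨⟨Lg, hgL⟩, A', hA'⟩ := hg
  exact h25.bdd_int hi (hfL.continuous.measurable.mul hgL.continuous.measurable) (M := A * A')
    fun x => by
      show |f x * g x| ≤ A * A'
      rw [abs_mul]
      exact mul_le_mul (hA x) (hA' x) (abs_nonneg _) ((abs_nonneg _).trans (hA x))

private lemma RRT_bl (H : Wt h B) (hη : 0 < η) {f : F → ℝ} (hf : BL f) : BL (RT h η f) := by
  obtain ⟨⟨Lf, hfL⟩, A, hA⟩ := hf
  obtain ⟨h1, h2⟩ := RT_props H hη hfL hA
  exact ⟨h2, A, h1⟩

private lemma RRT_VV_nonneg (H : Wt h B) (f : F → ℝ) : 0 ≤ ∫ y, VV h η f y :=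
  integral_nonneg fun _ => H.VV_nonneg

private lemma RRT_le (H : Wt h B) (hi : Integrable h) (hη : 0 < η) {f : F → ℝ} (hf : BL f) :
    ∫ x, f x * RT h η f x * h x ≤ ∫ x, f x ^ 2 * h x := by
  have hc : 0 < ∫ z : F, h25.ker η z := ker_int_pos hη
  have h1 := (h42u.RT_defect H hi hη hf).1
  have h2 := RRT_VV_nonneg (η := η) H f
  rw [← h1] at h2
  have h3 := nonneg_of_mul_nonneg_right h2 hc
  linarith

/-- `AA h η` and `SS η` are linear on bounded measurable functions: `cv` is an integral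
(`h25.cv_integrable`); compare the private lemmas in `h42u/URTalg.lean`. -/
theorem RT_add_smul (H : Wt h B) (hη : 0 < η) {f g : F → ℝ} (hf : BL f) (hg : BL g) (s : ℝ) (x : F) :
    RT h η (fun x => f x + s * g x) x = RT h η f x + s * RT h η g x := by
  obtain ⟨⟨Lf, hfL⟩, A, hA⟩ := hf
  obtain ⟨⟨Lg, hgL⟩, A', hA'⟩ := hg
  have hfm : Measurable f := hfL.continuous.measurable
  have hgm : Measurable g := hgL.continuous.measurable
  have hFm : Measurable (AA h η f) := (H.AA_diff hη hfm hA).continuous.measurable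
  have hFA : ∀ y, |AA h η f y| ≤ A := H.AA_abs_le hη hfm hA
  have hGm : Measurable (AA h η g) := (H.AA_diff hη hgm hA').continuous.measurable
  have hGA : ∀ y, |AA h η g y| ≤ A' := H.AA_abs_le hη hgm hA'
  have h1 : AA h η (fun x => f x + s * g x) = fun y => AA h η f y + s * AA h η g y :=
    funext fun y => RRT_AA H hη hfm hgm hA hA' s y
  unfold RT SS
  rw [h1]
  exact RRT_AA wt_one hη hFm hGm hFA hGA s x

/-- Change of variables in the integrals `cv`: `T` is an isometry and preserves `h`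
(compare `h25.cv_comp`, `h25.AA_comp` and `h42o.opar_RT`). -/
theorem RT_comp (T : F ≃ₗᵢ[ℝ] F) (hT : ∀ x, h (T x) = h x) (f : F → ℝ) (x : F) :
    RT h η (fun x => f (T x)) x = RT h η f (T x) := by
  unfold RT SS
  exact RRT_AA_comp T (fun _ => rfl)
    (fun y => (RRT_AA_comp T hT (f := f) (f' := fun x => f (T x)) (fun _ => rfl) y).symm) x

/-- Contraction: with `g = RT f`, `a = ∫ g² h`: `a = ∫ f RT g h` (`h42u.RT_sym`), so
`a² ≤ (∫ f RT f h) (∫ g RT g h) ≤ (∫ f² h) a` by `h42u.RT_cs` and `∫ u RT u h ≤ ∫ u² h`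
(`h42u.RT_defect`, as `VV ≥ 0`). -/
theorem RT_contr (H : Wt h B) (hi : Integrable h) (hη : 0 < η) {f : F → ℝ} (hf : BL f) :
    ∫ x, RT h η f x ^ 2 * h x ≤ ∫ x, f x ^ 2 * h x := by
  have hg := RRT_bl H hη hf
  have h1 := h42u.RT_cs H hi hη hf hg
  have h2 := h42u.RT_sym H hi hη hf hg
  have h3 : ∫ x, RT h η f x * RT h η f x * h x = ∫ x, RT h η f x ^ 2 * h x := by
    simp only [sq]
  rw [h2, h3] at h1
  set a : ℝ := ∫ x, RT h η f x ^ 2 * h x with ha
  set b : ℝ := ∫ x, f x ^ 2 * h x with hb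
  have ha0 : 0 ≤ a := integral_nonneg fun x => mul_nonneg (sq_nonneg _) (H.nonneg x)
  have hb0 : 0 ≤ b := integral_nonneg fun x => mul_nonneg (sq_nonneg _) (H.nonneg x)
  have h4 := RRT_le H hi hη hf
  have h5 := RRT_le H hi hη hg
  have h6 := h42u.RT_nonneg H hi hη hg
  have h7 : a ^ 2 ≤ b * a := h1.trans (mul_le_mul h4 h5 h6 hb0)
  rcases ha0.eq_or_lt with h0 | h0
  · rw [← h0]; exact hb0
  · refine le_of_mul_le_mul_right ?_ h0
    rw [← sq]
    exact h7

/-- Expand the square: `∫ (f - RT f)² h = ∫ f² h - 2 ∫ f RT f h + ∫ (RT f)² h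
≤ 2 (∫ f² h - ∫ f RT f h)` by `RT_contr`, then `h42u.RT_defect`. -/
theorem RT_l2 (H : Wt h B) (hi : Integrable h) (hη : 0 < η) {f : F → ℝ} (hf : BL f) :
    (∫ x, (f x - RT h η f x) ^ 2 * h x ≤ 2 * (η * En h f)) ∧
    (∫ z : F, h25.ker η z) * (∫ x, (f x - RT h η f x) ^ 2 * h x) ≤ 2 * ∫ y, VV h η f y := by
  have hc : 0 < ∫ z : F, h25.ker η z := ker_int_pos hη
  have hg := RRT_bl H hη hf
  have i1 := RRT_int hi hf hf
  have i2 := RRT_int hi hf hg
  have i3 := RRT_int hi hg hg
  have hexp : ∫ x, (f x - RT h η f x) ^ 2 * h x = (∫ x, f x ^ 2 * h x) -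
      2 * (∫ x, f x * RT h η f x * h x) + ∫ x, RT h η f x ^ 2 * h x := by
    have e1 : ∫ x, f x ^ 2 * h x = ∫ x, f x * f x * h x := by simp only [sq]
    have e2 : ∫ x, RT h η f x ^ 2 * h x = ∫ x, RT h η f x * RT h η f x * h x := by simp only [sq]
    have i4 : Integrable fun x => f x * f x * h x - 2 * (f x * RT h η f x * h x) :=
      i1.sub (i2.const_mul 2)
    rw [e1, e2, ← integral_const_mul, ← integral_sub i1 (i2.const_mul 2), ← integral_add i4 i3]
    refine integral_congr_ae (Eventually.of_forall fun x => ?_)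
    simp only
    ring
  have h1 := RT_contr H hi hη hf
  obtain ⟨h2, h3⟩ := h42u.RT_defect H hi hη hf
  have h4 : ∫ x, (f x - RT h η f x) ^ 2 * h x ≤
      2 * ((∫ x, f x ^ 2 * h x) - ∫ x, f x * RT h η f x * h x) := by
    rw [hexp]
    linarith
  refine ⟨h4.trans (by linarith), ?_⟩
  have h5 := mul_le_mul_of_nonneg_left h4 hc.le
  refine h5.trans (le_of_eq ?_)
  rw [← h2]
  ring

/-- `h42o.VV_lower_aux` (second part) and `h25.step_c`. -/
theorem RT_En (H : Wt h B) (hi : Integrable h) (hη : 0 < η) {f : F → ℝ} (hf : BL f) :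
    En h (RT h η f) ≤ En h f ∧
    (∫ z : F, h25.ker η z) * En h (RT h η f) ≤ (1 / η) * ∫ y, VV h η f y := by
  have hc : 0 < ∫ z : F, h25.ker η z := ker_int_pos hη
  obtain ⟨⟨Lf, hfL⟩, A, hA⟩ := hf
  have h1 := (VV_lower_aux H hi hη hfL hA).2
  have h2 := step_c H hi hη hfL hA
  refine ⟨?_, h1⟩
  refine le_of_mul_le_mul_left ?_ hc
  refine h1.trans ((mul_le_mul_of_nonneg_left h2 (by positivity)).trans (le_of_eq ?_))
  field_simp

/-- `h42s.RT_dir`. -/
theorem RT_sm (H : Wt h B) (hη : 0 < η) {f : F → ℝ} (hf : BL f) : Sm (RT h η f) := by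
  obtain ⟨⟨Lf, hfL⟩, A, hA⟩ := hf
  exact ⟨(RT_dir H hη hfL hA 0).2.1, (RT_dir H hη hfL hA 0).1,
    fun θ => (RT_dir H hη hfL hA θ).2.2.1⟩

/-- `h25.round_mean`. -/
theorem RT_mean (H : Wt h B) (hi : Integrable h) (hη : 0 < η) {f : F → ℝ} (hf : BL f) :
    ∫ x, RT h η f x * h x = ∫ x, f x * h x := by
  obtain ⟨⟨Lf, hfL⟩, A, hA⟩ := hf
  exact round_mean H hi hη hfL hA

end Pool.Agent.Lib.MP_8d00da_gt.h97r
end
end
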