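import Mathlib
import Pool.Agent.Lib.MP_8d00da_gt.h97r.RRT
import Pool.Agent.Lib.MP_8d00da_gt.h97r.ROm

section

section

/-!
# Averages over the powers of a symmetry
-/

namespace Pool.Agent.Lib.MP_8d00da_gt.h97r

open MeasureTheory Set Filter
open Pool.Agent.Lib.MP_8d00da_gt.h25 Pool.Agent.Lib.MP_8d00da_gt.h42
open Pool.Agent.Lib.MP_8d00da_gt.h42s Pool.Agent.Lib.MP_8d00da_gt.h42o
open scoped Topology NNReal

variable {F : Type*} [NormedAddCommGroup F] [InnerProductSpace ℝ F]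
    [FiniteDimensional ℝ F] [MeasurableSpace F] [BorelSpace F]

variable {h : F → ℝ} {g : F ≃ₗᵢ[ℝ] F} {N : ℕ}

/-- `g ^ k` is an isometry preserving `h` (induction on `k`). -/
theorem Sg.pow (S : Sg h g N) (k : ℕ) (x : F) : h ((g ^ k) x) = h x := by
  induction k with
  | zero => rfl
  | succ k ih =>
    rw [pow_succ']
    change h (g ((g ^ k) x)) = h x
    rw [S.inv, ih]

/-- Change of variables (`LinearIsometryEquiv.measurePreserving` for `g ^ k`). -/
theorem Sg.int_pow (S : Sg h g N) (k : ℕ) (Φ : F → ℝ) :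
    ∫ x, Φ ((g ^ k) x) * h x = ∫ x, Φ x * h x := by
  have h1 : ∀ x, Φ ((g ^ k) x) * h x = (fun y => Φ y * h y) ((g ^ k) x) := by
    intro x
    change Φ ((g ^ k) x) * h x = Φ ((g ^ k) x) * h ((g ^ k) x)
    rw [S.pow]
  simp only [h1]
  exact (LinearIsometryEquiv.measurePreserving (g ^ k)).integral_comp
    (g ^ k).toHomeomorph.measurableEmbedding (fun y => Φ y * h y)

theorem av_BL {f : F → ℝ} (hf : BL f) : BL (av g N f) := by
  have h1 : BL fun x => ∑ k ∈ Finset.range N, f ((g ^ k) x) :=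
    BL.sum _ fun k _ => hf.comp (g ^ k).lipschitz
  exact (BL.const (1 / (N : ℝ))).mul h1

theorem Inv.pow {f : F → ℝ} (hf : Inv g f) (k : ℕ) (x : F) : f ((g ^ k) x) = f x := by
  induction k with
  | zero => rfl
  | succ k ih =>
    rw [pow_succ']
    change f (g ((g ^ k) x)) = f x
    rw [hf, ih]

/-- Shift of the sum: `(g ^ N) x = x`. -/
theorem Sg.av_inv (S : Sg h g N) (f : F → ℝ) : Inv g (av g N f) := by
  intro x
  unfold av
  congr 1
  have h1 : ∀ k, f ((g ^ k) (g x)) = (fun k => f ((g ^ k) x)) (k + 1) := by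
    intro k
    change _ = f ((g ^ (k + 1)) x)
    rw [pow_succ]
    rfl
  simp only [h1]
  have h2 := Finset.sum_range_succ (fun k => f ((g ^ k) x)) N
  rw [Finset.sum_range_succ'] at h2
  have h3 : (fun k => f ((g ^ k) x)) 0 = (fun k => f ((g ^ k) x)) N := by
    change f ((g ^ 0) x) = f ((g ^ N) x)
    rw [S.per x]
    rfl
  simp only [] at h2 h3
  linarith

theorem Sg.sub_zav (S : Sg h g N) (f : F → ℝ) : Zav g N fun x => f x - av g N f x := by
  intro x
  have hN : (N : ℝ) ≠ 0 := by exact_mod_cast S.Npos.ne'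
  have h1 : ∀ k, av g N f ((g ^ k) x) = av g N f x := fun k => Inv.pow (S.av_inv f) k x
  rw [Finset.sum_sub_distrib]
  simp only [h1, Finset.sum_const, Finset.card_range, nsmul_eq_mul]
  unfold av
  rw [← mul_assoc, mul_one_div_cancel hN, one_mul, sub_self]

theorem Sg.av_of_inv (S : Sg h g N) {f : F → ℝ} (hf : Inv g f) (x : F) : av g N f x = f x := by
  have hN : (N : ℝ) ≠ 0 := by exact_mod_cast S.Npos.ne'
  unfold av
  simp only [hf.pow, Finset.sum_const, Finset.card_range, nsmul_eq_mul]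
  rw [← mul_assoc, one_div_mul_cancel hN, one_mul]

theorem av_of_zav {f : F → ℝ} (hf : Zav g N f) (x : F) : av g N f x = 0 := by
  unfold av
  rw [hf x, mul_zero]

theorem av_add_smul (f k : F → ℝ) (s : ℝ) (x : F) :
    av g N (fun x => f x + s * k x) x = av g N f x + s * av g N k x := by
  unfold av
  rw [Finset.sum_add_distrib, ← Finset.mul_sum]
  ring

theorem Zav.add_smul {f k : F → ℝ} (hf : Zav g N f) (hk : Zav g N k) (s : ℝ) :
    Zav g N fun x => f x + s * k x := by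
  intro x
  rw [Finset.sum_add_distrib, ← Finset.mul_sum, hf x, hk x, mul_zero, add_zero]

/-- Composition with a power of `g` preserves the class `Zav` (shift of the sum). -/
theorem Sg.zav_pow (S : Sg h g N) {f : F → ℝ} (hf : Zav g N f) (k : ℕ) :
    Zav g N fun x => f ((g ^ k) x) := by
  intro x
  have h1 : ∀ j, f ((g ^ k) ((g ^ j) x)) = f ((g ^ j) ((g ^ k) x)) := by
    intro j
    have h2 : (g ^ k) ((g ^ j) x) = (g ^ j) ((g ^ k) x) := by
      change (g ^ k * g ^ j) x = (g ^ j * g ^ k) x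
      rw [← pow_add, ← pow_add, add_comm]
    rw [h2]
  simp only [h1]
  exact hf _

/-- `N ∫ u z h = ∑ k, ∫ u(g^k x) z(g^k x) h = ∑ k, ∫ u(x) z(g^k x) h = ∫ u (∑ k, z ∘ g^k) h = 0`. -/
theorem Sg.orth (S : Sg h g N) (hi : Integrable h) (hm : Measurable h) {u z : F → ℝ} (hu : BL u)
    (hz : BL z) (hu1 : Inv g u) (hz1 : Zav g N z) : ∫ x, u x * z x * h x = 0 := by
  have hN : (N : ℝ) ≠ 0 := by exact_mod_cast S.Npos.ne'
  obtain ⟨⟨Lu, hLu⟩, Au, hAu⟩ := hu
  obtain ⟨⟨Lz, hLz⟩, Az, hAz⟩ := hz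
  have h1 : ∀ k, ∫ x, u x * z ((g ^ k) x) * h x = ∫ x, u x * z x * h x := by
    intro k
    rw [← S.int_pow k fun x => u x * z x]
    simp only [hu1.pow]
  have h2 : ∑ k ∈ Finset.range N, ∫ x, u x * z ((g ^ k) x) * h x = 0 := by
    rw [← integral_finsetSum]
    · have h3 : ∀ x, ∑ k ∈ Finset.range N, u x * z ((g ^ k) x) * h x = 0 := by
        intro x
        rw [← Finset.sum_mul, ← Finset.mul_sum, hz1 x, mul_zero, zero_mul]
      simp only [h3, integral_zero]
    · intro k _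
      have hzk : Measurable fun x => z ((g ^ k) x) :=
        (hLz.continuous.comp (g ^ k).continuous).measurable
      refine bdd_int hi (hLu.continuous.measurable.mul hzk) (M := |Au| * |Az|) fun x => ?_
      rw [abs_mul]
      exact mul_le_mul ((hAu x).trans (le_abs_self _)) ((hAz _).trans (le_abs_self _))
        (abs_nonneg _) (abs_nonneg _)
  simp only [h1, Finset.sum_const, Finset.card_range, nsmul_eq_mul] at h2
  exact (mul_eq_zero.1 h2).resolve_left hN

theorem Sg.zav_mean (S : Sg h g N) (hi : Integrable h) (hm : Measurable h) {z : F → ℝ} (hz : BL z)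
    (hz1 : Zav g N z) : ∫ x, z x * h x = 0 := by
  have h1 := S.orth hi hm (BL.const 1) hz (fun _ => rfl) hz1
  simpa using h1

/-- `RT` commutes with isometries preserving `h` (`RT_comp`) and is linear (`RT_add_smul`; for
finite sums use induction). -/
theorem Sg.RT_zav (S : Sg h g N) {B η : ℝ} (H : Wt h B) (hη : 0 < η) {z : F → ℝ} (hz : BL z)
    (hz1 : Zav g N z) : Zav g N (RT h η z) := by
  intro x
  have h0 : RT h η (fun _ => (0 : ℝ)) x = 0 := by
    have h1 := RT_add_smul H hη (BL.const (F := F) 0) (BL.const 0) (-1) x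
    simp only [mul_zero, add_zero] at h1
    linarith
  have h2 : ∀ M : ℕ, RT h η (fun x => ∑ k ∈ Finset.range M, z ((g ^ k) x)) x =
      ∑ k ∈ Finset.range M, RT h η z ((g ^ k) x) := by
    intro M
    induction M with
    | zero => simpa using h0
    | succ M ih =>
      have h3 : BL fun x => ∑ k ∈ Finset.range M, z ((g ^ k) x) :=
        BL.sum _ fun k _ => hz.comp (g ^ k).lipschitz
      have h4 : BL fun x => z ((g ^ M) x) := hz.comp (g ^ M).lipschitz
      have h5 := RT_add_smul H hη h3 h4 1 x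
      simp only [one_mul] at h5
      simp only [Finset.sum_range_succ]
      rw [h5, ih, RT_comp (g ^ M) (S.pow M)]
  rw [← h2 N]
  have h3 : (fun x => ∑ k ∈ Finset.range N, z ((g ^ k) x)) = fun _ => 0 := funext hz1
  rw [h3, h0]

theorem Sg.RT_inv (S : Sg h g N) {η : ℝ} {u : F → ℝ} (hu : Inv g u) : Inv g (RT h η u) := by
  intro x
  rw [← RT_comp g S.inv]
  have h1 : (fun x => u (g x)) = u := funext hu
  rw [h1]

end Pool.Agent.Lib.MP_8d00da_gt.h97r
end

section

/-!
# Orthogonality of averages in energy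
-/

namespace Pool.Agent.Lib.MP_8d00da_gt.h97r

open MeasureTheory Set Filter
open Pool.Agent.Lib.MP_8d00da_gt.h25 Pool.Agent.Lib.MP_8d00da_gt.h42
open Pool.Agent.Lib.MP_8d00da_gt.h42s Pool.Agent.Lib.MP_8d00da_gt.h42o
open scoped Topology NNReal

variable {F : Type*} [NormedAddCommGroup F] [InnerProductSpace ℝ F]
    [FiniteDimensional ℝ F] [MeasurableSpace F] [BorelSpace F]

variable {δ L : ℝ} {h : F → ℝ} {g : F ≃ₗᵢ[ℝ] F} {N : ℕ}

private lemma RAvE_BL_comp {f : F → ℝ} (hf : BL f) (T : F ≃ₗᵢ[ℝ] F) : BL fun x => f (T x) :=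
  hf.comp T.lipschitz

private lemma RAvE_int (H : GW δ L h) {f : F → ℝ} (hf : BL f) : Integrable fun x => f x * h x := by
  obtain ⟨⟨K, hK⟩, A, hA⟩ := hf
  exact H.bdd_int hK.continuous.measurable hA

private lemma RAvE_fderiv (T : F ≃ₗᵢ[ℝ] F) (f : F → ℝ) (x v : F) :
    fderiv ℝ (fun x => f (T x)) x v = fderiv ℝ f (T x) (T v) := by
  have h1 := T.toContinuousLinearEquiv.comp_right_fderiv (f := f) (x := x)
  have h2 : (fun x => f (T x)) = f ∘ T.toContinuousLinearEquiv := rfl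
  rw [h2, h1]
  rfl

private lemma RAvE_cv (T : F ≃ₗᵢ[ℝ] F) (Φ : F → ℝ) : ∫ x, Φ (T x) = ∫ x, Φ x :=
  (T.measurePreserving).integral_comp' (f := T.toHomeomorph.toMeasurableEquiv) Φ

private lemma RAvE_E2_zero (h u : F → ℝ) : E2 h u (fun _ => 0) = 0 := by
  unfold E2
  simp

private lemma RAvE_E2_sum (H : GW δ L h) {u : F → ℝ} (hu : BL u) {z : ℕ → F → ℝ}
    (hz : ∀ k, BL (z k)) (n : ℕ) :
    E2 h u (fun x => ∑ k ∈ Finset.range n, z k x) = ∑ k ∈ Finset.range n, E2 h u (z k) := by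
  induction n with
  | zero => simpa using RAvE_E2_zero h u
  | succ n ih =>
      have h1 : (fun x => ∑ k ∈ Finset.range (n + 1), z k x) =
          fun x => (∑ k ∈ Finset.range n, z k x) + 1 * z n x := by
        funext x
        rw [Finset.sum_range_succ, one_mul]
      rw [h1, E2_add_smul H hu (BL.sum _ fun i _ => hz i) (hz n), ih, Finset.sum_range_succ,
        one_mul]

/-- The energy form is invariant under isometries preserving `h`: the chain rule gives
`fderiv (f ∘ T) x v = fderiv f (T x) (T v)` (also at points of non-differentiability, `T` being a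
linear equivalence: `ContinuousLinearEquiv.comp_right_fderiv`); use the basis `b = ` image of the
standard basis under `T` (`OrthonormalBasis.map`) in `E2_basis` and change variables. -/
theorem E2_comp (H : GW δ L h) (T : F ≃ₗᵢ[ℝ] F) (hT : ∀ x, h (T x) = h x) {f k : F → ℝ} (hf : BL f)
    (hk : BL k) : E2 h (fun x => f (T x)) (fun x => k (T x)) = E2 h f k := by
  have hf' := RAvE_BL_comp hf T
  have hk' := RAvE_BL_comp hk T
  let b := stdOrthonormalBasis ℝ F
  rw [E2_basis H hf' hk' b, E2_basis H hf hk (b.map T)]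
  refine Finset.sum_congr rfl fun i _ => ?_
  rw [← RAvE_cv T (fun x => fderiv ℝ f x ((b.map T) i) * fderiv ℝ k x ((b.map T) i) * h x)]
  refine integral_congr_ae (Eventually.of_forall fun x => ?_)
  simp only
  rw [RAvE_fderiv, RAvE_fderiv, OrthonormalBasis.map_apply, hT]

/-- As `Sg.orth`: `N E2 u z = ∑ k, E2 (u ∘ g^k) (z ∘ g^k) = ∑ k, E2 u (z ∘ g^k) = E2 u 0 = 0`. -/
theorem Sg.orthE (S : Sg h g N) (H : GW δ L h) {u z : F → ℝ} (hu : BL u) (hz : BL z)
    (hu1 : Inv g u) (hz1 : Zav g N z) : E2 h u z = 0 := by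
  have h1 : ∀ k, E2 h u (fun x => z ((g ^ k) x)) = E2 h u z := by
    intro k
    have h2 := E2_comp H (g ^ k) (S.pow k) hu hz
    rw [← h2]
    congr 1
    funext x
    exact (hu1.pow k x).symm
  have h3 := RAvE_E2_sum H hu (z := fun k x => z ((g ^ k) x)) (fun k => RAvE_BL_comp hz (g ^ k)) N
  have h4 : (fun x => ∑ k ∈ Finset.range N, z ((g ^ k) x)) = fun _ => 0 := funext hz1
  simp only [h1] at h3
  rw [h4, RAvE_E2_zero, Finset.sum_const, Finset.card_range, nsmul_eq_mul] at h3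
  have h5 : (N : ℝ) ≠ 0 := Nat.cast_ne_zero.2 S.Npos.ne'
  rcases mul_eq_zero.1 h3.symm with h6 | h6
  · exact absurd h6 h5
  · exact h6

/-- `f = av f + (f - av f)`, `Sg.orth`. -/
theorem Sg.sq_split (S : Sg h g N) (H : GW δ L h) {f : F → ℝ} (hf : BL f) :
    ∫ x, f x ^ 2 * h x = (∫ x, av g N f x ^ 2 * h x) + ∫ x, (f x - av g N f x) ^ 2 * h x := by
  have ha : BL (av g N f) := av_BL hf
  have hz : BL fun x => f x - av g N f x := hf.sub ha
  have h0 := S.orth H.int H.cont.measurable ha hz (S.av_inv f) (S.sub_zav f)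
  have i1 := RAvE_int H (ha.mul ha)
  have i2 := RAvE_int H (hz.mul hz)
  have i3 := RAvE_int H (ha.mul hz)
  have h1 : ∀ x, f x ^ 2 * h x = (av g N f x * av g N f x * h x +
      2 * (av g N f x * (f x - av g N f x) * h x)) +
      (f x - av g N f x) * (f x - av g N f x) * h x := fun x => by ring
  have h2 : ∀ x, av g N f x ^ 2 * h x = av g N f x * av g N f x * h x := fun x => by ring
  have h3 : ∀ x, (f x - av g N f x) ^ 2 * h x =
      (f x - av g N f x) * (f x - av g N f x) * h x := fun x => by ring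
  simp only [h1, h2, h3]
  have i4 : Integrable fun x => av g N f x * av g N f x * h x +
      2 * (av g N f x * (f x - av g N f x) * h x) := i1.add (i3.const_mul 2)
  rw [integral_add i4 i2, integral_add i1 (i3.const_mul 2), integral_const_mul, h0]
  ring

/-- `Sg.orthE`, `En_add_smul`. -/
theorem Sg.En_split (S : Sg h g N) (H : GW δ L h) {f : F → ℝ} (hf : BL f) :
    En h f = En h (av g N f) + En h (fun x => f x - av g N f x) := by
  have ha : BL (av g N f) := av_BL hf
  have hz : BL fun x => f x - av g N f x := hf.sub ha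
  have h0 := S.orthE H ha hz (S.av_inv f) (S.sub_zav f)
  have h1 := En_add_smul H ha hz 1
  have h2 : (fun x => av g N f x + 1 * (f x - av g N f x)) = f := by
    funext x
    ring
  rw [h2, h0] at h1
  rw [h1]
  ring

private lemma RAvE_int_av (S : Sg h g N) (H : GW δ L h) {f : F → ℝ} (hf : BL f) :
    ∫ x, f x * h x = ∫ x, av g N f x * h x := by
  have ha : BL (av g N f) := av_BL hf
  have hz : BL fun x => f x - av g N f x := hf.sub ha
  have h0 := S.zav_mean H.int H.cont.measurable hz (S.sub_zav f)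
  have h1 : ∀ x, (f x - av g N f x) * h x = f x * h x - av g N f x * h x := fun x => by ring
  simp only [h1] at h0
  rw [integral_sub (RAvE_int H hf) (RAvE_int H ha)] at h0
  linarith

/-- `Sg.sq_split` and `∫ av f h = ∫ f h`. -/
theorem Sg.Vr_split (S : Sg h g N) (H : GW δ L h) (hm : ∫ x, h x = 1) {f : F → ℝ} (hf : BL f) :
    Vr h f = Vr h (av g N f) + ∫ x, (f x - av g N f x) ^ 2 * h x := by
  unfold Vr
  rw [S.sq_split H hf, RAvE_int_av S H hf]
  ring

theorem Sg.Cv_zav (S : Sg h g N) (H : GW δ L h) {u z : F → ℝ} (hu : BL u) (hz : BL z)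
    (hu1 : Inv g u) (hz1 : Zav g N z) : Cv h u z = 0 := by
  unfold Cv
  rw [S.orth H.int H.cont.measurable hu hz hu1 hz1, S.zav_mean H.int H.cont.measurable hz hz1]
  ring

/-- By `h42u.RT_defect`, `(∫ ker) (∫ f² h - ∫ f RT f h) = ∫ VV f`; with `a = av f`, `z = f - a`:
`RT f = RT a + RT z`, `RT a` is invariant and `RT z` has zero average, so the mixed terms
`∫ a RT z h` and `∫ z RT a h` vanish. -/
theorem Sg.VV_split (S : Sg h g N) (H : GW δ L h) {η : ℝ} (hη : 0 < η) {f : F → ℝ} (hf : BL f) :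
    ∫ y, VV h η f y = (∫ y, VV h η (av g N f) y) + ∫ y, VV h η (fun x => f x - av g N f x) y := by
  have ha : BL (av g N f) := av_BL hf
  have hz : BL fun x => f x - av g N f x := hf.sub ha
  have hRa : BL (RT h η (av g N f)) := (RT_sm H.wt hη ha).bl
  have hRz : BL (RT h η fun x => f x - av g N f x) := (RT_sm H.wt hη hz).bl
  have d1 := (h42u.RT_defect H.wt H.int hη hf).1
  have d2 := (h42u.RT_defect H.wt H.int hη ha).1
  have d3 := (h42u.RT_defect H.wt H.int hη hz).1
  have m1 := S.orth H.int H.cont.measurable ha hRz (S.av_inv f) (S.RT_zav H.wt hη hz (S.sub_zav f))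
  have m2 := S.orth H.int H.cont.measurable hRa hz (S.RT_inv (S.av_inv f)) (S.sub_zav f)
  have h2 : (fun x => av g N f x + 1 * (f x - av g N f x)) = f := by
    funext x
    ring
  have h3 : ∀ x, RT h η f x = RT h η (av g N f) x + RT h η (fun x => f x - av g N f x) x := by
    intro x
    have h4 := RT_add_smul H.wt hη ha hz 1 x
    rw [h2, one_mul] at h4
    exact h4
  have h5 : ∀ x, f x * RT h η f x * h x =
      (av g N f x * RT h η (av g N f) x * h x +
        av g N f x * RT h η (fun x => f x - av g N f x) x * h x) +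
      (RT h η (av g N f) x * (f x - av g N f x) * h x +
        (f x - av g N f x) * RT h η (fun x => f x - av g N f x) x * h x) := by
    intro x
    rw [h3]
    ring
  have i1 := RAvE_int H (ha.mul hRa)
  have i2 := RAvE_int H (ha.mul hRz)
  have i3 := RAvE_int H (hRa.mul hz)
  have i4 := RAvE_int H (hz.mul hRz)
  have h6 : ∫ x, f x * RT h η f x * h x = (∫ x, av g N f x * RT h η (av g N f) x * h x) +
      ∫ x, (f x - av g N f x) * RT h η (fun x => f x - av g N f x) x * h x := by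
    simp only [h5]
    have i5 : Integrable fun x => av g N f x * RT h η (av g N f) x * h x +
        av g N f x * RT h η (fun x => f x - av g N f x) x * h x := i1.add i2
    have i6 : Integrable fun x => RT h η (av g N f) x * (f x - av g N f x) * h x +
        (f x - av g N f x) * RT h η (fun x => f x - av g N f x) x * h x := i3.add i4
    rw [integral_add i5 i6, integral_add i1 i2, integral_add i3 i4, m1, m2]
    ring
  rw [← d1, ← d2, ← d3, h6, S.sq_split H hf]
  ring

end Pool.Agent.Lib.MP_8d00da_gt.h97r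
end
end

section

section

/-!
# Derivatives of invariant functions
-/

namespace Pool.Agent.Lib.MP_8d00da_gt.h97r

open MeasureTheory Set Filter
open Pool.Agent.Lib.MP_8d00da_gt.h25 Pool.Agent.Lib.MP_8d00da_gt.h42
open Pool.Agent.Lib.MP_8d00da_gt.h42s Pool.Agent.Lib.MP_8d00da_gt.h42o
open scoped Topology NNReal

variable {F : Type*} [NormedAddCommGroup F] [InnerProductSpace ℝ F]
    [FiniteDimensional ℝ F] [MeasurableSpace F] [BorelSpace F]

variable {δ L : ℝ} {h : F → ℝ} {g : F ≃ₗᵢ[ℝ] F} {N : ℕ}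

omit [FiniteDimensional ℝ F] [MeasurableSpace F] [BorelSpace F] in
/-- Chain rule for an invariant function. -/
private lemma ravd_chain {f : F → ℝ} (T : F ≃ₗᵢ[ℝ] F) (hf : ∀ x, f (T x) = f x)
    (hd : Differentiable ℝ f) (x w : F) : fderiv ℝ f (T x) (T w) = fderiv ℝ f x w := by
  have h1 : HasFDerivAt (fun y => f (T y))
      ((fderiv ℝ f (T x)).comp (T.toContinuousLinearEquiv : F →L[ℝ] F)) x := by
    have h2 : HasFDerivAt (fun y => T y) (T.toContinuousLinearEquiv : F →L[ℝ] F) x :=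
      (T.toContinuousLinearEquiv : F →L[ℝ] F).hasFDerivAt
    exact (hd (T x)).hasFDerivAt.comp x h2
  have h3 : (fun y => f (T y)) = f := funext hf
  rw [h3] at h1
  have h4 := h1.fderiv
  rw [h4]
  rfl

omit [FiniteDimensional ℝ F] [MeasurableSpace F] [BorelSpace F] in
private lemma ravd_pow {f : F → ℝ} (hf : Inv g f) (k : ℕ) (x : F) : f ((g ^ k) x) = f x := by
  induction k generalizing x with
  | zero => simp
  | succ k ih =>
    rw [pow_succ]
    have h1 : (g ^ k * g) x = (g ^ k) (g x) := rfl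
    rw [h1, ih, hf]

/-- `f (g x) = f x` gives `fderiv f (g x) (g v) = fderiv f x v`, hence
`fderiv f (g^k x) v = fderiv f x (g^{-k} v)`, and `∑ k < N, g^{-k} v = ∑ k < N, g^k v = 0` for
`v = b (inl i)` since `g^N = 1`. -/
theorem Sy.dzav {d e : ℕ} {b : OrthonormalBasis (Fin d ⊕ Fin e) ℝ F} (S : Sy h g N b) {f : F → ℝ}
    (hf : Inv g f) (hd : Differentiable ℝ f) (i : Fin d) :
    Zav g N fun x => fderiv ℝ f x (b (Sum.inl i)) := by
  intro x
  set v := b (Sum.inl i) with hv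
  have hN := S.Npos
  have h0 := S.mov i
  -- each term is a derivative at `x`
  have h1 : ∀ k ∈ Finset.range N, fderiv ℝ f ((g ^ k) x) v =
      fderiv ℝ f x ((g ^ (N - 1 - k + 1)) v) := by
    intro k hk
    have hk' : k < N := Finset.mem_range.mp hk
    have h2 : v = (g ^ k) ((g ^ (N - 1 - k + 1)) v) := by
      have h3 : (g ^ k) ((g ^ (N - 1 - k + 1)) v) = (g ^ k * g ^ (N - 1 - k + 1)) v := rfl
      rw [h3, ← pow_add, show k + (N - 1 - k + 1) = N by omega, S.per]
    conv_lhs => rw [h2]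
    exact ravd_chain (g ^ k) (fun y => ravd_pow hf k y) hd x _
  show ∑ k ∈ Finset.range N, fderiv ℝ f ((g ^ k) x) v = 0
  rw [Finset.sum_congr rfl h1, Finset.sum_range_reflect (fun j => fderiv ℝ f x ((g ^ (j + 1)) v)) N,
    ← map_sum]
  have h4 : ∑ k ∈ Finset.range N, (g ^ (k + 1)) v = g (∑ k ∈ Finset.range N, (g ^ k) v) := by
    rw [map_sum]
    refine Finset.sum_congr rfl fun k _ => ?_
    rw [pow_succ']
    rfl
  rw [h4, h0, map_zero, map_zero]

private lemma ravd_RT_zero {B η : ℝ} (H : Wt h B) (hη : 0 < η) (x : F) :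
    RT h η (fun _ => (0 : ℝ)) x = 0 := by
  have h1 := RT_add_smul H hη (BL.const (F := F) 0) (BL.const (F := F) 0) 1 x
  simp only [mul_zero, add_zero, one_mul] at h1
  linarith

private lemma ravd_RT_sum {B η : ℝ} (H : Wt h B) (hη : 0 < η) {ι : Type*} (s : Finset ι)
    (c : ι → ℝ) {f : ι → F → ℝ} (hf : ∀ i, BL (f i)) (x : F) :
    RT h η (fun y => ∑ i ∈ s, c i * f i y) x = ∑ i ∈ s, c i * RT h η (f i) x := by
  classical
  induction s using Finset.induction_on with
  | empty => simpa using ravd_RT_zero H hη x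
  | insert a s ha ih =>
    have h1 : (fun y => ∑ i ∈ insert a s, c i * f i y) =
        fun y => (∑ i ∈ s, c i * f i y) + c a * f a y := by
      funext y
      rw [Finset.sum_insert ha, add_comm]
    rw [h1, RT_add_smul H hη (BL.sum s fun i _ => (BL.const (c i)).mul (hf i)) (hf a), ih,
      Finset.sum_insert ha, add_comm]

/-- For a `g`-invariant smooth function the norm of the family
`RT (∂_i v)`, `i : Fin d`, is `g`-invariant: `g` acts on the span of the `b (inl i)` (the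
orthogonal complement of the fixed vectors `b (inr j)`) by an orthogonal matrix `A`,
`g (b (inl i)) = ∑ j, A i j • b (inl j)`; with `p_i = fderiv v · (b (inl i))` one has
`p_i (x) = fderiv v (g x) (g (b (inl i))) = ∑ j, A i j p_j (g x)`, so
`RT p_i (x) = ∑ j, A i j (RT p_j) (g x)` by linearity and `RT_comp`, and
`∑ i, (RT p_i x)² = ∑ j, (RT p_j (g x))²` as `A` is orthogonal. -/
theorem Sy.nq_inv {d e : ℕ} {b : OrthonormalBasis (Fin d ⊕ Fin e) ℝ F} (S : Sy h g N b)
    (H : GW δ L h) {η : ℝ} (hη : 0 < η) {v : F → ℝ} (hv : Sm v) (hi : Inv g v) :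
    Inv g (nq fun (i : Fin d) => RT h η fun x => fderiv ℝ v x (b (Sum.inl i))) := by
  intro x
  have hW := H.wt
  set p : Fin d → F → ℝ := fun i x => fderiv ℝ v x (b (Sum.inl i)) with hp
  have hpBL : ∀ i, BL (p i) := fun i => hv.dbl _
  -- the matrix of `g`
  have hA : ∀ i : Fin d, g (b (Sum.inl i)) =
      ∑ j : Fin d, (inner ℝ (b (Sum.inl j)) (g (b (Sum.inl i)))) • b (Sum.inl j) := by
    intro i
    have h1 := b.sum_repr' (g (b (Sum.inl i)))
    rw [Fintype.sum_sum_type] at h1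
    have h2 : ∀ j : Fin e, (inner ℝ (b (Sum.inr j)) (g (b (Sum.inl i)))) • b (Sum.inr j) = 0 := by
      intro j
      have h3 : inner ℝ (b (Sum.inr j)) (g (b (Sum.inl i))) = (0 : ℝ) := by
        conv_lhs => rw [← S.fix j]
        rw [LinearIsometryEquiv.inner_map_map]
        exact b.orthonormal.2 (by simp)
      rw [h3, zero_smul]
    rw [Finset.sum_congr rfl fun j _ => h2 j, Finset.sum_const_zero, add_zero] at h1
    exact h1.symm
  have hq : ∀ i : Fin d, RT h η (p i) x = inner ℝ (∑ j : Fin d, RT h η (p j) (g x) •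
      b (Sum.inl j)) (g (b (Sum.inl i))) := by
    intro i
    have h1 : p i = fun y => ∑ j : Fin d, (inner ℝ (b (Sum.inl j)) (g (b (Sum.inl i)))) *
        p j (g y) := by
      funext y
      have h2 := ravd_chain g hi hv.diff y (b (Sum.inl i))
      have h3 : p i y = fderiv ℝ v (g y) (g (b (Sum.inl i))) := h2.symm
      rw [h3]
      conv_lhs => rw [hA i]
      rw [map_sum]
      refine Finset.sum_congr rfl fun j _ => ?_
      rw [map_smul, smul_eq_mul]
    have h4 : ∀ j, BL (fun y => p j (g y)) := fun j => (hpBL j).comp g.lipschitz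
    conv_lhs => rw [h1]
    rw [ravd_RT_sum hW hη Finset.univ _ h4 x, sum_inner]
    refine Finset.sum_congr rfl fun j _ => ?_
    rw [RT_comp g S.inv, real_inner_smul_left, mul_comm]
  set w : F := ∑ j : Fin d, RT h η (p j) (g x) • b (Sum.inl j) with hw
  have hwj : ∀ i : Fin d, inner ℝ (b (Sum.inl i)) w = RT h η (p i) (g x) := by
    intro i
    rw [hw, inner_sum]
    rw [Finset.sum_eq_single i]
    · rw [real_inner_smul_right, real_inner_self_eq_norm_sq, b.orthonormal.1]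
      ring
    · intro j _ hj
      rw [real_inner_smul_right]
      have : inner ℝ (b (Sum.inl i)) (b (Sum.inl j)) = (0 : ℝ) :=
        b.orthonormal.2 (by simpa using fun h => hj h.symm)
      rw [this, mul_zero]
    · intro hi'
      exact absurd (Finset.mem_univ i) hi'
  have h5 := S.sum_inv (g.symm w)
  rw [g.apply_symm_apply] at h5
  have h6 : ∀ i : Fin d, RT h η (p i) x = inner ℝ (b (Sum.inl i)) (g.symm w) := by
    intro i
    rw [hq i]
    conv_lhs => rw [← g.apply_symm_apply w]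
    rw [LinearIsometryEquiv.inner_map_map, real_inner_comm]
  show Real.sqrt (∑ i, RT h η (p i) (g x) ^ 2) = Real.sqrt (∑ i, RT h η (p i) x ^ 2)
  congr 1
  calc ∑ i, RT h η (p i) (g x) ^ 2 = ∑ i, (inner ℝ (b (Sum.inl i)) w) ^ 2 :=
        Finset.sum_congr rfl fun i _ => by rw [hwj i]
    _ = ∑ i, (inner ℝ (b (Sum.inl i)) (g.symm w)) ^ 2 := h5
    _ = ∑ i, RT h η (p i) x ^ 2 := Finset.sum_congr rfl fun i _ => by rw [h6 i]

end Pool.Agent.Lib.MP_8d00da_gt.h97r
end

section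

/-!
# Near extremals: lower bounds
-/

namespace Pool.Agent.Lib.MP_8d00da_gt.h97r

open MeasureTheory Set Filter
open Pool.Agent.Lib.MP_8d00da_gt.h25 Pool.Agent.Lib.MP_8d00da_gt.h42
open Pool.Agent.Lib.MP_8d00da_gt.h42s Pool.Agent.Lib.MP_8d00da_gt.h42o
open scoped Topology NNReal

variable {F : Type*} [NormedAddCommGroup F] [InnerProductSpace ℝ F]
    [FiniteDimensional ℝ F] [MeasurableSpace F] [BorelSpace F]

variable {δ L lam : ℝ} {h : F → ℝ} {g : F ≃ₗᵢ[ℝ] F} {N : ℕ}

private lemma nB_int (H : GW δ L h) {f : F → ℝ} (hf : BL f) : Integrable fun x => f x * h x := by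
  obtain ⟨⟨K, hK⟩, A, hA⟩ := hf
  exact H.bdd_int hK.continuous.measurable hA

private lemma nB_int2 (H : GW δ L h) {f : F → ℝ} (hf : BL f) :
    Integrable fun x => f x ^ 2 * h x := by
  have h1 := nB_int H (hf.mul hf)
  simpa only [sq] using h1

private lemma nB_pow_fderiv (g : F ≃ₗᵢ[ℝ] F) {f : F → ℝ} (hf : Differentiable ℝ f) (k : ℕ) (x : F) :
    HasFDerivAt (fun x => f ((g ^ k) x))
      ((fderiv ℝ f ((g ^ k) x)).comp ((g ^ k).toContinuousLinearEquiv : F →L[ℝ] F)) x :=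
  (hf _).hasFDerivAt.comp x ((g ^ k).toContinuousLinearEquiv.hasFDerivAt)

private lemma nB_av_fderiv (g : F ≃ₗᵢ[ℝ] F) (N : ℕ) {f : F → ℝ} (hf : Differentiable ℝ f) (x : F) :
    HasFDerivAt (av g N f) ((1 / (N : ℝ)) • ∑ k ∈ Finset.range N,
      (fderiv ℝ f ((g ^ k) x)).comp ((g ^ k).toContinuousLinearEquiv : F →L[ℝ] F)) x := by
  unfold av
  have h1 : HasFDerivAt (fun x => ∑ k ∈ Finset.range N, f ((g ^ k) x))
      (∑ k ∈ Finset.range N,
        (fderiv ℝ f ((g ^ k) x)).comp ((g ^ k).toContinuousLinearEquiv : F →L[ℝ] F)) x :=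
    HasFDerivAt.fun_sum fun k _ => nB_pow_fderiv g hf k x
  exact h1.const_mul (1 / (N : ℝ))

private lemma nB_av_Sm (g : F ≃ₗᵢ[ℝ] F) (N : ℕ) {f : F → ℝ} (hf : Sm f) : Sm (av g N f) := by
  refine ⟨av_BL hf.bl, fun x => (nB_av_fderiv g N hf.diff x).differentiableAt, fun θ => ?_⟩
  have h1 : (fun x => fderiv ℝ (av g N f) x θ) = fun x => (1 / (N : ℝ)) * ∑ k ∈ Finset.range N,
      fderiv ℝ f ((g ^ k) x) ((g ^ k) θ) := by
    funext x
    rw [(nB_av_fderiv g N hf.diff x).fderiv]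
    simp
  rw [h1]
  refine (BL.const _).mul (BL.sum _ fun k _ => ?_)
  exact (hf.dbl ((g ^ k) θ)).comp (g ^ k).lipschitz

private lemma nB_fderiv_sub {f k : F → ℝ} (hf : Differentiable ℝ f) (hk : Differentiable ℝ k)
    (x v : F) : fderiv ℝ (fun x => f x - k x) x v = fderiv ℝ f x v - fderiv ℝ k x v := by
  rw [fderiv_fun_sub (hf x) (hk x)]
  rfl

private lemma nB_sub_Sm {f k : F → ℝ} (hf : Sm f) (hk : Sm k) : Sm fun x => f x - k x := by
  refine ⟨hf.bl.sub hk.bl, hf.diff.sub hk.diff, fun θ => ?_⟩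
  have h1 : (fun x => fderiv ℝ (fun x => f x - k x) x θ) =
      fun x => fderiv ℝ f x θ - fderiv ℝ k x θ := by
    funext x
    exact nB_fderiv_sub hf.diff hk.diff x θ
  rw [h1]
  exact (hf.dbl θ).sub (hk.dbl θ)

private lemma nB_En_int (H : GW δ L h) {f : F → ℝ} (hf : BL f) :
    Integrable fun x => ‖fderiv ℝ f x‖ ^ 2 * h x := by
  obtain ⟨⟨K, hK⟩, -⟩ := hf
  exact H.bdd_int ((measurable_fderiv ℝ f).norm.pow_const 2) (sq_fderiv_bdd hK)

/-- The sum of the square norms of the partial derivatives is at most the energy. -/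
private lemma nB_sum_le (H : GW δ L h) {d e : ℕ} (b : OrthonormalBasis (Fin d ⊕ Fin e) ℝ F)
    {f : F → ℝ} (hf : Sm f) :
    ∑ i : Fin d, (∫ x, (fderiv ℝ f x (b (Sum.inl i))) ^ 2 * h x) ≤ En h f := by
  have i1 : ∀ i ∈ (Finset.univ : Finset (Fin d)),
      Integrable fun x => (fderiv ℝ f x (b (Sum.inl i))) ^ 2 * h x :=
    fun i _ => nB_int2 H (hf.dbl (b (Sum.inl i)))
  rw [← integral_finset_sum _ i1]
  unfold En
  refine integral_mono (integrable_finset_sum _ i1) (nB_En_int H hf.bl) fun x => ?_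
  simp only
  rw [← Finset.sum_mul]
  refine mul_le_mul_of_nonneg_right ?_ (H.pos x).le
  rw [norm_sq_fderiv b, Fintype.sum_sum_type]
  have : 0 ≤ ∑ j : Fin e, (fderiv ℝ f x (b (Sum.inr j))) ^ 2 :=
    Finset.sum_nonneg fun j _ => sq_nonneg _
  linarith

private lemma nB_single_le (H : GW δ L h) {d e : ℕ} (b : OrthonormalBasis (Fin d ⊕ Fin e) ℝ F)
    {f : F → ℝ} (hf : Sm f) (i : Fin d) :
    ∫ x, (fderiv ℝ f x (b (Sum.inl i))) ^ 2 * h x ≤ En h f := by
  refine le_trans ?_ (nB_sum_le H b hf)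
  exact Finset.single_le_sum (f := fun i : Fin d => ∫ x, (fderiv ℝ f x (b (Sum.inl i))) ^ 2 * h x)
    (fun j _ => integral_nonneg fun x => mul_nonneg (sq_nonneg _) (H.pos x).le)
    (Finset.mem_univ i)

/-- `p = fderiv f · (b (inl i)) = p_a + p_z` with `a = av f`, `z = f - a`; `p_a` has zero average
(`Sy.dzav`), so `av p = av p_z` and `∫ (av p)² h ≤ ∫ p_z² h ≤ En z` (`Sg.sq_split`). With
`w = p - av p`: `∫ VV w ≤ ∫ VV p` (`Sg.VV_split`), `∫ w² h = ∫ p² h - ∫ (av p)² h`, and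
`h42o.VV_lower` for `w` with `K = 1 / lam'` (its hypothesis holds as `RT w` has zero average,
`Sg.RT_zav`). -/
theorem VV_inl (H : GW δ L h) (hm : ∫ x, h x = 1) {d e : ℕ}
    {b : OrthonormalBasis (Fin d ⊕ Fin e) ℝ F} (S : Sy h g N b) {lam' : ℝ} (hlam' : 0 < lam')
    (hz : ∀ z : F → ℝ, BL z → Zav g N z → lam' * ∫ x, z x ^ 2 * h x ≤ En h z) {f : F → ℝ}
    (hf : Sm f) {η : ℝ} (hη : 0 < η) (i : Fin d) :
    (∫ z : F, h25.ker η z) * (η * ((∫ x, (fderiv ℝ f x (b (Sum.inl i))) ^ 2 * h x) -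
      En h (fun x => f x - av g N f x))) ≤
      (2 * η + 1 / lam') * ∫ y, VV h η (fun x => fderiv ℝ f x (b (Sum.inl i))) y := by
  have G := S.toSg
  have ha := nB_av_Sm g N hf
  have hzs := nB_sub_Sm hf ha
  set p : F → ℝ := fun x => fderiv ℝ f x (b (Sum.inl i)) with hp
  set pa : F → ℝ := fun x => fderiv ℝ (av g N f) x (b (Sum.inl i)) with hpa
  set pz : F → ℝ := fun x => fderiv ℝ (fun x => f x - av g N f x) x (b (Sum.inl i)) with hpz
  have hpb : BL p := hf.dbl _
  have hpab : BL pa := ha.dbl _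
  have hpzb : BL pz := hzs.dbl _
  have hzav : Zav g N pa := S.dzav (G.av_inv f) ha.diff i
  have hpe : p = fun x => pz x + 1 * pa x := by
    funext x
    rw [hpz, hp, hpa]
    simp only
    rw [nB_fderiv_sub hf.diff ha.diff]
    ring
  have havp : ∀ x, av g N p x = av g N pz x := by
    intro x
    rw [hpe, av_add_smul, av_of_zav hzav]
    ring
  have hav : ∫ x, av g N p x ^ 2 * h x ≤ En h (fun x => f x - av g N f x) := by
    simp only [havp]
    refine le_trans ?_ (nB_single_le H b hzs i)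
    have h1 := G.sq_split H hpzb
    have h2 : 0 ≤ ∫ x, (pz x - av g N pz x) ^ 2 * h x :=
      integral_nonneg fun x => mul_nonneg (sq_nonneg _) (H.pos x).le
    show _ ≤ ∫ x, pz x ^ 2 * h x
    linarith
  have hwb : BL fun x => p x - av g N p x := hpb.sub (av_BL hpb)
  have hwz : Zav g N fun x => p x - av g N p x := G.sub_zav p
  have hsq := G.sq_split H hpb
  have hVV := G.VV_split H hη hpb
  have hVV0 : 0 ≤ ∫ y, VV h η (av g N p) y := integral_nonneg fun y => H.wt.VV_nonneg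
  have hRz : Zav g N (RT h η fun x => p x - av g N p x) := G.RT_zav H.wt hη hwb hwz
  have hRb : BL (RT h η fun x => p x - av g N p x) := (RT_sm H.wt hη hwb).bl
  have hP : Vr h (RT h η fun x => p x - av g N p x) ≤
      (1 / lam') * En h (RT h η fun x => p x - av g N p x) := by
    refine (Vr_le hm _).trans ?_
    have h1 := hz _ hRb hRz
    rw [one_div, ← div_eq_inv_mul, le_div_iff₀ hlam']
    linarith
  have hlow := VV_lower H.wt H.int H.mass_pos hη hwb (K := 1 / lam') (by positivity) hP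
  have hVrw : Vr h (fun x => p x - av g N p x) = ∫ x, (p x - av g N p x) ^ 2 * h x := by
    unfold Vr
    have h1 := G.zav_mean H.int H.cont.measurable hwb hwz
    rw [h1, hm]
    ring
  rw [hVrw] at hlow
  have hc0 : 0 < ∫ z : F, h25.ker η z := ker_int_pos hη
  have h3 : (∫ z : F, h25.ker η z) * (η * ((∫ x, p x ^ 2 * h x) -
      En h (fun x => f x - av g N f x))) ≤
      (∫ z : F, h25.ker η z) * (η * ∫ x, (p x - av g N p x) ^ 2 * h x) := by
    refine mul_le_mul_of_nonneg_left (mul_le_mul_of_nonneg_left ?_ hη.le) hc0.le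
    linarith
  refine h3.trans (hlow.trans ?_)
  refine mul_le_mul_of_nonneg_left ?_ (by positivity)
  linarith

/-- `h42o.VV_lower` with `K = 1 / lam`. -/
theorem VV_all (H : GW δ L h) (hm : ∫ x, h x = 1) (hlam : 0 < lam) (hPI : PI h lam) {p : F → ℝ}
    (hp : BL p) {η : ℝ} (hη : 0 < η) :
    (∫ z : F, h25.ker η z) * (η * Vr h p) ≤ (2 * η + 1 / lam) * ∫ y, VV h η p y := by
  refine VV_lower H.wt H.int H.mass_pos hη hp (by positivity) ?_
  have h1 := hPI _ (RT_sm H.wt hη hp).bl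
  rw [one_div, ← div_eq_inv_mul, le_div_iff₀ hlam]
  linarith

/-- `∫ ∂_i f h = ∫ ∂_i a h + ∫ ∂_i z h` with `a = av f`, `z = f - a`, and the first term
vanishes (`Sy.dzav`, `Sg.zav_mean`); `(∫ ∂_i z h)² ≤ ∫ (∂_i z)² h`, and the sum over `i` is at
most `En z`. -/
theorem mean_inl (H : GW δ L h) (hm : ∫ x, h x = 1) {d e : ℕ}
    {b : OrthonormalBasis (Fin d ⊕ Fin e) ℝ F} (S : Sy h g N b) {f : F → ℝ} (hf : Sm f) :
    ∑ i : Fin d, (∫ x, fderiv ℝ f x (b (Sum.inl i)) * h x) ^ 2 ≤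
      En h (fun x => f x - av g N f x) := by
  have G := S.toSg
  have ha := nB_av_Sm g N hf
  have hzs := nB_sub_Sm hf ha
  refine le_trans (Finset.sum_le_sum fun i _ => ?_) (nB_sum_le H b hzs)
  have h1 : ∫ x, fderiv ℝ f x (b (Sum.inl i)) * h x =
      ∫ x, fderiv ℝ (fun x => f x - av g N f x) x (b (Sum.inl i)) * h x := by
    have h2 : ∫ x, fderiv ℝ (av g N f) x (b (Sum.inl i)) * h x = 0 :=
      G.zav_mean H.int H.cont.measurable (ha.dbl _) (S.dzav (G.av_inv f) ha.diff i)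
    have h3 : ∀ x, fderiv ℝ (fun x => f x - av g N f x) x (b (Sum.inl i)) * h x =
        fderiv ℝ f x (b (Sum.inl i)) * h x - fderiv ℝ (av g N f) x (b (Sum.inl i)) * h x := by
      intro x
      rw [nB_fderiv_sub hf.diff ha.diff]
      ring
    simp only [h3]
    rw [integral_sub (nB_int H (hf.dbl _)) (nB_int H (ha.dbl _)), h2, sub_zero]
  rw [h1]
  have h4 := Vr_nonneg H hm (hzs.dbl (b (Sum.inl i)))
  unfold Vr at h4
  rw [hm, div_one] at h4
  linarith

end Pool.Agent.Lib.MP_8d00da_gt.h97r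
end
end

section

section

/-!
# Near extremals: preparations
-/

namespace Pool.Agent.Lib.MP_8d00da_gt.h97r

open MeasureTheory Set Filter
open Pool.Agent.Lib.MP_8d00da_gt.h25 Pool.Agent.Lib.MP_8d00da_gt.h42
open Pool.Agent.Lib.MP_8d00da_gt.h42s Pool.Agent.Lib.MP_8d00da_gt.h42o
open scoped Topology NNReal

variable {F : Type*} [NormedAddCommGroup F] [InnerProductSpace ℝ F]
    [FiniteDimensional ℝ F] [MeasurableSpace F] [BorelSpace F]

variable {δ L lam : ℝ} {h : F → ℝ} {g : F ≃ₗᵢ[ℝ] F} {N : ℕ}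

private lemma nA_int (H : GW δ L h) {f : F → ℝ} (hf : BL f) : Integrable fun x => f x * h x := by
  obtain ⟨⟨K, hK⟩, A, hA⟩ := hf
  exact H.bdd_int hK.continuous.measurable hA

private lemma nA_int2 (H : GW δ L h) {f : F → ℝ} (hf : BL f) :
    Integrable fun x => f x ^ 2 * h x := by
  have h1 := nA_int H (hf.mul hf)
  simpa only [sq] using h1

private lemma nA_En_sub (f : F → ℝ) (c : ℝ) : En h (fun x => f x - c) = En h f := by
  unfold En
  simp only [fderiv_sub_const]

private lemma nA_sq_sub (H : GW δ L h) (hm : ∫ x, h x = 1) {f : F → ℝ} (hf : BL f) :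
    ∫ x, (f x - ∫ y, f y * h y) ^ 2 * h x = Vr h f := by
  set c := ∫ y, f y * h y with hc
  have h2 : ∀ x, (f x - c) ^ 2 * h x = f x ^ 2 * h x - 2 * c * (f x * h x) + c ^ 2 * h x := by
    intro x
    ring
  simp only [h2]
  have i1 := nA_int H hf
  have i2 := nA_int2 H hf
  have i3 := H.int
  have i4 : Integrable fun x => f x ^ 2 * h x - 2 * c * (f x * h x) := i2.sub (i1.const_mul _)
  rw [integral_add i4 (i3.const_mul _), integral_sub i2 (i1.const_mul _),
    integral_const_mul, integral_const_mul, hm, ← hc]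
  unfold Vr
  rw [← hc, hm]
  ring

private lemma nA_mean_sub (H : GW δ L h) (hm : ∫ x, h x = 1) {f : F → ℝ} (hf : BL f) :
    ∫ x, (f x - ∫ y, f y * h y) * h x = 0 := by
  set c := ∫ y, f y * h y with hc
  simp only [sub_mul]
  rw [integral_sub (nA_int H hf) (H.int.const_mul _), integral_const_mul, hm, ← hc]
  ring

/-- From a near extremal `f₀` take `f = RT h η f₀ - mean` for small `η`: by `h25.round_var`,
`∫ f₀² h ≤ 2 η En f₀ + ∫ (RT f₀)² h`, means are preserved, so
`(1 - ε') En f₀ < lam Vr f₀ ≤ lam Vr f + 2 η lam En f₀`, and `En f ≤ En f₀`. `En f > 0`: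
otherwise `Vr f = 0` (PI) and `(1 - ε' - 2 η lam) En f₀ < 0`. -/
theorem near_smooth (H : GW δ L h) (hm : ∫ x, h x = 1) (hlam : 0 < lam) (hPI : PI h lam)
    (hNE : ∀ ε : ℝ, 0 < ε → ∃ f : F → ℝ, BL f ∧ (1 - ε) * En h f < lam * Vr h f) {ε : ℝ}
    (hε : 0 < ε) :
    ∃ f : F → ℝ, Sm f ∧ ∫ x, f x * h x = 0 ∧ 0 < En h f ∧
      (1 - ε) * En h f ≤ lam * ∫ x, f x ^ 2 * h x := by
  obtain ⟨ε', hε'⟩ : ∃ ε', ε' = min ε 1 := ⟨_, rfl⟩
  have hε0 : 0 < ε' := by rw [hε']; positivity
  have hε1 : ε' ≤ ε := by rw [hε']; exact min_le_left _ _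
  have hε2 : ε' ≤ 1 := by rw [hε']; exact min_le_right _ _
  obtain ⟨η, hη⟩ : ∃ η, η = ε' / (8 * lam) := ⟨_, rfl⟩
  have hη0 : 0 < η := by rw [hη]; positivity
  have hηl : 8 * (lam * η) = ε' := by rw [hη]; field_simp
  obtain ⟨f₀, hf₀, hne⟩ := hNE (ε' / 4) (by positivity)
  have hR := RT_sm H.wt hη0 hf₀
  have hEn := (RT_En H.wt H.int hη0 hf₀).1
  have hmean := RT_mean H.wt H.int hη0 hf₀
  have hvar : ∫ x, f₀ x ^ 2 * h x ≤ 2 * η * En h f₀ + ∫ x, RT h η f₀ x ^ 2 * h x := by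
    obtain ⟨⟨K, hK⟩, A, hA⟩ := id hf₀
    exact h25.round_var H.wt H.int hη0 hK hA
  have hVr : Vr h f₀ ≤ 2 * η * En h f₀ + Vr h (RT h η f₀) := by
    unfold Vr
    rw [hmean]
    linarith
  set c := ∫ y, RT h η f₀ y * h y with hc
  have hE0 : 0 ≤ En h f₀ := En_nonneg H.wt
  have hV := nA_sq_sub H hm hR.bl
  rw [← hc] at hV
  have e1 : En h (fun x => RT h η f₀ x - c) = En h (RT h η f₀) := nA_En_sub _ _
  have hRE : 0 ≤ En h (RT h η f₀) := En_nonneg H.wt
  have key : (1 - ε' / 2) * En h f₀ < lam * Vr h (RT h η f₀) := by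
    have h1 := mul_le_mul_of_nonneg_left hVr hlam.le
    have h2 : lam * (2 * η * En h f₀ + Vr h (RT h η f₀)) =
        ε' / 4 * En h f₀ + lam * Vr h (RT h η f₀) := by
      rw [← hηl]; ring
    rw [h2] at h1
    linarith
  refine ⟨fun x => RT h η f₀ x - c, ⟨hR.bl.sub (BL.const c), hR.diff.sub_const c, ?_⟩,
    nA_mean_sub H hm hR.bl, ?_, ?_⟩
  · intro θ
    simp only [fderiv_sub_const]
    exact hR.dbl θ
  · rw [e1]
    have h1 := hPI _ hR.bl
    have h2 : 0 ≤ (1 - ε' / 2) * En h f₀ := mul_nonneg (by linarith) hE0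
    linarith
  · rw [e1, hV]
    have h1 : (1 - ε) * En h (RT h η f₀) ≤ (1 - ε' / 2) * En h (RT h η f₀) :=
      mul_le_mul_of_nonneg_right (by linarith) hRE
    have h2 : (1 - ε' / 2) * En h (RT h η f₀) ≤ (1 - ε' / 2) * En h f₀ :=
      mul_le_mul_of_nonneg_left hEn (by linarith)
    linarith

/-- With `a = av f`, `z = f - a`: `(1 - ε) (En a + En z) ≤ lam (Vr a + ∫ z² h) ≤
En a + (lam / lam') En z` (`Sg.En_split`, `Sg.Vr_split`, `hPI`, `hz`), so
`(1 - ε - lam / lam') En z ≤ ε En a ≤ ε En f`. -/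
theorem near_av (H : GW δ L h) (hm : ∫ x, h x = 1) (hlam : 0 < lam) (hPI : PI h lam)
    (S : Sg h g N) {lam' : ℝ} (hlam' : lam < lam')
    (hz : ∀ z : F → ℝ, BL z → Zav g N z → lam' * ∫ x, z x ^ 2 * h x ≤ En h z) {f : F → ℝ}
    (hf : BL f) (hf0 : ∫ x, f x * h x = 0) {ε : ℝ} (hε0 : 0 ≤ ε)
    (hε : ε ≤ (1 - lam / lam') / 2) (hnear : (1 - ε) * En h f ≤ lam * ∫ x, f x ^ 2 * h x) :
    (lam' - lam) * En h (fun x => f x - av g N f x) ≤ 2 * lam' * ε * En h f := by
  have hl' : 0 < lam' := hlam.trans hlam'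
  have ha : BL (av g N f) := av_BL hf
  have hzb : BL (fun x => f x - av g N f x) := hf.sub ha
  have h1 := S.En_split H hf
  have h2 := S.Vr_split H hm hf
  have h3 := hPI _ ha
  have h4 := hz _ hzb (S.sub_zav f)
  have h5 : Vr h f = ∫ x, f x ^ 2 * h x := by
    unfold Vr
    rw [hf0, hm]
    ring
  have hEa : 0 ≤ En h (av g N f) := En_nonneg H.wt
  have hEz : 0 ≤ En h (fun x => f x - av g N f x) := En_nonneg H.wt
  rw [← h5, h2] at hnear
  set Ez := En h (fun x => f x - av g N f x) with hEzd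
  set Ea := En h (av g N f) with hEad
  set Z := ∫ x, (f x - av g N f x) ^ 2 * h x with hZ
  rw [h1] at hnear ⊢
  have h6 : lam * Z ≤ lam / lam' * Ez := by
    have h7 : lam / lam' * (lam' * Z) = lam * Z := by field_simp
    rw [← h7]
    exact mul_le_mul_of_nonneg_left h4 (by positivity)
  have h8 : (1 - lam / lam') / 2 * Ez ≤ ε * (Ea + Ez) := by
    have h9 : ε * Ez ≤ (1 - lam / lam') / 2 * Ez := mul_le_mul_of_nonneg_right hε hEz
    have h10 : 0 ≤ ε * Ez := mul_nonneg hε0 hEz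
    nlinarith
  have h9 : (lam' - lam) * Ez = 2 * lam' * ((1 - lam / lam') / 2 * Ez) := by field_simp
  rw [h9]
  calc 2 * lam' * ((1 - lam / lam') / 2 * Ez) ≤ 2 * lam' * (ε * (Ea + Ez)) :=
        mul_le_mul_of_nonneg_left h8 (by positivity)
    _ = _ := by ring

end Pool.Agent.Lib.MP_8d00da_gt.h97r
end

section

/-!
# Near extremals in a sector
-/

namespace Pool.Agent.Lib.MP_8d00da_gt.h97r

open MeasureTheory Set Filter
open Pool.Agent.Lib.MP_8d00da_gt.h25 Pool.Agent.Lib.MP_8d00da_gt.h42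
open Pool.Agent.Lib.MP_8d00da_gt.h42s Pool.Agent.Lib.MP_8d00da_gt.h42o
open scoped Topology NNReal

variable {F : Type*} [NormedAddCommGroup F] [InnerProductSpace ℝ F]
    [FiniteDimensional ℝ F] [MeasurableSpace F] [BorelSpace F]

variable {δ L lam : ℝ} {h : F → ℝ} {k : ℕ}

private lemma near_real {lam lam' s L E Ei Er Pi Pr m Ef Mt d Sig : ℝ} (hlam : 0 < lam)
    (hll : lam < lam') (hs : 0 < s) (hs1 : s ≤ 1) (hE : 0 ≤ E) (hEi : 0 ≤ Ei) (hEr : 0 ≤ Er)
    (hSig : Sig = Ei + Er)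
    (hb : (1 - s / 2) * Sig ≤ (s ^ 8 + s ^ 4 + lam * s ^ 2 + (s ^ 2 * L) ^ 2 / (2 * s)) * E)
    (h1 : lam' * s ^ 2 * (Pi - d * Ef) ≤ (1 + 2 * s ^ 2 * lam') * Ei)
    (h2 : lam * s ^ 2 * (Pr - m) ≤ (1 + 2 * s ^ 2 * lam) * Er) (h3 : Pi + Pr = E)
    (h4 : m ≤ Mt) :
    (lam' - lam) * Pi ≤ s * ((lam + 4 + L ^ 2) + 2 * lam' * (lam + (lam + 4 + L ^ 2))) * E +
      lam' * (d * Ef) + lam * Mt := by
  set K2 := lam + 4 + L ^ 2 with hK2
  have hlam' : 0 < lam' := hlam.trans hll
  have hK20 : 0 ≤ K2 := by positivity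
  set Y := (lam + s * K2) * E with hY
  have hY0 : 0 ≤ Y := by positivity
  have hs2 : 0 < s ^ 2 := by positivity
  have s2 : s ^ 2 ≤ s := by nlinarith
  have hSigY : Sig ≤ s ^ 2 * Y := by
    have e1 : (s ^ 2 * L) ^ 2 / (2 * s) = s ^ 3 * L ^ 2 / 2 := by
      field_simp
    rw [e1] at hb
    have e2 : (s ^ 8 + s ^ 4 + lam * s ^ 2 + s ^ 3 * L ^ 2 / 2) ≤
        s ^ 2 * (lam + s * (2 + L ^ 2 / 2)) := by
      have e3 : s ^ 8 ≤ s ^ 3 := pow_le_pow_of_le_one hs.le hs1 (by norm_num)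
      have e4 : s ^ 4 ≤ s ^ 3 := pow_le_pow_of_le_one hs.le hs1 (by norm_num)
      nlinarith
    have e5 : (1 - s / 2) * Sig ≤ s ^ 2 * (lam + s * (2 + L ^ 2 / 2)) * E :=
      hb.trans (mul_le_mul_of_nonneg_right e2 hE)
    have e6 : Sig ≤ (1 + s) * ((1 - s / 2) * Sig) := by
      have : 0 ≤ Sig := by
        rw [hSig]
        positivity
      nlinarith [mul_nonneg hs.le this, mul_nonneg (sub_nonneg.2 hs1) (mul_nonneg hs.le this)]
    have e7 : (1 + s) * ((1 - s / 2) * Sig) ≤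
        (1 + s) * (s ^ 2 * (lam + s * (2 + L ^ 2 / 2)) * E) :=
      mul_le_mul_of_nonneg_left e5 (by positivity)
    have e8 : (1 + s) * (lam + s * (2 + L ^ 2 / 2)) ≤ lam + s * K2 := by
      rw [hK2]
      have : s * (s * (2 + L ^ 2 / 2)) ≤ s * (2 + L ^ 2 / 2) := by
        have : 0 ≤ s * (2 + L ^ 2 / 2) := by positivity
        nlinarith
      nlinarith
    calc Sig ≤ (1 + s) * (s ^ 2 * (lam + s * (2 + L ^ 2 / 2)) * E) := e6.trans e7
      _ = s ^ 2 * (((1 + s) * (lam + s * (2 + L ^ 2 / 2))) * E) := by ring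
      _ ≤ s ^ 2 * ((lam + s * K2) * E) := by gcongr
  rw [hSig] at hSigY
  have g1 : lam' * s ^ 2 * (Pi - d * Ef) + lam * s ^ 2 * (Pr - m) ≤
      s ^ 2 * (Y + 2 * lam' * (s ^ 2 * Y)) := by
    have g2 : 2 * s ^ 2 * lam' * Ei + 2 * s ^ 2 * lam * Er ≤ 2 * s ^ 2 * lam' * (Ei + Er) := by
      have : 2 * s ^ 2 * lam * Er ≤ 2 * s ^ 2 * lam' * Er := by gcongr
      linarith
    have g3 : 2 * s ^ 2 * lam' * (Ei + Er) ≤ 2 * s ^ 2 * lam' * (s ^ 2 * Y) := by gcongr
    nlinarith
  have g4 : lam' * (Pi - d * Ef) + lam * (Pr - m) ≤ Y + 2 * lam' * (s ^ 2 * Y) := by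
    refine le_of_mul_le_mul_left ?_ hs2
    linarith
  have g5 : s ^ 2 * Y ≤ s * ((lam + K2) * E) := by
    have : (lam + s * K2) * E ≤ (lam + K2) * E := by
      refine mul_le_mul_of_nonneg_right ?_ hE
      nlinarith
    calc s ^ 2 * Y ≤ s * Y := mul_le_mul_of_nonneg_right s2 hY0
      _ ≤ s * ((lam + K2) * E) := mul_le_mul_of_nonneg_left this hs.le
  have g6 : 2 * lam' * (s ^ 2 * Y) ≤ 2 * lam' * (s * ((lam + K2) * E)) :=
    mul_le_mul_of_nonneg_left g5 (by positivity)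
  have g7 : lam * m ≤ lam * Mt := mul_le_mul_of_nonneg_left h4 hlam.le
  have hPr : Pr = E - Pi := by linarith
  rw [hPr] at g4
  rw [hY] at g4
  nlinarith

private lemma sector_est (H : GW δ L h) (hm : ∫ x, h x = 1) (hlam : 0 < lam) (hPI : PI h lam)
    {lam' : ℝ} (hll : lam < lam') {g : F ≃ₗᵢ[ℝ] F} {N d e : ℕ}
    {b : OrthonormalBasis (Fin d ⊕ Fin e) ℝ F} (S : Sy h g N b)
    (hz : ∀ z : F → ℝ, BL z → Zav g N z → lam' * ∫ x, z x ^ 2 * h x ≤ En h z) {f : F → ℝ}
    (hf : Sm f) (hf0 : ∫ x, f x * h x = 0) {s : ℝ} (hs : 0 < s) (hs1 : s ≤ 1)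
    (hnear : (1 - s ^ 8) * En h f ≤ lam * ∫ x, f x ^ 2 * h x) {Mt : ℝ}
    (hMt : ∑ j : Fin e, (∫ x, fderiv ℝ f x (b (Sum.inr j)) * h x) ^ 2 ≤ Mt) :
    (lam' - lam) * (∑ i : Fin d, ∫ x, (fderiv ℝ f x (b (Sum.inl i))) ^ 2 * h x) ≤
      s * ((lam + 4 + L ^ 2) + 2 * lam' * (lam + (lam + 4 + L ^ 2))) * En h f +
      lam' * (d * En h (fun x => f x - av g N f x)) + lam * Mt := by
  have Hw := H.wt
  have hi := H.int
  have hlam' : 0 < lam' := hlam.trans hll
  have hs2 : 0 < s ^ 2 := by positivity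
  obtain ⟨W, hW, hWd, hWL⟩ := H.reg
  have hd := hf.dbl
  set Z : ℝ := ∫ z : F, h25.ker (s ^ 2) z with hZd
  have hZ : 0 < Z := ker_int_pos hs2
  have hmean : ∀ q : F → ℝ, BL q → ∫ x, q x * h x = 0 → lam * ∫ x, q x ^ 2 * h x ≤ En h q := by
    intro q hq hq0
    have h1 := hPI q hq
    unfold Vr at h1
    rw [hq0, hm] at h1
    simpa using h1
  have hTB : BL (RT h (s ^ 2) f) := (RT_sm Hw hs2 hf.bl).bl
  have hint : ∀ q : F → ℝ, BL q → Integrable fun x => q x * h x := by
    intro q hq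
    obtain ⟨⟨K, hK⟩, A, hA⟩ := hq
    exact H.bdd_int hK.continuous.measurable hA
  have hP : ∀ t : ℝ, lam * ∫ x, (f x + t * RT h (s ^ 2) f x) ^ 2 * h x ≤
      En h (fun x => f x + t * RT h (s ^ 2) f x) := by
    intro t
    refine hmean _ (hf.bl.add ((BL.const t).mul hTB)) ?_
    have e1 : ∀ x, (f x + t * RT h (s ^ 2) f x) * h x =
        f x * h x + t * (RT h (s ^ 2) f x * h x) := by
      intro x
      ring
    simp only [e1]
    rw [integral_add (hint _ hf.bl) ((hint _ hTB).const_mul t), integral_const_mul,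
      RT_mean Hw hi hs2 hf.bl, hf0]
    ring
  have hboch := bochner Hw hi hs2 hW hWd H.Lnn hWL hf.bl hf.diff hd b hs hlam.le
    (by positivity : 0 ≤ s ^ 8) hP hnear
  have hsq8 : Real.sqrt (s ^ 8) = s ^ 4 := by
    rw [show s ^ 8 = (s ^ 4) ^ 2 by ring, Real.sqrt_sq (by positivity)]
  rw [hsq8] at hboch
  set EE : Fin d ⊕ Fin e → ℝ :=
    fun i => (∫ y, VV h (s ^ 2) (fun x => fderiv ℝ f x (b i)) y) / Z with hEE
  have hEE0 : ∀ i, 0 ≤ EE i := fun i =>
    div_nonneg (integral_nonneg fun y => Hw.VV_nonneg) hZ.le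
  have hEEe : ∀ i, ∫ y, VV h (s ^ 2) (fun x => fderiv ℝ f x (b i)) y = Z * EE i := by
    intro i
    rw [hEE]
    field_simp
  refine near_real (Ei := ∑ i, EE (Sum.inl i)) (Er := ∑ j, EE (Sum.inr j))
    (Pr := ∑ j : Fin e, ∫ x, (fderiv ℝ f x (b (Sum.inr j))) ^ 2 * h x)
    (m := ∑ j : Fin e, (∫ x, fderiv ℝ f x (b (Sum.inr j)) * h x) ^ 2) (Sig := ∑ i, EE i)
    hlam hll hs hs1 (En_nonneg Hw) (Finset.sum_nonneg fun i _ => hEE0 _)
    (Finset.sum_nonneg fun j _ => hEE0 _) (Fintype.sum_sum_type _) ?_ ?_ ?_ ?_ hMt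
  · simp only [hEEe] at hboch
    rw [← Finset.mul_sum] at hboch
    refine le_of_mul_le_mul_left ?_ hZ
    calc Z * ((1 - s / 2) * ∑ i, EE i) = (1 - s / 2) * (Z * ∑ i, EE i) := by ring
      _ ≤ _ := hboch
  · have h5 : ∀ i : Fin d, lam' * s ^ 2 * ((∫ x, (fderiv ℝ f x (b (Sum.inl i))) ^ 2 * h x) -
        En h (fun x => f x - av g N f x)) ≤ (1 + 2 * s ^ 2 * lam') * EE (Sum.inl i) := by
      intro i
      have h1 := VV_inl H hm S hlam' hz hf hs2 i
      rw [hEEe] at h1
      set V := (∫ x, (fderiv ℝ f x (b (Sum.inl i))) ^ 2 * h x) -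
        En h (fun x => f x - av g N f x)
      have h3 : Z * (lam' * s ^ 2 * V) ≤ Z * ((1 + 2 * s ^ 2 * lam') * EE (Sum.inl i)) := by
        calc Z * (lam' * s ^ 2 * V) = lam' * (Z * (s ^ 2 * V)) := by ring
          _ ≤ lam' * ((2 * s ^ 2 + 1 / lam') * (Z * EE (Sum.inl i))) :=
              mul_le_mul_of_nonneg_left h1 hlam'.le
          _ = Z * ((1 + 2 * s ^ 2 * lam') * EE (Sum.inl i)) := by
              field_simp
              ring
      exact le_of_mul_le_mul_left h3 hZ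
    have h6 := Finset.sum_le_sum fun i (_ : i ∈ (Finset.univ : Finset (Fin d))) => h5 i
    rw [← Finset.mul_sum, ← Finset.mul_sum, Finset.sum_sub_distrib, Finset.sum_const,
      Finset.card_univ, Fintype.card_fin, nsmul_eq_mul] at h6
    exact h6
  · rw [← Finset.sum_sub_distrib, Finset.mul_sum, Finset.mul_sum]
    refine Finset.sum_le_sum fun j _ => ?_
    have h1 := VV_all H hm hlam hPI (hd (b (Sum.inr j))) hs2
    rw [hEEe] at h1
    have h2 : Vr h (fun x => fderiv ℝ f x (b (Sum.inr j))) =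
        (∫ x, (fderiv ℝ f x (b (Sum.inr j))) ^ 2 * h x) -
          (∫ x, fderiv ℝ f x (b (Sum.inr j)) * h x) ^ 2 := by
      unfold Vr
      rw [hm, div_one]
    rw [h2] at h1
    set V := (∫ x, (fderiv ℝ f x (b (Sum.inr j))) ^ 2 * h x) -
          (∫ x, fderiv ℝ f x (b (Sum.inr j)) * h x) ^ 2
    have h3 : Z * (lam * s ^ 2 * V) ≤ Z * ((1 + 2 * s ^ 2 * lam) * EE (Sum.inr j)) := by
      calc Z * (lam * s ^ 2 * V) = lam * (Z * (s ^ 2 * V)) := by ring
        _ ≤ lam * ((2 * s ^ 2 + 1 / lam) * (Z * EE (Sum.inr j))) :=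
            mul_le_mul_of_nonneg_left h1 hlam.le
        _ = Z * ((1 + 2 * s ^ 2 * lam) * EE (Sum.inr j)) := by
            field_simp
            ring
    exact le_of_mul_le_mul_left h3 hZ
  · rw [← Fintype.sum_sum_type (fun i => ∫ x, (fderiv ℝ f x (b i)) ^ 2 * h x), ← E2_self,
      E2_basis H hf.bl hf.bl b]
    simp only [sq]

/-- From differentiable to bounded Lipschitz functions of a sector, by smoothing. -/
private lemma ext_BL (H : GW δ L h) {g : F ≃ₗᵢ[ℝ] F} {N : ℕ} (S : Sg h g N) {lam' : ℝ}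
    (hlam' : 0 < lam')
    (hz : ∀ z : F → ℝ, BL z → Differentiable ℝ z → Zav g N z →
      lam' * ∫ x, z x ^ 2 * h x ≤ En h z) {z : F → ℝ} (hzB : BL z) (hzZ : Zav g N z) :
    lam' * ∫ x, z x ^ 2 * h x ≤ En h z := by
  have Hw := H.wt
  have hi := H.int
  have hE : 0 ≤ En h z := En_nonneg Hw
  refine le_of_forall_pos_le_add fun ε hε => ?_
  set η : ℝ := ε / (2 * lam' * (En h z + 1)) with hη
  have hη0 : 0 < η := by positivity
  have h1 := RT_sm Hw hη0 hzB
  have h2 := hz _ h1.bl h1.diff (S.RT_zav Hw hη0 hzB hzZ)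
  have h3 := (RT_En Hw hi hη0 hzB).1
  obtain ⟨⟨K, hK⟩, A, hA⟩ := hzB
  have h4 := round_var Hw hi hη0 hK hA
  have h5 := mul_le_mul_of_nonneg_left h4 hlam'.le
  have h6 : lam' * (2 * η * En h z) ≤ ε := by
    rw [hη]
    have : lam' * (2 * (ε / (2 * lam' * (En h z + 1))) * En h z) =
        ε * (En h z / (En h z + 1)) := by
      field_simp
    rw [this]
    have h7 : En h z / (En h z + 1) ≤ 1 := by
      rw [div_le_one (by positivity)]
      linarith
    nlinarith
  linarith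

/-- The vector of the mean gradient. -/
private lemma exists_mvec (H : GW δ L h) {f : F → ℝ} (hf : Sm f) :
    ∃ v : F, ∀ θ : F, ∫ x, fderiv ℝ f x θ * h x = inner ℝ v θ := by
  have hint : ∀ θ : F, Integrable fun x => fderiv ℝ f x θ * h x := by
    intro θ
    obtain ⟨⟨K, hK⟩, A, hA⟩ := hf.dbl θ
    exact H.bdd_int hK.continuous.measurable hA
  set l : F →ₗ[ℝ] ℝ :=
    { toFun := fun θ => ∫ x, fderiv ℝ f x θ * h x
      map_add' := fun θ θ' => by
        rw [← integral_add (hint θ) (hint θ')]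
        refine integral_congr_ae (Eventually.of_forall fun x => ?_)
        simp only [map_add]
        ring
      map_smul' := fun c θ => by
        rw [RingHom.id_apply, smul_eq_mul, ← integral_const_mul]
        refine integral_congr_ae (Eventually.of_forall fun x => ?_)
        simp only [map_smul, smul_eq_mul]
        ring } with hl
  refine ⟨(InnerProductSpace.toDual ℝ F).symm (LinearMap.toContinuousLinearMap l), fun θ => ?_⟩
  rw [InnerProductSpace.toDual_symm_apply]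
  rfl

/-- Near extremals in a sector. -/
theorem near_sector (H : GW δ L h) (hm : ∫ x, h x = 1) (hlam : 0 < lam) (hPI : PI h lam)
    (hNE : ∀ ε : ℝ, 0 < ε → ∃ f : F → ℝ, BL f ∧ (1 - ε) * En h f < lam * Vr h f) {m : ℕ}
    (S : Fin m → SymD h k) {c0 : ℝ} (hc0 : 0 < c0)
    (hfr : ∀ v : F, c0 * ‖v‖ ^ 2 ≤ ∑ s, ∑ i, (inner ℝ ((S s).b (Sum.inl i)) v) ^ 2) :
    ∃ s, ∀ ε : ℝ, 0 < ε → ∃ z : F → ℝ, BL z ∧ Differentiable ℝ z ∧ Zav (S s).g (S s).N z ∧
      (1 - ε) * En h z < lam * ∫ x, z x ^ 2 * h x := by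
  by_contra hcon
  push Not at hcon
  choose ε hε hz using hcon
  have Hw := H.wt
  -- a uniform epsilon
  obtain ⟨ε0, hε0, hε01, hε0le⟩ : ∃ ε0 : ℝ, 0 < ε0 ∧ ε0 ≤ 1 / 2 ∧ ∀ s, ε0 ≤ ε s := by
    refine ⟨(insert (1 / 2) (Finset.univ.image ε)).min' (Finset.insert_nonempty _ _), ?_, ?_, ?_⟩
    · rw [Finset.lt_min'_iff]
      intro y hy
      rw [Finset.mem_insert, Finset.mem_image] at hy
      rcases hy with hy | ⟨s, -, hy⟩
      · rw [hy]
        norm_num
      · rw [← hy]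
        exact hε s
    · exact Finset.min'_le _ _ (Finset.mem_insert_self _ _)
    · intro s
      exact Finset.min'_le _ _ (Finset.mem_insert_of_mem
        (Finset.mem_image_of_mem _ (Finset.mem_univ s)))
  set lam' : ℝ := lam / (1 - ε0) with hlam'
  have h1ε : 0 < 1 - ε0 := by linarith
  have hll : lam < lam' := by
    rw [hlam', lt_div_iff₀ h1ε]
    nlinarith
  have hlam'0 : 0 < lam' := hlam.trans hll
  have hz' : ∀ s, ∀ z : F → ℝ, BL z → Zav (S s).g (S s).N z →
      lam' * ∫ x, z x ^ 2 * h x ≤ En h z := by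
    intro s z hzB hzZ
    refine ext_BL H (S s).sy.toSg hlam'0 (fun z hzB hzd hzZ => ?_) hzB hzZ
    have h1 := hz s z hzB hzd hzZ
    have h2 : 0 ≤ En h z := En_nonneg Hw
    have h3 : (1 - ε s) * En h z ≤ (1 - ε0) * En h z :=
      mul_le_mul_of_nonneg_right (by linarith [hε0le s]) h2
    rw [hlam', div_mul_eq_mul_div, div_le_iff₀ h1ε]
    linarith
  -- the constants
  set K3 : ℝ := ((lam + 4 + L ^ 2) + 2 * lam' * (lam + (lam + 4 + L ^ 2))) with hK3
  set c1 : ℝ := 2 * lam' / (lam' - lam) with hc1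
  have hll0 : 0 < lam' - lam := by linarith
  have hc10 : 0 < c1 := by positivity
  set K4 : ℝ := m * (K3 + lam' * (k * c1) + lam * (m * c1 / c0)) with hK4
  have hK30 : 0 ≤ K3 := by positivity
  have hK40 : 0 ≤ K4 := by positivity
  obtain ⟨s, hs, hs1, hsK, hs8⟩ : ∃ s : ℝ, 0 < s ∧ s ≤ 1 ∧ s * K4 < (lam' - lam) * c0 ∧
      s ≤ (1 - lam / lam') / 2 := by
    have hq : 0 < (1 - lam / lam') / 2 := by
      have : lam / lam' < 1 := (div_lt_one hlam'0).2 hll
      linarith
    refine ⟨min (min 1 ((1 - lam / lam') / 2)) ((lam' - lam) * c0 / (K4 + 1)),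
      lt_min (lt_min one_pos hq) (by positivity), (min_le_left _ _).trans (min_le_left _ _), ?_,
      (min_le_left _ _).trans (min_le_right _ _)⟩
    have h1 : min (min 1 ((1 - lam / lam') / 2)) ((lam' - lam) * c0 / (K4 + 1)) * K4 ≤
        ((lam' - lam) * c0 / (K4 + 1)) * K4 :=
      mul_le_mul_of_nonneg_right (min_le_right _ _) hK40
    refine lt_of_le_of_lt h1 ?_
    rw [div_mul_eq_mul_div, div_lt_iff₀ (by positivity)]
    have : 0 < (lam' - lam) * c0 := by positivity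
    nlinarith
  obtain ⟨f, hf, hf0, hE, hnear⟩ := near_smooth H hm hlam hPI hNE (ε := s ^ 8) (by positivity)
  have hs8' : s ^ 8 ≤ s := by
    calc s ^ 8 ≤ s ^ 1 := pow_le_pow_of_le_one hs.le hs1 (by norm_num)
      _ = s := pow_one s
  set Ef : Fin m → ℝ := fun t => En h (fun x => f x - av (S t).g (S t).N f x) with hEf
  have hEf1 : ∀ t, Ef t ≤ c1 * s * En h f := by
    intro t
    have h1 := near_av H hm hlam hPI (S t).sy.toSg hll (hz' t) hf.bl hf0
      (by positivity : 0 ≤ s ^ 8) (hs8'.trans hs8) hnear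
    have h2 : Ef t ≤ c1 * s ^ 8 * En h f := by
      rw [hc1, div_mul_eq_mul_div, div_mul_eq_mul_div, le_div_iff₀ hll0]
      calc Ef t * (lam' - lam) = (lam' - lam) * Ef t := mul_comm _ _
        _ ≤ _ := h1
    refine h2.trans ?_
    gcongr
  obtain ⟨v, hv⟩ := exists_mvec H hf
  -- the mean gradient is small
  have hvs : ‖v‖ ^ 2 ≤ (m * c1 / c0) * s * En h f := by
    have h1 := hfr v
    have h2 : ∑ t, ∑ i, (inner ℝ ((S t).b (Sum.inl i)) v) ^ 2 ≤ ∑ t : Fin m, Ef t := by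
      refine Finset.sum_le_sum fun t _ => ?_
      have h3 := mean_inl H hm (S t).sy hf
      refine le_trans (le_of_eq ?_) h3
      refine Finset.sum_congr rfl fun i _ => ?_
      rw [hv, real_inner_comm]
    have h4 : ∑ t : Fin m, Ef t ≤ m * (c1 * s * En h f) := by
      have := Finset.sum_le_sum fun t (_ : t ∈ (Finset.univ : Finset (Fin m))) => hEf1 t
      rwa [Finset.sum_const, Finset.card_univ, Fintype.card_fin, nsmul_eq_mul] at this
    have h5 : c0 * ‖v‖ ^ 2 ≤ m * (c1 * s * En h f) := h1.trans (h2.trans h4)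
    have h6 : (m * c1 / c0) * s * En h f = (m * (c1 * s * En h f)) / c0 := by ring
    rw [h6, le_div_iff₀ hc0]
    linarith
  have hest : ∀ t, (lam' - lam) *
      (∑ i, ∫ x, (fderiv ℝ f x ((S t).b (Sum.inl i))) ^ 2 * h x) ≤
      s * (K3 + lam' * (k * c1) + lam * (m * c1 / c0)) * En h f := by
    intro t
    have hMt : ∑ j : Fin (S t).e, (∫ x, fderiv ℝ f x ((S t).b (Sum.inr j)) * h x) ^ 2 ≤
        (m * c1 / c0) * s * En h f := by
      refine le_trans ?_ hvs
      rw [← (S t).b.sum_sq_norm_inner_right v, Fintype.sum_sum_type]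
      have h1 : 0 ≤ ∑ i : Fin (S t).d, ‖(inner ℝ ((S t).b (Sum.inl i)) v : ℝ)‖ ^ 2 :=
        Finset.sum_nonneg fun i _ => sq_nonneg _
      have h2 : ∑ j : Fin (S t).e, (∫ x, fderiv ℝ f x ((S t).b (Sum.inr j)) * h x) ^ 2 =
          ∑ j : Fin (S t).e, ‖(inner ℝ ((S t).b (Sum.inr j)) v : ℝ)‖ ^ 2 := by
        refine Finset.sum_congr rfl fun j _ => ?_
        rw [hv, real_inner_comm, Real.norm_eq_abs, sq_abs]
      rw [h2]
      linarith
    have h1 := sector_est H hm hlam hPI hll (S t).sy (hz' t) hf hf0 hs hs1 hnear hMt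
    have h2 : lam' * ((S t).d * En h (fun x => f x - av (S t).g (S t).N f x)) ≤
        lam' * (k * (c1 * s * En h f)) := by
      have h3 := hEf1 t
      have h4 : ((S t).d : ℝ) ≤ k := by exact_mod_cast (S t).hd
      have h5 : 0 ≤ Ef t := En_nonneg Hw
      have h6 : ((S t).d : ℝ) * Ef t ≤ k * (c1 * s * En h f) :=
        mul_le_mul h4 h3 h5 (by positivity)
      exact mul_le_mul_of_nonneg_left h6 hlam'0.le
    refine h1.trans ?_
    have h7 : s * (K3 + lam' * (k * c1) + lam * (m * c1 / c0)) * En h f =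
        s * K3 * En h f + lam' * (k * (c1 * s * En h f)) + lam * ((m * c1 / c0) * s * En h f) := by
      ring
    rw [h7]
    linarith
  have hsum : (lam' - lam) * (c0 * En h f) ≤ s * K4 * En h f := by
    have h1 : c0 * En h f ≤ ∑ t, ∑ i, ∫ x, (fderiv ℝ f x ((S t).b (Sum.inl i))) ^ 2 * h x := by
      have hint : ∀ θ : F, Integrable fun x => (fderiv ℝ f x θ) ^ 2 * h x := by
        intro θ
        obtain ⟨⟨K, hK⟩, A, hA⟩ := hf.dbl θ
        refine H.bdd_int (hK.continuous.measurable.pow_const 2) (M := A ^ 2) fun x => ?_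
        rw [abs_pow]
        exact pow_le_pow_left₀ (abs_nonneg _) (hA x) 2
      have hintn : Integrable fun x => ‖fderiv ℝ f x‖ ^ 2 * h x := by
        have h2 : Integrable fun x => ∑ i, (fderiv ℝ f x (stdOrthonormalBasis ℝ F i)) ^ 2 * h x :=
          integrable_finsetSum _ fun i _ => hint _
        refine h2.congr (Eventually.of_forall fun x => ?_)
        simp only
        rw [norm_sq_fderiv (stdOrthonormalBasis ℝ F), Finset.sum_mul]
      unfold En
      have h3 : ∑ t, ∑ i, ∫ x, (fderiv ℝ f x ((S t).b (Sum.inl i))) ^ 2 * h x =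
          ∫ x, ∑ t, ∑ i, (fderiv ℝ f x ((S t).b (Sum.inl i))) ^ 2 * h x := by
        rw [integral_finsetSum _ fun t _ => integrable_finsetSum _ fun i _ => hint _]
        refine Finset.sum_congr rfl fun t _ => ?_
        rw [integral_finsetSum _ fun i _ => hint _]
      rw [h3, ← integral_const_mul]
      refine integral_mono (hintn.const_mul c0)
        (integrable_finsetSum _ fun t _ => integrable_finsetSum _ fun i _ => hint _) fun x => ?_
      simp only
      have h4 := hfr ((InnerProductSpace.toDual ℝ F).symm (fderiv ℝ f x))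
      rw [LinearIsometryEquiv.norm_map] at h4
      have h5 := mul_le_mul_of_nonneg_right h4 (H.pos x).le
      rw [mul_assoc] at h5
      refine h5.trans (le_of_eq ?_)
      rw [Finset.sum_mul]
      refine Finset.sum_congr rfl fun t _ => ?_
      rw [Finset.sum_mul]
      refine Finset.sum_congr rfl fun i _ => ?_
      rw [real_inner_comm, InnerProductSpace.toDual_symm_apply]
    have h2 := mul_le_mul_of_nonneg_left h1 hll0.le
    refine h2.trans ?_
    rw [Finset.mul_sum]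
    have h3 := Finset.sum_le_sum fun t (_ : t ∈ (Finset.univ : Finset (Fin m))) => hest t
    refine h3.trans (le_of_eq ?_)
    rw [Finset.sum_const, Finset.card_univ, Fintype.card_fin, nsmul_eq_mul, hK4]
    ring
  have hfin : s * K4 * En h f < (lam' - lam) * c0 * En h f := mul_lt_mul_of_pos_right hsK hE
  linarith

end Pool.Agent.Lib.MP_8d00da_gt.h97r
end

section

/-!
# The Bochner estimate for the near minimiser
-/

namespace Pool.Agent.Lib.MP_8d00da_gt.h97r

open MeasureTheory Set Filter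
open Pool.Agent.Lib.MP_8d00da_gt.h25 Pool.Agent.Lib.MP_8d00da_gt.h42
open Pool.Agent.Lib.MP_8d00da_gt.h42s Pool.Agent.Lib.MP_8d00da_gt.h42o
open scoped Topology NNReal

variable {F : Type*} [NormedAddCommGroup F] [InnerProductSpace ℝ F]
    [FiniteDimensional ℝ F] [MeasurableSpace F] [BorelSpace F]

variable {δ L lam : ℝ} {h : F → ℝ}

private lemma rb_bl {f g : F → ℝ} (hf : BL f) (hg : BL g) (s : ℝ) :
    BL (fun x => f x + s * g x) := by
  obtain ⟨⟨K, hK⟩, A, hA⟩ := hf
  obtain ⟨⟨K', hK'⟩, A', hA'⟩ := hg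
  refine ⟨⟨K + ‖s‖₊ * K', ?_⟩, A + |s| * A', fun x => ?_⟩
  · refine hK.add ?_
    refine LipschitzWith.of_dist_le_mul fun x y => ?_
    have h1 := hK'.dist_le_mul x y
    rw [Real.dist_eq] at h1 ⊢
    rw [← mul_sub, abs_mul, NNReal.coe_mul, coe_nnnorm, Real.norm_eq_abs, mul_assoc]
    exact mul_le_mul_of_nonneg_left h1 (abs_nonneg _)
  · refine (abs_add_le _ _).trans (add_le_add (hA x) ?_)
    rw [abs_mul]
    exact mul_le_mul_of_nonneg_left (hA' x) (abs_nonneg _)

private lemma rb_int (H : GW δ L h) {f g : F → ℝ} (hf : BL f) (hg : BL g) :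
    Integrable fun x => f x * g x * h x := by
  obtain ⟨⟨K, hK⟩, A, hA⟩ := hf
  obtain ⟨⟨K', hK'⟩, A', hA'⟩ := hg
  have hA0 : 0 ≤ A := (abs_nonneg _).trans (hA 0)
  refine H.bdd_int (hK.continuous.measurable.mul hK'.continuous.measurable) (M := A * A')
    fun x => ?_
  rw [abs_mul]
  exact mul_le_mul (hA x) (hA' x) (abs_nonneg _) hA0

private lemma rb_VV (H : GW δ L h) {η : ℝ} (f : F → ℝ) : 0 ≤ ∫ y, VV h η f y :=
  integral_nonneg fun y => integral_nonneg fun x => mul_nonneg (sq_nonneg _)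
    (mul_nonneg (H.pos x).le (Real.exp_pos _).le)

private lemma rb_defect (H : GW δ L h) {η : ℝ} (hη : 0 < η) {f : F → ℝ} (hf : BL f) :
    0 ≤ (∫ x, f x * f x * h x) - ∫ x, f x * RT h η f x * h x := by
  have h1 := (h42u.RT_defect H.wt H.int hη hf).1
  have h2 := rb_VV H (η := η) f
  rw [← h1] at h2
  have h3 := nonneg_of_mul_nonneg_right h2 (ker_int_pos hη)
  simpa only [sq] using h3

/-- `2 ∫ u (v - T v) h ≤ 𝓔 u + 𝓔 v` -/
private lemma rb_cs (H : GW δ L h) {η : ℝ} (hη : 0 < η) {u v : F → ℝ} (hu : BL u) (hv : BL v) :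
    2 * ((∫ x, u x * v x * h x) - ∫ x, u x * RT h η v x * h x) ≤
      ((∫ x, u x * u x * h x) - ∫ x, u x * RT h η u x * h x) +
        ((∫ x, v x * v x * h x) - ∫ x, v x * RT h η v x * h x) := by
  have hTu := (RT_sm H.wt hη hu).bl
  have hTv := (RT_sm H.wt hη hv).bl
  have h1 := rb_defect H hη (rb_bl hu hv (-1))
  have e1 : ∀ x, (u x + -1 * v x) * (u x + -1 * v x) * h x =
      u x * u x * h x - 2 * (u x * v x * h x) + v x * v x * h x := fun x => by ring
  have e2 : ∀ x, (u x + -1 * v x) * RT h η (fun x => u x + -1 * v x) x * h x =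
      u x * RT h η u x * h x - u x * RT h η v x * h x - v x * RT h η u x * h x +
        v x * RT h η v x * h x := fun x => by
    rw [RT_add_smul H.wt hη hu hv]
    ring
  simp only [e1, e2] at h1
  have iuu := rb_int H hu hu
  have iuv := rb_int H hu hv
  have ivv := rb_int H hv hv
  have i1 := rb_int H hu hTu
  have i2 := rb_int H hu hTv
  have i3 := rb_int H hv hTu
  have i4 := rb_int H hv hTv
  have j1 : Integrable fun x => u x * u x * h x - 2 * (u x * v x * h x) :=
    iuu.sub (iuv.const_mul 2)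
  have j2 : Integrable fun x => u x * RT h η u x * h x - u x * RT h η v x * h x := i1.sub i2
  have j3 : Integrable fun x => u x * RT h η u x * h x - u x * RT h η v x * h x -
      v x * RT h η u x * h x := j2.sub i3
  rw [integral_add j1 ivv, integral_sub iuu (iuv.const_mul 2),
    integral_const_mul, integral_add j3 i4, integral_sub j2 i3,
    integral_sub i1 i2] at h1
  have h2 : ∫ x, v x * RT h η u x * h x = ∫ x, u x * RT h η v x * h x := by
    rw [h42u.RT_sym H.wt H.int hη hv hu]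
    refine integral_congr_ae (Eventually.of_forall fun x => ?_)
    simp only
    ring
  rw [h2] at h1
  linarith

/-- Write `T = RT h η`, `Z = ∫ ker`, `φ = v - T v`. `h42o.bochner_T` with `θ = sqrt η` gives
`Z E2 v (T v) + (1 - sqrt η / 2) ∑ VV ≤ (1 + (η L)² / (2 sqrt η)) Z En v`, i.e.
`(1 - sqrt η / 2) ∑ VV ≤ Z (E2 v φ + η^(3/2) L² / 2 En v)`. By hypothesis
`E2 v φ ≤ 2 lam Cv u φ - lam Cv v φ + η² sqrt (En φ + lam Vr φ)`. As `T` is symmetric
(`h42u.RT_sym`) and preserves means, `Cv u φ = ∫ u (v - T v) h`, `Cv v φ = 𝓔 v` with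
`𝓔 f = ∫ f (f - T f) h ≥ 0`, and `2 Cv u φ ≤ 𝓔 u + 𝓔 v` (`0 ≤ 𝓔 (u - v)`), so
`2 lam Cv u φ - lam Cv v φ ≤ lam 𝓔 u ≤ lam η En u` (`h42u.RT_defect`). Moreover
`En φ + lam Vr φ ≤ 2 En φ ≤ 8 En v` (`RT_En`). Then divide by `1 - sqrt η / 2`,
`1 / (1 - s / 2) ≤ 1 + s ≤ 2`, and use `lam ≤ 1`, `En v ≤ 2 En u + 2`. -/
theorem boch (H : GW δ L h) (hm : ∫ x, h x = 1) (hlam : 0 < lam) (hlam1 : lam ≤ 1)
    (hPI : PI h lam) {u v : F → ℝ} (hu : BL u) (hv : Sm v) {η : ℝ} (hη : 0 < η) (hη1 : η ≤ 1)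
    (hEL : ∀ φ : F → ℝ, BL φ →
      (E2 h v φ + lam * Cv h v φ - 2 * lam * Cv h u φ) ^ 2 ≤ η ^ 4 * (En h φ + lam * Vr h φ))
    (hEv : En h v ≤ 2 * En h u + 2) {ι : Type*} [Fintype ι] (b : OrthonormalBasis ι ℝ F) :
    ∑ i, ∫ y, VV h η (fun x => fderiv ℝ v x (b i)) y ≤
      (∫ z : F, h25.ker η z) * (η * (lam * En h u +
        Real.sqrt η * ((10 + 2 * L ^ 2) * (1 + En h u)))) := by
  have hT := RT_sm H.wt hη hv.bl
  have hφ := rb_bl hv.bl hT.bl (-1)
  set T : F → ℝ := RT h η v with hTd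
  set c : ℝ := ∫ z : F, h25.ker η z with hc
  have hc0 : 0 < c := ker_int_pos hη
  set S : ℝ := ∑ i, ∫ y, VV h η (fun x => fderiv ℝ v x (b i)) y with hS
  set E : ℝ := En h u with hE
  have hE0 : 0 ≤ E := En_nonneg H.wt
  have hEv0 : 0 ≤ En h v := En_nonneg H.wt
  set s : ℝ := Real.sqrt η with hs
  have hs0 : 0 < s := Real.sqrt_pos.2 hη
  have hs1 : s ≤ 1 := by
    have := Real.sqrt_le_sqrt hη1
    rwa [Real.sqrt_one] at this
  have hss : s ^ 2 = η := Real.sq_sqrt hη.le
  -- Bochner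
  obtain ⟨W, hW, hWd, hWL⟩ := H.reg
  have hB := bochner_T H.wt H.int hη hW hWd H.Lnn hWL hv.bl hv.diff hv.dbl b hs0
  rw [← E2_basis H hv.bl hT.bl b, ← hc, ← hS] at hB
  have e1 : E2 h v (fun x => v x + -1 * T x) = En h v - E2 h v T := by
    rw [E2_add_smul H hv.bl hv.bl hT.bl, E2_self]
    ring
  have hB' : (1 - s / 2) * S ≤
      c * (E2 h v (fun x => v x + -1 * T x) + (η * L) ^ 2 / (2 * s) * En h v) := by
    rw [e1]
    linarith
  have e2 : (η * L) ^ 2 / (2 * s) = s ^ 3 * L ^ 2 / 2 := by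
    rw [← hss]
    field_simp
  rw [e2] at hB'
  -- the covariance terms
  have hTm : ∫ x, T x * h x = ∫ x, v x * h x := RT_mean H.wt H.int hη hv.bl
  have c1 : Cv h v (fun x => v x + -1 * T x) =
      (∫ x, v x * v x * h x) - ∫ x, v x * T x * h x := by
    rw [Cv_add_smul H hv.bl hv.bl hT.bl]
    unfold Cv
    rw [hTm]
    ring
  have c2 : Cv h u (fun x => v x + -1 * T x) =
      (∫ x, u x * v x * h x) - ∫ x, u x * T x * h x := by
    rw [Cv_add_smul H hu hv.bl hT.bl]
    unfold Cv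
    rw [hTm]
    ring
  have c3 := rb_cs H hη hu hv.bl
  have c4 : (∫ x, u x * u x * h x) - ∫ x, u x * RT h η u x * h x ≤ η * E := by
    have := (h42u.RT_defect H.wt H.int hη hu).2
    simpa only [sq] using this
  have c5 : 2 * lam * Cv h u (fun x => v x + -1 * T x) -
      lam * Cv h v (fun x => v x + -1 * T x) ≤ lam * (η * E) := by
    rw [c1, c2]
    have h1 := mul_le_mul_of_nonneg_left c3 hlam.le
    have h2 := mul_le_mul_of_nonneg_left c4 hlam.le
    rw [← hTd] at h1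
    linarith
  -- the near minimiser
  have m1 : En h (fun x => v x + -1 * T x) ≤ 4 * En h v := by
    have h1 := En_add_smul H hv.bl hT.bl (-1)
    have h2 := En_add_smul H hv.bl hT.bl 1
    have h3 : 0 ≤ En h (fun x => v x + 1 * T x) := En_nonneg H.wt
    have h4 : En h T ≤ En h v := (RT_En H.wt H.int hη hv.bl).1
    rw [h2] at h3
    rw [h1]
    linarith
  have m2 := hPI _ hφ
  have m3 := hEL _ hφ
  have m4 : (E2 h v (fun x => v x + -1 * T x) + lam * Cv h v (fun x => v x + -1 * T x) -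
      2 * lam * Cv h u (fun x => v x + -1 * T x)) ^ 2 ≤ (η ^ 2 * (4 * (1 + E))) ^ 2 := by
    refine m3.trans ?_
    have h1 : En h (fun x => v x + -1 * T x) + lam * Vr h (fun x => v x + -1 * T x) ≤
        (4 * (1 + E)) ^ 2 := by
      have h0 : (4 * (1 + E)) ^ 2 = 16 * (1 + E) + 16 * (1 + E) * E := by ring
      have h00 : 0 ≤ 16 * (1 + E) * E := by positivity
      rw [h0]
      linarith
    have h2 : η ^ 4 * (En h (fun x => v x + -1 * T x) + lam * Vr h (fun x => v x + -1 * T x)) ≤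
        η ^ 4 * (4 * (1 + E)) ^ 2 := mul_le_mul_of_nonneg_left h1 (by positivity)
    refine h2.trans (le_of_eq ?_)
    ring
  have m5 := (abs_le_of_sq_le_sq' m4 (by positivity)).2
  have m6 : E2 h v (fun x => v x + -1 * T x) ≤ η ^ 2 * (4 * (1 + E)) + lam * (η * E) := by
    linarith
  -- conclusion
  have f1 : (1 - s / 2) * S ≤ c * (lam * (η * E) + (1 + E) * (s ^ 3 * (4 * s + L ^ 2))) := by
    refine hB'.trans (mul_le_mul_of_nonneg_left ?_ hc0.le)
    have h1 : s ^ 3 * L ^ 2 / 2 * En h v ≤ s ^ 3 * L ^ 2 / 2 * (2 * E + 2) :=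
      mul_le_mul_of_nonneg_left hEv (by positivity)
    have h2 : η ^ 2 * (4 * (1 + E)) = (1 + E) * (s ^ 3 * (4 * s)) := by
      rw [← hss]
      ring
    rw [h2] at m6
    linarith
  have hA0 : 0 ≤ lam * (η * E) + (1 + E) * (s ^ 3 * (4 * s + L ^ 2)) := by positivity
  have f2 : S ≤ (1 + s) * (c * (lam * (η * E) + (1 + E) * (s ^ 3 * (4 * s + L ^ 2)))) := by
    have h1 : 0 < 1 - s / 2 := by linarith
    have h2 : 1 ≤ (1 + s) * (1 - s / 2) := by
      have h4 : (1 + s) * (1 - s / 2) = 1 + s * (1 - s) / 2 := by ring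
      have h5 : 0 ≤ s * (1 - s) := mul_nonneg hs0.le (sub_nonneg.2 hs1)
      rw [h4]
      linarith
    have h3 : 0 ≤ S := Finset.sum_nonneg fun i _ => rb_VV H _
    calc S = 1 * S := (one_mul S).symm
      _ ≤ ((1 + s) * (1 - s / 2)) * S := mul_le_mul_of_nonneg_right h2 h3
      _ = (1 + s) * ((1 - s / 2) * S) := by ring
      _ ≤ _ := mul_le_mul_of_nonneg_left f1 (by linarith)
  refine f2.trans ?_
  have f3 : (1 + s) * (lam * (η * E) + (1 + E) * (s ^ 3 * (4 * s + L ^ 2))) ≤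
      η * (lam * E + s * ((10 + 2 * L ^ 2) * (1 + E))) := by
    have h1 : s * (lam * (η * E)) ≤ s ^ 3 * (1 + E) := by
      rw [← hss]
      have h2 : lam * E ≤ 1 + E := by
        have h2' : lam * E ≤ 1 * E := mul_le_mul_of_nonneg_right hlam1 hE0
        linarith
      calc s * (lam * (s ^ 2 * E)) = s ^ 3 * (lam * E) := by ring
        _ ≤ s ^ 3 * (1 + E) := mul_le_mul_of_nonneg_left h2 (by positivity)
    have h3 : (1 + s) * ((1 + E) * (s ^ 3 * (4 * s + L ^ 2))) ≤
        2 * ((1 + E) * (s ^ 3 * (4 + L ^ 2))) := by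
      have h4 : (1 + E) * (s ^ 3 * (4 * s + L ^ 2)) ≤ (1 + E) * (s ^ 3 * (4 + L ^ 2)) := by
        gcongr
        linarith
      have h5 : 0 ≤ (1 + E) * (s ^ 3 * (4 * s + L ^ 2)) := by positivity
      have h6 : (1 + s) * ((1 + E) * (s ^ 3 * (4 * s + L ^ 2))) ≤
          2 * ((1 + E) * (s ^ 3 * (4 * s + L ^ 2))) :=
        mul_le_mul_of_nonneg_right (by linarith) h5
      linarith
    have h6 : η * (lam * E + s * ((10 + 2 * L ^ 2) * (1 + E))) =
        lam * (η * E) + s ^ 3 * ((10 + 2 * L ^ 2) * (1 + E)) := by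
      rw [← hss]
      ring
    have h7 : 0 ≤ s ^ 3 * (1 + E) := by positivity
    rw [h6]
    linarith
  calc (1 + s) * (c * (lam * (η * E) + (1 + E) * (s ^ 3 * (4 * s + L ^ 2))))
      = c * ((1 + s) * (lam * (η * E) + (1 + E) * (s ^ 3 * (4 * s + L ^ 2)))) := by ring
    _ ≤ _ := mul_le_mul_of_nonneg_left f3 hc0.le

end Pool.Agent.Lib.MP_8d00da_gt.h97r
end
end
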