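import Mathlib
import Pool.Agent.Lib.MP_8d00da_gt.h97r.RDefs
import Pool.Agent.Lib.MP_8d00da_gt.h97r.ROm

section

/-!
# Norms of families (Kato inequality)
-/

namespace Pool.Agent.Lib.MP_8d00da_gt.h97r

open MeasureTheory Set Filter
open Pool.Agent.Lib.MP_8d00da_gt.h25 Pool.Agent.Lib.MP_8d00da_gt.h42
open Pool.Agent.Lib.MP_8d00da_gt.h42s Pool.Agent.Lib.MP_8d00da_gt.h42o
open scoped Topology NNReal

variable {F : Type*} [NormedAddCommGroup F] [InnerProductSpace ℝ F]
    [FiniteDimensional ℝ F] [MeasurableSpace F] [BorelSpace F]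

variable {δ L : ℝ} {h : F → ℝ} {ι : Type*} [Fintype ι]

theorem nq_nonneg (q : ι → F → ℝ) (x : F) : 0 ≤ nq q x := by
  exact Real.sqrt_nonneg _

theorem nq_sq (q : ι → F → ℝ) (x : F) : nq q x ^ 2 = ∑ i, q i x ^ 2 := by
  exact Real.sq_sqrt (Finset.sum_nonneg fun i _ => sq_nonneg _)

private lemma sqrt_sum_le (a : ι → ℝ) : Real.sqrt (∑ i, a i ^ 2) ≤ ∑ i, |a i| := by
  classical
  have h0 : 0 ≤ ∑ i, |a i| := Finset.sum_nonneg fun i _ => abs_nonneg _
  rw [Real.sqrt_le_left h0]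
  have h1 : ∑ i, a i ^ 2 = ∑ i, |a i| ^ 2 := Finset.sum_congr rfl fun i _ => (sq_abs _).symm
  rw [h1]
  exact Finset.sum_sq_le_sq_sum_of_nonneg fun i _ => abs_nonneg _

private lemma nq_sub_le (q : ι → F → ℝ) (x y : F) :
    |nq q x - nq q y| ≤ Real.sqrt (∑ i, (q i x - q i y) ^ 2) := by
  have e : ∀ z, nq q z = ‖(WithLp.toLp 2 (fun i => q i z) : EuclideanSpace ℝ ι)‖ := by
    intro z
    rw [EuclideanSpace.norm_eq]
    unfold nq
    congr 1
    refine Finset.sum_congr rfl fun i _ => ?_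
    rw [Real.norm_eq_abs, sq_abs]
  rw [e x, e y]
  refine (abs_norm_sub_norm_le _ _).trans (le_of_eq ?_)
  rw [EuclideanSpace.norm_eq]
  congr 1
  refine Finset.sum_congr rfl fun i _ => ?_
  rw [Real.norm_eq_abs, sq_abs]
  simp

/-- `nq q x` is the norm of the vector `(q i x)_i` of `EuclideanSpace ℝ ι`; it is bounded and
Lipschitz (`|‖a‖ - ‖b‖| ≤ ‖a - b‖`, `‖a - b‖² = ∑ (q i x - q i y)² ≤ (∑ L_i²) ‖x - y‖²`). -/
theorem nq_BL {q : ι → F → ℝ} (hq : ∀ i, BL (q i)) : BL (nq q) := by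
  have h1 := fun i => (hq i).1
  have h2 := fun i => (hq i).2
  choose K hK using h1
  choose A hA using h2
  refine ⟨⟨∑ i, K i, ?_⟩, ∑ i, A i, fun x => ?_⟩
  · refine LipschitzWith.of_dist_le_mul fun x y => ?_
    rw [Real.dist_eq]
    refine (nq_sub_le q x y).trans ((sqrt_sum_le _).trans ?_)
    push_cast
    rw [Finset.sum_mul]
    refine Finset.sum_le_sum fun i _ => ?_
    have := (hK i).dist_le_mul x y
    rwa [Real.dist_eq] at this
  · rw [abs_of_nonneg (nq_nonneg q x)]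
    exact (sqrt_sum_le _).trans (Finset.sum_le_sum fun i _ => hA i x)

/-- If `nq q` is not differentiable at `x`, the left side is `0`. If `nq q x = 0`, then `x` is a
minimum of `nq q` and the derivative vanishes. Otherwise differentiate `nq² = ∑ q i ²`:
`nq ∂_v nq = ∑ q i ∂_v q i` and use Cauchy-Schwarz. -/
theorem kato {q : ι → F → ℝ} {x : F} (hd : ∀ i, DifferentiableAt ℝ (q i) x) (v : F) :
    (fderiv ℝ (nq q) x v) ^ 2 ≤ ∑ i, (fderiv ℝ (q i) x v) ^ 2 := by
  have hnn : 0 ≤ ∑ i, (fderiv ℝ (q i) x v) ^ 2 := Finset.sum_nonneg fun i _ => sq_nonneg _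
  by_cases hdn : DifferentiableAt ℝ (nq q) x
  swap
  · rw [fderiv_zero_of_not_differentiableAt hdn]
    simpa using hnn
  by_cases h0 : nq q x = 0
  · have hmin : IsLocalMin (nq q) x :=
      Filter.Eventually.of_forall fun y => by rw [h0]; exact nq_nonneg q y
    rw [hmin.fderiv_eq_zero]
    simpa using hnn
  have hpos : 0 < nq q x := lt_of_le_of_ne (nq_nonneg q x) (Ne.symm h0)
  have e1 : HasFDerivAt (fun y => nq q y ^ 2) ((2 * nq q x) • fderiv ℝ (nq q) x) x := by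
    have := hdn.hasFDerivAt.pow 2
    simpa using this
  have e2 : HasFDerivAt (fun y => ∑ i, q i y ^ 2) (∑ i, (2 * q i x) • fderiv ℝ (q i) x) x := by
    refine HasFDerivAt.fun_sum fun i _ => ?_
    have := (hd i).hasFDerivAt.pow 2
    simpa using this
  have e3 : (fun y => nq q y ^ 2) = fun y => ∑ i, q i y ^ 2 := funext fun y => nq_sq q y
  rw [e3] at e1
  have e4 := congrArg (fun D : F →L[ℝ] ℝ => D v) (e1.unique e2)
  simp only [smul_apply, smul_eq_mul, sum_apply] at e4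
  have e5 : nq q x * fderiv ℝ (nq q) x v = ∑ i, q i x * fderiv ℝ (q i) x v := by
    have : ∑ i, 2 * q i x * fderiv ℝ (q i) x v = 2 * ∑ i, q i x * fderiv ℝ (q i) x v := by
      rw [Finset.mul_sum]
      exact Finset.sum_congr rfl fun i _ => by ring
    rw [this] at e4
    linarith
  have e6 := Finset.sum_mul_sq_le_sq_mul_sq Finset.univ (fun i => q i x)
    (fun i => fderiv ℝ (q i) x v)
  rw [← e5, ← nq_sq, mul_pow] at e6
  exact le_of_mul_le_mul_left e6 (by positivity)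

private lemma fd_meas (f : F → ℝ) : Measurable fun x => ‖fderiv ℝ f x‖ ^ 2 :=
  ((measurable_fderiv ℝ f).norm).pow_const 2

private lemma en_int (H : GW δ L h) {f : F → ℝ} (hf : BL f) :
    Integrable fun x => ‖fderiv ℝ f x‖ ^ 2 * h x := by
  obtain ⟨⟨K, hK⟩, -⟩ := hf
  exact H.bdd_int (fd_meas f) (sq_fderiv_bdd hK)

/-- Sum `kato` over an orthonormal basis (`h25.norm_sq_fderiv`) and integrate (integrability
`GW.bdd_int`). -/
theorem En_nq (H : GW δ L h) {q : ι → F → ℝ} (hq : ∀ i, BL (q i))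
    (hd : ∀ i, Differentiable ℝ (q i)) : En h (nq q) ≤ EN h q := by
  unfold EN En
  rw [← integral_finsetSum _ fun i _ => en_int H (hq i)]
  refine integral_mono (en_int H (nq_BL hq)) (integrable_finsetSum _ fun i _ => en_int H (hq i))
    fun x => ?_
  show ‖fderiv ℝ (nq q) x‖ ^ 2 * h x ≤ ∑ i, ‖fderiv ℝ (q i) x‖ ^ 2 * h x
  rw [← Finset.sum_mul]
  refine mul_le_mul_of_nonneg_right ?_ (H.pos x).le
  rw [norm_sq_fderiv (stdOrthonormalBasis ℝ F)]
  have e : ∑ i, ‖fderiv ℝ (q i) x‖ ^ 2 =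
      ∑ k, ∑ i, (fderiv ℝ (q i) x (stdOrthonormalBasis ℝ F k)) ^ 2 := by
    rw [Finset.sum_comm]
    exact Finset.sum_congr rfl fun i _ => norm_sq_fderiv (stdOrthonormalBasis ℝ F) _
  rw [e]
  exact Finset.sum_le_sum fun k _ => kato (fun i => (hd i).differentiableAt) _

private lemma sq_int (H : GW δ L h) {f : F → ℝ} (hf : BL f) :
    Integrable fun x => f x ^ 2 * h x := by
  obtain ⟨⟨K, hK⟩, A, hA⟩ := hf
  refine H.bdd_int (hK.continuous.measurable.pow_const 2) (M := A ^ 2) fun x => ?_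
  rw [abs_pow]
  have := hA x
  gcongr

theorem Sq_nq (H : GW δ L h) {q : ι → F → ℝ} (hq : ∀ i, BL (q i)) :
    ∫ x, nq q x ^ 2 * h x = Sq h q := by
  unfold Sq
  rw [← integral_finsetSum _ fun i _ => sq_int H (hq i)]
  refine integral_congr_ae (Eventually.of_forall fun x => ?_)
  show nq q x ^ 2 * h x = ∑ i, q i x ^ 2 * h x
  rw [nq_sq, Finset.sum_mul]

private lemma om_c {d e : ℕ} (b : OrthonormalBasis (Fin d ⊕ Fin e) ℝ F) : Continuous (om b) := by
  unfold om rho
  fun_prop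

private lemma om_p {d e : ℕ} (b : OrthonormalBasis (Fin d ⊕ Fin e) ℝ F) (x : F) : 0 < om b x :=
  Real.exp_pos _

private lemma om_l {d e : ℕ} (b : OrthonormalBasis (Fin d ⊕ Fin e) ℝ F) (x : F) : om b x ≤ 1 := by
  unfold om
  rw [Real.exp_le_one_iff]
  have h1 : 0 ≤ rho b x := Real.sqrt_nonneg _
  have : 0 ≤ rho b x / (12 * d) := by positivity
  linarith

private lemma om_int (H : GW δ L h) {d e : ℕ} (b : OrthonormalBasis (Fin d ⊕ Fin e) ℝ F)
    {φ : F → ℝ} (hφ : Measurable φ) {M : ℝ} (hM : ∀ x, |φ x| ≤ M) :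
    Integrable fun x => φ x * (om b x * h x) := by
  have := H.bdd_int (φ := fun x => φ x * om b x) (hφ.mul (om_c b).measurable) (M := M)
    (fun x => by
      rw [abs_mul, abs_of_pos (om_p b x)]
      have h1 := hM x
      have h2 := om_l b x
      have h3 := (om_p b x).le
      have h4 := abs_nonneg (φ x)
      nlinarith)
  refine this.congr (Eventually.of_forall fun x => ?_)
  show φ x * om b x * h x = φ x * (om b x * h x)
  ring

theorem Fq_nq (H : GW δ L h) {d e : ℕ} (b : OrthonormalBasis (Fin d ⊕ Fin e) ℝ F)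
    {q : ι → F → ℝ} (hq : ∀ i, BL (q i)) :
    ∫ x, nq q x ^ 2 * (om b x * h x) = Fq h b q := by
  have hi : ∀ i, Integrable fun x => q i x ^ 2 * (om b x * h x) := by
    intro i
    obtain ⟨⟨K, hK⟩, A, hA⟩ := hq i
    refine om_int H b (hK.continuous.measurable.pow_const 2) (M := A ^ 2) fun x => ?_
    rw [abs_pow]
    have := hA x
    gcongr
  unfold Fq
  rw [← integral_finsetSum _ fun i _ => hi i]
  refine integral_congr_ae (Eventually.of_forall fun x => ?_)
  show nq q x ^ 2 * (om b x * h x) = ∑ i, q i x ^ 2 * (om b x * h x)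
  rw [nq_sq, Finset.sum_mul]

private lemma dir_int (H : GW δ L h) {d e : ℕ} (b : OrthonormalBasis (Fin d ⊕ Fin e) ℝ F)
    {f : F → ℝ} (hf : BL f) (v : F) :
    Integrable fun x => (fderiv ℝ f x v) ^ 2 * (om b x * h x) := by
  obtain ⟨⟨K, hK⟩, -⟩ := hf
  refine om_int H b ((measurable_fderiv_apply_const ℝ f v).pow_const 2)
    (M := (K * ‖v‖) ^ 2) fun x => ?_
  rw [abs_pow]
  have h1 : |fderiv ℝ f x v| ≤ K * ‖v‖ := by
    have h2 := (fderiv ℝ f x).le_opNorm v
    rw [Real.norm_eq_abs] at h2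
    exact h2.trans (mul_le_mul_of_nonneg_right (norm_fderiv_le_of_lipschitz ℝ hK) (norm_nonneg v))
  gcongr

/-- Pointwise, with `D_i = ∑ j, (∂_i q_j)² - (∂_i nq)² ≥ 0` (`kato`) and `0 < om ≤ 1`:
`∑ i : Fin d, ∑ j, (∂_i q_j)² om = ∑ i : Fin d, (∂_i nq)² om + om ∑ i : Fin d, D_i` and
`om ∑ i : Fin d, D_i ≤ ∑ i : Fin d ⊕ Fin e, D_i = ∑ j, ‖fderiv q_j‖² - ‖fderiv nq‖²`. -/
theorem kato_om (H : GW δ L h) {d e : ℕ} (b : OrthonormalBasis (Fin d ⊕ Fin e) ℝ F)
    {q : ι → F → ℝ} (hq : ∀ i, BL (q i)) (hd : ∀ i, Differentiable ℝ (q i)) :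
    ∑ j, Gq h b (q j) ≤ Gq h b (nq q) + (EN h q - En h (nq q)) := by
  have hn := nq_BL hq
  have i1 : ∀ j, Integrable fun x => ∑ i : Fin d,
      (fderiv ℝ (q j) x (b (Sum.inl i))) ^ 2 * (om b x * h x) := fun j =>
    integrable_finsetSum _ fun i _ => dir_int H b (hq j) _
  have i2 : Integrable fun x => ∑ i : Fin d,
      (fderiv ℝ (nq q) x (b (Sum.inl i))) ^ 2 * (om b x * h x) :=
    integrable_finsetSum _ fun i _ => dir_int H b hn _
  have i3 : Integrable fun x => ∑ j, ‖fderiv ℝ (q j) x‖ ^ 2 * h x :=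
    integrable_finsetSum _ fun j _ => en_int H (hq j)
  have i4 := en_int H hn
  have g1 : ∀ j, Gq h b (q j) = ∫ x, ∑ i : Fin d,
      (fderiv ℝ (q j) x (b (Sum.inl i))) ^ 2 * (om b x * h x) := fun j => by
    unfold Gq
    rw [integral_finsetSum _ fun i _ => dir_int H b (hq j) _]
  have g2 : Gq h b (nq q) = ∫ x, ∑ i : Fin d,
      (fderiv ℝ (nq q) x (b (Sum.inl i))) ^ 2 * (om b x * h x) := by
    unfold Gq
    rw [integral_finsetSum _ fun i _ => dir_int H b hn _]
  have g3 : EN h q = ∫ x, ∑ j, ‖fderiv ℝ (q j) x‖ ^ 2 * h x := by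
    unfold EN En
    rw [integral_finsetSum _ fun j _ => en_int H (hq j)]
  have g4 : En h (nq q) = ∫ x, ‖fderiv ℝ (nq q) x‖ ^ 2 * h x := rfl
  simp only [g1]
  have i5 : Integrable fun x => ∑ j, ‖fderiv ℝ (q j) x‖ ^ 2 * h x -
      ‖fderiv ℝ (nq q) x‖ ^ 2 * h x := i3.sub i4
  rw [← integral_finsetSum _ fun j _ => i1 j, g2, g3, g4, ← integral_sub i3 i4,
    ← integral_add i2 i5]
  refine integral_mono (integrable_finsetSum _ fun j _ => i1 j) (i2.add i5) fun x => ?_
  show ∑ j, ∑ i : Fin d, (fderiv ℝ (q j) x (b (Sum.inl i))) ^ 2 * (om b x * h x) ≤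
    ∑ i : Fin d, (fderiv ℝ (nq q) x (b (Sum.inl i))) ^ 2 * (om b x * h x) +
      (∑ j, ‖fderiv ℝ (q j) x‖ ^ 2 * h x - ‖fderiv ℝ (nq q) x‖ ^ 2 * h x)
  have hk : ∀ k : Fin d ⊕ Fin e,
      (fderiv ℝ (nq q) x (b k)) ^ 2 ≤ ∑ j, (fderiv ℝ (q j) x (b k)) ^ 2 := fun k =>
    kato (fun i => (hd i).differentiableAt) _
  have e1 : ∑ j, ‖fderiv ℝ (q j) x‖ ^ 2 = ∑ k : Fin d ⊕ Fin e, ∑ j,
      (fderiv ℝ (q j) x (b k)) ^ 2 := by
    rw [Finset.sum_comm]
    exact Finset.sum_congr rfl fun i _ => norm_sq_fderiv b _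
  have e2 : ‖fderiv ℝ (nq q) x‖ ^ 2 = ∑ k : Fin d ⊕ Fin e, (fderiv ℝ (nq q) x (b k)) ^ 2 :=
    norm_sq_fderiv b _
  rw [Fintype.sum_sum_type] at e1 e2
  have e3 : ∑ j, ∑ i : Fin d, (fderiv ℝ (q j) x (b (Sum.inl i))) ^ 2 * (om b x * h x) =
      (∑ i : Fin d, ∑ j, (fderiv ℝ (q j) x (b (Sum.inl i))) ^ 2) * (om b x * h x) := by
    rw [Finset.sum_comm, Finset.sum_mul]
    exact Finset.sum_congr rfl fun i _ => by rw [Finset.sum_mul]
  rw [e3, ← Finset.sum_mul, ← Finset.sum_mul, e1, e2]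
  set P1 := ∑ i : Fin d, ∑ j, (fderiv ℝ (q j) x (b (Sum.inl i))) ^ 2 with hP1
  set P2 := ∑ i : Fin e, ∑ j, (fderiv ℝ (q j) x (b (Sum.inr i))) ^ 2 with hP2
  set Q1 := ∑ i : Fin d, (fderiv ℝ (nq q) x (b (Sum.inl i))) ^ 2 with hQ1
  set Q2 := ∑ i : Fin e, (fderiv ℝ (nq q) x (b (Sum.inr i))) ^ 2 with hQ2
  have l1 : Q1 ≤ P1 := Finset.sum_le_sum fun i _ => hk (Sum.inl i)
  have l2 : Q2 ≤ P2 := Finset.sum_le_sum fun i _ => hk (Sum.inr i)
  have hh := (H.pos x).le
  have ho := om_l b x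
  have m1 : (P1 - Q1) * (om b x * h x) ≤ (P1 - Q1) * h x := by
    refine mul_le_mul_of_nonneg_left ?_ (by linarith)
    nlinarith
  have m2 : 0 ≤ (P2 - Q2) * h x := mul_nonneg (by linarith) hh
  nlinarith

end Pool.Agent.Lib.MP_8d00da_gt.h97r
end

section

section

/-!
# Fubini in an adapted basis
-/

namespace Pool.Agent.Lib.MP_8d00da_gt.h97r

open MeasureTheory Set Filter
open Pool.Agent.Lib.MP_8d00da_gt.h25 Pool.Agent.Lib.MP_8d00da_gt.h42
open Pool.Agent.Lib.MP_8d00da_gt.h42s Pool.Agent.Lib.MP_8d00da_gt.h42o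
open scoped Topology NNReal

variable {F : Type*} [NormedAddCommGroup F] [InnerProductSpace ℝ F]
    [FiniteDimensional ℝ F] [MeasurableSpace F] [BorelSpace F]

variable {d e : ℕ}

/-- The coordinates in an adapted basis preserve the volume. -/
private lemma mp_jj (b : OrthonormalBasis (Fin d ⊕ Fin e) ℝ F) :
    MeasurePreserving (fun p : Vn d × Vn e => jj b p.1 p.2) volume volume ∧
    MeasurableEmbedding (fun p : Vn d × Vn e => jj b p.1 p.2) := by
  let e1 : Vn d × Vn e ≃ᵐ (Fin d → ℝ) × (Fin e → ℝ) :=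
    MeasurableEquiv.prodCongr (MeasurableEquiv.toLp 2 (Fin d → ℝ)).symm
      (MeasurableEquiv.toLp 2 (Fin e → ℝ)).symm
  let e2 : (Fin d → ℝ) × (Fin e → ℝ) ≃ᵐ (Fin d ⊕ Fin e → ℝ) :=
    (MeasurableEquiv.sumPiEquivProdPi (fun _ : Fin d ⊕ Fin e => ℝ)).symm
  let e3 : (Fin d ⊕ Fin e → ℝ) ≃ᵐ EuclideanSpace ℝ (Fin d ⊕ Fin e) :=
    MeasurableEquiv.toLp 2 (Fin d ⊕ Fin e → ℝ)
  let e4 : EuclideanSpace ℝ (Fin d ⊕ Fin e) ≃ᵐ F := b.measurableEquiv.symm
  have h1 : MeasurePreserving e1 volume volume :=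
    (EuclideanSpace.volume_preserving_symm_measurableEquiv_toLp (Fin d)).prod
      (EuclideanSpace.volume_preserving_symm_measurableEquiv_toLp (Fin e))
  have h2 : MeasurePreserving e2 volume volume :=
    (volume_measurePreserving_sumPiEquivProdPi (fun _ : Fin d ⊕ Fin e => ℝ)).symm
  have h3 : MeasurePreserving e3 volume volume :=
    (EuclideanSpace.volume_preserving_symm_measurableEquiv_toLp (Fin d ⊕ Fin e)).symm
  have h4 : MeasurePreserving e4 volume volume := b.measurePreserving_measurableEquiv.symm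
  have hE : (((e1.trans e2).trans e3).trans e4 : Vn d × Vn e → F) =
      fun p : Vn d × Vn e => jj b p.1 p.2 := by
    funext p
    show b.repr.symm (WithLp.toLp 2 ((Equiv.sumPiEquivProdPi (fun _ : Fin d ⊕ Fin e => ℝ)).symm
      (WithLp.ofLp p.1, WithLp.ofLp p.2))) = jj b p.1 p.2
    rw [← OrthonormalBasis.sum_repr_symm, Fintype.sum_sum_type]
    rfl
  rw [← hE]
  exact ⟨((h1.trans h2).trans h3).trans h4, MeasurableEquiv.measurableEmbedding _⟩

/-- `b.repr : F ≃ₗᵢ EuclideanSpace ℝ (Fin d ⊕ Fin e)` preserves the volume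
(`OrthonormalBasis.measurePreserving_repr_symm`), then
`EuclideanSpace.volume_preserving_measurableEquiv` (to `Fin d ⊕ Fin e → ℝ`), then
`volume_measurePreserving_sumPiEquivProdPi` (to a product), then
`EuclideanSpace.volume_preserving_measurableEquiv` on both factors: the map
`(s, t) ↦ jj b s t` from `Vn d × Vn e` to `F` is measure preserving and a measurable embedding
(homeomorphism). Then `Integrable.integral_prod_right`, `Integrable.prod_left_ae`,
`integral_prod_symm`. -/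
theorem fub_basis (b : OrthonormalBasis (Fin d ⊕ Fin e) ℝ F) {Φ : F → ℝ} (hΦ : Integrable Φ) :
    (∀ᵐ t : Vn e, Integrable fun s : Vn d => Φ (jj b s t)) ∧
    (Integrable fun t : Vn e => ∫ s : Vn d, Φ (jj b s t)) ∧
    ∫ x, Φ x = ∫ t : Vn e, ∫ s : Vn d, Φ (jj b s t) := by
  obtain ⟨h1, h2⟩ := mp_jj (F := F) b
  have hint : Integrable (fun p : Vn d × Vn e => Φ (jj b p.1 p.2)) (volume.prod volume) :=
    (h1.integrable_comp_emb h2).2 hΦ
  have hI : ∫ p : Vn d × Vn e, Φ (jj b p.1 p.2) ∂(volume.prod volume) = ∫ x, Φ x :=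
    h1.integral_comp h2 Φ
  refine ⟨hint.prod_left_ae, hint.integral_prod_right, ?_⟩
  rw [← hI, integral_prod_symm _ hint]

end Pool.Agent.Lib.MP_8d00da_gt.h97r
end

section

/-!
# The radial derivative of the potential is nonnegative
-/

namespace Pool.Agent.Lib.MP_8d00da_gt.h97r

open MeasureTheory Set Filter
open Pool.Agent.Lib.MP_8d00da_gt.h25 Pool.Agent.Lib.MP_8d00da_gt.h42
open Pool.Agent.Lib.MP_8d00da_gt.h42s Pool.Agent.Lib.MP_8d00da_gt.h42o
open scoped Topology NNReal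

variable {F : Type*} [NormedAddCommGroup F] [InnerProductSpace ℝ F]
    [FiniteDimensional ℝ F] [MeasurableSpace F] [BorelSpace F]

variable {δ L : ℝ} {h : F → ℝ} {g : F ≃ₗᵢ[ℝ] F} {N d e : ℕ}
  {b : OrthonormalBasis (Fin d ⊕ Fin e) ℝ F}

/-- Let `X = ∑ i, ⟨b (inl i), x⟩ • b (inl i)` and `x₀ = x - X` (fixed by `g`). As `h` is
log-concave, `W = - log h` is convex. `∑ k < N, g^k X = 0` (`Sy.mov` and linearity) and
`W (x₀ + g^k X) = W (g^k (x₀ + X)) = W x`, so by convexity (Jensen)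
`W x₀ = W (∑ k, (1/N) (x₀ + g^k X)) ≤ W x`. The function `t ↦ W (x₀ + t X)` is convex on `ℝ`,
differentiable, with value `≤` at `0` than at `1`, so its derivative at `1`, which is
`fderiv W x X`, is `≥ 0`. -/
theorem rad (H : GW δ L h) (S : Sy h g N b) {W : F → ℝ} (hW : ∀ x, h x = Real.exp (-W x))
    (hWd : Differentiable ℝ W) (x : F) :
    0 ≤ ∑ i : Fin d, inner ℝ (b (Sum.inl i)) x * fderiv ℝ W x (b (Sum.inl i)) := by
  -- convexity
  have hconv : ConvexOn ℝ univ W := by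
    refine convexOn_iff_forall_pos.2 ⟨convex_univ, ?_⟩
    intro y _ z _ a c ha hc hac
    have ha' : a = 1 - c := by linarith
    have h1 := H.lc c hc (by linarith) y z
    rw [hW, hW, hW, ← Real.exp_mul, ← Real.exp_mul, ← Real.exp_add, Real.exp_le_exp] at h1
    rw [ha', smul_eq_mul, smul_eq_mul]
    linarith
  obtain ⟨X, hX⟩ : ∃ X : F, X = ∑ i : Fin d, (inner ℝ (b (Sum.inl i)) x : ℝ) • b (Sum.inl i) :=
    ⟨_, rfl⟩
  obtain ⟨x0, hx0⟩ : ∃ x0 : F, x0 = ∑ j : Fin e, (inner ℝ (b (Sum.inr j)) x : ℝ) • b (Sum.inr j) :=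
    ⟨_, rfl⟩
  have hx : x = x0 + X := by
    have h1 := b.sum_repr' x
    rw [Fintype.sum_sum_type] at h1
    rw [hX, hx0, add_comm]
    exact h1.symm
  have hpow_add : ∀ (k : ℕ) (y z : F), (g ^ k) (y + z) = (g ^ k) y + (g ^ k) z := fun k y z =>
    map_add _ _ _
  have hfixb : ∀ (k : ℕ) (j : Fin e), (g ^ k) (b (Sum.inr j)) = b (Sum.inr j) := by
    intro k j
    induction k with
    | zero => rfl
    | succ k ih =>
      rw [pow_succ']
      show g ((g ^ k) (b (Sum.inr j))) = _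
      rw [ih, S.fix]
  have hfix : ∀ k : ℕ, (g ^ k) x0 = x0 := by
    intro k
    rw [hx0, map_sum]
    refine Finset.sum_congr rfl fun j _ => ?_
    rw [map_smul, hfixb]
  have hsum : ∑ k ∈ Finset.range N, (g ^ k) X = 0 := by
    rw [hX]
    simp only [map_sum, map_smul]
    rw [Finset.sum_comm]
    refine Finset.sum_eq_zero fun i _ => ?_
    rw [← Finset.smul_sum, S.mov, smul_zero]
  have hinv : ∀ (k : ℕ) (y : F), h ((g ^ k) y) = h y := by
    intro k
    induction k with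
    | zero => intro y; rfl
    | succ k ih =>
      intro y
      rw [pow_succ']
      show h (g ((g ^ k) y)) = _
      rw [S.inv, ih]
  have hWinv : ∀ (k : ℕ) (y : F), W ((g ^ k) y) = W y := by
    intro k y
    have h1 := hinv k y
    rw [hW, hW] at h1
    have h2 := Real.exp_injective h1
    linarith
  have hNpos : (0 : ℝ) < N := by exact_mod_cast S.Npos
  have hJ : W x0 ≤ W x := by
    have h1 := hconv.map_sum_le (t := Finset.range N) (w := fun _ => (1 : ℝ) / N)
      (p := fun k => x0 + (g ^ k) X) (fun _ _ => by positivity)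
      (by rw [Finset.sum_const, Finset.card_range, nsmul_eq_mul]; field_simp)
      (fun _ _ => mem_univ _)
    have h2 : ∑ k ∈ Finset.range N, ((1 : ℝ) / N) • (x0 + (g ^ k) X) = x0 := by
      rw [← Finset.smul_sum, Finset.sum_add_distrib, hsum, add_zero, Finset.sum_const,
        Finset.card_range, ← Nat.cast_smul_eq_nsmul ℝ, smul_smul, one_div,
        inv_mul_cancel₀ hNpos.ne', one_smul]
    have h3 : ∀ k, W (x0 + (g ^ k) X) = W x := by
      intro k
      rw [← hfix k, ← hpow_add, hWinv, ← hx]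
    simp only [h3] at h1
    rw [h2, ← Finset.smul_sum, Finset.sum_const, Finset.card_range, nsmul_eq_mul, smul_eq_mul,
      ← mul_assoc, one_div, inv_mul_cancel₀ hNpos.ne', one_mul] at h1
    exact h1
  -- the function on the line
  have hφc : ConvexOn ℝ univ fun t : ℝ => W (x0 + t • X) := by
    have h1 := hconv.comp_affineMap (AffineMap.lineMap x0 (x0 + X) : ℝ →ᵃ[ℝ] F)
    have h2 : W ∘ (AffineMap.lineMap x0 (x0 + X) : ℝ →ᵃ[ℝ] F) = fun t : ℝ => W (x0 + t • X) := by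
      funext t
      show W (AffineMap.lineMap x0 (x0 + X) t) = _
      rw [AffineMap.lineMap_apply]
      congr 1
      simp [add_comm]
    rw [h2] at h1
    exact h1
  have hφd : HasDerivAt (fun t : ℝ => W (x0 + t • X)) (fderiv ℝ W x X) 1 := by
    have h1 : HasDerivAt (fun t : ℝ => x0 + t • X) X 1 := by
      have := ((hasDerivAt_id (1 : ℝ)).smul_const X).const_add x0
      rwa [one_smul] at this
    have h2 : HasFDerivAt W (fderiv ℝ W x) (x0 + (1 : ℝ) • X) := by
      rw [one_smul, ← hx]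
      exact (hWd x).hasFDerivAt
    exact h2.comp_hasDerivAt 1 h1
  have h3 := hφc.slope_le_of_hasDerivAt (mem_univ (0 : ℝ)) (mem_univ (1 : ℝ)) one_pos hφd
  rw [slope_def_field] at h3
  simp only [zero_smul, add_zero, one_smul, sub_zero, div_one] at h3
  rw [← hx] at h3
  have h4 : 0 ≤ fderiv ℝ W x X := by linarith
  rw [hX, map_sum] at h4
  refine h4.trans_eq (Finset.sum_congr rfl fun i _ => ?_)
  rw [map_smul, smul_eq_mul]

end Pool.Agent.Lib.MP_8d00da_gt.h97r
end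

section

/-!
# Gaussian Poincare inequality on the fibres
-/

namespace Pool.Agent.Lib.MP_8d00da_gt.h97r

open MeasureTheory Set Filter
open Pool.Agent.Lib.MP_8d00da_gt.h25 Pool.Agent.Lib.MP_8d00da_gt.h42
open Pool.Agent.Lib.MP_8d00da_gt.h42s Pool.Agent.Lib.MP_8d00da_gt.h42o
open scoped Topology NNReal

variable {F : Type*} [NormedAddCommGroup F] [InnerProductSpace ℝ F]
    [FiniteDimensional ℝ F] [MeasurableSpace F] [BorelSpace F]

variable {δ L : ℝ} {h : F → ℝ} {g : F ≃ₗᵢ[ℝ] F} {N d e : ℕ}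
  {b : OrthonormalBasis (Fin d ⊕ Fin e) ℝ F}

/-- The weight `w = ga om h` on the fibres. -/
noncomputable def fw (h : F → ℝ) (b : OrthonormalBasis (Fin d ⊕ Fin e) ℝ F) (η : ℝ) (t : Vn e)
    (s : Vn d) : ℝ := ga b η (jj b s t) * (om b (jj b s t) * h (jj b s t))

private lemma ga_jj (b : OrthonormalBasis (Fin d ⊕ Fin e) ℝ F) (η : ℝ) (s : Vn d) (t : Vn e) :
    ga b η (jj b s t) = Real.exp (-(‖s‖ ^ 2 / (2 * η))) := by
  unfold ga
  simp only [inner_jj_inl]
  rw [EuclideanSpace.norm_sq_eq]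
  simp only [Real.norm_eq_abs, sq_abs]

private lemma jj_mid (b : OrthonormalBasis (Fin d ⊕ Fin e) ℝ F) (s s' : Vn d) (t : Vn e) :
    jj b ((1 / 2 : ℝ) • (s + s')) t = (1 / 2 : ℝ) • (jj b s t + jj b s' t) := by
  unfold jj
  have e1 : ∑ i, ((1 / 2 : ℝ) • (s + s')) i • b (Sum.inl i) =
      (1 / 2 : ℝ) • (∑ i, s i • b (Sum.inl i) + ∑ i, s' i • b (Sum.inl i)) := by
    rw [← Finset.sum_add_distrib, Finset.smul_sum]
    refine Finset.sum_congr rfl fun i _ => ?_
    rw [← add_smul, smul_smul]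
    rfl
  rw [e1]
  module

private noncomputable def jl (b : OrthonormalBasis (Fin d ⊕ Fin e) ℝ F) : Vn d →L[ℝ] F :=
  ∑ i : Fin d, (EuclideanSpace.proj i : Vn d →L[ℝ] ℝ).smulRight (b (Sum.inl i))

private lemma jj_eq (b : OrthonormalBasis (Fin d ⊕ Fin e) ℝ F) (s : Vn d) (t : Vn e) :
    jj b s t = jl b s + ∑ j, t j • b (Sum.inr j) := by
  unfold jj jl
  rw [sum_apply]
  rfl

private lemma jl_single (b : OrthonormalBasis (Fin d ⊕ Fin e) ℝ F) (i : Fin d) :
    jl b (EuclideanSpace.basisFun (Fin d) ℝ i) = b (Sum.inl i) := by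
  unfold jl
  rw [sum_apply, Finset.sum_eq_single i]
  · simp
  · intro j _ hj
    simp [hj]
  · simp

private lemma jj_diff (b : OrthonormalBasis (Fin d ⊕ Fin e) ℝ F) (t : Vn e) (s : Vn d) :
    HasFDerivAt (fun s => jj b s t) (jl b) s := by
  have e1 : (fun s => jj b s t) = fun s => jl b s + ∑ j, t j • b (Sum.inr j) :=
    funext fun s => jj_eq b s t
  rw [e1]
  exact (jl b).hasFDerivAt.add_const _

private lemma jj_cont (b : OrthonormalBasis (Fin d ⊕ Fin e) ℝ F) (t : Vn e) :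
    Continuous fun s => jj b s t :=
  continuous_iff_continuousAt.2 fun s => (jj_diff b t s).continuousAt

private lemma jj_lip (b : OrthonormalBasis (Fin d ⊕ Fin e) ℝ F) (t : Vn e) :
    LipschitzWith ‖jl b‖₊ fun s => jj b s t := by
  refine LipschitzWith.of_dist_le_mul fun s s' => ?_
  rw [jj_eq, jj_eq, dist_add_right]
  exact (jl b).lipschitz.dist_le_mul s s'

private lemma fw_cont (H : GW δ L h) (η : ℝ) (t : Vn e) : Continuous (fw h b η t) := by
  unfold fw
  exact ((ga_cont b η).comp (jj_cont b t)).mul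
    (((om_cont b).comp (jj_cont b t)).mul (H.cont.comp (jj_cont b t)))

private lemma fw_nn (H : GW δ L h) (η : ℝ) (t : Vn e) (s : Vn d) : 0 ≤ fw h b η t s := by
  unfold fw
  rw [ga_jj]
  have h1 := om_pos b (jj b s t)
  have h2 := H.pos (jj b s t)
  positivity

/-- `ga b η (jj b s t) = exp (- ‖s‖² / (2 η))` contributes the factor
`exp ((1 / η) ‖s - s'‖² / 4)` (compare `h25.ker_mid`), `om` is midpoint log-concave (`om_mid`) and
`h` too (`H.wt.mid`). -/
theorem fw_mid (H : GW δ L h) {η : ℝ} (hη : 0 < η) (t : Vn e) (s s' : Vn d) :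
    fw h b η t s * fw h b η t s' * Real.exp ((1 / η) * ‖s - s'‖ ^ 2 / 4) ≤
      fw h b η t ((1 / 2 : ℝ) • (s + s')) ^ 2 := by
  unfold fw
  rw [ga_jj, ga_jj, ga_jj, jj_mid]
  have h1 := om_mid b (jj b s t) (jj b s' t)
  have h2 := H.wt.mid (jj b s t) (jj b s' t)
  have h3 := om_pos b (jj b s t)
  have h4 := om_pos b (jj b s' t)
  have h5 := H.pos (jj b s t)
  have h6 := H.pos (jj b s' t)
  have e1 : Real.exp (-(‖s‖ ^ 2 / (2 * η))) * Real.exp (-(‖s'‖ ^ 2 / (2 * η))) *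
      Real.exp ((1 / η) * ‖s - s'‖ ^ 2 / 4) =
      Real.exp (-(‖(1 / 2 : ℝ) • (s + s')‖ ^ 2 / (2 * η))) ^ 2 := by
    rw [← Real.exp_add, ← Real.exp_add, sq (Real.exp _), ← Real.exp_add]
    congr 1
    have p := parallelogram_law_with_norm ℝ s s'
    have q : ‖(1 / 2 : ℝ) • (s + s')‖ ^ 2 = ‖s + s'‖ ^ 2 / 4 := by
      rw [norm_smul, Real.norm_of_nonneg (by norm_num : (0 : ℝ) ≤ 1 / 2), mul_pow]
      ring
    rw [q]
    have p' : ‖s - s'‖ ^ 2 = 2 * (‖s‖ ^ 2 + ‖s'‖ ^ 2) - ‖s + s'‖ ^ 2 := by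
      have := p
      nlinarith
    rw [p']
    field_simp
    ring
  set A := om b (jj b s t)
  set A' := om b (jj b s' t)
  set B := h (jj b s t)
  set B' := h (jj b s' t)
  set E := Real.exp (-(‖(1 / 2 : ℝ) • (s + s')‖ ^ 2 / (2 * η)))
  calc Real.exp (-(‖s‖ ^ 2 / (2 * η))) * (A * B) * (Real.exp (-(‖s'‖ ^ 2 / (2 * η))) * (A' * B')) *
        Real.exp ((1 / η) * ‖s - s'‖ ^ 2 / 4)
      = (Real.exp (-(‖s‖ ^ 2 / (2 * η))) * Real.exp (-(‖s'‖ ^ 2 / (2 * η))) *
        Real.exp ((1 / η) * ‖s - s'‖ ^ 2 / 4)) * ((A * A') * (B * B')) := by ring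
    _ = E ^ 2 * ((A * A') * (B * B')) := by rw [e1]
    _ ≤ E ^ 2 * (om b ((1 / 2 : ℝ) • (jj b s t + jj b s' t)) ^ 2 *
        h ((1 / 2 : ℝ) • (jj b s t + jj b s' t)) ^ 2) := by
        refine mul_le_mul_of_nonneg_left ?_ (sq_nonneg _)
        exact mul_le_mul h1 h2 (by positivity) (sq_nonneg _)
    _ = _ := by ring

/-- Continuous, positive and at most `h 0 * exp (- ‖s‖² / (2 η))`. -/
theorem fw_int (H : GW δ L h) {η : ℝ} (hη : 0 < η) (t : Vn e) : Integrable (fw h b η t) := by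
  have hker : Integrable fun s : Vn d => h 0 * h25.ker η s := (ker_integrable hη).const_mul _
  refine hker.mono' (fw_cont H η t).aestronglyMeasurable (Eventually.of_forall fun s => ?_)
  rw [Real.norm_eq_abs, abs_of_nonneg (fw_nn H η t s)]
  unfold fw h25.ker
  rw [ga_jj]
  have h1 := om_pos b (jj b s t)
  have h2 := om_le_one b (jj b s t)
  have h3 := H.pos (jj b s t)
  have h4 := H.max0 (jj b s t)
  have h5 : om b (jj b s t) * h (jj b s t) ≤ h 0 := by
    calc om b (jj b s t) * h (jj b s t) ≤ 1 * h (jj b s t) :=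
          mul_le_mul_of_nonneg_right h2 h3.le
      _ ≤ h 0 := by rw [one_mul]; exact h4
  rw [mul_comm]
  exact mul_le_mul_of_nonneg_right h5 (Real.exp_pos _).le

/-- With `G` from `Sy.restrict`: `fw` is `G`-invariant (`Sy.om_inv`, `Sy.ga_inv`, `S.inv`) and
`∑ k < N, q (jj b (G^k s) t) = ∑ k < N, q (g^k (jj b s t)) = 0`; the change of variables `G^k`
(an isometry of `Vn d`) shows `N ∫ q(jj s t) fw = ∑ k ∫ q (jj (G^k s) t) fw = 0`. -/
theorem fw_mean (H : GW δ L h) (S : Sy h g N b) {q : F → ℝ} (hq : BL q) (hz : Zav g N q) {η : ℝ}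
    (hη : 0 < η) (t : Vn e) : ∫ s, q (jj b s t) * fw h b η t s = 0 := by
  obtain ⟨G, hG⟩ := S.restrict
  obtain ⟨⟨K, hK⟩, A, hA⟩ := hq
  have hGk : ∀ (k : ℕ) (s : Vn d), (g ^ k) (jj b s t) = jj b ((G ^ k) s) t := by
    intro k
    induction k with
    | zero => intro s; rfl
    | succ k ih =>
      intro s
      rw [pow_succ, pow_succ]
      show (g ^ k) (g (jj b s t)) = jj b ((G ^ k) (G s)) t
      rw [hG, ih]
  have hfw : ∀ s, fw h b η t (G s) = fw h b η t s := by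
    intro s
    unfold fw
    rw [← hG, S.ga_inv η, S.om_inv, S.inv]
  have hfwk : ∀ (k : ℕ) (s : Vn d), fw h b η t ((G ^ k) s) = fw h b η t s := by
    intro k
    induction k with
    | zero => intro s; rfl
    | succ k ih =>
      intro s
      rw [pow_succ]
      show fw h b η t ((G ^ k) (G s)) = fw h b η t s
      rw [ih, hfw]
  have hI : ∀ k : ℕ, ∫ s, q ((g ^ k) (jj b s t)) * fw h b η t s =
      ∫ s, q (jj b s t) * fw h b η t s := by
    intro k
    have e1 : ∀ s, q ((g ^ k) (jj b s t)) * fw h b η t s =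
        (fun s => q (jj b s t) * fw h b η t s) ((G ^ k) s) := by
      intro s
      simp only [hGk, hfwk]
    simp only [e1]
    exact (LinearIsometryEquiv.measurePreserving (G ^ k)).integral_comp
      (G ^ k).toHomeomorph.measurableEmbedding (fun s => q (jj b s t) * fw h b η t s)
  have hint : ∀ k : ℕ, Integrable fun s => q ((g ^ k) (jj b s t)) * fw h b η t s := by
    intro k
    refine (fw_int (b := b) H hη t).bdd_mul (c := A) ?_ (Eventually.of_forall fun s => ?_)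
    · exact (hK.continuous.comp ((g ^ k).continuous.comp (jj_cont b t))).aestronglyMeasurable
    · rw [Real.norm_eq_abs]
      exact hA _
  have hsum : ∑ k ∈ Finset.range N, ∫ s, q ((g ^ k) (jj b s t)) * fw h b η t s = 0 := by
    rw [← integral_finsetSum _ fun k _ => hint k]
    have e2 : ∀ s, ∑ k ∈ Finset.range N, q ((g ^ k) (jj b s t)) * fw h b η t s = 0 := by
      intro s
      rw [← Finset.sum_mul, hz (jj b s t), zero_mul]
    simp only [e2, integral_zero]
  simp only [hI, Finset.sum_const, Finset.card_range, nsmul_eq_mul] at hsum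
  have hN : (N : ℝ) ≠ 0 := by
    have := S.Npos
    positivity
  exact (mul_eq_zero.1 hsum).resolve_left hN

/-- `h42.strong_poincare` on `Vn d` with `κ = 1 / η`, `m = 0` for `s ↦ q (jj b s t)`, whose
derivative has square norm `∑ i, (fderiv q (jj b s t) (b (inl i)))²`. -/
theorem fib_one (H : GW δ L h) (S : Sy h g N b) {q : F → ℝ} (hq : BL q)
    (hqd : Differentiable ℝ q) (hz : Zav g N q) {η : ℝ} (hη : 0 < η) (t : Vn e) :
    ∫ s, q (jj b s t) ^ 2 * fw h b η t s ≤ η * ∫ s, (∑ i : Fin d,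
      (fderiv ℝ q (jj b s t) (b (Sum.inl i))) ^ 2) * fw h b η t s := by
  have hq' := hq
  obtain ⟨⟨K, hK⟩, A, hA⟩ := hq'
  have hk : (0 : ℝ) < 1 / η := by positivity
  have key := strong_poincare (F := Vn d) hk (ρ := fw h b η t) (fw_nn H η t)
    (fw_cont H η t).measurable (fw_int H hη t) (fw_mid H hη t)
    (f := fun s => q (jj b s t)) (hK.comp (jj_lip b t)) (A := A) (fun s => hA _) (m := 0)
    (by rw [zero_mul]; exact fw_mean H S hq hz hη t)
  simp only [sub_zero, one_div_one_div] at key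
  refine key.trans (le_of_eq ?_)
  congr 1
  refine integral_congr_ae (Eventually.of_forall fun s => ?_)
  show ‖fderiv ℝ (fun s => q (jj b s t)) s‖ ^ 2 * fw h b η t s = _
  have h1 : HasFDerivAt (fun s => q (jj b s t)) ((fderiv ℝ q (jj b s t)).comp (jl b)) s :=
    (hqd (jj b s t)).hasFDerivAt.comp s (jj_diff b t s)
  rw [h1.fderiv, norm_sq_fderiv (EuclideanSpace.basisFun (Fin d) ℝ)]
  simp only [ContinuousLinearMap.comp_apply, jl_single]

end Pool.Agent.Lib.MP_8d00da_gt.h97r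
end

section

/-!
# Integration by parts with the exponential weight
-/

namespace Pool.Agent.Lib.MP_8d00da_gt.h97r

open MeasureTheory Set Filter
open Pool.Agent.Lib.MP_8d00da_gt.h25 Pool.Agent.Lib.MP_8d00da_gt.h42
open Pool.Agent.Lib.MP_8d00da_gt.h42s Pool.Agent.Lib.MP_8d00da_gt.h42o
open scoped Topology NNReal

variable {F : Type*} [NormedAddCommGroup F] [InnerProductSpace ℝ F]
    [FiniteDimensional ℝ F] [MeasurableSpace F] [BorelSpace F]

variable {δ L : ℝ} {h : F → ℝ} {g : F ≃ₗᵢ[ℝ] F} {N d e : ℕ}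
  {b : OrthonormalBasis (Fin d ⊕ Fin e) ℝ F}

/-- The coordinates are bounded by `rho`. -/
private lemma ibp_coord (b : OrthonormalBasis (Fin d ⊕ Fin e) ℝ F) (i : Fin d) (x : F) :
    (inner ℝ (b (Sum.inl i)) x) ^ 2 ≤ rho b x ^ 2 := by
  rw [rho_sq]
  have h1 := Finset.single_le_sum (f := fun i : Fin d => (inner ℝ (b (Sum.inl i)) x) ^ 2)
    (fun i _ => sq_nonneg _) (Finset.mem_univ i)
  linarith

private lemma ibp_coord_abs (b : OrthonormalBasis (Fin d ⊕ Fin e) ℝ F) (i : Fin d) (x : F) :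
    |inner ℝ (b (Sum.inl i)) x| ≤ rho b x :=
  abs_le_of_sq_le_sq (ibp_coord b i x) (by linarith [one_le_rho b x])

/-- The function `ψ_i`. -/
private noncomputable def ibpPsi (b : OrthonormalBasis (Fin d ⊕ Fin e) ℝ F) (i : Fin d)
    (x : F) : ℝ := om b x * (inner ℝ (b (Sum.inl i)) x) * (rho b x)⁻¹

private lemma psi_abs (b : OrthonormalBasis (Fin d ⊕ Fin e) ℝ F) (i : Fin d) (x : F) :
    |ibpPsi b i x| ≤ 1 := by
  have h1 := one_le_rho b x
  have h2 := om_pos b x
  have h3 := om_le_one b x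
  have h4 := ibp_coord_abs b i x
  unfold ibpPsi
  rw [← div_eq_mul_inv, abs_div, abs_mul, abs_of_pos h2, abs_of_pos (show 0 < rho b x by linarith),
    div_le_one (by linarith)]
  calc om b x * |inner ℝ (b (Sum.inl i)) x| ≤ 1 * rho b x :=
        mul_le_mul h3 h4 (abs_nonneg _) (by norm_num)
    _ = rho b x := one_mul _

/-- The gradient of `rho`, multiplied by `rho`. -/
private noncomputable def ibpG (b : OrthonormalBasis (Fin d ⊕ Fin e) ℝ F) (x : F) : F →L[ℝ] ℝ :=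
  ∑ i : Fin d, (inner ℝ (b (Sum.inl i)) x) • (innerSL ℝ (b (Sum.inl i)) : F →L[ℝ] ℝ)

private lemma ibpG_apply (b : OrthonormalBasis (Fin d ⊕ Fin e) ℝ F) (x : F) (i : Fin d) :
    ibpG b x (b (Sum.inl i)) = inner ℝ (b (Sum.inl i)) x := by
  unfold ibpG
  rw [sum_apply, Finset.sum_eq_single i]
  · rw [smul_apply, innerSL_apply_apply, real_inner_self_eq_norm_sq, b.norm_eq_one]
    simp
  · intro j _ hj
    rw [smul_apply, innerSL_apply_apply]
    have : inner ℝ (b (Sum.inl j)) (b (Sum.inl i)) = (0 : ℝ) := by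
      rw [orthonormal_iff_ite.1 b.orthonormal]
      rw [if_neg]
      intro h
      exact hj (Sum.inl_injective h)
    rw [this, smul_zero]
  · intro h
    exact absurd (Finset.mem_univ i) h

private lemma om_fderiv (b : OrthonormalBasis (Fin d ⊕ Fin e) ℝ F) (x : F) :
    HasFDerivAt (om b) ((om b x * -(1 / (12 * d))) • ((1 / rho b x) • ibpG b x)) x := by
  have h1 := rho_hasFDerivAt b x
  have h2 : HasDerivAt (fun t : ℝ => Real.exp (-(t / (12 * d))))
      (om b x * -(1 / (12 * d))) (rho b x) := by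
    have h3 : HasDerivAt (fun t : ℝ => -(t / (12 * (d : ℝ)))) (-(1 / (12 * d))) (rho b x) :=
      ((hasDerivAt_id (rho b x)).div_const (12 * (d : ℝ))).fun_neg
    exact h3.exp
  exact h2.comp_hasFDerivAt x h1

/-- The derivative of `ψ_i` in direction `b (inl i)`. -/
private lemma psi_deriv (b : OrthonormalBasis (Fin d ⊕ Fin e) ℝ F) (i : Fin d)
    (x : F) : ∃ D : F →L[ℝ] ℝ, HasFDerivAt (ibpPsi b i) D x ∧
      D (b (Sum.inl i)) = om b x * (-(1 / (12 * d)) * ((inner ℝ (b (Sum.inl i)) x) ^ 2 /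
        rho b x ^ 2) + 1 / rho b x - (inner ℝ (b (Sum.inl i)) x) ^ 2 / rho b x ^ 3) := by
  have h1 := om_fderiv b x
  have h2 : HasFDerivAt (fun y : F => inner ℝ (b (Sum.inl i)) y)
      (innerSL ℝ (b (Sum.inl i)) : F →L[ℝ] ℝ) x :=
    (innerSL ℝ (b (Sum.inl i)) : F →L[ℝ] ℝ).hasFDerivAt (x := x)
  have h3 : HasFDerivAt (rho b) ((1 / rho b x) • ibpG b x) x := rho_hasFDerivAt b x
  have hr : rho b x ≠ 0 := by linarith [one_le_rho b x]
  have h4 : HasFDerivAt (fun y => (rho b y)⁻¹) ((-(rho b x ^ 2)⁻¹) • ((1 / rho b x) • ibpG b x)) x :=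
    (hasDerivAt_inv hr).comp_hasFDerivAt x h3
  have h5 := (h1.fun_mul h2).fun_mul h4
  refine ⟨_, h5, ?_⟩
  simp only [add_apply, smul_apply, ibpG_apply, innerSL_apply_apply, smul_eq_mul,
    real_inner_self_eq_norm_sq, b.norm_eq_one]
  field_simp
  ring

private lemma ibp_sum (b : OrthonormalBasis (Fin d ⊕ Fin e) ℝ F) (x : F) :
    ∑ i : Fin d, (inner ℝ (b (Sum.inl i)) x) ^ 2 = rho b x ^ 2 - 1 := by
  rw [rho_sq]
  ring

/-- The pointwise inequality behind `ibp`. -/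
private lemma ibp_pointwise {ι : Type*} [Fintype ι] (X V Q : ι → ℝ) {T O Hh ρ c D : ℝ} {r0 : ℝ}
    (hρ : 1 ≤ ρ) (hX : ∑ i, X i ^ 2 = ρ ^ 2 - 1) (hV : 0 ≤ ∑ i, X i * V i) (hO : 0 < O)
    (hH : 0 < Hh) (hc : 0 < c) (hD : D = Fintype.card ι) (hr : r0 = 2 * (D + c) / c) :
    ∑ i, ((2 * T * Q i) * (O * X i * ρ⁻¹ * Hh) +
      T ^ 2 * ((O * (-c * (X i ^ 2 / ρ ^ 2) + 1 / ρ - X i ^ 2 / ρ ^ 3)) * Hh +
        (O * X i * ρ⁻¹) * (-(Hh * V i)))) ≤
    -(c / 4) * (T ^ 2 * (O * Hh)) + (D + c) * (if ρ < r0 then T ^ 2 * (O * Hh) else 0) +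
      (4 / c) * ∑ i, Q i ^ 2 * (O * Hh) := by
  have hρ0 : 0 < ρ := by linarith
  have hOH : 0 < O * Hh := mul_pos hO hH
  have hD0 : 0 ≤ D := by rw [hD]; positivity
  have e1 : ∑ i, ((2 * T * Q i) * (O * X i * ρ⁻¹ * Hh) +
      T ^ 2 * ((O * (-c * (X i ^ 2 / ρ ^ 2) + 1 / ρ - X i ^ 2 / ρ ^ 3)) * Hh +
        (O * X i * ρ⁻¹) * (-(Hh * V i)))) =
      (O * Hh) * (2 * T * (ρ⁻¹ * ∑ i, Q i * X i) +
        T ^ 2 * (-c * ((∑ i, X i ^ 2) / ρ ^ 2) + D / ρ - (∑ i, X i ^ 2) / ρ ^ 3) -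
        T ^ 2 * (ρ⁻¹ * ∑ i, X i * V i)) := by
    have e2 : D / ρ = ∑ i : ι, 1 / ρ := by
      rw [Finset.sum_const, Finset.card_univ, hD, nsmul_eq_mul]
      ring
    rw [e2, Finset.sum_div, Finset.sum_div, Finset.mul_sum, Finset.mul_sum, Finset.mul_sum,
      ← Finset.sum_add_distrib, ← Finset.sum_sub_distrib, Finset.mul_sum, Finset.mul_sum,
      Finset.mul_sum, ← Finset.sum_add_distrib, ← Finset.sum_sub_distrib, Finset.mul_sum]
    apply Finset.sum_congr rfl
    intro i _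
    ring
  rw [e1, hX]
  set G : ℝ := ∑ i, Q i ^ 2 with hG
  set Z : ℝ := ρ⁻¹ * ∑ i, Q i * X i with hZ
  have hZ2 : Z ^ 2 ≤ G := by
    have h1 : (∑ i, Q i * X i) ^ 2 ≤ (∑ i, Q i ^ 2) * ∑ i, X i ^ 2 :=
      Finset.sum_mul_sq_le_sq_mul_sq _ _ _
    rw [hX] at h1
    have hG0 : 0 ≤ G := Finset.sum_nonneg fun i _ => sq_nonneg _
    have h2 : Z ^ 2 * ρ ^ 2 = (∑ i, Q i * X i) ^ 2 := by
      rw [hZ]
      field_simp
    have h3 : Z ^ 2 * ρ ^ 2 ≤ G * ρ ^ 2 := by
      rw [h2]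
      refine h1.trans ?_
      apply mul_le_mul_of_nonneg_left _ hG0
      linarith
    exact le_of_mul_le_mul_right h3 (by positivity)
  have e3 : (4 / c) * ∑ i, Q i ^ 2 * (O * Hh) = (O * Hh) * ((4 / c) * G) := by
    rw [← Finset.sum_mul]
    ring
  have e4 : -(c / 4) * (T ^ 2 * (O * Hh)) + (D + c) * (if ρ < r0 then T ^ 2 * (O * Hh) else 0) =
      (O * Hh) * (T ^ 2 * (-(c / 4) + (if ρ < r0 then D + c else 0))) := by
    split_ifs <;> ring
  rw [e3, e4, ← mul_add]
  apply mul_le_mul_of_nonneg_left _ hOH.le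
  have h5 : 0 ≤ T ^ 2 * (ρ⁻¹ * ∑ i, X i * V i) := by positivity
  have h6 : 2 * T * Z ≤ (c / 4) * T ^ 2 + (4 / c) * G := by
    have h7 : 2 * T * Z ≤ (c / 4) * T ^ 2 + (4 / c) * Z ^ 2 := by
      have h8 : (c / 4) * T ^ 2 + (4 / c) * Z ^ 2 - 2 * T * Z = (1 / (4 * c)) * (c * T - 4 * Z) ^ 2 := by
        field_simp
        ring
      have h9 : 0 ≤ (1 / (4 * c)) * (c * T - 4 * Z) ^ 2 := by positivity
      linarith
    have h10 : (4 / c) * Z ^ 2 ≤ (4 / c) * G := by
      apply mul_le_mul_of_nonneg_left hZ2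
      positivity
    linarith
  have h11 : -c * ((ρ ^ 2 - 1) / ρ ^ 2) + D / ρ - (ρ ^ 2 - 1) / ρ ^ 3 ≤
      -(c / 2) + (if ρ < r0 then D + c else 0) := by
    have h12 : (ρ ^ 2 - 1) / ρ ^ 2 = 1 - 1 / ρ ^ 2 := by field_simp
    have h13 : 0 ≤ (ρ ^ 2 - 1) / ρ ^ 3 := by
      apply div_nonneg _ (by positivity)
      nlinarith
    have h14 : 1 / ρ ^ 2 ≤ 1 / ρ := by
      apply one_div_le_one_div_of_le hρ0
      nlinarith
    have h15 : D / ρ + c * (1 / ρ) = (D + c) / ρ := by ring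
    have h16 : -c * ((ρ ^ 2 - 1) / ρ ^ 2) + D / ρ - (ρ ^ 2 - 1) / ρ ^ 3 ≤ -c + (D + c) / ρ := by
      rw [h12, ← h15]
      have : c * (1 / ρ ^ 2) ≤ c * (1 / ρ) := mul_le_mul_of_nonneg_left h14 hc.le
      linarith
    split_ifs with hlt
    · have h17 : (D + c) / ρ ≤ D + c := div_le_self (by linarith) hρ
      linarith
    · have h18 : (D + c) / ρ ≤ c / 2 := by
        rw [div_le_iff₀ hρ0]
        rw [not_lt, hr, div_le_iff₀ hc] at hlt
        linarith
      linarith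
  have h19 : T ^ 2 * (-c * ((ρ ^ 2 - 1) / ρ ^ 2) + D / ρ - (ρ ^ 2 - 1) / ρ ^ 3) ≤
      T ^ 2 * (-(c / 2) + (if ρ < r0 then D + c else 0)) :=
    mul_le_mul_of_nonneg_left h11 (sq_nonneg _)
  have h20 : T ^ 2 * (-(c / 2) + (if ρ < r0 then D + c else 0)) + (c / 4) * T ^ 2 =
      T ^ 2 * (-(c / 4) + (if ρ < r0 then D + c else 0)) := by ring
  linarith

/-- Write `c = 1 / (12 d)`, `X_i = ⟨b (inl i), x⟩`, `ρ = rho b x`, `om = exp (- c ρ)`,
`h = exp (-W)`, `ψ_i = om X_i / ρ`. For each `i : Fin d` the integral over `F` of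
`fderiv (q² ψ_i h) x (b (inl i))` vanishes (the function `q² ψ_i h` is integrable with integrable
derivative, `GW.int_exp`; `‖fderiv W x‖ ≤ ‖fderiv W 0‖ + L ‖x‖`), e.g. by
`integral_mul_fderiv_eq_neg_fderiv_mul_of_integrable` with the factors `q²` and `ψ_i h`.
Summing, `∫ q² (div ψ) h - ∫ q² (∑ ψ_i ∂_i W) h + 2 ∫ q (∑ ψ_i ∂_i q) h = 0`. Here
`∑ ψ_i ∂_i W = (om / ρ) ∑ X_i ∂_i W ≥ 0` (`rad`), and with `∑ X_i² = ρ² - 1`, `∂_i ρ = X_i / ρ`:
`div ψ = om (- c (ρ² - 1) / ρ² + d / ρ - (ρ² - 1) / ρ³) ≤ om (- c + (d + c) / ρ)`, which is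
`≤ om (- c / 2 + (d + c) 1_{ρ < ρ₀})`, `ρ₀ = 2 (d + c) / c`. Finally
`2 |q ∑ ψ_i ∂_i q| ≤ om ((c / 4) q² + (4 / c) ∑ (∂_i q)²)` as `∑ X_i² / ρ² ≤ 1`. -/
theorem ibp (H : GW δ L h) (S : Sy h g N b) {q : F → ℝ} (hq : BL q) (hqd : Differentiable ℝ q)
    {c r0 : ℝ} (hc : c = 1 / (12 * d)) (hr : r0 = 2 * (d + c) / c) :
    (c / 4) * ∫ x, q x ^ 2 * (om b x * h x) ≤
      (d + c) * (∫ x in {x | rho b x < r0}, q x ^ 2 * (om b x * h x)) + (4 / c) * Gq h b q := by
  classical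
  obtain ⟨W, hW, hWd, hWL⟩ := H.reg
  obtain ⟨⟨K, hK⟩, A, hA⟩ := hq
  have hd : (1 : ℝ) ≤ d := by exact_mod_cast S.dpos
  have hc0 : 0 < c := by rw [hc]; positivity
  have hA0 : 0 ≤ A := (abs_nonneg _).trans (hA 0)
  have hqm : Measurable q := hK.continuous.measurable
  have hL := H.Lnn
  have mom : Measurable (om b) := (om_cont b).measurable
  have mrho : Measurable (rho b) := (rho_cont b).measurable
  have mX : ∀ i : Fin d, Measurable (fun x : F => (inner ℝ (b (Sum.inl i)) x : ℝ)) := fun i =>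
    (continuous_const.inner continuous_id).measurable
  have mh : Measurable h := H.cont.measurable
  have hq2 : ∀ x, |q x ^ 2| ≤ A ^ 2 := fun x => by
    rw [abs_pow]
    have := hA x
    gcongr
  have hqv : ∀ (x : F) (i : Fin d), |fderiv ℝ q x (b (Sum.inl i))| ≤ K := by
    intro x i
    have h1 := (fderiv ℝ q x).le_opNorm (b (Sum.inl i))
    rw [b.norm_eq_one, mul_one] at h1
    exact h1.trans (norm_fderiv_le_of_lipschitz ℝ hK)
  have mqv : ∀ i : Fin d, Measurable fun x => fderiv ℝ q x (b (Sum.inl i)) := fun i =>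
    measurable_fderiv_apply_const ℝ q _
  have mWv : ∀ i : Fin d, Measurable fun x => fderiv ℝ W x (b (Sum.inl i)) := fun i =>
    measurable_fderiv_apply_const ℝ W _
  have hWv : ∀ (x : F) (i : Fin d), |fderiv ℝ W x (b (Sum.inl i))| ≤ ‖fderiv ℝ W 0‖ + L * ‖x‖ := by
    intro x i
    have h1 := (fderiv ℝ W x).le_opNorm (b (Sum.inl i))
    rw [b.norm_eq_one, mul_one] at h1
    have h2 := hWL x 0
    rw [sub_zero] at h2
    have h3 : ‖fderiv ℝ W x‖ ≤ ‖fderiv ℝ W x - fderiv ℝ W 0‖ + ‖fderiv ℝ W 0‖ := by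
      have := norm_add_le (fderiv ℝ W x - fderiv ℝ W 0) (fderiv ℝ W 0)
      rwa [sub_add_cancel] at this
    rw [Real.norm_eq_abs] at h1
    linarith
  -- the divergence part
  set Dp : Fin d → F → ℝ := fun i x => om b x * (-c * ((inner ℝ (b (Sum.inl i)) x) ^ 2 /
        rho b x ^ 2) + 1 / rho b x - (inner ℝ (b (Sum.inl i)) x) ^ 2 / rho b x ^ 3) with hDp
  have mDp : ∀ i, Measurable (Dp i) := by
    intro i
    have := mX i
    simp only [hDp]
    fun_prop
  have bDp : ∀ i x, |Dp i x| ≤ c + 2 := by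
    intro i x
    have h1 := one_le_rho b x
    have h2 := om_pos b x
    have h3 := om_le_one b x
    have h4 := ibp_coord b i x
    have hp : 0 < rho b x := by linarith
    have h5 : 0 ≤ (inner ℝ (b (Sum.inl i)) x) ^ 2 / rho b x ^ 2 := by positivity
    have h6 : (inner ℝ (b (Sum.inl i)) x) ^ 2 / rho b x ^ 2 ≤ 1 := by
      rw [div_le_one (by positivity)]
      exact h4
    have h7 : 0 ≤ 1 / rho b x := by positivity
    have h8 : 1 / rho b x ≤ 1 := by
      rw [div_le_one hp]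
      exact h1
    have h9 : 0 ≤ (inner ℝ (b (Sum.inl i)) x) ^ 2 / rho b x ^ 3 := by positivity
    have h10 : (inner ℝ (b (Sum.inl i)) x) ^ 2 / rho b x ^ 3 ≤ 1 := by
      rw [div_le_one (by positivity)]
      nlinarith [mul_le_mul_of_nonneg_left h1 (sq_nonneg (rho b x))]
    simp only [hDp]
    rw [abs_mul, abs_of_pos h2]
    have h11 : |-c * ((inner ℝ (b (Sum.inl i)) x) ^ 2 / rho b x ^ 2) + 1 / rho b x -
        (inner ℝ (b (Sum.inl i)) x) ^ 2 / rho b x ^ 3| ≤ c + 2 := by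
      rw [abs_le]
      constructor <;> nlinarith
    calc om b x * _ ≤ 1 * (c + 2) := mul_le_mul h3 h11 (abs_nonneg _) (by norm_num)
      _ = c + 2 := one_mul _
  have mpsi : ∀ i, Measurable (ibpPsi b i) := by
    intro i
    have := mX i
    unfold ibpPsi
    fun_prop
  have hhd : ∀ x, HasFDerivAt h (h x • -(fderiv ℝ W x)) x := by
    intro x
    have h1 : h = fun y => Real.exp (-W y) := funext hW
    have h2 := ((hWd x).hasFDerivAt.fun_neg).exp
    rw [h1]
    exact h2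
  -- derivatives of the two factors
  have hf1 : ∀ (i : Fin d) (x : F), fderiv ℝ (fun y => q y ^ 2) x (b (Sum.inl i)) =
      2 * q x * fderiv ℝ q x (b (Sum.inl i)) := by
    intro i x
    have h0 : (fun y => q y ^ 2) = fun y => q y * q y := by
      funext y
      ring
    have h1 := ((hqd x).hasFDerivAt.fun_mul (hqd x).hasFDerivAt).fderiv
    rw [h0, h1, add_apply, smul_apply, smul_eq_mul]
    ring
  have hg1 : ∀ (i : Fin d) (x : F), DifferentiableAt ℝ (fun y => ibpPsi b i y * h y) x ∧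
      fderiv ℝ (fun y => ibpPsi b i y * h y) x (b (Sum.inl i)) =
      Dp i x * h x + ibpPsi b i x * (-(h x * fderiv ℝ W x (b (Sum.inl i)))) := by
    intro i x
    obtain ⟨D, hD1, hD2⟩ := psi_deriv b i x
    have h1 := hD1.fun_mul (hhd x)
    refine ⟨h1.differentiableAt, ?_⟩
    rw [h1.fderiv]
    simp only [add_apply, smul_apply, hD2, neg_apply, hDp, hc, smul_eq_mul]
    ring
  -- integrability
  have iP : ∀ i : Fin d, Integrable fun x => fderiv ℝ (fun y => q y ^ 2) x (b (Sum.inl i)) *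
      (ibpPsi b i x * h x) := by
    intro i
    have h1 : (fun x => fderiv ℝ (fun y => q y ^ 2) x (b (Sum.inl i)) * (ibpPsi b i x * h x)) =
        fun x => (2 * q x * fderiv ℝ q x (b (Sum.inl i)) * ibpPsi b i x) * h x := by
      funext x
      rw [hf1]
      ring
    rw [h1]
    have := mqv i
    have := mpsi i
    refine H.bdd_int (by fun_prop) (M := 2 * A * K * 1) fun x => ?_
    rw [abs_mul, abs_mul, abs_mul, abs_two]
    have h2 := hA x
    have h3 := hqv x i
    have h4 := psi_abs b i x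
    gcongr
  have iR : ∀ i : Fin d, Integrable fun x => q x ^ 2 *
      fderiv ℝ (fun y => ibpPsi b i y * h y) x (b (Sum.inl i)) := by
    intro i
    have h1 : (fun x => q x ^ 2 * fderiv ℝ (fun y => ibpPsi b i y * h y) x (b (Sum.inl i))) =
        fun x => (q x ^ 2 * (Dp i x - ibpPsi b i x * fderiv ℝ W x (b (Sum.inl i)))) * h x := by
      funext x
      rw [(hg1 i x).2]
      ring
    rw [h1]
    have := mDp i
    have := mpsi i
    have := mWv i
    refine H.int_exp (by fun_prop) (C := A ^ 2 * ((c + 2) + (‖fderiv ℝ W 0‖ + L))) (a := 1)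
      fun x => ?_
    have h2 := bDp i x
    have h3 := psi_abs b i x
    have h4 := hWv x i
    have h5 : |Dp i x - ibpPsi b i x * fderiv ℝ W x (b (Sum.inl i))| ≤
        (c + 2) + (‖fderiv ℝ W 0‖ + L * ‖x‖) := by
      refine (norm_sub_le (Dp i x) (ibpPsi b i x * fderiv ℝ W x (b (Sum.inl i)))).trans ?_
      rw [Real.norm_eq_abs, Real.norm_eq_abs, abs_mul (ibpPsi b i x)]
      have h6 : |ibpPsi b i x| * |fderiv ℝ W x (b (Sum.inl i))| ≤
          1 * (‖fderiv ℝ W 0‖ + L * ‖x‖) :=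
        mul_le_mul h3 h4 (abs_nonneg _) (by norm_num)
      linarith
    have h7 : (c + 2) + (‖fderiv ℝ W 0‖ + L * ‖x‖) ≤
        ((c + 2) + (‖fderiv ℝ W 0‖ + L)) * Real.exp (1 * ‖x‖) := by
      rw [one_mul]
      have h8 := Real.add_one_le_exp ‖x‖
      have h9 := norm_nonneg x
      have h10 := norm_nonneg (fderiv ℝ W 0)
      have h11 : L * ‖x‖ ≤ L * Real.exp ‖x‖ := mul_le_mul_of_nonneg_left (by linarith) hL
      have h12 : (c + 2) * 1 ≤ (c + 2) * Real.exp ‖x‖ :=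
        mul_le_mul_of_nonneg_left (by linarith) (by linarith)
      have h13 : ‖fderiv ℝ W 0‖ * 1 ≤ ‖fderiv ℝ W 0‖ * Real.exp ‖x‖ :=
        mul_le_mul_of_nonneg_left (by linarith) h10
      linarith
    rw [abs_mul]
    calc |q x ^ 2| * |Dp i x - ibpPsi b i x * fderiv ℝ W x (b (Sum.inl i))|
        ≤ A ^ 2 * (((c + 2) + (‖fderiv ℝ W 0‖ + L)) * Real.exp (1 * ‖x‖)) :=
          mul_le_mul (hq2 x) (h5.trans h7) (abs_nonneg _) (by positivity)
      _ = A ^ 2 * ((c + 2) + (‖fderiv ℝ W 0‖ + L)) * Real.exp (1 * ‖x‖) := by ring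
  have iS : ∀ i : Fin d, Integrable fun x => q x ^ 2 * (ibpPsi b i x * h x) := by
    intro i
    have h1 : (fun x => q x ^ 2 * (ibpPsi b i x * h x)) =
        fun x => (q x ^ 2 * ibpPsi b i x) * h x := by
      funext x
      ring
    rw [h1]
    have := mpsi i
    refine H.bdd_int (by fun_prop) (M := A ^ 2 * 1) fun x => ?_
    rw [abs_mul]
    have h2 := hq2 x
    have h4 := psi_abs b i x
    gcongr
  -- integration by parts
  have hpart : ∀ i : Fin d, (∫ x, (fderiv ℝ (fun y => q y ^ 2) x (b (Sum.inl i)) *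
      (ibpPsi b i x * h x) + q x ^ 2 *
      fderiv ℝ (fun y => ibpPsi b i y * h y) x (b (Sum.inl i)))) = 0 := by
    intro i
    rw [integral_add (iP i) (iR i)]
    have h1 := integral_mul_fderiv_eq_neg_fderiv_mul_of_integrable (μ := volume)
      (f := fun y => q y ^ 2) (g := fun y => ibpPsi b i y * h y) (v := b (Sum.inl i))
      (iP i) (iR i) (iS i) (fun x _ => (hqd x).fun_pow 2) (fun x _ => (hg1 i x).1)
    rw [h1]
    ring
  have iPR : ∀ i : Fin d, Integrable fun x => fderiv ℝ (fun y => q y ^ 2) x (b (Sum.inl i)) *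
      (ibpPsi b i x * h x) + q x ^ 2 *
      fderiv ℝ (fun y => ibpPsi b i y * h y) x (b (Sum.inl i)) := fun i => (iP i).add (iR i)
  have hsum : (∫ x, ∑ i : Fin d, (fderiv ℝ (fun y => q y ^ 2) x (b (Sum.inl i)) *
      (ibpPsi b i x * h x) + q x ^ 2 *
      fderiv ℝ (fun y => ibpPsi b i y * h y) x (b (Sum.inl i)))) = 0 := by
    rw [integral_finsetSum _ fun i _ => iPR i]
    exact Finset.sum_eq_zero fun i _ => hpart i
  -- the right side
  have iu : Integrable fun x => q x ^ 2 * (om b x * h x) := by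
    have h1 : (fun x => q x ^ 2 * (om b x * h x)) = fun x => (q x ^ 2 * om b x) * h x := by
      funext x
      ring
    rw [h1]
    refine H.bdd_int (by fun_prop) (M := A ^ 2 * 1) fun x => ?_
    rw [abs_mul, abs_of_pos (om_pos b x)]
    have h2 := hq2 x
    have h4 := om_le_one b x
    have h5 := (om_pos b x).le
    gcongr
  have iQ : ∀ i : Fin d, Integrable fun x =>
      (fderiv ℝ q x (b (Sum.inl i))) ^ 2 * (om b x * h x) := by
    intro i
    have h1 : (fun x => (fderiv ℝ q x (b (Sum.inl i))) ^ 2 * (om b x * h x)) =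
        fun x => ((fderiv ℝ q x (b (Sum.inl i))) ^ 2 * om b x) * h x := by
      funext x
      ring
    rw [h1]
    have := mqv i
    refine H.bdd_int (by fun_prop) (M := (K : ℝ) ^ 2 * 1) fun x => ?_
    rw [abs_mul, abs_of_pos (om_pos b x), abs_pow]
    have h2 := hqv x i
    have h4 := om_le_one b x
    have h5 := (om_pos b x).le
    gcongr
  have hms : MeasurableSet {x : F | rho b x < r0} := measurableSet_lt mrho measurable_const
  have ii : Integrable ({x : F | rho b x < r0}.indicator fun x => q x ^ 2 * (om b x * h x)) :=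
    iu.indicator hms
  have hmono : (∫ x, ∑ i : Fin d, (fderiv ℝ (fun y => q y ^ 2) x (b (Sum.inl i)) *
      (ibpPsi b i x * h x) + q x ^ 2 *
      fderiv ℝ (fun y => ibpPsi b i y * h y) x (b (Sum.inl i)))) ≤
      ∫ x, (-(c / 4) * (q x ^ 2 * (om b x * h x)) +
        (d + c) * ({x : F | rho b x < r0}.indicator (fun x => q x ^ 2 * (om b x * h x)) x) +
        (4 / c) * ∑ i : Fin d, (fderiv ℝ q x (b (Sum.inl i))) ^ 2 * (om b x * h x)) := by
    apply integral_mono
    · exact integrable_finsetSum _ fun i _ => iPR i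
    · exact ((iu.const_mul _).add (ii.const_mul _)).add
        ((integrable_finsetSum _ fun i _ => iQ i).const_mul _)
    · intro x
      have h1 := ibp_pointwise (fun i : Fin d => (inner ℝ (b (Sum.inl i)) x : ℝ))
        (fun i => fderiv ℝ W x (b (Sum.inl i))) (fun i => fderiv ℝ q x (b (Sum.inl i)))
        (T := q x) (O := om b x) (Hh := h x) (ρ := rho b x) (c := c) (D := d) (r0 := r0)
        (one_le_rho b x) (ibp_sum b x) (rad H S hW hWd x) (om_pos b x) (H.pos x) hc0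
        (by rw [Fintype.card_fin]) hr
      have h2 : ({x : F | rho b x < r0}.indicator (fun x => q x ^ 2 * (om b x * h x)) x) =
          (if rho b x < r0 then q x ^ 2 * (om b x * h x) else 0) := by
        rw [Set.indicator_apply]
        rfl
      simp only [h2]
      refine le_trans (le_of_eq ?_) h1
      apply Finset.sum_congr rfl
      intro i _
      rw [hf1, (hg1 i x).2]
      simp only [hDp, ibpPsi]
  rw [hsum] at hmono
  have hrhs : (∫ x, (-(c / 4) * (q x ^ 2 * (om b x * h x)) +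
        (d + c) * ({x : F | rho b x < r0}.indicator (fun x => q x ^ 2 * (om b x * h x)) x) +
        (4 / c) * ∑ i : Fin d, (fderiv ℝ q x (b (Sum.inl i))) ^ 2 * (om b x * h x))) =
      -(c / 4) * (∫ x, q x ^ 2 * (om b x * h x)) +
        (d + c) * (∫ x in {x | rho b x < r0}, q x ^ 2 * (om b x * h x)) + (4 / c) * Gq h b q := by
    have j1 : Integrable fun x => -(c / 4) * (q x ^ 2 * (om b x * h x)) := iu.const_mul _
    have j2 : Integrable fun x =>
        (d + c) * ({x : F | rho b x < r0}.indicator (fun x => q x ^ 2 * (om b x * h x)) x) :=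
      ii.const_mul _
    have j3 : Integrable fun x => (4 / c) *
        ∑ i : Fin d, (fderiv ℝ q x (b (Sum.inl i))) ^ 2 * (om b x * h x) :=
      (integrable_finsetSum _ fun i _ => iQ i).const_mul _
    have j12 : Integrable fun x => -(c / 4) * (q x ^ 2 * (om b x * h x)) +
        (d + c) * ({x : F | rho b x < r0}.indicator (fun x => q x ^ 2 * (om b x * h x)) x) :=
      j1.add j2
    rw [integral_add j12 j3, integral_add j1 j2, integral_const_mul, integral_const_mul,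
      integral_const_mul, integral_indicator hms, integral_finsetSum _ fun i _ => iQ i]
    rfl
  rw [hrhs] at hmono
  linarith

end Pool.Agent.Lib.MP_8d00da_gt.h97r
end

section

/-!
# Gaussian Poincare inequality on the fibres, integrated
-/

namespace Pool.Agent.Lib.MP_8d00da_gt.h97r

open MeasureTheory Set Filter
open Pool.Agent.Lib.MP_8d00da_gt.h25 Pool.Agent.Lib.MP_8d00da_gt.h42
open Pool.Agent.Lib.MP_8d00da_gt.h42s Pool.Agent.Lib.MP_8d00da_gt.h42o
open scoped Topology NNReal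

variable {F : Type*} [NormedAddCommGroup F] [InnerProductSpace ℝ F]
    [FiniteDimensional ℝ F] [MeasurableSpace F] [BorelSpace F]

variable {δ L : ℝ} {h : F → ℝ} {g : F ≃ₗᵢ[ℝ] F} {N d e : ℕ}
  {b : OrthonormalBasis (Fin d ⊕ Fin e) ℝ F}

/-- Integrate `fib_one` over `t` (`fub_basis`; the functions on `F` are integrable by
`GW.bdd_int`). -/
theorem fib (H : GW δ L h) (S : Sy h g N b) {q : F → ℝ} (hq : BL q)
    (hqd : Differentiable ℝ q) (hz : Zav g N q) {η : ℝ} (hη : 0 < η) :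
    ∫ x, q x ^ 2 * (ga b η x * (om b x * h x)) ≤ η * ∫ x, (∑ i : Fin d,
      (fderiv ℝ q x (b (Sum.inl i))) ^ 2) * (ga b η x * (om b x * h x)) := by
  have hq' := hq
  obtain ⟨⟨K, hK⟩, A, hA⟩ := hq'
  have hga1 : ∀ x, ga b η x ≤ 1 := by
    intro x
    unfold ga
    rw [Real.exp_le_one_iff, neg_nonpos]
    positivity
  have hga0 : ∀ x, 0 ≤ ga b η x := fun x => (Real.exp_pos _).le
  have hgo : ∀ x, 0 ≤ ga b η x * om b x ∧ ga b η x * om b x ≤ 1 := by
    intro x
    have h1 := om_pos b x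
    have h2 := om_le_one b x
    exact ⟨mul_nonneg (hga0 x) h1.le, mul_le_one₀ (hga1 x) h1.le h2⟩
  have hgom : Measurable fun x => ga b η x * om b x :=
    (ga_cont b η).measurable.mul (om_cont b).measurable
  have hS : ∀ x, ∑ i : Fin d, (fderiv ℝ q x (b (Sum.inl i))) ^ 2 ≤ (K : ℝ) ^ 2 := by
    intro x
    have h1 := norm_sq_fderiv b (fderiv ℝ q x)
    rw [Fintype.sum_sum_type] at h1
    have h2 : ‖fderiv ℝ q x‖ ≤ K := norm_fderiv_le_of_lipschitz ℝ hK
    have h3 : 0 ≤ ∑ j : Fin e, (fderiv ℝ q x (b (Sum.inr j))) ^ 2 :=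
      Finset.sum_nonneg fun j _ => sq_nonneg _
    have h4 : ‖fderiv ℝ q x‖ ^ 2 ≤ (K : ℝ) ^ 2 := by gcongr
    linarith
  have hS0 : ∀ x, 0 ≤ ∑ i : Fin d, (fderiv ℝ q x (b (Sum.inl i))) ^ 2 := fun x =>
    Finset.sum_nonneg fun j _ => sq_nonneg _
  have hSm : Measurable fun x => ∑ i : Fin d, (fderiv ℝ q x (b (Sum.inl i))) ^ 2 :=
    Finset.measurable_sum _ fun i _ => (measurable_fderiv_apply_const ℝ q _).pow_const 2
  have i1 : Integrable fun x => q x ^ 2 * (ga b η x * (om b x * h x)) := by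
    have h1 := H.bdd_int (φ := fun x => q x ^ 2 * (ga b η x * om b x))
      ((hK.continuous.measurable.pow_const 2).mul hgom) (M := A ^ 2) (fun x => by
        rw [abs_mul, abs_pow, abs_of_nonneg (hgo x).1]
        have h2 : |q x| ^ 2 ≤ A ^ 2 := by
          have := hA x
          gcongr
        calc |q x| ^ 2 * (ga b η x * om b x) ≤ A ^ 2 * 1 :=
              mul_le_mul h2 (hgo x).2 (hgo x).1 (sq_nonneg _)
          _ = A ^ 2 := mul_one _)
    refine h1.congr (Eventually.of_forall fun x => ?_)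
    show q x ^ 2 * (ga b η x * om b x) * h x = q x ^ 2 * (ga b η x * (om b x * h x))
    ring
  have i2 : Integrable fun x => (∑ i : Fin d, (fderiv ℝ q x (b (Sum.inl i))) ^ 2) *
      (ga b η x * (om b x * h x)) := by
    have h1 := H.bdd_int (φ := fun x => (∑ i : Fin d, (fderiv ℝ q x (b (Sum.inl i))) ^ 2) *
      (ga b η x * om b x)) (hSm.mul hgom) (M := (K : ℝ) ^ 2) (fun x => by
        rw [abs_mul, abs_of_nonneg (hS0 x), abs_of_nonneg (hgo x).1]
        calc (∑ i : Fin d, (fderiv ℝ q x (b (Sum.inl i))) ^ 2) * (ga b η x * om b x)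
            ≤ (K : ℝ) ^ 2 * 1 := mul_le_mul (hS x) (hgo x).2 (hgo x).1 (sq_nonneg _)
          _ = (K : ℝ) ^ 2 := mul_one _)
    refine h1.congr (Eventually.of_forall fun x => ?_)
    show (∑ i : Fin d, (fderiv ℝ q x (b (Sum.inl i))) ^ 2) * (ga b η x * om b x) * h x =
      (∑ i : Fin d, (fderiv ℝ q x (b (Sum.inl i))) ^ 2) * (ga b η x * (om b x * h x))
    ring
  obtain ⟨-, f1, f2⟩ := fub_basis b i1
  obtain ⟨-, g1, g2⟩ := fub_basis b i2
  rw [f2, g2, ← integral_const_mul]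
  exact integral_mono f1 (g1.const_mul η) fun t => fib_one H S hq hqd hz hη t

end Pool.Agent.Lib.MP_8d00da_gt.h97r
end

section

/-!
# The local inequality
-/

namespace Pool.Agent.Lib.MP_8d00da_gt.h97r

open MeasureTheory Set Filter
open Pool.Agent.Lib.MP_8d00da_gt.h25 Pool.Agent.Lib.MP_8d00da_gt.h42
open Pool.Agent.Lib.MP_8d00da_gt.h42s Pool.Agent.Lib.MP_8d00da_gt.h42o
open scoped Topology NNReal

variable {F : Type*} [NormedAddCommGroup F] [InnerProductSpace ℝ F]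
    [FiniteDimensional ℝ F] [MeasurableSpace F] [BorelSpace F]

variable {δ L : ℝ} {h : F → ℝ} {g : F ≃ₗᵢ[ℝ] F} {N d e : ℕ}
  {b : OrthonormalBasis (Fin d ⊕ Fin e) ℝ F}

/-- `ibp` and `fib` with `η = r0²`: on `{rho < r0}` one has `∑ X_i² < r0²`, so
`ga b η ≥ exp (-1/2)` and `∫_{rho < r0} q² om h ≤ exp (1/2) r0² Gq h b q` (`ga ≤ 1`). So
`(c / 4) ∫ q² om h ≤ ((d + c) exp (1/2) r0² + 4 / c) Gq`, and with `c = 1 / (12 d)`,
`r0 = 2 (d + c) / c`, `d + c ≤ (13 / 12) d`: the constant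
`(4 / c) ((d + c) exp (1/2) 4 (d + c)² / c² + 4 / c) = 16 exp (1/2) (d + c)³ / c³ + 16 / c²` is at
most `16 * 1.6488 * (13/12)³ * 1728 d⁶ + 2304 d² ≤ 60300 d⁶`. -/
theorem LI (H : GW δ L h) (S : Sy h g N b) {q : F → ℝ} (hq : BL q)
    (hqd : Differentiable ℝ q) (hz : Zav g N q) :
    ∫ x, q x ^ 2 * (om b x * h x) ≤ 61000 * (d : ℝ) ^ 6 * Gq h b q := by
  have hd1 : (1 : ℝ) ≤ d := by exact_mod_cast S.dpos
  have hd0 : (0 : ℝ) < d := by linarith
  obtain ⟨⟨K, hK⟩, A, hA⟩ := hq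
  have hq : BL q := ⟨⟨K, hK⟩, A, hA⟩
  have hqm : Measurable q := hK.continuous.measurable
  have hommeas : Measurable (om b) := (om_cont b).measurable
  have hgameas : ∀ η, Measurable (ga b η) := fun η => (ga_cont b η).measurable
  obtain ⟨c, hc⟩ : ∃ c : ℝ, c = 1 / (12 * d) := ⟨_, rfl⟩
  obtain ⟨r0, hr⟩ : ∃ r0 : ℝ, r0 = 2 * (d + c) / c := ⟨_, rfl⟩
  have hc0 : 0 < c := by
    rw [hc]
    positivity
  have hr0 : 0 < r0 := by
    rw [hr]
    positivity
  have hibp := ibp H S hq hqd hc hr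
  have hη : 0 < r0 ^ 2 := by positivity
  have hfib := fib H S hq hqd hz hη
  have hga1 : ∀ x, ga b (r0 ^ 2) x ≤ 1 := by
    intro x
    unfold ga
    rw [Real.exp_le_one_iff, Left.neg_nonpos_iff]
    positivity
  have hga0 : ∀ x, 0 ≤ ga b (r0 ^ 2) x := fun x => (Real.exp_pos _).le
  -- integrability
  have i1 : Integrable fun x => q x ^ 2 * (om b x * h x) := by
    have := H.bdd_int (φ := fun x => q x ^ 2 * om b x) ((hqm.pow_const 2).mul hommeas)
      (M := A ^ 2) (fun x => by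
        rw [abs_mul, abs_pow, abs_of_pos (om_pos b x)]
        have h1 := hA x
        have h2 := om_le_one b x
        have h3 : |q x| ^ 2 ≤ A ^ 2 := by gcongr
        calc |q x| ^ 2 * om b x ≤ A ^ 2 * 1 :=
              mul_le_mul h3 h2 (om_pos b x).le (sq_nonneg _)
          _ = A ^ 2 := mul_one _)
    simpa only [mul_assoc] using this
  have i2 : Integrable fun x => q x ^ 2 * (ga b (r0 ^ 2) x * (om b x * h x)) := by
    have := H.bdd_int (φ := fun x => q x ^ 2 * (ga b (r0 ^ 2) x * om b x))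
      ((hqm.pow_const 2).mul ((hgameas _).mul hommeas))
      (M := A ^ 2) (fun x => by
        rw [abs_mul, abs_pow, abs_of_nonneg (mul_nonneg (hga0 x) (om_pos b x).le)]
        have h1 := hA x
        have h2 := om_le_one b x
        have h3 : |q x| ^ 2 ≤ A ^ 2 := by gcongr
        have h4 : ga b (r0 ^ 2) x * om b x ≤ 1 := by
          have := mul_le_mul (hga1 x) h2 (om_pos b x).le zero_le_one
          linarith
        calc |q x| ^ 2 * (ga b (r0 ^ 2) x * om b x) ≤ A ^ 2 * 1 :=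
              mul_le_mul h3 h4 (mul_nonneg (hga0 x) (om_pos b x).le) (sq_nonneg _)
          _ = A ^ 2 := mul_one _)
    simpa only [mul_assoc] using this
  have hfd : ∀ (x : F) (i : Fin d), |fderiv ℝ q x (b (Sum.inl i))| ≤ K := by
    intro x i
    have h1 := (fderiv ℝ q x).le_opNorm (b (Sum.inl i))
    rw [b.orthonormal.1 (Sum.inl i), mul_one, Real.norm_eq_abs] at h1
    exact h1.trans (norm_fderiv_le_of_lipschitz ℝ hK)
  have i3 : ∀ i : Fin d, Integrable fun x =>
      (fderiv ℝ q x (b (Sum.inl i))) ^ 2 * (om b x * h x) := by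
    intro i
    have := H.bdd_int (φ := fun x => (fderiv ℝ q x (b (Sum.inl i))) ^ 2 * om b x)
      (((measurable_fderiv_apply_const ℝ q _).pow_const 2).mul hommeas)
      (M := (K : ℝ) ^ 2) (fun x => by
        rw [abs_mul, abs_pow, abs_of_pos (om_pos b x)]
        have h2 := om_le_one b x
        have h3 : |fderiv ℝ q x (b (Sum.inl i))| ^ 2 ≤ (K : ℝ) ^ 2 := by
          have := hfd x i
          gcongr
        calc |fderiv ℝ q x (b (Sum.inl i))| ^ 2 * om b x ≤ (K : ℝ) ^ 2 * 1 :=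
              mul_le_mul h3 h2 (om_pos b x).le (sq_nonneg _)
          _ = (K : ℝ) ^ 2 := mul_one _)
    simpa only [mul_assoc] using this
  have i4 : ∀ i : Fin d, Integrable fun x =>
      (fderiv ℝ q x (b (Sum.inl i))) ^ 2 * (ga b (r0 ^ 2) x * (om b x * h x)) := by
    intro i
    have := H.bdd_int (φ := fun x => (fderiv ℝ q x (b (Sum.inl i))) ^ 2 *
        (ga b (r0 ^ 2) x * om b x))
      (((measurable_fderiv_apply_const ℝ q _).pow_const 2).mul ((hgameas _).mul hommeas))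
      (M := (K : ℝ) ^ 2) (fun x => by
        rw [abs_mul, abs_pow, abs_of_nonneg (mul_nonneg (hga0 x) (om_pos b x).le)]
        have h2 := om_le_one b x
        have h3 : |fderiv ℝ q x (b (Sum.inl i))| ^ 2 ≤ (K : ℝ) ^ 2 := by
          have := hfd x i
          gcongr
        have h4 : ga b (r0 ^ 2) x * om b x ≤ 1 := by
          have := mul_le_mul (hga1 x) h2 (om_pos b x).le zero_le_one
          linarith
        calc |fderiv ℝ q x (b (Sum.inl i))| ^ 2 * (ga b (r0 ^ 2) x * om b x) ≤ (K : ℝ) ^ 2 * 1 :=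
              mul_le_mul h3 h4 (mul_nonneg (hga0 x) (om_pos b x).le) (sq_nonneg _)
          _ = (K : ℝ) ^ 2 := mul_one _)
    simpa only [mul_assoc] using this
  -- the right hand side of `fib`
  have h1 : ∫ x, (∑ i : Fin d, (fderiv ℝ q x (b (Sum.inl i))) ^ 2) *
      (ga b (r0 ^ 2) x * (om b x * h x)) ≤ Gq h b q := by
    have e1 : (fun x => (∑ i : Fin d, (fderiv ℝ q x (b (Sum.inl i))) ^ 2) *
        (ga b (r0 ^ 2) x * (om b x * h x))) = fun x => ∑ i : Fin d,
          (fderiv ℝ q x (b (Sum.inl i))) ^ 2 * (ga b (r0 ^ 2) x * (om b x * h x)) := by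
      funext x
      rw [Finset.sum_mul]
    rw [e1, integral_finset_sum _ fun i _ => i4 i]
    unfold Gq
    refine Finset.sum_le_sum fun i _ => integral_mono (i4 i) (i3 i) fun x => ?_
    refine mul_le_mul_of_nonneg_left ?_ (sq_nonneg _)
    have h2 : 0 ≤ om b x * h x := mul_nonneg (om_pos b x).le (H.pos x).le
    have := mul_le_mul_of_nonneg_right (hga1 x) h2
    linarith
  -- the inner part
  have hset : MeasurableSet {x : F | rho b x < r0} :=
    (isOpen_lt (rho_cont b) continuous_const).measurableSet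
  have h2 : (∫ x in {x | rho b x < r0}, q x ^ 2 * (om b x * h x)) ≤
      1.65 * ∫ x, q x ^ 2 * (ga b (r0 ^ 2) x * (om b x * h x)) := by
    have e1 : (∫ x in {x | rho b x < r0}, q x ^ 2 * (om b x * h x)) ≤
        ∫ x in {x | rho b x < r0}, 1.65 * (q x ^ 2 * (ga b (r0 ^ 2) x * (om b x * h x))) := by
      refine setIntegral_mono_on i1.integrableOn (i2.const_mul _).integrableOn hset ?_
      intro x hx
      have hx' : rho b x < r0 := hx
      have e2 : (∑ i : Fin d, (inner ℝ (b (Sum.inl i)) x) ^ 2) / (2 * r0 ^ 2) ≤ 1 / 2 := by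
        have e3 := rho_sq b x
        have e4 : rho b x ^ 2 ≤ r0 ^ 2 := by
          have := one_le_rho b x
          gcongr
        rw [div_le_div_iff₀ (by positivity) (by norm_num)]
        linarith
      have e3 : Real.exp (-(1 / 2)) ≤ ga b (r0 ^ 2) x := by
        unfold ga
        exact Real.exp_le_exp.2 (neg_le_neg e2)
      have e4 : (1 : ℝ) ≤ 1.65 * Real.exp (-(1 / 2)) := by
        have e5 : Real.exp (1 / 2) ≤ 1.65 := by
          have e6 : Real.exp (1 / 2) ^ 2 ≤ 1.65 ^ 2 := by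
            rw [← Real.exp_nat_mul]
            have := Real.exp_one_lt_d9
            norm_num
            norm_num at this
            linarith
          exact le_of_sq_le_sq e6 (by norm_num)
        rw [Real.exp_neg, ← div_eq_mul_inv, one_le_div (Real.exp_pos _)]
        exact e5
      have e5 : (1 : ℝ) ≤ 1.65 * ga b (r0 ^ 2) x := by linarith
      have e6 : 0 ≤ q x ^ 2 * (om b x * h x) :=
        mul_nonneg (sq_nonneg _) (mul_nonneg (om_pos b x).le (H.pos x).le)
      calc q x ^ 2 * (om b x * h x) ≤ (1.65 * ga b (r0 ^ 2) x) * (q x ^ 2 * (om b x * h x)) := by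
            have := mul_le_mul_of_nonneg_right e5 e6
            linarith
        _ = 1.65 * (q x ^ 2 * (ga b (r0 ^ 2) x * (om b x * h x))) := by ring
    refine e1.trans ?_
    rw [← integral_const_mul]
    refine setIntegral_le_integral (i2.const_mul _) (Eventually.of_forall fun x => ?_)
    have : 0 ≤ q x ^ 2 * (ga b (r0 ^ 2) x * (om b x * h x)) :=
      mul_nonneg (sq_nonneg _) (mul_nonneg (hga0 x) (mul_nonneg (om_pos b x).le (H.pos x).le))
    simp only [Pi.zero_apply]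
    positivity
  have hG0 : 0 ≤ Gq h b q := Finset.sum_nonneg fun i _ => integral_nonneg fun x =>
    mul_nonneg (sq_nonneg _) (mul_nonneg (om_pos b x).le (H.pos x).le)
  obtain ⟨I, hI⟩ : ∃ I : ℝ, I = ∫ x, q x ^ 2 * (om b x * h x) := ⟨_, rfl⟩
  rw [← hI] at hibp ⊢
  have h3 : (∫ x in {x | rho b x < r0}, q x ^ 2 * (om b x * h x)) ≤
      1.65 * (r0 ^ 2 * Gq h b q) := by
    refine h2.trans ?_
    have h4 := hfib.trans (mul_le_mul_of_nonneg_left h1 hη.le)
    linarith
  have h4 : (c / 4) * I ≤ (d + c) * (1.65 * (r0 ^ 2 * Gq h b q)) + (4 / c) * Gq h b q := by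
    have := mul_le_mul_of_nonneg_left h3 (show 0 ≤ (d : ℝ) + c by positivity)
    linarith
  -- constants
  have hcd : c * (12 * d) = 1 := by
    rw [hc]
    field_simp
  have hcinv : 1 / c = 12 * d := by
    rw [eq_comm, eq_div_iff hc0.ne']
    linarith
  have hr' : r0 = 2 * (12 * (d : ℝ) ^ 2 + 1) := by
    rw [hr, div_eq_iff hc0.ne']
    nlinarith
  have h5 : I ≤ (4 / c) * ((d + c) * (1.65 * (r0 ^ 2 * Gq h b q)) + (4 / c) * Gq h b q) := by
    have h6 : (4 / c) * ((c / 4) * I) = I := by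
      field_simp
    rw [← h6]
    exact mul_le_mul_of_nonneg_left h4 (by positivity)
  have h6 : (4 / c) * ((d + c) * (1.65 * (r0 ^ 2 * Gq h b q)) + (4 / c) * Gq h b q) =
      (26.4 * (12 * (d : ℝ) ^ 2 + 1) ^ 3 + 2304 * (d : ℝ) ^ 2) * Gq h b q := by
    have e1 : (4 / c : ℝ) = 48 * d := by
      have : (4 / c : ℝ) = 4 * (1 / c) := by ring
      rw [this, hcinv]
      ring
    have e2 : (4 / c : ℝ) * (d + c) = 4 * (12 * (d : ℝ) ^ 2 + 1) := by
      have e3 : (4 / c : ℝ) * (d + c) = (4 / c) * d + 4 := by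
        field_simp
      rw [e3, e1]
      ring
    have e3 : (4 / c) * ((d + c) * (1.65 * (r0 ^ 2 * Gq h b q)) + (4 / c) * Gq h b q) =
        ((4 / c) * (d + c)) * (1.65 * (r0 ^ 2 * Gq h b q)) + (4 / c) * ((4 / c) * Gq h b q) := by
      ring
    rw [e3, e2, e1, hr']
    ring
  rw [h6] at h5
  refine h5.trans (mul_le_mul_of_nonneg_right ?_ hG0)
  have hd2 : (1 : ℝ) ≤ (d : ℝ) ^ 2 := by nlinarith
  have e1 : 12 * (d : ℝ) ^ 2 + 1 ≤ 13 * (d : ℝ) ^ 2 := by linarith
  have e2 : (12 * (d : ℝ) ^ 2 + 1) ^ 3 ≤ (13 * (d : ℝ) ^ 2) ^ 3 := by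
    gcongr
  have e3 : (d : ℝ) ^ 2 ≤ (d : ℝ) ^ 6 := pow_le_pow_right₀ hd1 (by norm_num)
  have e4 : (13 * (d : ℝ) ^ 2) ^ 3 = 2197 * (d : ℝ) ^ 6 := by ring
  rw [e4] at e2
  linarith

/-- `LI` for the members and `kato_om`. -/
theorem LI_vec (H : GW δ L h) (S : Sy h g N b) {ι : Type*} [Fintype ι] {q : ι → F → ℝ}
    (hq : Adm g N q) :
    Fq h b q ≤ 61000 * (d : ℝ) ^ 6 * (Gq h b (nq q) + (EN h q - En h (nq q))) := by
  have h1 := kato_om H b hq.bl hq.diff
  have h2 : Fq h b q ≤ ∑ i, 61000 * (d : ℝ) ^ 6 * Gq h b (q i) :=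
    Finset.sum_le_sum fun i _ => LI H S (hq.bl i) (hq.diff i) (hq.zav i)
  rw [← Finset.mul_sum] at h2
  exact h2.trans (mul_le_mul_of_nonneg_left h1 (by positivity))

end Pool.Agent.Lib.MP_8d00da_gt.h97r
end
end
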